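import Pool.Agent.H49.MX.Defs

/-!
# Module Ch1: the calculus of chains

All maps are linear; it is enough to compute on `Finsupp.single l 1` (`Finsupp.induction_linear`, or `LinearMap.ext`/`Finsupp.lhom_ext'`). `ZMod 2`: `c + c = 0`.
* `cone_single`, `bd_single`, `push_single`: unfold (`Finsupp.mapDomain_single`, `Finsupp.linearCombination_single`).
* `bd_cone`: `bd (cone a c) = c + cone a (bd c)`: on `single l 1` this is the definition of `bdl (a :: l)`.
* `bd_bd`: induction on `l`: `bd (bdl (a :: l)) = bdl l + bd (cone a (bdl l)) = bdl l + bdl l + cone a (bd (bdl l)) = 0`.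
* `bd_push`: `bd (push f c) = push f (bd c)`, induction on `l` (`push f (cone a c) = cone (f a) (push f c)`).
* `push_push`, `push_congr`: `Finsupp.mapDomain_comp`, `Finsupp.mapDomain_congr`.
* `bd_spt`: if `(bd c) l' ≠ 0` then there is `l` with `c l ≠ 0`, `l'` a sublist of `l`, `l'.length + 1 = l.length`. `push_spt`: `(push f c) l' ≠ 0` gives `l` with `c l ≠ 0`, `l' = l.map f`.
* `push_inv`: if `ν` is an involution then `(push ν c) l = c (l.map ν)`.
-/

set_option autoImplicit false
set_option linter.unusedSectionVars false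

namespace H49.MX

open scoped Classical

private theorem ch1_ext {α β : Type} {f g : Ch α →ₗ[ZMod 2] Ch β}
    (h : ∀ l, f (Finsupp.single l 1) = g (Finsupp.single l 1)) (c : Ch α) : f c = g c := by
  have e : f = g := by
    refine Finsupp.lhom_ext fun l b => ?_
    have hb : Finsupp.single l b = b • (Finsupp.single l 1 : Ch α) := by
      rw [Finsupp.smul_single, smul_eq_mul, mul_one]
    rw [hb, map_smul, map_smul, h]
  rw [e]

theorem add_selfC {α : Type} (c : Ch α) : c + c = 0 := by
  ext l
  rw [Finsupp.add_apply, Finsupp.zero_apply]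
  exact CharTwo.add_self_eq_zero (c l)

theorem cone_single {α : Type} (a : α) (l : List α) : cone a (Finsupp.single l 1) = Finsupp.single (a :: l) 1 := by
  show Finsupp.mapDomain (List.cons a) (Finsupp.single l (1 : ZMod 2)) = _
  exact Finsupp.mapDomain_single

theorem bd_single {α : Type} (l : List α) : bd (Finsupp.single l 1) = bdl l := by
  show Finsupp.linearCombination (ZMod 2) bdl (Finsupp.single l 1) = bdl l
  rw [Finsupp.linearCombination_single, one_smul]

theorem push_single {α β : Type} (f : α → β) (l : List α) : push f (Finsupp.single l 1) = Finsupp.single (l.map f) 1 := by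
  show Finsupp.mapDomain (List.map f) (Finsupp.single l (1 : ZMod 2)) = _
  exact Finsupp.mapDomain_single

theorem bd_cone {α : Type} (a : α) (c : Ch α) : bd (cone a c) = c + cone a (bd c) := by
  refine ch1_ext (f := bd ∘ₗ cone a) (g := LinearMap.id + cone a ∘ₗ bd) (fun l => ?_) c
  show bd (cone a (Finsupp.single l 1)) = Finsupp.single l 1 + cone a (bd (Finsupp.single l 1))
  rw [cone_single, bd_single, bd_single]
  rfl

theorem push_cone {α β : Type} (f : α → β) (a : α) (c : Ch α) : push f (cone a c) = cone (f a) (push f c) := by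
  refine ch1_ext (f := push f ∘ₗ cone a) (g := cone (f a) ∘ₗ push f) (fun l => ?_) c
  show push f (cone a (Finsupp.single l 1)) = cone (f a) (push f (Finsupp.single l 1))
  rw [cone_single, push_single, push_single, cone_single]
  rfl

private theorem ch1_bdbdl {α : Type} (l : List α) : bd (bdl l) = 0 := by
  induction l with
  | nil =>
    show bd (0 : Ch α) = 0
    exact map_zero _
  | cons a l ih =>
    show bd (Finsupp.single l 1 + cone a (bdl l)) = 0
    rw [map_add, bd_single, bd_cone, ih, map_zero, add_zero]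
    exact add_selfC _

theorem bd_bd {α : Type} (c : Ch α) : bd (bd c) = 0 := by
  refine ch1_ext (f := bd ∘ₗ bd) (g := (0 : Ch α →ₗ[ZMod 2] Ch α)) (fun l => ?_) c
  show bd (bd (Finsupp.single l 1)) = 0
  rw [bd_single]
  exact ch1_bdbdl l

private theorem ch1_bdlmap {α β : Type} (f : α → β) (l : List α) : bdl (l.map f) = push f (bdl l) := by
  induction l with
  | nil =>
    show (0 : Ch β) = push f (0 : Ch α)
    exact (map_zero _).symm
  | cons a l ih =>
    show Finsupp.single (l.map f) 1 + cone (f a) (bdl (l.map f)) =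
      push f (Finsupp.single l 1 + cone a (bdl l))
    rw [map_add, push_single, push_cone, ih]

theorem bd_push {α β : Type} (f : α → β) (c : Ch α) : bd (push f c) = push f (bd c) := by
  refine ch1_ext (f := bd ∘ₗ push f) (g := push f ∘ₗ bd) (fun l => ?_) c
  show bd (push f (Finsupp.single l 1)) = push f (bd (Finsupp.single l 1))
  rw [push_single, bd_single, bd_single]
  exact ch1_bdlmap f l

theorem push_push {α β γ : Type} (f : α → β) (f' : β → γ) (c : Ch α) : push f' (push f c) = push (f' ∘ f) c := by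
  refine ch1_ext (f := push f' ∘ₗ push f) (g := push (f' ∘ f)) (fun l => ?_) c
  show push f' (push f (Finsupp.single l 1)) = push (f' ∘ f) (Finsupp.single l 1)
  rw [push_single, push_single, push_single, List.map_map]

theorem push_congr {α β : Type} {f f' : α → β} {c : Ch α} (h : ∀ l, c l ≠ 0 → ∀ a ∈ l, f a = f' a) : push f c = push f' c := by
  show Finsupp.mapDomain (List.map f) c = Finsupp.mapDomain (List.map f') c
  refine Finsupp.mapDomain_congr fun l hl => ?_
  exact List.map_congr_left (h l (Finsupp.mem_support_iff.1 hl))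

theorem push_invol {α : Type} {ν : α → α} (hν : ∀ a, ν (ν a) = a) (c : Ch α) : push ν (push ν c) = c := by
  refine ch1_ext (f := push ν ∘ₗ push ν) (g := LinearMap.id) (fun l => ?_) c
  show push ν (push ν (Finsupp.single l 1)) = Finsupp.single l 1
  rw [push_single, push_single, List.map_map]
  have e : ν ∘ ν = id := funext hν
  rw [e, List.map_id]

theorem push_inv {α : Type} {ν : α → α} (hν : ∀ a, ν (ν a) = a) (c : Ch α) (l : List α) : (push ν c) l = c (l.map ν) := by
  have e : ν ∘ ν = id := funext hν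
  have hi : Function.Injective (List.map ν) := by
    intro x y hxy
    have h2 := congrArg (List.map ν) hxy
    rw [List.map_map, List.map_map, e, List.map_id, List.map_id] at h2
    exact h2
  have hl : (l.map ν).map ν = l := by rw [List.map_map, e, List.map_id]
  have h3 : (Finsupp.mapDomain (List.map ν) c) ((l.map ν).map ν) = c (l.map ν) :=
    Finsupp.mapDomain_apply hi c (l.map ν)
  rw [hl] at h3
  exact h3

theorem push_spt {α β : Type} {f : α → β} {c : Ch α} {l' : List β} (h : (push f c) l' ≠ 0) : ∃ l, c l ≠ 0 ∧ l' = l.map f := by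
  have h1 : l' ∈ (Finsupp.mapDomain (List.map f) c).support := Finsupp.mem_support_iff.2 h
  have h2 := Finsupp.mapDomain_support h1
  obtain ⟨l, hl, he⟩ := Finset.mem_image.1 h2
  exact ⟨l, Finsupp.mem_support_iff.1 hl, he.symm⟩

theorem cone_spt {α : Type} {a : α} {c : Ch α} {l' : List α} (h : (cone a c) l' ≠ 0) : ∃ l, c l ≠ 0 ∧ l' = a :: l := by
  have h1 : l' ∈ (Finsupp.mapDomain (List.cons a) c).support := Finsupp.mem_support_iff.2 h
  have h2 := Finsupp.mapDomain_support h1
  obtain ⟨l, hl, he⟩ := Finset.mem_image.1 h2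
  exact ⟨l, Finsupp.mem_support_iff.1 hl, he.symm⟩

private theorem ch1_bdlspt {α : Type} (l : List α) : ∀ l' : List α, (bdl l) l' ≠ 0 →
    l'.Sublist l ∧ l'.length + 1 = l.length := by
  induction l with
  | nil =>
    intro l' h
    exact absurd rfl h
  | cons a l ih =>
    intro l' h
    have h1 : (Finsupp.single l (1 : ZMod 2) : Ch α) l' + (cone a (bdl l)) l' ≠ 0 := h
    by_cases hl : l = l'
    · subst hl
      exact ⟨List.sublist_cons_self a l, rfl⟩
    · rw [Finsupp.single_eq_of_ne' hl, zero_add] at h1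
      obtain ⟨l2, h2, rfl⟩ := cone_spt h1
      obtain ⟨h3, h4⟩ := ih l2 h2
      refine ⟨h3.cons₂ a, ?_⟩
      rw [List.length_cons, List.length_cons, h4]

theorem bd_spt {α : Type} {c : Ch α} {l' : List α} (h : (bd c) l' ≠ 0) :
    ∃ l, c l ≠ 0 ∧ l'.Sublist l ∧ l'.length + 1 = l.length := by
  have h1 : (Finsupp.linearCombination (ZMod 2) bdl c) l' ≠ 0 := h
  rw [Finsupp.linearCombination_apply, Finsupp.sum, Finsupp.finset_sum_apply] at h1
  obtain ⟨l, hl, h2⟩ := Finset.exists_ne_zero_of_sum_ne_zero h1
  refine ⟨l, Finsupp.mem_support_iff.1 hl, ch1_bdlspt l l' ?_⟩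
  intro h3
  apply h2
  rw [Finsupp.smul_apply, h3, smul_zero]

/-- a tower has a vertex -/
theorem HasT.vertex {α : Type} {ν : α → α} {m : ℕ} {Q : List α → Prop} (h : HasT ν m Q) : ∃ a, Q [a] := by
  obtain ⟨h, ht⟩ := h
  have h1 : (bd (h 0)) [] ≠ 0 := by
    rw [ht.one, Finsupp.single_eq_same]
    exact one_ne_zero
  obtain ⟨l, h2, -, h4⟩ := bd_spt h1
  have h5 := ht.spt 0 (Nat.zero_le m) l h2
  have h6 : l.length = 1 := h4.symm
  obtain ⟨a, rfl⟩ := List.length_eq_one_iff.1 h6
  exact ⟨a, h5⟩

theorem HasT.mono {α : Type} {ν : α → α} {m : ℕ} {Q Q' : List α → Prop} (h : HasT ν m Q) (hQ : ∀ l, l.length ≤ m + 1 → Q l → Q' l) :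
    HasT ν m Q' := by
  obtain ⟨h, ht⟩ := h
  refine ⟨h, ⟨ht.len, fun i hi l hl => ?_, ht.one, ht.bdy⟩⟩
  refine hQ l ?_ (ht.spt i hi l hl)
  rw [ht.len i hi l hl]
  exact Nat.succ_le_succ hi

private theorem ch1_tow {α β : Type} {ν : α → α} {ν' : β → β} {m : ℕ} {Q : List α → Prop}
    {Q' : List β → Prop} {h : ℕ → Ch α} (ht : Tow ν m Q h) (e : α → β)
    (he : ∀ l, Q l → ∀ a ∈ l, e (ν a) = ν' (e a)) (hQ : ∀ l, Q l → Q' (l.map e)) :
    Tow ν' m Q' (fun i => push e (h i)) where
  len := by
    intro i hi l hl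
    obtain ⟨l2, h2, rfl⟩ := push_spt hl
    rw [List.length_map]
    exact ht.len i hi l2 h2
  spt := by
    intro i hi l hl
    obtain ⟨l2, h2, rfl⟩ := push_spt hl
    exact hQ l2 (ht.spt i hi l2 h2)
  one := by
    show bd (push e (h 0)) = Finsupp.single [] 1
    rw [bd_push, ht.one, push_single]
    rfl
  bdy := by
    intro i hi
    show bd (push e (h (i + 1))) = push e (h i) + push ν' (push e (h i))
    rw [bd_push, ht.bdy i hi, map_add, push_push, push_push]
    congr 1
    exact push_congr fun l hl a ha => he l (ht.spt i hi.le l hl) a ha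

/-- the image of a tower under an equivariant map -/
theorem HasT.push {α β : Type} {ν : α → α} {ν' : β → β} {m : ℕ} {Q : List α → Prop} {Q' : List β → Prop} (h : HasT ν m Q) (e : α → β)
    (he : ∀ l, Q l → ∀ a ∈ l, e (ν a) = ν' (e a)) (hQ : ∀ l, Q l → Q' (l.map e)) : HasT ν' m Q' := by
  obtain ⟨h, ht⟩ := h
  exact ⟨_, ch1_tow ht e he hQ⟩

end H49.MX
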