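import Mathlib

/-!
# Module CoreN: two numerical estimates

* `coreN1`: `q ≥ ε₁ n - 1`, `q ≤ ε₁ n`. `-2 δ q ≤ -2 δ ε₁ n + 2 δ`, `g κ q ≤ (δ/4) ε₁ n`, the rest `≤ (δ ε₁/4) n` each.
* `coreN2`: `q ≤ n`. `(d+1) 2 η n ≤ (η'/8) n`, `(d+1) 3 · 2^M · 6 z q ≤ (η'/8) n`, `(d+1) 3 · 2^M ≤ (η'/8) n`, `2 (d+1) κ n ≤ (η'/4) n`, `2 ε n ≤ (η'/4) n`.
-/

set_option autoImplicit false

namespace H49.MX

theorem coreN1 {c δ ε₁ κ C η ε n g : ℝ} {q : ℕ} (hδ : 0 < δ) (hε₁ : 0 < ε₁) (hn : 8 ≤ ε₁ * n) (hn0 : 0 ≤ n) (hq : q = ⌊ε₁ * n⌋₊) (hg : 0 ≤ g)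
    (hκ0 : 0 ≤ κ) (hκ : 4 * g * κ ≤ δ) (hη : 4 * C * η ≤ δ * ε₁) (hε : 4 * ε ≤ δ * ε₁) :
    c - 2 * δ * q + g * κ * q + C * (η * n) + ε * n ≤ c - δ * ε₁ * n := by
  have h0 : 0 ≤ ε₁ * n := by linarith
  have h1 : (q : ℝ) ≤ ε₁ * n := by
    rw [hq]
    exact Nat.floor_le h0
  have h2 : ε₁ * n < q + 1 := by
    rw [hq]
    exact Nat.lt_floor_add_one _
  have h3 : 4 * (g * κ * q) ≤ δ * (ε₁ * n) := by
    calc 4 * (g * κ * q) = 4 * g * κ * q := by ring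
      _ ≤ δ * q := mul_le_mul_of_nonneg_right hκ (Nat.cast_nonneg q)
      _ ≤ δ * (ε₁ * n) := mul_le_mul_of_nonneg_left h1 hδ.le
  have h4 : 4 * (C * (η * n)) ≤ δ * ε₁ * n := by
    calc 4 * (C * (η * n)) = 4 * C * η * n := by ring
      _ ≤ δ * ε₁ * n := mul_le_mul_of_nonneg_right hη hn0
  have h5 : 4 * ε * n ≤ δ * ε₁ * n := mul_le_mul_of_nonneg_right hε hn0
  have h6 : δ * (ε₁ * n) ≤ δ * q + δ := by nlinarith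
  have h7 : δ * 8 ≤ δ * (ε₁ * n) := mul_le_mul_of_nonneg_left hn hδ.le
  nlinarith

theorem coreN2 {d M N q : ℕ} {η η' z κ ε n : ℝ} (hη' : 0 < η') (hn0 : 0 ≤ n) (hM : M ≤ N) (hq : (q : ℝ) ≤ n) (hz0 : 0 ≤ z)
    (hη : 16 * (d + 1) * η ≤ η') (hz : 144 * (d + 1) * 2 ^ N * z ≤ η') (hn : 24 * (d + 1) * 2 ^ N ≤ η' * n)
    (hκ : 8 * (d + 1) * κ ≤ η') (hε : 8 * ε ≤ η') :
    (d + 1) * (2 * (η * n) + 3 * (2 ^ M * (6 * z * q + 1))) + 2 * ((d + 1) * κ + ε) * n ≤ η' * n := by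
  have h0 : (2 : ℝ) ^ M ≤ 2 ^ N := pow_le_pow_right₀ (by norm_num) hM
  have hd : (0 : ℝ) ≤ d := Nat.cast_nonneg d
  have h1 : 16 * (d + 1) * η * n ≤ η' * n := mul_le_mul_of_nonneg_right hη hn0
  have h2 : 144 * (d + 1) * 2 ^ N * z * n ≤ η' * n := mul_le_mul_of_nonneg_right hz hn0
  have h3 : 8 * (d + 1) * κ * n ≤ η' * n := mul_le_mul_of_nonneg_right hκ hn0
  have h4 : 8 * ε * n ≤ η' * n := mul_le_mul_of_nonneg_right hε hn0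
  have h5 : ((d : ℝ) + 1) * (2 ^ M * (z * q)) ≤ (d + 1) * (2 ^ N * (z * n)) := by
    refine mul_le_mul_of_nonneg_left ?_ (by linarith)
    refine mul_le_mul h0 (mul_le_mul_of_nonneg_left hq hz0) ?_ (by positivity)
    exact mul_nonneg hz0 (Nat.cast_nonneg q)
  have h6 : ((d : ℝ) + 1) * 2 ^ M ≤ (d + 1) * 2 ^ N := mul_le_mul_of_nonneg_left h0 (by linarith)
  have h7 : 0 ≤ η' * n := mul_nonneg hη'.le hn0
  have h8 : ((d : ℝ) + 1) * (2 * (η * n) + 3 * (2 ^ M * (6 * z * q + 1))) + 2 * ((d + 1) * κ + ε) * n =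
      2 * ((d + 1) * η * n) + 18 * ((d + 1) * (2 ^ M * (z * q))) + 3 * ((d + 1) * 2 ^ M) +
      2 * ((d + 1) * κ * n) + 2 * (ε * n) := by ring
  rw [h8]
  nlinarith

end H49.MX
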