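import Pool.Agent.H49.MX.Defs

/-!
# Module MkSys: numbering the pairs of complementary states

`M` = number of the states of `F` which contain `v₀`, `rp j` = the `j`-th of them (`(F.filter fun A => v₀ ∈ A).toList.getD j ∅` or `Finset.equivFin`), `s j` chosen by `hA`. A state `A ∈ F` or its complement contains `v₀`.
-/

set_option autoImplicit false
set_option linter.unusedSectionVars false

namespace H49.MX

open Finset
open scoped Classical symmDiff

variable {V : Type} [Fintype V] [DecidableEq V] (G : SimpleGraph V) [DecidableRel G.Adj]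

theorem exists_sys (t q : ℕ) (v₀ : V) (F : Finset (Finset V)) (hF : ∀ A ∈ F, Aᶜ ∈ F)
    (hA : ∀ A ∈ F, ∃ s : ℕ → V, AddSeq G t A s q ∨ AddSeq G t Aᶜ s q) :
    ∃ (M : ℕ) (rp : ℕ → Finset V) (s : ℕ → ℕ → V), M ≤ F.card ∧ Sys G t q v₀ M rp s ∧
      ∀ A ∈ F, ∃ j < M, A = rp j ∨ A = (rp j)ᶜ := by
  have hnd : (F.filter fun A => v₀ ∈ A).toList.Nodup := Finset.nodup_toList _
  have hlen : (F.filter fun A => v₀ ∈ A).toList.length = (F.filter fun A => v₀ ∈ A).card :=
    Finset.length_toList _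
  generalize hL : (F.filter fun A => v₀ ∈ A).toList = L at hnd hlen
  have hmem : ∀ A, A ∈ L ↔ A ∈ F ∧ v₀ ∈ A := by
    intro A
    rw [← hL, Finset.mem_toList, Finset.mem_filter]
  have hget : ∀ j (hj : j < L.length), L.getD j ∅ = L[j] := fun j hj =>
    List.getD_eq_getElem _ _ hj
  have hin : ∀ j, j < L.length → L.getD j ∅ ∈ L := by
    intro j hj
    rw [hget j hj]
    exact List.getElem_mem hj
  refine ⟨L.length, fun j => L.getD j ∅,
    fun j => if h : L.getD j ∅ ∈ F then (hA _ h).choose else fun _ => v₀, ?_, ⟨?_, ?_, ?_⟩, ?_⟩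
  · rw [hlen]
    exact Finset.card_le_card (Finset.filter_subset _ _)
  · intro j hj
    exact ((hmem _).1 (hin j hj)).2
  · intro i hi j hj hij
    simp only [hget i hi, hget j hj] at hij
    exact (List.Nodup.getElem_inj_iff hnd).1 hij
  · intro j hj
    have h : L.getD j ∅ ∈ F := ((hmem _).1 (hin j hj)).1
    simp only [dif_pos h]
    exact (hA _ h).choose_spec
  · intro A hAF
    by_cases hv : v₀ ∈ A
    · obtain ⟨j, hj, he⟩ := List.getElem_of_mem ((hmem A).2 ⟨hAF, hv⟩)
      exact ⟨j, hj, Or.inl ((hget j hj).trans he).symm⟩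
    · obtain ⟨j, hj, he⟩ := List.getElem_of_mem
        ((hmem Aᶜ).2 ⟨hF A hAF, Finset.mem_compl.2 hv⟩)
      refine ⟨j, hj, Or.inr ?_⟩
      have e : L.getD j ∅ = Aᶜ := (hget j hj).trans he
      show A = (L.getD j ∅)ᶜ
      rw [e, compl_compl]

end H49.MX
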