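import Pool.Agent.H49.MX.EDist
import Pool.Agent.H49.MX.MkSys
import Pool.Agent.H49.MX.CoreN

/-!
# Module Core: one step lowers the cuts

Constants: `C = (2 d + 2 g)(D + 1) > 0`; `κ = min (η'/(8 (d+1))) (δ/(4 g))`; `up_small` gives `H₀`, `H = 2 H₀`, so `up (H/2), up H ≤ κ` (`up_anti`); `ε = min (η'/8) (δ ε₁/4)`; `Mix` with this `ε` gives `zG`;
`η = min (η'/(16 (d+1))) (min (δ ε₁/(4 C)) (1/2))`. Given `N`: `z = min (1/12) (min (zG/(6 H)) (min zG (η'/(144 (d+1) 2^N))))`; `points D N` gives `B = N'`; `Mix` with `m = B` gives its `n₀`; also `n ≥ 1`, `ε₁ n ≥ 8`,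
`η' n ≥ 24 (d+1) 2^N`.
Given `V, G, F, c`: `q = ⌊ε₁ n⌋₊ ≤ n`, `R = η n < n`, `v₀` any vertex, `exists_sys`, `Q l = Tup F R l ∧ l.length ≤ D + 1` (`HasT.mono`; `Clo compl Q`: `Aᶜ ∆ Bᶜ = A ∆ B`). Every `σ` with `Q σ` is `Hul M rp R D σ`. `points` gives
`P`. Apply `Mix` with `ι = Finset V`, `J = {p // p ∈ P}`, `B p = BB (base rp p) (UU p)`, `W p = WW (base rp p) (UU p) (UU (nuP p))`, `h p = hh H p`, `y p = yv p` (`WW_sub`, `yv_one`). Let `e' p = e ⟨p, _⟩` for `p ∈ P` (`∅` otherwise),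
`F' = P.image e'`. `e' (nuP p) = (e' p)ᶜ` for `p ∈ P` by the first property of `Mix` (`BB_compl`, `WW_compl`, `base_nu`, `nuP_nuP`, `hh_nu`, `yv_nu`). Cuts: `ecut` and `coreN1` (`cut (base rp p) ≤ c` because `base rp p ∈ σ ⊆ F`).
Tower: `HasT.push` with `e'` from `PTup Q P z`; distances: `edist` and `coreN2` (`p, p'` of one list are in the hull of one `σ`).
-/

set_option autoImplicit false
set_option linter.unusedSectionVars false

namespace H49.MX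

open Finset
open Pool.Agent.H49.FR (nin cut Part)
open scoped Classical symmDiff

private theorem Core_clo {V : Type} [Fintype V] [DecidableEq V] {F : Finset (Finset V)} (hF : ∀ A ∈ F, Aᶜ ∈ F)
    (R : ℝ) (k : ℕ) : Clo compl (fun l => Tup F R l ∧ l.length ≤ k) where
  sub := by
    rintro l l' hs ⟨⟨h1, h2⟩, h3⟩
    exact ⟨⟨fun A hA => h1 A (hs.subset hA), fun A hA B hB => h2 A (hs.subset hA) B (hs.subset hB)⟩,
      hs.length_le.trans h3⟩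
  inv := by
    rintro l ⟨⟨h1, h2⟩, h3⟩
    refine ⟨⟨fun A hA => ?_, fun A hA B hB => ?_⟩, ?_⟩
    · obtain ⟨A', hA', rfl⟩ := List.mem_map.1 hA
      exact hF A' (h1 A' hA')
    · obtain ⟨A', hA', rfl⟩ := List.mem_map.1 hA
      obtain ⟨B', hB', rfl⟩ := List.mem_map.1 hB
      have h4 := h2 A' hA' B' hB'
      rw [compl_symmDiff_compl]
      exact h4
    · rw [List.length_map]
      exact h3

theorem core {d t g : ℕ} {δ : ℝ} (hg : 2 * t = d + g) (hg1 : 1 ≤ g) (hδ : 0 < δ) (hδg : δ ≤ g / 2) (hM : Mix d t δ) (D : ℕ)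
    {ε₁ η' : ℝ} (hε : 0 < ε₁) (hε1 : ε₁ ≤ 1) (hη : 0 < η') :
    ∃ η : ℝ, 0 < η ∧ ∀ N : ℕ, ∃ N' n₀ : ℕ, ∀ (V : Type) [Fintype V] [DecidableEq V] (G : SimpleGraph V) [DecidableRel G.Adj]
      (F : Finset (Finset V)) (c : ℝ), G.IsRegularOfDegree d → n₀ ≤ Fintype.card V → F.card ≤ N → (∀ A ∈ F, Aᶜ ∈ F) →
      (∀ A ∈ F, (cut G A : ℝ) ≤ c) →
      (∀ A ∈ F, ∃ s : ℕ → V, AddSeq G t A s ⌊ε₁ * Fintype.card V⌋₊ ∨ AddSeq G t Aᶜ s ⌊ε₁ * Fintype.card V⌋₊) →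
      HasT compl D (Tup F (η * Fintype.card V)) →
      ∃ F' : Finset (Finset V), F'.card ≤ N' ∧ (∀ A ∈ F', Aᶜ ∈ F') ∧ (∀ A ∈ F', (cut G A : ℝ) ≤ c - δ * ε₁ * Fintype.card V) ∧
        HasT compl D (Tup F' (η' * Fintype.card V)) := by
  have hd0 : (0 : ℝ) ≤ d := Nat.cast_nonneg d
  have hd1 : (0 : ℝ) < (d : ℝ) + 1 := by linarith
  have hgp : (0 : ℝ) < g := by exact_mod_cast hg1
  have hD1 : (0 : ℝ) < (D : ℝ) + 1 := by
    have : (0 : ℝ) ≤ D := Nat.cast_nonneg D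
    linarith
  obtain ⟨C, hC⟩ : ∃ C : ℝ, C = (2 * d + 2 * g) * (D + 1) := ⟨_, rfl⟩
  have hCp : 0 < C := by
    rw [hC]
    exact mul_pos (by linarith) hD1
  obtain ⟨κ, hκe⟩ : ∃ κ : ℝ, κ = min (η' / (8 * (d + 1))) (δ / (4 * g)) := ⟨_, rfl⟩
  have hκp : 0 < κ := by
    rw [hκe]
    exact lt_min (div_pos hη (by linarith)) (div_pos hδ (by linarith))
  have hκ1 : 8 * ((d : ℝ) + 1) * κ ≤ η' := by
    have h := min_le_left (η' / (8 * ((d : ℝ) + 1))) (δ / (4 * g))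
    rw [← hκe, le_div_iff₀ (by linarith)] at h
    linarith
  have hκ2 : 4 * (g : ℝ) * κ ≤ δ := by
    have h := min_le_right (η' / (8 * ((d : ℝ) + 1))) (δ / (4 * g))
    rw [← hκe, le_div_iff₀ (by linarith)] at h
    linarith
  obtain ⟨H₀, hH₀, hup⟩ := up_small hκp
  obtain ⟨H, hHe⟩ : ∃ H : ℝ, H = 2 * H₀ := ⟨_, rfl⟩
  have hH : 0 < H := by linarith
  have hupH : up H ≤ κ := hup H (by linarith)
  have hupH2 : up (H / 2) ≤ κ := hup (H / 2) (by linarith)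
  obtain ⟨ε, hεe⟩ : ∃ ε : ℝ, ε = min (η' / 8) (δ * ε₁ / 4) := ⟨_, rfl⟩
  have hδε : 0 < δ * ε₁ := mul_pos hδ hε
  have hεp : 0 < ε := by
    rw [hεe]
    exact lt_min (by linarith) (by linarith)
  have hεa : 8 * ε ≤ η' := by
    have h := min_le_left (η' / 8) (δ * ε₁ / 4)
    rw [← hεe] at h
    linarith
  have hεb : 4 * ε ≤ δ * ε₁ := by
    have h := min_le_right (η' / 8) (δ * ε₁ / 4)
    rw [← hεe] at h
    linarith
  obtain ⟨zG, hzG, hmix⟩ := hM ε hεp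
  obtain ⟨η, hηe⟩ : ∃ η : ℝ, η = min (η' / (16 * (d + 1))) (min (δ * ε₁ / (4 * C)) (1 / 2)) := ⟨_, rfl⟩
  have hηp : 0 < η := by
    rw [hηe]
    exact lt_min (div_pos hη (by linarith)) (lt_min (div_pos hδε (by linarith)) (by norm_num))
  have hη1 : 16 * ((d : ℝ) + 1) * η ≤ η' := by
    have h := min_le_left (η' / (16 * ((d : ℝ) + 1))) (min (δ * ε₁ / (4 * C)) (1 / 2))
    rw [← hηe, le_div_iff₀ (by linarith)] at h
    linarith
  have hη2 : 4 * C * η ≤ δ * ε₁ := by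
    have h := (min_le_right (η' / (16 * ((d : ℝ) + 1))) (min (δ * ε₁ / (4 * C)) (1 / 2))).trans
      (min_le_left _ _)
    rw [← hηe, le_div_iff₀ (by linarith)] at h
    linarith
  have hη3 : η ≤ 1 / 2 := by
    have h := (min_le_right (η' / (16 * ((d : ℝ) + 1))) (min (δ * ε₁ / (4 * C)) (1 / 2))).trans
      (min_le_right _ _)
    rw [← hηe] at h
    exact h
  refine ⟨η, hηp, fun N => ?_⟩
  have h2N : (0 : ℝ) < 2 ^ N := by positivity
  obtain ⟨z, hze⟩ : ∃ z : ℝ, z = min (1 / 12) (min (zG / (6 * H)) (min zG (η' / (144 * (d + 1) * 2 ^ N)))) :=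
    ⟨_, rfl⟩
  have hzp : 0 < z := by
    rw [hze]
    refine lt_min (by norm_num) (lt_min (div_pos hzG (by linarith)) (lt_min hzG (div_pos hη ?_)))
    positivity
  have hz1 : 12 * z ≤ 1 := by
    have h := min_le_left (1 / 12 : ℝ) (min (zG / (6 * H)) (min zG (η' / (144 * (d + 1) * 2 ^ N))))
    rw [← hze] at h
    linarith
  have hz2 : 6 * H * z ≤ zG := by
    have h := (min_le_right (1 / 12 : ℝ) (min (zG / (6 * H)) (min zG (η' / (144 * (d + 1) * 2 ^ N))))).trans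
      (min_le_left _ _)
    rw [← hze, le_div_iff₀ (by linarith)] at h
    linarith
  have hz3 : z ≤ zG := by
    have h := ((min_le_right (1 / 12 : ℝ) (min (zG / (6 * H)) (min zG (η' / (144 * (d + 1) * 2 ^ N))))).trans
      (min_le_right _ _)).trans (min_le_left _ _)
    rw [← hze] at h
    exact h
  have hz4 : 144 * ((d : ℝ) + 1) * 2 ^ N * z ≤ η' := by
    have h := ((min_le_right (1 / 12 : ℝ) (min (zG / (6 * H)) (min zG (η' / (144 * (d + 1) * 2 ^ N))))).trans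
      (min_le_right _ _)).trans (min_le_right _ _)
    rw [← hze, le_div_iff₀ (by positivity)] at h
    linarith
  obtain ⟨B, hB⟩ := points D N hzp
  obtain ⟨n₁, hn₁⟩ := hmix B
  refine ⟨B, max n₁ (max 1 (max ⌈8 / ε₁⌉₊ ⌈24 * ((d : ℝ) + 1) * 2 ^ N / η'⌉₊)), ?_⟩
  intro V _ _ G _ F c hreg hn hFN hFc hcut hav hT
  have hna : n₁ ≤ Fintype.card V := (le_max_left _ _).trans hn
  have hnb : 1 ≤ Fintype.card V := ((le_max_left _ _).trans (le_max_right _ _)).trans hn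
  have hnc : ⌈8 / ε₁⌉₊ ≤ Fintype.card V :=
    (((le_max_left _ _).trans (le_max_right _ _)).trans (le_max_right _ _)).trans hn
  have hnd : ⌈24 * ((d : ℝ) + 1) * 2 ^ N / η'⌉₊ ≤ Fintype.card V :=
    (((le_max_right _ _).trans (le_max_right _ _)).trans (le_max_right _ _)).trans hn
  have hn1 : (1 : ℝ) ≤ (Fintype.card V : ℝ) := by exact_mod_cast hnb
  have hn8 : 8 ≤ ε₁ * (Fintype.card V : ℝ) := by
    have h := (Nat.le_ceil (8 / ε₁)).trans (Nat.cast_le.2 hnc)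
    rw [div_le_iff₀ hε] at h
    linarith
  have hn24 : 24 * ((d : ℝ) + 1) * 2 ^ N ≤ η' * (Fintype.card V : ℝ) := by
    have h := (Nat.le_ceil (24 * ((d : ℝ) + 1) * 2 ^ N / η')).trans (Nat.cast_le.2 hnd)
    rw [div_le_iff₀ hη] at h
    linarith
  have hn0 : (0 : ℝ) ≤ (Fintype.card V : ℝ) := by linarith
  obtain ⟨v₀⟩ : Nonempty V := Fintype.card_pos_iff.1 (by omega)
  obtain ⟨q, hq⟩ : ∃ q : ℕ, q = ⌊ε₁ * (Fintype.card V : ℝ)⌋₊ := ⟨_, rfl⟩
  rw [← hq] at hav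
  have hqn : (q : ℝ) ≤ (Fintype.card V : ℝ) := by
    have h := Nat.floor_le (mul_nonneg hε.le hn0)
    rw [← hq] at h
    have h' : ε₁ * (Fintype.card V : ℝ) ≤ 1 * (Fintype.card V : ℝ) := mul_le_mul_of_nonneg_right hε1 hn0
    linarith
  obtain ⟨M, rp, s, hMF, hS, hrp⟩ := exists_sys G t q v₀ F hFc hav
  have hMN : M ≤ N := hMF.trans hFN
  obtain ⟨R, hR⟩ : ∃ R : ℝ, R = η * (Fintype.card V : ℝ) := ⟨_, rfl⟩
  rw [← hR] at hT
  have hRn : R < (Fintype.card V : ℝ) := by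
    have h' : η * (Fintype.card V : ℝ) ≤ 1 / 2 * (Fintype.card V : ℝ) := mul_le_mul_of_nonneg_right hη3 hn0
    linarith
  have hTQ : HasT compl D (fun l => Tup F R l ∧ l.length ≤ D + 1) := hT.mono fun l hl h => ⟨h, hl⟩
  have hHul : ∀ σ : List (Finset V), (Tup F R σ ∧ σ.length ≤ D + 1) → Hul M rp R D σ := fun σ hσ =>
    ⟨fun A hA => hrp A (hσ.1.1 A hA), hσ.1.2, hσ.2, hRn⟩
  obtain ⟨P, hPc, hPn, hPσ, hPT⟩ := hB V F (fun l => Tup F R l ∧ l.length ≤ D + 1) hFN hFc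
    (Core_clo hFc R (D + 1)) (fun l hl => hl.1.1) hTQ
  obtain ⟨e, he1, he2, he3, he4, he5⟩ := hn₁ V G hreg hna (Finset V) {p // p ∈ P}
    (by rw [Fintype.card_coe]; exact hPc)
    (fun p => BB (base rp p.1) (UU G t q M rp s p.1))
    (fun p => WW (base rp p.1) (UU G t q M rp s p.1) (UU G t q M rp s (nuP p.1)))
    (fun p => hh G t q M rp s H p.1) (fun p => yv p.1) (fun p => WW_sub _ _ _)
    (fun p => by
      obtain ⟨σ, h1, h2⟩ := hPσ p.1 p.2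
      exact yv_one (hHul σ h1) h2)
  obtain ⟨e', he'⟩ : ∃ e' : (Finset V → ℝ) → Finset V, ∀ p (hp : p ∈ P), e' p = e ⟨p, hp⟩ :=
    ⟨fun p => if hp : p ∈ P then e ⟨p, hp⟩ else ∅, fun p hp => dif_pos hp⟩
  have hcomp : ∀ p ∈ P, e' (nuP p) = (e' p)ᶜ := by
    intro p hp
    obtain ⟨σ, h1, h2⟩ := hPσ p hp
    have hb := base_nu (hHul σ h1) h2
    rw [he' p hp, he' (nuP p) (hPn p hp)]
    refine he1 ⟨p, hp⟩ ⟨nuP p, hPn p hp⟩ ?_ ?_ ?_ ?_
    · show BB (base rp (nuP p)) (UU G t q M rp s (nuP p)) = _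
      rw [hb]
      exact BB_compl _ _ _
    · show WW (base rp (nuP p)) (UU G t q M rp s (nuP p)) (UU G t q M rp s (nuP (nuP p))) = _
      rw [hb, nuP_nuP]
      exact WW_compl _ _ _
    · exact hh_nu G H p
    · exact yv_nu p
  refine ⟨P.image e', card_image_le.trans hPc, ?_, ?_, ?_⟩
  · intro A hA
    obtain ⟨p, hp, rfl⟩ := mem_image.1 hA
    rw [← hcomp p hp]
    exact mem_image_of_mem e' (hPn p hp)
  · intro A hA
    obtain ⟨p, hp, rfl⟩ := mem_image.1 hA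
    obtain ⟨σ, h1, h2⟩ := hPσ p hp
    have hbm := (base_mem (hHul σ h1) h2).1
    have hc := hcut _ (h1.1.1 _ hbm)
    have h3 := ecut G hreg hg hS (hHul σ h1) h2 hH hδ hδg hc (he2 ⟨p, hp⟩)
    rw [he' p hp]
    have h4 := coreN1 (c := c) (q := q) (g := g) hδ hε hn8 hn0 hq hgp.le hκp.le hκ2 hη2 hεb
    have h5 : (g : ℝ) * up H * q ≤ g * κ * q :=
      mul_le_mul_of_nonneg_right (mul_le_mul_of_nonneg_left hupH hgp.le) (Nat.cast_nonneg q)
    rw [hR, ← hC] at h3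
    linarith
  · refine hPT.push e' (fun l hl p hp => hcomp p (hl.1 p hp)) fun l hl => ⟨fun A hA => ?_, fun A hA A' hA' => ?_⟩
    · obtain ⟨p, hp, rfl⟩ := List.mem_map.1 hA
      exact mem_image_of_mem e' (hl.1 p hp)
    · obtain ⟨p, hp, rfl⟩ := List.mem_map.1 hA
      obtain ⟨p', hp', rfl⟩ := List.mem_map.1 hA'
      obtain ⟨hlP, ⟨σ, h1, h2⟩, h3⟩ := hl
      rw [he' p (hlP p hp), he' p' (hlP p' hp')]
      have h4 := edist G hS (hHul σ h1) (h2 p hp) (h2 p' hp') d hH (h3 p hp p' hp') hz1 hz2 hz3 hεp.le hupH2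
        (fun a b => he3 ⟨p, hlP p hp⟩ ⟨p', hlP p' hp'⟩ a b) (he4 ⟨p, hlP p hp⟩) (he4 ⟨p', hlP p' hp'⟩)
        (he5 ⟨p, hlP p hp⟩) (he5 ⟨p', hlP p' hp'⟩)
      rw [hR] at h4
      have h5 := coreN2 (d := d) (M := M) (N := N) (q := q) hη hn0 hMN hqn hzp.le hη1 hz4 hn24 hκ1 hεa
      exact h4.trans h5

end H49.MX
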