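import Pool.Agent.H49.MX.Ch1

/-!
# Module Cross: the cross polytope

`h 0 = single [e 0] 1`, `h (i+1) = cone (e (i+1)) (h i + push ν (h i))`, `e i = Pi.single i 1` in `Fin (D+1) → ℝ` (use `e i = Pi.single ⟨min i D, _⟩ 1` or `Fin.ofNat`), `ν p = -p`. `bd (h (i+1)) = (h i + push ν (h i)) +
cone _ (bd (h i + push ν (h i)))` (`bd_cone`), and `bd (h i + push ν (h i)) = bd (h i) + push ν (bd (h i))` is `0`: for `i = 0` it is `single [] 1 + single [] 1`, otherwise `(1+ν)(1+ν) h (i-1) = 0`. Support: by induction every
list of `h i` has entries `s_j e_j`, `j ≤ i`, with one sign vector `s` (the new coordinate `i + 1` does not occur in the old entries).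
-/

set_option autoImplicit false
set_option linter.unusedSectionVars false

namespace H49.MX

open Finset
open scoped Classical

/-- the unit vectors, indexed by natural numbers -/
private noncomputable def cross_e (D : ℕ) (i : ℕ) : Fin (D + 1) → ℝ :=
  Pi.single (Fin.ofNat (D + 1) i) 1

/-- the tower -/
private noncomputable def cross_h (D : ℕ) : ℕ → Ch (Fin (D + 1) → ℝ)
  | 0 => Finsupp.single [cross_e D 0] 1
  | i + 1 => cone (cross_e D (i + 1)) (cross_h D i + push (fun p => -p) (cross_h D i))

private theorem cross_one (D : ℕ) : bd (cross_h D 0) = Finsupp.single [] 1 := by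
  show bd (Finsupp.single [cross_e D 0] 1) = _
  rw [bd_single]
  show Finsupp.single [] 1 + cone (cross_e D 0) (0 : Ch (Fin (D + 1) → ℝ)) = _
  rw [map_zero, add_zero]

private theorem cross_cyc (D : ℕ) (i : ℕ) :
    bd (cross_h D i + push (fun p => -p) (cross_h D i)) = 0 := by
  induction i with
  | zero =>
    rw [map_add, bd_push, cross_one, push_single]
    exact add_selfC _
  | succ i ih =>
    have h1 : bd (cross_h D (i + 1)) = cross_h D i + push (fun p => -p) (cross_h D i) := by
      show bd (cone (cross_e D (i + 1)) (cross_h D i + push (fun p => -p) (cross_h D i))) = _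
      rw [bd_cone, ih, map_zero, add_zero]
    have h2 : push (fun p => -p) (push (fun p => -p) (cross_h D i)) = cross_h D i :=
      push_invol (fun a => neg_neg a) _
    rw [map_add, bd_push, h1, map_add, h2]
    rw [add_comm (push (fun p => -p) (cross_h D i)) (cross_h D i)]
    exact add_selfC _

private theorem cross_bd (D : ℕ) (i : ℕ) :
    bd (cross_h D (i + 1)) = cross_h D i + push (fun p => -p) (cross_h D i) := by
  show bd (cone (cross_e D (i + 1)) (cross_h D i + push (fun p => -p) (cross_h D i))) = _
  rw [bd_cone, cross_cyc, map_zero, add_zero]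

private theorem cross_spt (D : ℕ) (i : ℕ) : i ≤ D → ∀ l, cross_h D i l ≠ 0 →
    l.length = i + 1 ∧ ∃ s : Fin (D + 1) → ℝ, (∀ i, s i = 1 ∨ s i = -1) ∧
      ∀ p ∈ l, ∃ j ≤ i, p = Pi.single (Fin.ofNat (D + 1) j) (s (Fin.ofNat (D + 1) j)) := by
  induction i with
  | zero =>
    intro _ l hl
    have h1 : l = [cross_e D 0] := by
      by_contra h
      exact hl (Finsupp.single_eq_of_ne' (fun h2 => h h2.symm))
    subst h1
    refine ⟨rfl, fun _ => 1, fun _ => Or.inl rfl, fun p hp => ⟨0, le_rfl, ?_⟩⟩
    rw [List.mem_singleton] at hp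
    exact hp
  | succ i ih =>
    intro hi l hl
    obtain ⟨l', h1, rfl⟩ := cone_spt hl
    have h2 : l'.length = i + 1 ∧ ∃ s : Fin (D + 1) → ℝ, (∀ i, s i = 1 ∨ s i = -1) ∧
        ∀ p ∈ l', ∃ j ≤ i, p = Pi.single (Fin.ofNat (D + 1) j) (s (Fin.ofNat (D + 1) j)) := by
      by_cases h3 : cross_h D i l' = 0
      · have h4 : (push (fun p => -p) (cross_h D i)) l' ≠ 0 := by
          intro h5
          apply h1
          rw [Finsupp.add_apply, h3, h5, add_zero]
        obtain ⟨l2, h5, rfl⟩ := push_spt h4
        obtain ⟨h6, s, h7, h8⟩ := ih (by omega) l2 h5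
        refine ⟨by rw [List.length_map]; exact h6, fun i => -s i, fun i => ?_, fun p hp => ?_⟩
        · rcases h7 i with h9 | h9
          · right
            show -s i = -1
            rw [h9]
          · left
            show -s i = 1
            rw [h9, neg_neg]
        · obtain ⟨p', hp', rfl⟩ := List.mem_map.1 hp
          obtain ⟨j, hj, rfl⟩ := h8 p' hp'
          exact ⟨j, hj, (Pi.single_neg _ _).symm⟩
      · exact ih (by omega) l' h3
    obtain ⟨h3, s, h4, h5⟩ := h2
    refine ⟨by rw [List.length_cons, h3], Function.update s (Fin.ofNat (D + 1) (i + 1)) 1,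
      fun k => ?_, fun p hp => ?_⟩
    · by_cases hk : k = Fin.ofNat (D + 1) (i + 1)
      · left
        rw [hk, Function.update_self]
      · rw [Function.update_of_ne hk]
        exact h4 k
    · rcases List.mem_cons.1 hp with h6 | h6
      · refine ⟨i + 1, le_rfl, ?_⟩
        rw [Function.update_self]
        exact h6
      · obtain ⟨j, hj, h7⟩ := h5 p h6
        refine ⟨j, by omega, ?_⟩
        have hne : Fin.ofNat (D + 1) j ≠ Fin.ofNat (D + 1) (i + 1) := by
          intro h8
          have h9 := congrArg Fin.val h8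
          simp only [Fin.val_ofNat] at h9
          rw [Nat.mod_eq_of_lt (by omega), Nat.mod_eq_of_lt (by omega)] at h9
          omega
        rw [Function.update_of_ne hne]
        exact h7

theorem cross (D : ℕ) : HasT (fun p : Fin (D + 1) → ℝ => -p) D
    (fun l => ∃ s : Fin (D + 1) → ℝ, (∀ i, s i = 1 ∨ s i = -1) ∧ ∀ p ∈ l, ∃ i, p = Pi.single i (s i)) := by
  refine ⟨cross_h D, ?_, ?_, cross_one D, fun i _ => cross_bd D i⟩
  · intro i hi l hl
    exact (cross_spt D i hi l hl).1
  · intro i hi l hl
    obtain ⟨s, h1, h2⟩ := (cross_spt D i hi l hl).2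
    refine ⟨s, h1, fun p hp => ?_⟩
    obtain ⟨j, _, h3⟩ := h2 p hp
    exact ⟨_, h3⟩

end H49.MX
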