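import Pool.Agent.H49.MX.CutT

/-!
# Module CutR: cutting along the imbalances

`imb W A = |A ∩ W| - |W \ A|`. `imb W Aᶜ = - imb W A`; `|imb W A - imb W B| ≤ 2 |A ∆ B|` (each element of `(A ∆ B) ∩ W` changes it by two). `cutR`: induction on `r` with `cutT`, `pos A := v₀ ∈ A`,
`Q = Tup (F.filter ..) R` (`Clo`: `Aᶜ ∆ Bᶜ = A ∆ B`), `x = imb (W r)`, `R := 2 ⌊R⌋₊` (`|A ∆ B| ≤ ⌊R⌋₊`).
-/

set_option autoImplicit false
set_option linter.unusedSectionVars false

namespace H49.MX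

open Finset
open scoped Classical symmDiff

variable {V : Type} [Fintype V] [DecidableEq V]

/-- the imbalance of `A` on `W` -/
def imb (W A : Finset V) : ℤ := ((A ∩ W).card : ℤ) - ((W \ A).card : ℤ)

theorem imb_compl (W A : Finset V) : imb W Aᶜ = - imb W A := by
  unfold imb
  have h1 : Aᶜ ∩ W = W \ A := by
    ext v
    simp only [mem_inter, mem_compl, mem_sdiff]
    tauto
  have h2 : W \ Aᶜ = A ∩ W := by
    ext v
    simp only [mem_inter, mem_compl, mem_sdiff]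
    tauto
  rw [h1, h2]
  ring

private lemma CutR_two (W A : Finset V) : imb W A = 2 * ((A ∩ W).card : ℤ) - (W.card : ℤ) := by
  unfold imb
  have h : (W \ A).card + (A ∩ W).card = W.card := by
    rw [inter_comm]
    exact card_sdiff_add_card_inter W A
  omega

private lemma CutR_le (W A B : Finset V) : (A ∩ W).card ≤ (B ∩ W).card + (A ∆ B).card := by
  have h : A ∩ W ⊆ (B ∩ W) ∪ (A ∆ B) := by
    intro v hv
    rw [mem_inter] at hv
    rw [mem_union, mem_inter, mem_symmDiff]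
    tauto
  exact (card_le_card h).trans (card_union_le _ _)

theorem imb_diff (W A B : Finset V) : |imb W A - imb W B| ≤ 2 * ((A ∆ B).card : ℤ) := by
  have h1 := CutR_le W A B
  have h2 := CutR_le W B A
  rw [symmDiff_comm B A] at h2
  rw [CutR_two, CutR_two, abs_le]
  constructor <;> omega

theorem clo_tup {F : Finset (Finset V)} (hF : ∀ A ∈ F, Aᶜ ∈ F) (R : ℝ) : Clo compl (Tup F R) := by
  refine ⟨?_, ?_⟩
  · rintro l l' hs ⟨h1, h2⟩
    exact ⟨fun A hA => h1 A (hs.subset hA), fun A hA B hB => h2 A (hs.subset hA) B (hs.subset hB)⟩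
  · rintro l ⟨h1, h2⟩
    refine ⟨fun A hA => ?_, fun A hA B hB => ?_⟩
    · obtain ⟨A', hA', rfl⟩ := List.mem_map.1 hA
      exact hF A' (h1 A' hA')
    · obtain ⟨A', hA', rfl⟩ := List.mem_map.1 hA
      obtain ⟨B', hB', rfl⟩ := List.mem_map.1 hB
      rw [compl_symmDiff_compl]
      exact h2 A' hA' B' hB'

private lemma CutR_mono {α : Type} {ν : α → α} {m : ℕ} {Q Q' : List α → Prop}
    (hQ : ∀ l, Q l → Q' l) (h : HasT ν m Q) : HasT ν m Q' := by
  obtain ⟨c, hc⟩ := h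
  exact ⟨c, hc.len, fun i hi l hl => hQ l (hc.spt i hi l hl), hc.one, hc.bdy⟩

theorem cutR {F : Finset (Finset V)} (hF : ∀ A ∈ F, Aᶜ ∈ F) {R : ℝ} (hR : 0 ≤ R) (v₀ : V) (W : ℕ → Finset V) (r m : ℕ)
    (h : HasT compl (m + r) (Tup F R)) :
    HasT compl m (Tup (F.filter fun A => ∀ j < r, |imb (W j) A| ≤ 2 * (⌊R⌋₊ : ℤ)) R) := by
  induction r generalizing m with
  | zero =>
    refine CutR_mono (fun l hl => ⟨fun A hA => ?_, hl.2⟩) h
    rw [mem_filter]
    exact ⟨hl.1 A hA, fun j hj => absurd hj (Nat.not_lt_zero j)⟩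
  | succ r ih =>
    have h1 : HasT compl (m + 1 + r) (Tup F R) := by
      have e : m + 1 + r = m + (r + 1) := by ring
      rw [e]
      exact h
    have h2 := ih (m + 1) h1
    have hF' : ∀ A ∈ F.filter (fun A => ∀ j < r, |imb (W j) A| ≤ 2 * (⌊R⌋₊ : ℤ)),
        Aᶜ ∈ F.filter (fun A => ∀ j < r, |imb (W j) A| ≤ 2 * (⌊R⌋₊ : ℤ)) := by
      intro A hA
      rw [mem_filter] at hA ⊢
      refine ⟨hF A hA.1, fun j hj => ?_⟩
      rw [imb_compl, abs_neg]
      exact hA.2 j hj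
    have h3 := cutT (ν := (compl : Finset V → Finset V)) (fun A => compl_compl A) (fun A => v₀ ∈ A)
      (fun A => mem_compl) (clo_tup hF' R) (imb (W r)) (imb_compl (W r)) (2 * (⌊R⌋₊ : ℤ)) (by
        intro l hl A hA B hB
        refine (imb_diff (W r) A B).trans ?_
        have h4 : (A ∆ B).card ≤ ⌊R⌋₊ := Nat.le_floor (hl.2 A hA B hB)
        omega) h2
    refine CutR_mono (fun l hl => ⟨fun A hA => ?_, hl.1.2⟩) h3
    have h5 := hl.1.1 A hA
    rw [mem_filter] at h5 ⊢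
    refine ⟨h5.1, fun j hj => ?_⟩
    rcases Nat.lt_succ_iff_lt_or_eq.1 hj with h6 | h6
    · exact h5.2 j h6
    · rw [h6]
      exact hl.2 A hA

end H49.MX
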