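import Pool.Agent.H49.MX.Desc

/-!
# Module CutT: cutting a tower along an odd function

`x : α → ℤ` is odd under `ν` and varies by at most `R` on every tuple with `Q`. Let `c = h (m+1)`, `c⁺` = part of `c` on the lists with some `x > R` (then all `x > 0` there), `c⁻` = part on the lists with some
`x < -R` (then all `x < 0`), `c⁰` = the rest (`Finsupp.filter`). Lists in the support are not empty, so `c = c⁺ + c⁰ + c⁻`. Put `z = h m + bd c⁻`, `g = c⁺ + push ν c⁻`. Then `bd z = bd (h m)` and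
`z + push ν z = bd c + bd c⁻ + bd (push ν c⁻) = bd (g + c⁰)`. CLAIM: `bd g` is supported on lists with `Q` and all `|x| ≤ R`. `bd g + push ν (bd g) = bd (1+ν)(c⁺ + c⁻) = bd (1+ν) (c + c⁰) = bd (1+ν) c⁰`
because `bd (1+ν) c = (1+ν)(1+ν) h m = 0`; this is supported in the slab `{all |x| ≤ R}`. A list `l` with `(bd g) l ≠ 0` has length `m + 1 ≥ 1` and all `x > 0`; then `(push ν (bd g)) l = (bd g) (l.map ν) = 0`
because `l.map ν` has all `x < 0`; so `(bd (1+ν) c⁰) l ≠ 0`, `l` lies in the slab. So `(h 0, .., h (m-1), z)` is a tower with top `z + push ν z` in the slab. Use `descend`.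
-/

set_option autoImplicit false
set_option linter.unusedSectionVars false

namespace H49.MX

open scoped Classical

private lemma CutT_ne {a b : ZMod 2} (h : a + b ≠ 0) : a ≠ 0 ∨ b ≠ 0 := by
  revert a b
  decide

/-- the part of a chain beyond the slab -/
private noncomputable def CutT_f {α : Type} (p : List α → Prop) (c : Ch α) : Ch α := c.filter p

private lemma CutT_f_apply {α : Type} (p : List α → Prop) (c : Ch α) (l : List α) :
    CutT_f p c l = if p l then c l else 0 := by
  unfold CutT_f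
  rw [Finsupp.filter_apply]

private lemma CutT_f_pos {α : Type} {p : List α → Prop} (c : Ch α) {l : List α} (h : p l) :
    CutT_f p c l = c l := by
  rw [CutT_f_apply, if_pos h]

private lemma CutT_f_neg {α : Type} {p : List α → Prop} (c : Ch α) {l : List α} (h : ¬ p l) :
    CutT_f p c l = 0 := by
  rw [CutT_f_apply, if_neg h]

private lemma CutT_f_ne {α : Type} {p : List α → Prop} {c : Ch α} {l : List α}
    (h : CutT_f p c l ≠ 0) : p l ∧ c l ≠ 0 := by
  rw [CutT_f_apply] at h
  by_cases hp : p l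
  · rw [if_pos hp] at h
    exact ⟨hp, h⟩
  · rw [if_neg hp] at h
    exact absurd rfl h

theorem cutT {α : Type} {ν : α → α} (hν : ∀ a, ν (ν a) = a) (pos : α → Prop) (hp : ∀ a, pos (ν a) ↔ ¬ pos a) {Q : List α → Prop}
    (hQ : Clo ν Q) (x : α → ℤ) (hx : ∀ a, x (ν a) = - x a) (R : ℤ) (hl : ∀ l, Q l → ∀ a ∈ l, ∀ b ∈ l, |x a - x b| ≤ R) {m : ℕ}
    (h : HasT ν (m + 1) Q) : HasT ν m (fun l => Q l ∧ ∀ a ∈ l, |x a| ≤ R) := by
  obtain ⟨h, ht⟩ := h
  obtain ⟨c, hc⟩ : ∃ c, c = h (m + 1) := ⟨_, rfl⟩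
  obtain ⟨cp, hcp⟩ : ∃ cp, cp = CutT_f (fun l => ∃ a ∈ l, R < x a) c := ⟨_, rfl⟩
  obtain ⟨cm, hcm⟩ : ∃ cm, cm = CutT_f (fun l => ∃ a ∈ l, x a < -R) c := ⟨_, rfl⟩
  obtain ⟨c0, hc0⟩ : ∃ c0, c0 = c + cp + cm := ⟨_, rfl⟩
  have hmap : ∀ l : List α, (l.map ν).map ν = l := by
    intro l
    rw [List.map_map]
    have : ν ∘ ν = id := funext hν
    rw [this, List.map_id]
  -- supports
  have sc : ∀ l, c l ≠ 0 → l.length = m + 2 ∧ Q l := by
    intro l hl'
    rw [hc] at hl'
    exact ⟨ht.len (m + 1) le_rfl l hl', ht.spt (m + 1) le_rfl l hl'⟩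
  have sp : ∀ l, cp l ≠ 0 → l.length = m + 2 ∧ Q l ∧ ∀ b ∈ l, 0 < x b := by
    intro l h1
    rw [hcp] at h1
    obtain ⟨⟨a, ha, hRa⟩, h2⟩ := CutT_f_ne h1
    obtain ⟨h3, h4⟩ := sc l h2
    refine ⟨h3, h4, fun b hb => ?_⟩
    have h5 := (abs_le.1 (hl l h4 a ha b hb)).2
    omega
  have sm : ∀ l, cm l ≠ 0 → l.length = m + 2 ∧ Q l ∧ ∀ b ∈ l, x b < 0 := by
    intro l h1
    rw [hcm] at h1
    obtain ⟨⟨a, ha, hRa⟩, h2⟩ := CutT_f_ne h1
    obtain ⟨h3, h4⟩ := sc l h2
    refine ⟨h3, h4, fun b hb => ?_⟩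
    have h5 := (abs_le.1 (hl l h4 a ha b hb)).1
    omega
  have s0 : ∀ l, c0 l ≠ 0 → l.length = m + 2 ∧ Q l ∧ ∀ b ∈ l, |x b| ≤ R := by
    intro l h1
    have e1 : c0 l = c l + cp l + cm l := by rw [hc0]; rfl
    have epp : (∃ a ∈ l, R < x a) → cp l = c l := fun hh => by
      rw [hcp]; exact CutT_f_pos c hh
    have epn : (¬ ∃ a ∈ l, R < x a) → cp l = 0 := fun hh => by
      rw [hcp]; exact CutT_f_neg c hh
    have emp : (∃ a ∈ l, x a < -R) → cm l = c l := fun hh => by
      rw [hcm]; exact CutT_f_pos c hh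
    have emn : (¬ ∃ a ∈ l, x a < -R) → cm l = 0 := fun hh => by
      rw [hcm]; exact CutT_f_neg c hh
    have h2 : c l ≠ 0 := by
      intro h2
      apply h1
      have e2 : cp l = 0 := by
        by_cases hh : ∃ a ∈ l, R < x a
        · rw [epp hh, h2]
        · exact epn hh
      have e3 : cm l = 0 := by
        by_cases hh : ∃ a ∈ l, x a < -R
        · rw [emp hh, h2]
        · exact emn hh
      rw [e1, e2, e3, h2, add_zero, add_zero]
    obtain ⟨h3, h4⟩ := sc l h2
    have hself : c l + c l = 0 := CharTwo.add_self_eq_zero (c l)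
    have hP : ¬ ∃ a ∈ l, R < x a := by
      intro hP
      have hM : ¬ ∃ a ∈ l, x a < -R := by
        rintro ⟨b, hb, hb'⟩
        obtain ⟨a, ha, ha'⟩ := hP
        have h5 := (abs_le.1 (hl l h4 a ha b hb)).2
        have h6 := (abs_le.1 (hl l h4 a ha a ha)).2
        omega
      apply h1
      rw [e1, epp hP, emn hM, hself, add_zero]
    have hM : ¬ ∃ a ∈ l, x a < -R := by
      intro hM
      apply h1
      rw [e1, epn hP, emp hM, add_zero, hself]
    refine ⟨h3, h4, fun b hb => ?_⟩
    rw [abs_le]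
    constructor
    · by_contra hcon
      exact hM ⟨b, hb, by omega⟩
    · by_contra hcon
      exact hP ⟨b, hb, by omega⟩
  obtain ⟨g, hg⟩ : ∃ g, g = cp + push ν cm := ⟨_, rfl⟩
  have sg : ∀ l, g l ≠ 0 → l.length = m + 2 ∧ Q l ∧ ∀ b ∈ l, 0 < x b := by
    intro l h1
    have e1 : g l = cp l + cm (l.map ν) := by
      rw [hg, ← push_inv hν cm l]; rfl
    rw [e1] at h1
    rcases CutT_ne h1 with h2 | h2
    · exact sp l h2
    · obtain ⟨h3, h4, h5⟩ := sm _ h2
      refine ⟨by rw [← h3, List.length_map], ?_, fun b hb => ?_⟩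
      · have := hQ.inv _ h4
        rwa [hmap] at this
      · have := h5 (ν b) (List.mem_map_of_mem hb)
        rw [hx] at this
        omega
  have sbg : ∀ l, (bd g) l ≠ 0 → l.length = m + 1 ∧ Q l ∧ ∀ b ∈ l, 0 < x b := by
    intro l' h1
    obtain ⟨l, h2, h3, h4⟩ := bd_spt h1
    obtain ⟨h5, h6, h7⟩ := sg l h2
    exact ⟨by omega, hQ.sub _ _ h3 h6, fun b hb => h7 b (h3.subset hb)⟩
  have sb0 : ∀ l, (bd c0) l ≠ 0 → Q l ∧ ∀ b ∈ l, |x b| ≤ R := by
    intro l' h1
    obtain ⟨l, h2, h3, h4⟩ := bd_spt h1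
    obtain ⟨h5, h6, h7⟩ := s0 l h2
    exact ⟨hQ.sub _ _ h3 h6, fun b hb => h7 b (h3.subset hb)⟩
  -- identities
  have bdc : bd c = h m + push ν (h m) := by
    rw [hc]
    exact ht.bdy m (Nat.lt_succ_self m)
  have id1 : bd c + push ν (bd c) = 0 := by
    rw [bdc, map_add, push_invol hν]
    calc h m + push ν (h m) + (push ν (h m) + h m)
        = (h m + h m) + (push ν (h m) + push ν (h m)) := by abel
      _ = 0 := by rw [add_selfC, add_selfC, add_zero]
  have id2 : bd g + push ν (bd g) = bd c0 + push ν (bd c0) := by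
    have e1 : bd g = bd cp + push ν (bd cm) := by rw [hg, map_add, bd_push]
    have e2 : bd c0 = bd c + bd cp + bd cm := by rw [hc0, map_add, map_add]
    rw [e1, e2, map_add, map_add, map_add, push_invol hν]
    calc bd cp + push ν (bd cm) + (push ν (bd cp) + bd cm)
        = 0 + (bd cp + push ν (bd cm) + (push ν (bd cp) + bd cm)) := by rw [zero_add]
      _ = (bd c + push ν (bd c)) + (bd cp + push ν (bd cm) + (push ν (bd cp) + bd cm)) := by
          rw [id1]
      _ = bd c + bd cp + bd cm + (push ν (bd c) + push ν (bd cp) + push ν (bd cm)) := by abel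
  have slab : ∀ l, (bd g) l ≠ 0 → Q l ∧ ∀ b ∈ l, |x b| ≤ R := by
    intro l h1
    obtain ⟨h2, h3, h4⟩ := sbg l h1
    refine ⟨h3, ?_⟩
    have hne : l ≠ [] := by
      intro h5
      rw [h5] at h2
      simp at h2
    obtain ⟨a, ha⟩ := List.exists_mem_of_ne_nil l hne
    have h5 : (bd g) (l.map ν) = 0 := by
      by_contra hcon
      obtain ⟨-, -, h6⟩ := sbg _ hcon
      have h7 := h6 (ν a) (List.mem_map_of_mem ha)
      have h8 := h4 a ha
      rw [hx] at h7
      omega
    have h6 : (bd g) l + (bd g) (l.map ν) = (bd c0) l + (bd c0) (l.map ν) := by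
      rw [← push_inv hν (bd g) l, ← push_inv hν (bd c0) l]
      have := congrArg (fun F : Ch α => F l) id2
      exact this
    rw [h5, add_zero] at h6
    rw [h6] at h1
    rcases CutT_ne h1 with h7 | h7
    · exact (sb0 l h7).2
    · have h8 := (sb0 _ h7).2
      intro b hb
      have h9 := h8 (ν b) (List.mem_map_of_mem hb)
      rwa [hx, abs_neg] at h9
  obtain ⟨z, hz⟩ : ∃ z, z = h m + bd cm := ⟨_, rfl⟩
  have bz : bd z = bd (h m) := by rw [hz, map_add, bd_bd, add_zero]
  have top : z + push ν z = bd g + bd c0 := by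
    have e1 : bd g = bd cp + push ν (bd cm) := by rw [hg, map_add, bd_push]
    have e2 : bd c0 = bd c + bd cp + bd cm := by rw [hc0, map_add, map_add]
    rw [hz, map_add, e1, e2]
    calc h m + bd cm + (push ν (h m) + push ν (bd cm))
        = (h m + push ν (h m)) + (bd cm + push ν (bd cm)) := by abel
      _ = bd c + (bd cm + push ν (bd cm)) := by rw [bdc]
      _ = (bd cp + bd cp) + (bd c + (bd cm + push ν (bd cm))) := by rw [add_selfC, zero_add]
      _ = bd cp + push ν (bd cm) + (bd c + bd cp + bd cm) := by abel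
  have hT : Tow ν m (fun _ => True) (Function.update h m z) := by
    refine ⟨?_, fun i _ l _ => trivial, ?_, ?_⟩
    · intro i hi l hne
      by_cases him : i = m
      · subst him
        rw [Function.update_self, hz] at hne
        have e1 : (h i + bd cm) l = h i l + (bd cm) l := rfl
        rw [e1] at hne
        rcases CutT_ne hne with h2 | h2
        · exact ht.len i (by omega) l h2
        · obtain ⟨l', h3, h4, h5⟩ := bd_spt h2
          have := (sm l' h3).1
          omega
      · rw [Function.update_of_ne him] at hne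
        exact ht.len i (by omega) l hne
    · by_cases hm : 0 = m
      · subst hm
        rw [Function.update_self, bz]
        exact ht.one
      · rw [Function.update_of_ne hm]
        exact ht.one
    · intro i hi
      rw [Function.update_of_ne (show i ≠ m by omega)]
      by_cases him : i + 1 = m
      · rw [him, Function.update_self, bz, ← him]
        exact ht.bdy i (by omega)
      · rw [Function.update_of_ne him]
        exact ht.bdy i (by omega)
  have hQ' : Clo ν (fun l => Q l ∧ ∀ a ∈ l, |x a| ≤ R) := by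
    refine ⟨?_, ?_⟩
    · rintro l l' hs ⟨h1, h2⟩
      exact ⟨hQ.sub _ _ hs h1, fun a ha => h2 a (hs.subset ha)⟩
    · rintro l ⟨h1, h2⟩
      refine ⟨hQ.inv _ h1, fun a ha => ?_⟩
      obtain ⟨b, hb, rfl⟩ := List.mem_map.1 ha
      rw [hx, abs_neg]
      exact h2 b hb
  obtain ⟨h', hT', -⟩ := descend hν pos hp hQ' hT (by
    intro l hne
    rw [Function.update_self, top] at hne
    have e1 : (bd g + bd c0) l = (bd g) l + (bd c0) l := rfl
    rw [e1] at hne
    rcases CutT_ne hne with h2 | h2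
    · exact slab l h2
    · exact sb0 l h2)
  exact ⟨h', hT'⟩

end H49.MX
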