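import Pool.Agent.H49.FR.Defs

/-!
# Asymptotic bisections (MP_363a78_co): definitions

THEOREM MIX (paper: /team-store/h49_mix_paper.md). `t = d - a + 1`, `g = 2 t - d ≥ 1`, `Mix d t δ` for some `δ > 0`. For every `ε > 0` and `r` every `d`-regular graph on `n > n₀` vertices with vertex
sets `W_0, .., W_(r-1)` has a set `A` with `Part G a a A` (every vertex has at least `a` neighbours on its own side) and `| |A ∩ W_j| - |W_j \ A| | ≤ ε n` for all `j`.

BLOCKS. T (topology): chains, towers, DESCEND, CUT, subdivision, START. C (combinatorics): avalanches, gain, fill, points. G (Gaussian): `Mix` (modules `G*.lean`, helper57). F: assembly.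
-/

set_option autoImplicit false
set_option linter.unusedSectionVars false

namespace H49.MX

open Finset MeasureTheory ProbabilityTheory
open Pool.Agent.H49.FR (nin cut Part)
open scoped Classical symmDiff

/-! ## Block T: chains modulo two of ordered tuples (lists) -/

/-- chains: finite formal sums modulo two of lists; the empty list is allowed (augmented complex) -/
abbrev Ch (α : Type) := List α →₀ ZMod 2

/-- put `a` in front of every list -/
noncomputable def cone {α : Type} (a : α) : Ch α →ₗ[ZMod 2] Ch α :=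
  Finsupp.lmapDomain (ZMod 2) (ZMod 2) (List.cons a)

/-- boundary of one list: the sum of all lists with one entry left out (`bdl [a] = []`, `bdl [] = 0`) -/
noncomputable def bdl {α : Type} : List α → Ch α
  | [] => 0
  | a :: l => Finsupp.single l 1 + cone a (bdl l)

/-- the boundary -/
noncomputable def bd {α : Type} : Ch α →ₗ[ZMod 2] Ch α := Finsupp.linearCombination (ZMod 2) bdl

/-- the image of a chain under a map -/
noncomputable def push {α β : Type} (f : α → β) : Ch α →ₗ[ZMod 2] Ch β :=
  Finsupp.lmapDomain (ZMod 2) (ZMod 2) (List.map f)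

/-- towers of height `m` on the tuples with `Q` -/
structure Tow {α : Type} (ν : α → α) (m : ℕ) (Q : List α → Prop) (h : ℕ → Ch α) : Prop where
  len : ∀ i ≤ m, ∀ l, h i l ≠ 0 → l.length = i + 1
  spt : ∀ i ≤ m, ∀ l, h i l ≠ 0 → Q l
  one : bd (h 0) = Finsupp.single [] 1
  bdy : ∀ i < m, bd (h (i + 1)) = h i + push ν (h i)

/-- there is a tower -/
def HasT {α : Type} (ν : α → α) (m : ℕ) (Q : List α → Prop) : Prop := ∃ h : ℕ → Ch α, Tow ν m Q h

/-- properties of tuples which are inherited by faces and by `ν` -/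
structure Clo {α : Type} (ν : α → α) (Q : List α → Prop) : Prop where
  sub : ∀ l l' : List α, l'.Sublist l → Q l → Q l'
  inv : ∀ l : List α, Q l → Q (l.map ν)

/-- barycentre of a list of points -/
noncomputable def bary {E : Type} [AddCommGroup E] [Module ℝ E] (l : List E) : E := (l.length : ℝ)⁻¹ • l.sum

/-- subdivision of chains of lists of length `k` -/
noncomputable def sd {E : Type} [AddCommGroup E] [Module ℝ E] : ℕ → Ch E →ₗ[ZMod 2] Ch E
  | 0 => LinearMap.id
  | k + 1 => Finsupp.linearCombination (ZMod 2) fun l => cone (bary l) (sd k (bdl l))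

/-- the `l¹`-distance -/
noncomputable def d1 {κ : Type} [Fintype κ] (p p' : κ → ℝ) : ℝ := ∑ i, |p i - p' i|

section Graph

variable {V : Type} [Fintype V] [DecidableEq V]

/-- tuples of states of `F` at distance at most `R` -/
def Tup (F : Finset (Finset V)) (R : ℝ) (l : List (Finset V)) : Prop :=
  (∀ A ∈ l, A ∈ F) ∧ ∀ A ∈ l, ∀ B ∈ l, ((A ∆ B).card : ℝ) ≤ R

/-- complement on points -/
def nuP (p : Finset V → ℝ) : Finset V → ℝ := fun A => p Aᶜ

/-- `p` is a vector of probability weights on the tuple `σ` -/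
structure InH (σ : List (Finset V)) (p : Finset V → ℝ) : Prop where
  nn : ∀ A, 0 ≤ p A
  one : ∑ A, p A = 1
  spt : ∀ A, p A ≠ 0 → A ∈ σ

/-- tuples of points of `P` at distance at most `z`, in the hull of one tuple with `Q` -/
def PTup (Q : List (Finset V) → Prop) (P : Finset (Finset V → ℝ)) (z : ℝ) (l : List (Finset V → ℝ)) : Prop :=
  (∀ p ∈ l, p ∈ P) ∧ (∃ σ, Q σ ∧ ∀ p ∈ l, InH σ p) ∧ ∀ p ∈ l, ∀ p' ∈ l, d1 p p' ≤ z

/-! ## Block C: avalanches, fill, points, mixtures -/

variable (G : SimpleGraph V) [DecidableRel G.Adj]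

/-- the vertices `s 0, .., s (q-1)` outside `A` can be added to `A` one after the other, each having at least `t` neighbours in the current set -/
def AddSeq (t : ℕ) (A : Finset V) (s : ℕ → V) (q : ℕ) : Prop :=
  Set.InjOn s (Set.Iio q) ∧ ∀ i < q, s i ∉ A ∧ t ≤ nin G (s i) (A ∪ (range i).image s)

/-- least number of elements of `s` with which `X` has at least `T` elements -/
noncomputable def cnt (s : ℕ → V) (T : ℕ) (X : Finset V) : ℕ := sInf {c | T ≤ (X ∪ (range c).image s).card}

/-- one filling step -/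
noncomputable def step (s : ℕ → V) (T : ℕ) (X : Finset V) : Finset V := X ∪ (range (cnt s T X)).image s

/-- filling up with targets `T 0, T 1, ..` -/
noncomputable def fill (s : ℕ → ℕ → V) (T : ℕ → ℕ) : ℕ → Finset V
  | 0 => ∅
  | j + 1 => step (s j) (T j) (fill s T j)

/-- targets for the weights `w 0, .., w (M-1)` and the size `q` -/
noncomputable def tgt (q M : ℕ) (w : ℕ → ℝ) (j : ℕ) : ℕ :=
  ⌈(q : ℝ) * ((∑ i ∈ range (j + 1), w i) / ∑ i ∈ range M, w i)⌉₊

/-- the fill: `q` elements of the sequences `s 0, .., s (M-1)` in proportion to the weights -/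
noncomputable def FL (s : ℕ → ℕ → V) (q M : ℕ) (w : ℕ → ℝ) : Finset V := fill s (tgt q M w) M

/-- an enumeration of the pairs of complementary states (`rp j` contains `v₀`), each with an avalanche `s j` of `rp j` or of its complement -/
structure Sys (t q : ℕ) (v₀ : V) (M : ℕ) (rp : ℕ → Finset V) (s : ℕ → ℕ → V) : Prop where
  rep : ∀ j < M, v₀ ∈ rp j
  inj : ∀ i < M, ∀ j < M, rp i = rp j → i = j
  seq : ∀ j < M, AddSeq G t (rp j) (s j) q ∨ AddSeq G t (rp j)ᶜ (s j) q

/-- the weight which `p` gives to the state of the pair `j` to which `s j` can be added -/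
noncomputable def upw (t q : ℕ) (rp : ℕ → Finset V) (s : ℕ → ℕ → V) (p : Finset V → ℝ) (j : ℕ) : ℝ :=
  if AddSeq G t (rp j) (s j) q then p (rp j) else p (rp j)ᶜ

/-- total weight -/
noncomputable def uw (t q M : ℕ) (rp : ℕ → Finset V) (s : ℕ → ℕ → V) (p : Finset V → ℝ) : ℝ :=
  ∑ j ∈ range M, upw G t q rp s p j

/-- the set of `q` vertices to be added at the point `p`; at `nuP p` it is the set to be removed at `p` -/
noncomputable def UU (t q M : ℕ) (rp : ℕ → Finset V) (s : ℕ → ℕ → V) (p : Finset V → ℝ) : Finset V :=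
  FL s q M (upw G t q rp s p)

/-- the level of the field at the point `p` -/
noncomputable def hh (t q M : ℕ) (rp : ℕ → Finset V) (s : ℕ → ℕ → V) (H : ℝ) (p : Finset V → ℝ) : ℝ :=
  H * max (-1) (min 1 (3 * (uw G t q M rp s p - uw G t q M rp s (nuP p))))

/-- the first pair in the support of `p` -/
noncomputable def fpr (rp : ℕ → Finset V) (p : Finset V → ℝ) : ℕ := sInf {j | p (rp j) ≠ 0 ∨ p (rp j)ᶜ ≠ 0}

/-- the base state of the point `p` -/
noncomputable def base (rp : ℕ → Finset V) (p : Finset V → ℝ) : Finset V :=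
  if p (rp (fpr rp p)) ≠ 0 then rp (fpr rp p) else (rp (fpr rp p))ᶜ

end Graph

/-! ## Block G: the interface (helper57) -/

/-- the probability that a standard normal variable is greater than `h` -/
noncomputable def up (h : ℝ) : ℝ := (gaussianReal 0 1).real (Set.Ioi h)

/-- random mixtures: for every point `j ∈ J` a set `e j` between `B j \ W j` and `B j` (up to smoothing), depending on the level `h j` and on the unit vector `y j` -/
def Mix (d t : ℕ) (δ : ℝ) : Prop := ∀ ε : ℝ, 0 < ε → ∃ z : ℝ, 0 < z ∧ ∀ m : ℕ, ∃ n₀ : ℕ,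
  ∀ (V : Type) [Fintype V] [DecidableEq V] (G : SimpleGraph V) [DecidableRel G.Adj],
  G.IsRegularOfDegree d → n₀ ≤ Fintype.card V → ∀ (ι J : Type) [Fintype ι] [DecidableEq ι] [Fintype J], Fintype.card J ≤ m →
  ∀ (B W : J → Finset V) (h : J → ℝ) (y : J → ι → ℝ), (∀ j, W j ⊆ B j) → (∀ j, ∑ k, y j k ^ 2 = 1) → ∃ e : J → Finset V,
    (∀ i j, B j = (B i \ W i)ᶜ → W j = W i → h j = -h i → y j = -y i → e j = (e i)ᶜ) ∧
    (∀ j, (cut G (e j) : ℝ) ≤ (1 - up (h j)) * cut G (B j) + up (h j) * cut G (B j \ W j) + ((2 * t - d) / 2 - δ) * (W j).card +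
      ε * Fintype.card V) ∧
    (∀ i j, |h i - h j| ≤ z → ∑ k, (y i k - y j k) ^ 2 ≤ z →
      ((symmDiff (e i) (e j)).card : ℝ) ≤ (d + 1) * ((symmDiff (B i) (B j)).card + (symmDiff (W i) (W j)).card) +
        ε * Fintype.card V) ∧
    (∀ j, ((symmDiff (e j) (B j)).card : ℝ) ≤ ((d + 1) * up (h j) + ε) * Fintype.card V) ∧
    (∀ j, ((symmDiff (e j) (B j \ W j)).card : ℝ) ≤ ((d + 1) * up (-h j) + ε) * Fintype.card V)

end H49.MX
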