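import Pool.Agent.H49.MX.Ch1

/-!
# Module Desc: half and descend

* `halfT`: if `y` is supported on nonempty lists and `push ν y = y` then `y = t + push ν t`, `t` = the part of `y` on the lists whose first entry is `pos` (`Finsupp.filter`).
* `descend`: a tower of height `m` (on any `Q₀`) whose top `h m + push ν (h m)` is supported on `Q` can be replaced by a tower `h'` of height `m` on `Q`, with the same top. Induction on `m`, for all `h`:
  `y = h m + push ν (h m)`, `y = t + push ν t`. `h m + t` is symmetric, so `h m + t = g + push ν g` (`halfT` again; `g` is supported on lists of length `m + 1`). `m = 0`: `h' = fun _ => t`; `bd t = bd (h 0) + (1+ν) bd g = single [] 1`, because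
  `bd g` is a multiple of `single []`. `m = m' + 1`: `bd t = (1+ν)(h m' + bd g)`; change `h m'` into `h m' + bd g` (`bd bd = 0`; for `m' = 0` the condition `one` is kept); the top of this tower of height `m'`
  is `bd t`, supported on `Q`; by induction there is `h'` on `Q` of height `m'` with top `bd t`; extend it by `h' m = t`. Model: `Pool/Agent/H49/LS/Desc.lean` (complete Lean proof of the same statement for other
  chains).
-/

set_option autoImplicit false
set_option linter.unusedSectionVars false

namespace H49.MX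

open scoped Classical

/-- all lists of the chain have length `k` -/
private def Desc_L {α : Type} (k : ℕ) (c : Ch α) : Prop := ∀ l, c l ≠ 0 → l.length = k

private lemma Desc_add_ne {α : Type} {c c' : Ch α} {l : List α} (h : (c + c') l ≠ 0) :
    c l ≠ 0 ∨ c' l ≠ 0 := by
  by_contra hc
  push Not at hc
  apply h
  rw [Finsupp.add_apply, hc.1, hc.2, add_zero]

private lemma Desc_L_add {α : Type} {k : ℕ} {c c' : Ch α} (h : Desc_L k c) (h' : Desc_L k c') :
    Desc_L k (c + c') := by
  intro l hl
  rcases Desc_add_ne hl with h1 | h1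
  · exact h l h1
  · exact h' l h1

private lemma Desc_L_push {α : Type} {ν : α → α} {k : ℕ} {c : Ch α} (h : Desc_L k c) :
    Desc_L k (push ν c) := by
  intro l hl
  obtain ⟨l2, h2, rfl⟩ := push_spt hl
  rw [List.length_map]
  exact h l2 h2

private lemma Desc_L_bd {α : Type} {k : ℕ} {c : Ch α} (h : Desc_L (k + 1) c) :
    Desc_L k (bd c) := by
  intro l hl
  obtain ⟨l2, h2, -, h4⟩ := bd_spt hl
  have := h l2 h2
  omega

private lemma Desc_push0 {α : Type} {ν : α → α} (hν : ∀ a, ν (ν a) = a) {c : Ch α}
    (h : Desc_L 0 c) : push ν c = c := by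
  ext l
  rw [push_inv hν]
  cases l with
  | nil => rfl
  | cons a l =>
    have h1 : c (a :: l) = 0 := by
      by_contra hc
      exact absurd (h _ hc) (by simp)
    have h2 : c ((a :: l).map ν) = 0 := by
      by_contra hc
      exact absurd (h _ hc) (by simp)
    rw [h1, h2]

theorem halfT {α : Type} {ν : α → α} (hν : ∀ a, ν (ν a) = a) (pos : α → Prop) (hp : ∀ a, pos (ν a) ↔ ¬ pos a)
    {y : Ch α} (hne : ∀ l, y l ≠ 0 → l ≠ []) (hs : push ν y = y) :
    ∃ t : Ch α, (∀ l, t l ≠ 0 → y l ≠ 0) ∧ y = t + push ν t := by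
  set P : List α → Prop := fun l => ∃ a ∈ l.head?, pos a with hP
  have hsl : ∀ l, y (l.map ν) = y l := by
    intro l
    rw [← push_inv hν, hs]
  refine ⟨y.filter P, fun l hl => ?_, ?_⟩
  · by_cases h : P l
    · rwa [Finsupp.filter_apply_pos P y h] at hl
    · rw [Finsupp.filter_apply_neg P y h] at hl
      exact absurd rfl hl
  · ext l
    rw [Finsupp.add_apply, push_inv hν]
    cases l with
    | nil =>
      have h0 : y [] = 0 := by
        by_contra hc
        exact hne [] hc rfl
      have h1 : ¬ P [] := by
        rw [hP]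
        simp
      rw [List.map_nil, Finsupp.filter_apply_neg P y h1, h0, add_zero]
    | cons a l =>
      have h1 : P ((a :: l).map ν) ↔ ¬ P (a :: l) := by
        rw [hP]
        simp [hp a]
      by_cases h : P (a :: l)
      · have h2 : ¬ P ((a :: l).map ν) := fun h3 => (h1.1 h3) h
        rw [Finsupp.filter_apply_pos P y h, Finsupp.filter_apply_neg P y h2, add_zero]
      · rw [Finsupp.filter_apply_neg P y h, Finsupp.filter_apply_pos P y (h1.2 h), zero_add, hsl]

private lemma Desc_half {α : Type} {ν : α → α} (hν : ∀ a, ν (ν a) = a) (pos : α → Prop)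
    (hp : ∀ a, pos (ν a) ↔ ¬ pos a) {k : ℕ} {y : Ch α} (hl : Desc_L (k + 1) y) (hs : push ν y = y) :
    ∃ t : Ch α, Desc_L (k + 1) t ∧ (∀ l, t l ≠ 0 → y l ≠ 0) ∧ y = t + push ν t := by
  obtain ⟨t, h1, h2⟩ := halfT hν pos hp (y := y) (fun l h => by
    rintro rfl
    exact absurd (hl _ h) (by simp)) hs
  exact ⟨t, fun l h => hl l (h1 l h), h1, h2⟩

private lemma Desc_change {α : Type} {ν : α → α} {m : ℕ} {h : ℕ → Ch α}
    (ht : Tow ν m (fun _ => True) h) {q : Ch α} (hq : Desc_L (m + 2) q) :
    Tow ν m (fun _ => True) (Function.update h m (h m + bd q)) := by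
  refine ⟨?_, fun _ _ _ _ => trivial, ?_, ?_⟩
  · intro i hi
    by_cases him : i = m
    · subst him
      rw [Function.update_self]
      exact Desc_L_add (ht.len i le_rfl) (Desc_L_bd hq)
    · rw [Function.update_of_ne him]
      exact ht.len i hi
  · by_cases hm : 0 = m
    · subst hm
      rw [Function.update_self, map_add, bd_bd, add_zero]
      exact ht.one
    · rw [Function.update_of_ne hm]
      exact ht.one
  · intro i hi
    have h1 : i ≠ m := hi.ne
    rw [Function.update_of_ne h1]
    by_cases him : i + 1 = m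
    · rw [him, Function.update_self, map_add, bd_bd, add_zero, ← him]
      exact ht.bdy i hi
    · rw [Function.update_of_ne him]
      exact ht.bdy i hi

private lemma Desc_alg {α : Type} {a b c d : Ch α} (h : a + b = c + d) : d + b = c + a := by
  have h1 : d + b = (c + d) + (c + b) := by
    rw [show (c + d) + (c + b) = (c + c) + (d + b) by abel, add_selfC, zero_add]
  rw [h1, ← h, show a + b + (c + b) = (b + b) + (c + a) by abel, add_selfC, zero_add]

private lemma Desc_alg2 {α : Type} {a b c : Ch α} (h : a + b = c) : b = a + c := by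
  rw [← h, ← add_assoc, add_selfC, zero_add]

private lemma Desc_sym {α : Type} {ν : α → α} (hν : ∀ a, ν (ν a) = a) (c : Ch α) :
    push ν (c + push ν c) = c + push ν c := by
  rw [map_add, push_invol hν, add_comm]

private lemma Desc_core {α : Type} {ν : α → α} (hν : ∀ a, ν (ν a) = a) (pos : α → Prop)
    (hp : ∀ a, pos (ν a) ↔ ¬ pos a) {k : ℕ} {c : Ch α} (hc : Desc_L (k + 1) c) :
    ∃ t g : Ch α, Desc_L (k + 1) t ∧ Desc_L (k + 1) g ∧ (∀ l, t l ≠ 0 → (c + push ν c) l ≠ 0) ∧
      c + push ν c = t + push ν t ∧ t = c + (g + push ν g) := by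
  obtain ⟨t, ht1, ht2, ht3⟩ := Desc_half hν pos hp (Desc_L_add hc (Desc_L_push (ν := ν) hc))
    (Desc_sym hν c)
  have hsy : push ν (c + t) = c + t := by
    rw [map_add, add_comm (push ν c), add_comm c t]
    exact Desc_alg ht3
  obtain ⟨g, hg1, -, hg3⟩ := Desc_half hν pos hp (Desc_L_add hc ht1) hsy
  exact ⟨t, g, ht1, hg1, ht2, ht3, Desc_alg2 hg3⟩

theorem descend {α : Type} {ν : α → α} (hν : ∀ a, ν (ν a) = a) (pos : α → Prop) (hp : ∀ a, pos (ν a) ↔ ¬ pos a) {Q : List α → Prop}
    (hQ : Clo ν Q) {m : ℕ} {h : ℕ → Ch α} (ht : Tow ν m (fun _ => True) h) (hy : ∀ l, (h m + push ν (h m)) l ≠ 0 → Q l) :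
    ∃ h' : ℕ → Ch α, Tow ν m Q h' ∧ h' m + push ν (h' m) = h m + push ν (h m) := by
  induction m generalizing h with
  | zero =>
    obtain ⟨t, g, ht1, hg1, ht2, ht3, e1⟩ := Desc_core hν pos hp (ht.len 0 le_rfl)
    refine ⟨fun _ => t, ⟨?_, ?_, ?_, ?_⟩, ht3.symm⟩
    · intro i hi
      obtain rfl := Nat.le_zero.1 hi
      exact ht1
    · intro i hi l hl
      exact hy l (ht2 l hl)
    · show bd t = _
      rw [e1, map_add, map_add, bd_push, Desc_push0 hν (Desc_L_bd hg1), add_selfC, add_zero]
      exact ht.one
    · intro i hi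
      exact absurd hi (Nat.not_lt_zero i)
  | succ m ih =>
    obtain ⟨t, g, ht1, hg1, ht2, ht3, e1⟩ := Desc_core hν pos hp (ht.len (m + 1) le_rfl)
    have e2 : bd t = (h m + bd g) + push ν (h m + bd g) := by
      rw [e1, map_add, map_add, bd_push, ht.bdy m (Nat.lt_succ_self m), map_add]
      abel
    have ht' : Tow ν m (fun _ => True) h :=
      ⟨fun i hi => ht.len i (by omega), fun _ _ _ _ => trivial, ht.one, fun i hi => ht.bdy i (by omega)⟩
    have hy' : ∀ l, (Function.update h m (h m + bd g) m +
        push ν (Function.update h m (h m + bd g) m)) l ≠ 0 → Q l := by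
      intro l hl
      rw [Function.update_self, ← e2] at hl
      obtain ⟨l2, h2, h3, -⟩ := bd_spt hl
      exact hQ.sub l2 l h3 (hy l2 (ht2 l2 h2))
    obtain ⟨h', hT, he⟩ := ih (Desc_change ht' hg1) hy'
    rw [Function.update_self, ← e2] at he
    refine ⟨Function.update h' (m + 1) t, ⟨?_, ?_, ?_, ?_⟩, ?_⟩
    · intro i hi
      by_cases him : i = m + 1
      · subst him
        rw [Function.update_self]
        exact ht1
      · rw [Function.update_of_ne him]
        exact hT.len i (by omega)
    · intro i hi
      by_cases him : i = m + 1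
      · subst him
        rw [Function.update_self]
        exact fun l hl => hy l (ht2 l hl)
      · rw [Function.update_of_ne him]
        exact hT.spt i (by omega)
    · rw [Function.update_of_ne (Nat.succ_ne_zero m).symm]
      exact hT.one
    · intro i hi
      have h1 : i ≠ m + 1 := hi.ne
      rw [Function.update_of_ne h1]
      by_cases him : i = m
      · subst him
        rw [Function.update_self]
        exact he.symm
      · rw [Function.update_of_ne (by omega)]
        exact hT.bdy i (by omega)
    · rw [Function.update_self]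
      exact ht3.symm

end H49.MX
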