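import Pool.Agent.H49.MX.Defs
import Pool.Agent.H49.FR.Pot

/-!
# Module Dich: the dichotomy (Lemma 1)

Take the largest `k ≤ q` for which some `AddSeq G t A s k` exists (`k = 0`: always); `k < q` by `h1`. `U = A ∪ s[0..k)` has no outside vertex `v` with `t ≤ nin v U` (otherwise `Function.update s k v` is an
`AddSeq` of length `k + 1`). In the same way `k' < q` and `C = A \ s'[0..k')`, no vertex `v ∈ C` has `t ≤ nin v Cᶜ`. Take the largest `k''` with some `AddSeq G t Uᶜ s'' k''` (bounded by `card V`, injectivity);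
`C' = U \ s''[0..k'')`; no `v ∈ C'` has `t ≤ nin v C'ᶜ`. By induction `s'' i ∉ C`: `Uᶜ ∪ s''[0..i) ⊆ Cᶜ`, so `t ≤ nin (s'' i) Cᶜ`, so `s'' i ∉ C` (a vertex of `C` has less). So `C ⊆ C' ⊆ U`,
`|A ∆ C'| ≤ |U \ A| + |U \ C| ≤ k + (k + k') ≤ 3 q`. `C'` is `Part G a a`: `v ∈ C'`: `nin v C'ᶜ < t` so `nin v C' ≥ d - t + 1 = a` (`nin_add`); `v ∉ U`: `nin v C' ≤ nin v U < t`, so `nin v C'ᶜ ≥ a`;
`v = s'' i`: `t ≤ nin v (Uᶜ ∪ s''[0..i)) ≤ nin v C'ᶜ` and `a ≤ t`.
-/

set_option autoImplicit false
set_option linter.unusedSectionVars false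

namespace H49.MX

open Finset
open Pool.Agent.H49.FR (nin cut Part)
open scoped Classical symmDiff

variable {V : Type} [Fintype V] [DecidableEq V] (G : SimpleGraph V) [DecidableRel G.Adj]

private lemma Dich_nin_mono (v : V) {A B : Finset V} (h : A ⊆ B) : nin G v A ≤ nin G v B :=
  Finset.card_le_card (Finset.inter_subset_inter_left h)

private lemma Dich_img (s : ℕ → V) (v : V) {i k : ℕ} (h : i ≤ k) :
    (range i).image (Function.update s k v) = (range i).image s := by
  refine Finset.image_congr fun j hj => ?_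
  have h1 : j < i := by simpa using hj
  exact Function.update_of_ne (by omega) _ _

/-- prolongation of an avalanche -/
private lemma Dich_ext {t : ℕ} {A : Finset V} {s : ℕ → V} {k : ℕ} (h : AddSeq G t A s k) {v : V}
    (hv : v ∉ A ∪ (range k).image s) (hn : t ≤ nin G v (A ∪ (range k).image s)) :
    AddSeq G t A (Function.update s k v) (k + 1) := by
  rw [Finset.mem_union, not_or] at hv
  obtain ⟨hvA, hvs⟩ := hv
  have hne : ∀ i < k, s i ≠ v := fun i hi he =>
    hvs (Finset.mem_image.2 ⟨i, Finset.mem_range.2 hi, he⟩)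
  have hup : ∀ i < k, Function.update s k v i = s i := fun i hi =>
    Function.update_of_ne (by omega) _ _
  refine ⟨?_, fun i hi => ?_⟩
  · intro i hi j hj hij
    have hi' : i < k + 1 := hi
    have hj' : j < k + 1 := hj
    rcases Nat.lt_succ_iff_lt_or_eq.1 hi' with h1 | h1 <;> rcases Nat.lt_succ_iff_lt_or_eq.1 hj' with h2 | h2
    · rw [hup i h1, hup j h2] at hij
      exact h.1 h1 h2 hij
    · subst h2
      rw [hup i h1, Function.update_self] at hij
      exact absurd hij (hne i h1)
    · subst h1
      rw [hup j h2, Function.update_self] at hij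
      exact absurd hij.symm (hne j h2)
    · omega
  · rw [Dich_img s v (by omega : i ≤ k)]
    rcases Nat.lt_succ_iff_lt_or_eq.1 hi with h1 | h1
    · rw [hup i h1]
      exact h.2 i h1
    · subst h1
      rw [Function.update_self]
      exact ⟨hvA, hn⟩

/-- an avalanche which cannot be prolonged -/
private lemma Dich_max [Nonempty V] {t : ℕ} {A : Finset V} {q : ℕ} (h : ∀ s, ¬ AddSeq G t A s q) :
    ∃ k < q, ∃ s, AddSeq G t A s k ∧
      ∀ v, v ∉ A ∪ (range k).image s → nin G v (A ∪ (range k).image s) < t := by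
  have h0 : ∃ s : ℕ → V, AddSeq G t A s 0 := by
    refine ⟨fun _ => Classical.arbitrary V, ?_, fun i hi => absurd hi (Nat.not_lt_zero i)⟩
    intro i hi
    exact absurd hi (Nat.not_lt_zero i)
  have hex : ∃ k, ¬ ∃ s : ℕ → V, AddSeq G t A s k := ⟨q, fun ⟨s, hs⟩ => h s hs⟩
  have h1 := Nat.find_spec hex
  have h2 : Nat.find hex ≤ q := Nat.find_min' hex fun ⟨s, hs⟩ => h s hs
  obtain ⟨k, hk⟩ : ∃ k, Nat.find hex = k + 1 := by
    rcases Nat.eq_zero_or_pos (Nat.find hex) with h3 | h3
    · rw [h3] at h1
      exact absurd h0 h1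
    · exact ⟨Nat.find hex - 1, by omega⟩
  have h3 : ∃ s : ℕ → V, AddSeq G t A s k := by
    have := Nat.find_min hex (m := k) (by omega)
    exact not_not.1 this
  obtain ⟨s, hs⟩ := h3
  refine ⟨k, by omega, s, hs, fun v hv => ?_⟩
  by_contra hc
  rw [hk] at h1
  exact h1 ⟨_, Dich_ext G hs hv (not_lt.1 hc)⟩

private lemma Dich_card {t : ℕ} (A : Finset V) (s : ℕ → V) :
    ¬ AddSeq G t A s (Fintype.card V + 1) := by
  intro h
  have h1 : ((range (Fintype.card V + 1)).image s).card = Fintype.card V + 1 := by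
    rw [Finset.card_image_of_injOn, Finset.card_range]
    intro i hi j hj hij
    exact h.1 (by simpa using hi) (by simpa using hj) hij
  have h2 := Finset.card_le_univ ((range (Fintype.card V + 1)).image s)
  omega

theorem dich {d t a : ℕ} (hreg : G.IsRegularOfDegree d) (ha : a + t = d + 1) (hat : a ≤ t) (A : Finset V) (q : ℕ)
    (h1 : ∀ s, ¬ AddSeq G t A s q) (h2 : ∀ s, ¬ AddSeq G t Aᶜ s q) :
    ∃ C : Finset V, Part G a a C ∧ (A ∆ C).card ≤ 3 * q := by
  rcases isEmpty_or_nonempty V with hV | hV
  · refine ⟨∅, fun v => (hV.false v).elim, ?_⟩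
    rw [Finset.eq_empty_of_isEmpty (A ∆ ∅)]
    simp
  obtain ⟨k, hk, s, hs, hU⟩ := Dich_max G h1
  obtain ⟨k', hk', s', hs', hC⟩ := Dich_max G h2
  obtain ⟨k'', -, s'', hs'', hD⟩ := Dich_max G (Dich_card G (t := t) (A ∪ (range k).image s)ᶜ)
  set U := A ∪ (range k).image s with hUdef
  set U' := Aᶜ ∪ (range k').image s' with hU'def
  set W := Uᶜ ∪ (range k'').image s'' with hWdef
  have hUc : Uᶜ ⊆ U' := by
    intro v hv
    rw [Finset.mem_compl, hUdef, Finset.mem_union, not_or] at hv
    exact Finset.mem_union_left _ (Finset.mem_compl.2 hv.1)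
  have hind : ∀ i < k'', s'' i ∈ U' := by
    intro i
    induction i using Nat.strong_induction_on with
    | _ i ih =>
      intro hi
      have hsub : Uᶜ ∪ (range i).image s'' ⊆ U' := by
        refine Finset.union_subset hUc fun v hv => ?_
        obtain ⟨j, hj, rfl⟩ := Finset.mem_image.1 hv
        have hj' := Finset.mem_range.1 hj
        exact ih j hj' (by omega)
      by_contra hc
      have h3 := hC (s'' i) hc
      have h4 := (hs''.2 i hi).2
      have h5 := Dich_nin_mono G (s'' i) hsub
      omega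
  have hWU : W ⊆ U' := by
    refine Finset.union_subset hUc fun v hv => ?_
    obtain ⟨j, hj, rfl⟩ := Finset.mem_image.1 hv
    exact hind j (Finset.mem_range.1 hj)
  have hWc : Wᶜ ⊆ U := by
    intro v hv
    rw [Finset.mem_compl, hWdef, Finset.mem_union, not_or, Finset.mem_compl, not_not] at hv
    exact hv.1
  have hadd : ∀ v, nin G v Wᶜ + nin G v W = d := by
    intro v
    have h3 := Pool.Agent.H49.FR.nin_add G v W
    rw [hreg.degree_eq v] at h3
    omega
  refine ⟨Wᶜ, fun v => ⟨fun hv => ?_, fun hv => ?_⟩, ?_⟩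
  · have h3 := hD v (Finset.mem_compl.1 hv)
    have h4 := hadd v
    omega
  · rw [compl_compl]
    rw [Finset.mem_compl, not_not, hWdef, Finset.mem_union] at hv
    rcases hv with hv | hv
    · have h3 := hU v (Finset.mem_compl.1 hv)
      have h4 := hadd v
      have h5 := Dich_nin_mono G v hWc
      omega
    · obtain ⟨i, hi, rfl⟩ := Finset.mem_image.1 hv
      have hi' := Finset.mem_range.1 hi
      have h3 := (hs''.2 i hi').2
      have hsub : Uᶜ ∪ (range i).image s'' ⊆ W := by
        refine Finset.union_subset_union_right (Finset.image_subset_image ?_)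
        exact Finset.range_subset_range.2 hi'.le
      have h5 := Dich_nin_mono G (s'' i) hsub
      omega
  · have hsub : A ∆ Wᶜ ⊆ (range k).image s ∪ (range k').image s' := by
      intro v hv
      rw [Finset.mem_symmDiff] at hv
      rcases hv with ⟨h3, h4⟩ | ⟨h3, h4⟩
      · have h5 : v ∈ U' := hWU (not_not.1 fun h => h4 (Finset.mem_compl.2 h))
        rw [hU'def, Finset.mem_union, Finset.mem_compl] at h5
        rcases h5 with h5 | h5
        · exact absurd h3 h5
        · exact Finset.mem_union_right _ h5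
      · have h5 : v ∈ U := hWc h3
        rw [hUdef, Finset.mem_union] at h5
        rcases h5 with h5 | h5
        · exact absurd h5 h4
        · exact Finset.mem_union_left _ h5
    have h3 := Finset.card_le_card hsub
    have h4 := Finset.card_union_le ((range k).image s) ((range k').image s')
    have h5 : ((range k).image s).card ≤ k := by
      simpa using Finset.card_image_le (s := range k) (f := s)
    have h6 : ((range k').image s').card ≤ k' := by
      simpa using Finset.card_image_le (s := range k') (f := s')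
    omega

end H49.MX
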