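import Pool.Agent.H49.MX.Defs

/-!
# Module GUp: the tail of the normal distribution

`up h = (gaussianReal 0 1).real (Ioi h)`. `up_neg`: `Iio h` and `Ioi (-h)` have the same mass (the law is symmetric: `gaussianReal_map_neg`), there are no atoms (`noAtoms_gaussianReal`). `up_small`: `up h → 0`
(`tendsto_measure_iInter` or Chebyshev, or integrability).
-/

set_option autoImplicit false
set_option linter.unusedSectionVars false

namespace H49.MX

open MeasureTheory ProbabilityTheory

theorem up_nonneg (h : ℝ) : 0 ≤ up h := measureReal_nonneg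

theorem up_le_one (h : ℝ) : up h ≤ 1 := measureReal_le_one

theorem up_anti {h h' : ℝ} (hh : h ≤ h') : up h' ≤ up h := measureReal_mono (Set.Ioi_subset_Ioi hh)

private theorem GUp_cdf (h : ℝ) : up h = 1 - (gaussianReal 0 1).real (Set.Iic h) := by
  unfold up
  rw [← Set.compl_Iic, probReal_compl_eq_one_sub measurableSet_Iic]

theorem up_neg (h : ℝ) : up (-h) = 1 - up h := by
  have h1 : up (-h) = (gaussianReal 0 1).real (Set.Iio h) := by
    unfold up
    have e : gaussianReal 0 1 = (gaussianReal 0 1).map (fun x : ℝ => -x) := by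
      rw [gaussianReal_map_neg, neg_zero]
    conv_lhs => rw [e]
    rw [map_measureReal_apply measurable_neg measurableSet_Ioi]
    congr 1
    ext x
    simp
  have h2 : (gaussianReal 0 1).real (Set.Iio h) = (gaussianReal 0 1).real (Set.Iic h) := by
    have := nullSingletonClass_gaussianReal (μ := 0) (v := 1) one_ne_zero
    exact measureReal_congr Iio_ae_eq_Iic
  rw [h1, h2, GUp_cdf]
  ring

theorem up_small {ε : ℝ} (hε : 0 < ε) : ∃ H : ℝ, 0 < H ∧ ∀ h, H ≤ h → up h ≤ ε := by
  have ht := tendsto_cdf_atTop (gaussianReal 0 1)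
  have he := ht.eventually (lt_mem_nhds (show 1 - ε < 1 by linarith))
  obtain ⟨H, hH⟩ := Filter.eventually_atTop.1 he
  refine ⟨max H 1, lt_max_of_lt_right one_pos, fun h hh => ?_⟩
  have h1 := hH h ((le_max_left _ _).trans hh)
  rw [cdf_eq_real] at h1
  rw [GUp_cdf]
  linarith

end H49.MX
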