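import Pool.Agent.H49.MX.PtC
import Pool.Agent.H49.MX.GUp

/-!
# Module ECut: the cut of the mixture

`A = base rp p`, `U = UU p`, `D' = UU (nuP p)`, `u = uw p`, `w = uw (nuP p)`, `u + w = 1`, `C = (2 d + 2 g)(D + 1)`, `R ≥ 0`, `B = BB A U`, `B \ W = A \ D'` (`BB_sdiff`), `|W| ≤ |U| + |D'|`, `(2 t - d)/2 = g/2`.
`cutU`: `cut B ≤ c + C R - g |U|`, `cutD`: `cut (A \ D') ≤ c + C R - g |D'|`.
* `u, w > 0`: `|U| = |D'| = q`, `E ≤ c + C R - g q + (g/2 - δ) 2 q + ε n`.
* `u = 0`: `U = ∅`, `|D'| = q`, `hh = -H`, `up (-H) = 1 - up H`: `E ≤ up H (c + C R) + (1 - up H)(c + C R - g q) + (g/2 - δ) q + ε n ≤ c + C R + g up H q - 2 δ q + ε n` because `δ ≤ g/2`.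
* `w = 0`: `D' = ∅`, `|U| = q`, `hh = H`: the same.
-/

set_option autoImplicit false
set_option linter.unusedSectionVars false

namespace H49.MX

open Finset
open Pool.Agent.H49.FR (nin cut Part)
open scoped Classical symmDiff

variable {V : Type} [Fintype V] [DecidableEq V] (G : SimpleGraph V) [DecidableRel G.Adj] {M D : ℕ} {rp : ℕ → Finset V} {R : ℝ}
  {σ : List (Finset V)} {t q : ℕ} {v₀ : V} {s : ℕ → ℕ → V}

theorem BB_sdiff (A U D : Finset V) : BB A U \ WW A U D = A \ D := by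
  ext x
  simp only [BB, WW, mem_sdiff, mem_union, mem_inter]
  tauto

theorem WW_sub (A U D : Finset V) : WW A U D ⊆ BB A U := by
  intro x hx
  simp only [BB, WW, mem_sdiff, mem_union, mem_inter] at hx ⊢
  tauto

theorem WW_card (A U D : Finset V) : (WW A U D).card ≤ U.card + D.card :=
  (card_union_le _ _).trans (Nat.add_le_add (card_le_card sdiff_subset) (card_le_card inter_subset_left))

theorem BB_compl (A U D : Finset V) : BB Aᶜ D = (BB A U \ WW A U D)ᶜ := by
  rw [BB_sdiff]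
  ext x
  simp only [BB, mem_sdiff, mem_union, mem_compl]
  tauto

theorem WW_compl (A U D : Finset V) : WW Aᶜ D U = WW A U D := by
  ext x
  simp only [WW, mem_sdiff, mem_union, mem_inter, mem_compl]
  tauto

private theorem ECut_num {x y a b A c CR g δ E r κ : ℝ} (hx : x + g * a ≤ A + CR) (hy : y + g * b ≤ A + CR)
    (hA : A ≤ c) (hk0 : 0 ≤ κ) (hk1 : κ ≤ 1) (W : ℝ) (hW : W ≤ a + b) (hδ : δ ≤ g / 2)
    (hE : E ≤ (1 - κ) * x + κ * y + (g / 2 - δ) * W + r) :
    E ≤ c + CR - (1 - κ) * (g * a) - κ * (g * b) + (g / 2 - δ) * (a + b) + r := by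
  have h1 : (1 - κ) * x ≤ (1 - κ) * (c + CR - g * a) :=
    mul_le_mul_of_nonneg_left (by linarith) (by linarith)
  have h2 : κ * y ≤ κ * (c + CR - g * b) := mul_le_mul_of_nonneg_left (by linarith) hk0
  have h3 : (g / 2 - δ) * W ≤ (g / 2 - δ) * (a + b) := mul_le_mul_of_nonneg_left hW (by linarith)
  have h4 : (1 - κ) * (c + CR - g * a) + κ * (c + CR - g * b) =
      c + CR - (1 - κ) * (g * a) - κ * (g * b) := by ring
  linarith

theorem ecut {d g : ℕ} (hreg : G.IsRegularOfDegree d) (hg : 2 * t = d + g) (hS : Sys G t q v₀ M rp s) (h : Hul M rp R D σ)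
    {p : Finset V → ℝ} (hp : InH σ p) {H c δ ε E n : ℝ} (hH : 0 < H) (hδ : 0 < δ) (hδg : δ ≤ g / 2) (hc : (cut G (base rp p) : ℝ) ≤ c)
    (hE : E ≤ (1 - up (hh G t q M rp s H p)) * cut G (BB (base rp p) (UU G t q M rp s p)) +
      up (hh G t q M rp s H p) * cut G (BB (base rp p) (UU G t q M rp s p) \
        WW (base rp p) (UU G t q M rp s p) (UU G t q M rp s (nuP p))) +
      ((2 * t - d) / 2 - δ) * (WW (base rp p) (UU G t q M rp s p) (UU G t q M rp s (nuP p))).card + ε * n) :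
    E ≤ c - 2 * δ * q + g * up H * q + (2 * d + 2 * g) * (D + 1) * R + ε * n := by
  have hgr : (2 * (t : ℝ) - d) / 2 = (g : ℝ) / 2 := by
    have h1 : (2 : ℝ) * t = d + g := by exact_mod_cast hg
    rw [h1]
    ring
  have hU := cutU G hreg hg hS h hp
  have hD := cutD G hreg hg hS h hp
  have huw := uw_add G hS h hp
  have hu0 : 0 ≤ uw G t q M rp s p := uw_nonneg G hp
  have hw0 : 0 ≤ uw G t q M rp s (nuP p) := uw_nonneg G hp.nuP
  rw [BB_sdiff, hgr] at hE
  have hW : ((WW (base rp p) (UU G t q M rp s p) (UU G t q M rp s (nuP p))).card : ℝ) ≤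
      ((UU G t q M rp s p).card : ℝ) + ((UU G t q M rp s (nuP p)).card : ℝ) := by
    exact_mod_cast WW_card _ _ _
  have hnum := ECut_num (x := (cut G (BB (base rp p) (UU G t q M rp s p)) : ℝ)) hU hD hc
    (up_nonneg _) (up_le_one _) _ hW hδg hE
  have hq : (0 : ℝ) ≤ (q : ℝ) := Nat.cast_nonneg q
  have hg0 : (0 : ℝ) ≤ (g : ℝ) := Nat.cast_nonneg g
  have hupq : 0 ≤ (g : ℝ) * up H * q := mul_nonneg (mul_nonneg hg0 (up_nonneg H)) hq
  have hδq : 0 ≤ ((g : ℝ) / 2 - δ) * q := mul_nonneg (by linarith) hq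
  rcases hu0.eq_or_lt with hu | hu
  · -- `u = 0`
    have hw : uw G t q M rp s (nuP p) = 1 := by linarith
    have hUe := emptyU G hu.symm
    have hDc : (UU G t q M rp s (nuP p)).card = q :=
      cardU G hS hp.nuP (by rw [hw]; exact one_pos)
    have hhh : hh G t q M rp s H p = -H := by
      unfold hh
      rw [← hu, hw]
      norm_num
    rw [hUe, hDc, hhh, up_neg] at hnum
    simp only [card_empty, Nat.cast_zero, mul_zero] at hnum
    have h5 : c + (2 * (d : ℝ) + 2 * g) * (D + 1) * R - 0 - (1 - up H) * (g * q) +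
        ((g : ℝ) / 2 - δ) * (0 + q) + ε * n =
        c - 2 * δ * q + g * up H * q + (2 * (d : ℝ) + 2 * g) * (D + 1) * R + ε * n -
          ((g : ℝ) / 2 - δ) * q := by ring
    linarith
  · rcases hw0.eq_or_lt with hw | hw
    · -- `w = 0`
      have hu' : uw G t q M rp s p = 1 := by linarith
      have hDe := emptyU G hw.symm
      have hUc : (UU G t q M rp s p).card = q := cardU G hS hp hu
      have hhh : hh G t q M rp s H p = H := by
        unfold hh
        rw [hu', ← hw]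
        norm_num
      rw [hDe, hUc, hhh] at hnum
      simp only [card_empty, Nat.cast_zero, mul_zero] at hnum
      have h5 : c + (2 * (d : ℝ) + 2 * g) * (D + 1) * R - (1 - up H) * (g * q) - 0 +
          ((g : ℝ) / 2 - δ) * (q + 0) + ε * n =
          c - 2 * δ * q + g * up H * q + (2 * (d : ℝ) + 2 * g) * (D + 1) * R + ε * n -
            ((g : ℝ) / 2 - δ) * q := by ring
      linarith
    · have hUc : (UU G t q M rp s p).card = q := cardU G hS hp hu
      have hDc : (UU G t q M rp s (nuP p)).card = q := cardU G hS hp.nuP hw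
      rw [hDc, hUc] at hnum
      have h5 : c + (2 * (d : ℝ) + 2 * g) * (D + 1) * R -
          (1 - up (hh G t q M rp s H p)) * (g * q) - up (hh G t q M rp s H p) * (g * q) +
          ((g : ℝ) / 2 - δ) * (q + q) + ε * n =
          c - 2 * δ * q + (2 * (d : ℝ) + 2 * g) * (D + 1) * R + ε * n := by ring
      linarith

end H49.MX
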