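import Pool.Agent.H49.MX.Fill

/-!
# Module FillL: the fill is Lipschitz

* `step_lip`: `Y = X ∪ s[0..c)`, `Y' = X' ∪ s[0..c')`, say `c ≤ c'`. `Y \ Y' ⊆ X \ X'`. `|Y' \ Y| = |Y'| - |Y| + |Y \ Y'|`, `|Y| = max T |X|`, `|Y'| = max T' |X'|`, so `|Y'| - |Y| ≤ |T - T'| + |X' \ X|` (if
  `|Y'| = T'`: `≤ T' - T`; if `|Y'| = |X'|`: `≤ |X'| - |X| ≤ |X' \ X|`; and `|X' \ X|, |T - T'| ≥ 0`). Sum: `≤ 2 |X \ X'| + |X' \ X| + |T - T'|`.
* `tgt_lip`: `|a/w - a'/w'| ≤ |a - a'|/w + (a'/w') |w - w'|/w ≤ 3 z + 3 z` (partial sums `a, a'`, totals `w, w' ≥ 1/3`, `a' ≤ w'`), so the real targets differ by at most `6 z q` and the rounded ones by at most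
  `6 z q + 1`.
* `FL_lip`: by induction on `j ≤ M`: `|fill j ∆ fill' j| ≤ (2 ^ j - 1) (6 z q + 1)`.
-/

set_option autoImplicit false
set_option linter.unusedSectionVars false

namespace H49.MX

open Finset
open scoped Classical symmDiff

variable {V : Type} [Fintype V] [DecidableEq V]

private lemma FillL_sd (X Y : Finset V) : (X ∆ Y).card = (X \ Y).card + (Y \ X).card := by
  rw [symmDiff_def, Finset.sup_eq_union, Finset.card_union_of_disjoint disjoint_sdiff_sdiff]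

private lemma FillL_one {s : ℕ → V} {q T T' : ℕ} (hs : Set.InjOn s (Set.Iio q)) (hT : T ≤ q)
    (hT' : T' ≤ q) (X X' : Finset V) (hc : cnt s T X ≤ cnt s T' X') :
    ((step s T X ∆ step s T' X').card : ℝ) ≤ 2 * ((X ∆ X').card : ℝ) + |(T : ℝ) - T'| := by
  have h1 := step_card hs hT X
  have h2 := step_card hs hT' X'
  have h3 : (step s T X \ step s T' X') ⊆ X \ X' := by
    intro x hx
    rw [mem_sdiff] at hx
    obtain ⟨hx1, hx2⟩ := hx
    unfold step at hx1 hx2
    rw [mem_union, not_or] at hx2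
    rw [mem_union] at hx1
    rw [mem_sdiff]
    refine ⟨?_, hx2.1⟩
    rcases hx1 with h | h
    · exact h
    · exfalso
      refine hx2.2 ?_
      obtain ⟨k, hk, rfl⟩ := mem_image.1 h
      exact mem_image_of_mem s (mem_range.2 (lt_of_lt_of_le (mem_range.1 hk) hc))
  have h4 := card_le_card h3
  set Y := step s T X
  set Y' := step s T' X'
  have e1 := Finset.card_sdiff_add_card_inter Y Y'
  have e2 := Finset.card_sdiff_add_card_inter Y' Y
  rw [inter_comm] at e2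
  have e3 := Finset.card_sdiff_add_card_inter X X'
  have e4 := Finset.card_sdiff_add_card_inter X' X
  rw [inter_comm] at e4
  rw [FillL_sd, FillL_sd]
  have g1 : ((Y \ Y').card : ℝ) + (Y ∩ Y').card = Y.card := by exact_mod_cast e1
  have g2 : ((Y' \ Y).card : ℝ) + (Y ∩ Y').card = Y'.card := by exact_mod_cast e2
  have g3 : ((X \ X').card : ℝ) + (X ∩ X').card = X.card := by exact_mod_cast e3
  have g4 : ((X' \ X).card : ℝ) + (X ∩ X').card = X'.card := by exact_mod_cast e4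
  have g5 : ((Y \ Y').card : ℝ) ≤ (X \ X').card := by exact_mod_cast h4
  have k1 : (T : ℝ) ≤ Y.card := by
    rw [h1]
    exact_mod_cast le_max_left _ _
  have k2 : (X.card : ℝ) ≤ Y.card := by
    rw [h1]
    exact_mod_cast le_max_right _ _
  have p1 : (0 : ℝ) ≤ (X \ X').card := Nat.cast_nonneg _
  have p2 : (0 : ℝ) ≤ (X' \ X).card := Nat.cast_nonneg _
  have a1 := neg_abs_le ((T : ℝ) - T')
  have a2 := abs_nonneg ((T : ℝ) - T')
  push_cast
  rcases le_total T' X'.card with h | h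
  · have k3 : (Y'.card : ℝ) = X'.card := by
      rw [h2, max_eq_right h]
    linarith
  · have k3 : (Y'.card : ℝ) = T' := by
      rw [h2, max_eq_left h]
    linarith

theorem step_lip {s : ℕ → V} {q T T' : ℕ} (hs : Set.InjOn s (Set.Iio q)) (hT : T ≤ q) (hT' : T' ≤ q) (X X' : Finset V) :
    ((step s T X ∆ step s T' X').card : ℝ) ≤ 2 * ((X ∆ X').card : ℝ) + |(T : ℝ) - T'| := by
  rcases le_total (cnt s T X) (cnt s T' X') with h | h
  · exact FillL_one hs hT hT' X X' h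
  · have h1 := FillL_one hs hT' hT X' X h
    rw [symmDiff_comm, symmDiff_comm X' X, abs_sub_comm] at h1
    exact h1

private lemma FillL_ceil {x y : ℝ} (hx : 0 ≤ x) (hy : 0 ≤ y) :
    |(⌈x⌉₊ : ℝ) - ⌈y⌉₊| ≤ |x - y| + 1 := by
  have h1 := Nat.le_ceil x
  have h2 := Nat.ceil_lt_add_one hx
  have h3 := Nat.le_ceil y
  have h4 := Nat.ceil_lt_add_one hy
  have h5 := le_abs_self (x - y)
  have h6 := neg_abs_le (x - y)
  rw [abs_le]
  constructor <;> linarith

theorem tgt_lip {q M : ℕ} {w w' : ℕ → ℝ} {z : ℝ} (hw : ∀ j < M, 0 ≤ w j) (hw' : ∀ j < M, 0 ≤ w' j)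
    (h1 : 1 / 3 ≤ ∑ i ∈ range M, w i) (h2 : 1 / 3 ≤ ∑ i ∈ range M, w' i) (hz : ∑ i ∈ range M, |w i - w' i| ≤ z) {j : ℕ} (hj : j < M) :
    |(tgt q M w j : ℝ) - tgt q M w' j| ≤ 6 * z * q + 1 := by
  have hsub : range (j + 1) ⊆ range M := range_subset_range.2 hj
  have hz0 : 0 ≤ z := (sum_nonneg fun i _ => abs_nonneg _).trans hz
  have pa : ∀ u : ℕ → ℝ, (∀ i < M, 0 ≤ u i) → 0 ≤ ∑ i ∈ range (j + 1), u i := fun u hu =>
    sum_nonneg fun i hi => hu i (mem_range.1 (hsub hi))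
  have pb : ∑ i ∈ range (j + 1), w' i ≤ ∑ i ∈ range M, w' i :=
    sum_le_sum_of_subset_of_nonneg hsub fun i hi _ => hw' i (mem_range.1 hi)
  have d1 : |(∑ i ∈ range (j + 1), w i) - ∑ i ∈ range (j + 1), w' i| ≤ z := by
    rw [← sum_sub_distrib]
    refine (abs_sum_le_sum_abs _ _).trans (le_trans ?_ hz)
    exact sum_le_sum_of_subset_of_nonneg hsub fun i _ _ => abs_nonneg _
  have d2 : |(∑ i ∈ range M, w i) - ∑ i ∈ range M, w' i| ≤ z := by
    rw [← sum_sub_distrib]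
    exact (abs_sum_le_sum_abs _ _).trans hz
  have q1 := pa w hw
  have q2 := pa w' hw'
  unfold tgt
  set a := ∑ i ∈ range (j + 1), w i
  set a' := ∑ i ∈ range (j + 1), w' i
  set W := ∑ i ∈ range M, w i
  set W' := ∑ i ∈ range M, w' i
  have hW : 0 < W := by linarith
  have hW' : 0 < W' := by linarith
  have hq : (0 : ℝ) ≤ q := Nat.cast_nonneg q
  refine (FillL_ceil (mul_nonneg hq (div_nonneg q1 hW.le))
    (mul_nonneg hq (div_nonneg q2 hW'.le))).trans ?_
  have key : |a / W - a' / W'| ≤ 6 * z := by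
    have e : a / W - a' / W' = ((a - a') + a' / W' * (W' - W)) / W := by
      field_simp
      ring
    rw [e, abs_div, abs_of_pos hW, div_le_iff₀ hW]
    have r1 : |a' / W'| ≤ 1 := by
      rw [abs_of_nonneg (div_nonneg q2 hW'.le)]
      exact (div_le_one hW').2 pb
    have r2 : |a' / W' * (W' - W)| ≤ z := by
      rw [abs_mul, abs_sub_comm W' W]
      calc |a' / W'| * |W - W'| ≤ 1 * z := mul_le_mul r1 d2 (abs_nonneg _) zero_le_one
        _ = z := one_mul z
    have r3 := abs_add_le (a - a') (a' / W' * (W' - W))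
    nlinarith
  rw [← mul_sub, abs_mul, abs_of_nonneg hq]
  have := mul_le_mul_of_nonneg_left key hq
  linarith

theorem FL_lip {s : ℕ → ℕ → V} {q M : ℕ} {w w' : ℕ → ℝ} {z : ℝ} (hs : ∀ j < M, Set.InjOn (s j) (Set.Iio q)) (hw : ∀ j < M, 0 ≤ w j)
    (hw' : ∀ j < M, 0 ≤ w' j) (h1 : 1 / 3 ≤ ∑ i ∈ range M, w i) (h2 : 1 / 3 ≤ ∑ i ∈ range M, w' i)
    (hz : ∑ i ∈ range M, |w i - w' i| ≤ z) :
    ((FL s q M w ∆ FL s q M w').card : ℝ) ≤ 2 ^ M * (6 * z * q + 1) := by
  have hz0 : 0 ≤ z := (sum_nonneg fun i _ => abs_nonneg _).trans hz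
  have hK : 0 ≤ 6 * z * (q : ℝ) + 1 := by positivity
  have key : ∀ j ≤ M, ((fill s (tgt q M w) j ∆ fill s (tgt q M w') j).card : ℝ) ≤
      (2 ^ j - 1) * (6 * z * q + 1) := by
    intro j
    induction j with
    | zero =>
      intro _
      simp [fill]
    | succ j ih =>
      intro hj
      have hj' : j < M := hj
      have a1 := ih hj'.le
      have a2 := step_lip (hs j hj') (tgt_le (q := q) hw hj') (tgt_le (q := q) hw' hj')
        (fill s (tgt q M w) j) (fill s (tgt q M w') j)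
      have a3 := tgt_lip (q := q) hw hw' h1 h2 hz hj'
      unfold fill
      rw [pow_succ]
      linarith
  have h := key M le_rfl
  unfold FL
  linarith

end H49.MX
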