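import Pool.Agent.H49.MX.PtA

/-!
# Module PtV: the unit vectors

For every `A` at most one of `A, Aᶜ` lies in `σ` (`Hul.not_compl`), so `p A * p Aᶜ = 0`, `yv p A ^ 2 = (p A + p Aᶜ) / 2`, the sum is `1` (`A ↦ Aᶜ` is a bijection). For `yv_diff`: if `Aᶜ ∉ σ` then
`(yv p A - yv p' A) ^ 2 = (√(p A) - √(p' A)) ^ 2 / 2 ≤ |p A - p' A| / 2`, otherwise the same with `Aᶜ`; so it is always `≤ (|p A - p' A| + |p Aᶜ - p' Aᶜ|) / 2`. (`(√a - √b)² ≤ |a - b|` for `a, b ≥ 0`.)
-/

set_option autoImplicit false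
set_option linter.unusedSectionVars false

namespace H49.MX

open Finset
open scoped Classical symmDiff

variable {V : Type} [Fintype V] [DecidableEq V] {M D : ℕ} {rp : ℕ → Finset V} {R : ℝ} {σ : List (Finset V)}

private theorem PtV_sqrt {a b : ℝ} (ha : 0 ≤ a) (hb : 0 ≤ b) :
    (Real.sqrt a - Real.sqrt b) ^ 2 ≤ |a - b| := by
  have e : a - b = (Real.sqrt a - Real.sqrt b) * (Real.sqrt a + Real.sqrt b) := by
    have h1 := Real.mul_self_sqrt ha
    have h2 := Real.mul_self_sqrt hb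
    nlinarith
  have h3 : |Real.sqrt a - Real.sqrt b| ≤ Real.sqrt a + Real.sqrt b := by
    rw [abs_le]
    constructor <;> linarith [Real.sqrt_nonneg a, Real.sqrt_nonneg b]
  have h4 : 0 ≤ Real.sqrt a + Real.sqrt b := by positivity
  rw [e, abs_mul, abs_of_nonneg h4, ← sq_abs, pow_two]
  exact mul_le_mul_of_nonneg_left h3 (abs_nonneg _)

private theorem PtV_zero (h : Hul M rp R D σ) (A : Finset V) :
    (∀ p : Finset V → ℝ, InH σ p → p Aᶜ = 0) ∨ (∀ p : Finset V → ℝ, InH σ p → p A = 0) := by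
  by_cases hA : A ∈ σ
  · left
    intro p hp
    by_contra h1
    exact h.not_compl hA (hp.spt _ h1)
  · right
    intro p hp
    by_contra h1
    exact hA (hp.spt _ h1)

private theorem PtV_sum_compl (g : Finset V → ℝ) : ∑ A : Finset V, g Aᶜ = ∑ A, g A :=
  Equiv.sum_comp (compl_involutive.toPerm (compl : Finset V → Finset V)) g

theorem yv_nu (p : Finset V → ℝ) : yv (nuP p) = - yv p := by
  funext A
  simp only [yv, nuP, compl_compl, Pi.neg_apply]
  ring

theorem yv_one (h : Hul M rp R D σ) {p : Finset V → ℝ} (hp : InH σ p) : ∑ A, yv p A ^ 2 = 1 := by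
  have key : ∀ A, yv p A ^ 2 = (p A + p Aᶜ) / 2 := by
    intro A
    unfold yv
    rw [div_pow, Real.sq_sqrt (by norm_num : (0 : ℝ) ≤ 2)]
    rcases PtV_zero h A with h1 | h1
    · rw [h1 p hp, Real.sqrt_zero, sub_zero, Real.sq_sqrt (hp.nn A), add_zero]
    · rw [h1 p hp, Real.sqrt_zero, zero_sub, neg_sq, Real.sq_sqrt (hp.nn _), zero_add]
  rw [Finset.sum_congr rfl fun A _ => key A, ← Finset.sum_div, Finset.sum_add_distrib,
    PtV_sum_compl p, hp.one]
  norm_num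

theorem yv_diff (h : Hul M rp R D σ) {p p' : Finset V → ℝ} (hp : InH σ p) (hp' : InH σ p') :
    ∑ A, (yv p A - yv p' A) ^ 2 ≤ d1 p p' := by
  have key : ∀ A, (yv p A - yv p' A) ^ 2 ≤ (|p A - p' A| + |p Aᶜ - p' Aᶜ|) / 2 := by
    intro A
    have e : (yv p A - yv p' A) ^ 2 = ((Real.sqrt (p A) - Real.sqrt (p Aᶜ)) -
        (Real.sqrt (p' A) - Real.sqrt (p' Aᶜ))) ^ 2 / 2 := by
      unfold yv
      rw [← sub_div, div_pow, Real.sq_sqrt (by norm_num : (0 : ℝ) ≤ 2)]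
    rw [e]
    rcases PtV_zero h A with h1 | h1
    · have h2 := PtV_sqrt (hp.nn A) (hp'.nn A)
      rw [h1 p hp, h1 p' hp', Real.sqrt_zero, sub_zero, sub_zero, sub_zero, abs_zero, add_zero]
      linarith
    · have h2 := PtV_sqrt (hp.nn Aᶜ) (hp'.nn Aᶜ)
      rw [h1 p hp, h1 p' hp', Real.sqrt_zero, sub_zero, abs_zero, zero_add]
      have e2 : (0 - Real.sqrt (p Aᶜ) - (0 - Real.sqrt (p' Aᶜ))) ^ 2 =
          (Real.sqrt (p Aᶜ) - Real.sqrt (p' Aᶜ)) ^ 2 := by ring
      rw [e2]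
      linarith
  refine (Finset.sum_le_sum fun A _ => key A).trans ?_
  rw [← Finset.sum_div, Finset.sum_add_distrib, PtV_sum_compl fun A => |p A - p' A|]
  unfold d1
  linarith

end H49.MX
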