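import Pool.Agent.H49.MX.ECut
import Pool.Agent.H49.MX.PtV
import Pool.Agent.H49.MX.FillL

/-!
# Module EDist: the mixtures of close points are close

`A, U, D'` for `p`, `A₁, U₁, D₁` for `p'`; `f = 2 ^ M (6 z q + 1)`. `|A ∆ A₁| ≤ R` (`base_mem`, `Hul.dist`). `|U ∆ U₁| ≤ f` if `uw p, uw p' ≥ 1/3` (`FL_lip`, `upw_diff`); `|D' ∆ D₁| ≤ f` if `uw (nuP p), uw (nuP p') ≥ 1/3` (`d1_nuP`).
`|BB ∆ BB₁| ≤ R + f`, `|WW ∆ WW₁| ≤ R + 2 f` (membership in `WW` is decided by membership in `A, U, D'`), `|(BB \ WW) ∆ (BB₁ \ WW₁)| = |(A \ D') ∆ (A₁ \ D₁)| ≤ R + f`. `|hh p - hh p'| ≤ 6 H z ≤ H / 2`.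
(A) `-H < hh p, hh p' < H`: all four weights are `≥ 1/3` (`hh_lt`, `hh_gt`), use `h1` (`hh_diff`, `yv_diff`): `≤ (d+1)(2 R + 3 f) + ε n`.
(B) `hh p = H` or `hh p' = H` (`hh_abs`): both are `≥ H/2 > -H`, so `uw p, uw p' ≥ 1/3`, `|e ∆ e'| ≤ |e ∆ BB| + |BB ∆ BB₁| + |BB₁ ∆ e'| ≤ 2 ((d+1) κ + ε) n + R + f` (`up` is antitone, `up (H/2) ≤ κ`).
(C) `hh p = -H` or `hh p' = -H`: the same with `BB \ WW` and `h3, h3'`.
-/

set_option autoImplicit false
set_option linter.unusedSectionVars false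

namespace H49.MX

open Finset
open Pool.Agent.H49.FR (nin cut Part)
open scoped Classical symmDiff

section EDistSets

variable {V : Type} [Fintype V] [DecidableEq V]

private theorem EDist_sub2 {S X Y : Finset V} (h : S ⊆ X ∪ Y) : (S.card : ℝ) ≤ X.card + Y.card := by
  have h1 := (card_le_card h).trans (card_union_le _ _)
  exact_mod_cast h1

private theorem EDist_sub3 {S X Y Z : Finset V} (h : S ⊆ X ∪ Y ∪ Z) : (S.card : ℝ) ≤ X.card + Y.card + Z.card := by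
  have h1 := EDist_sub2 h
  have h2 : ((X ∪ Y).card : ℝ) ≤ X.card + Y.card := EDist_sub2 (Finset.Subset.refl _)
  linarith

private theorem EDist_BB (A A₁ U U₁ : Finset V) :
    ((BB A U ∆ BB A₁ U₁).card : ℝ) ≤ (A ∆ A₁).card + (U ∆ U₁).card := by
  refine EDist_sub2 fun x => ?_
  simp only [BB, mem_symmDiff, mem_union]
  tauto

private theorem EDist_WW (A A₁ U U₁ D D₁ : Finset V) :
    ((WW A U D ∆ WW A₁ U₁ D₁).card : ℝ) ≤ (A ∆ A₁).card + (U ∆ U₁).card + (D ∆ D₁).card := by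
  refine EDist_sub3 fun x => ?_
  simp only [WW, mem_symmDiff, mem_union, mem_sdiff, mem_inter]
  tauto

private theorem EDist_sd (A A₁ D D₁ : Finset V) :
    (((A \ D) ∆ (A₁ \ D₁)).card : ℝ) ≤ (A ∆ A₁).card + (D ∆ D₁).card := by
  refine EDist_sub2 fun x => ?_
  simp only [mem_symmDiff, mem_union, mem_sdiff]
  tauto

private theorem EDist_tri (e e' X Y : Finset V) :
    ((e ∆ e').card : ℝ) ≤ (e ∆ X).card + (X ∆ Y).card + (e' ∆ Y).card := by
  refine EDist_sub3 fun x => ?_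
  simp only [mem_symmDiff, mem_union]
  tauto

end EDistSets

variable {V : Type} [Fintype V] [DecidableEq V] (G : SimpleGraph V) [DecidableRel G.Adj] {M D : ℕ} {rp : ℕ → Finset V} {R : ℝ}
  {σ : List (Finset V)} {t q : ℕ} {v₀ : V} {s : ℕ → ℕ → V}

private theorem EDist_UU (hS : Sys G t q v₀ M rp s) {τ τ' : List (Finset V)} {p p' : Finset V → ℝ} (hp : InH τ p) (hp' : InH τ' p')
    {z : ℝ} (hz : d1 p p' ≤ z) (h1 : 1 / 3 ≤ uw G t q M rp s p) (h2 : 1 / 3 ≤ uw G t q M rp s p') :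
    ((UU G t q M rp s p ∆ UU G t q M rp s p').card : ℝ) ≤ 2 ^ M * (6 * z * q + 1) := by
  unfold UU
  exact FL_lip (fun j hj => Sys.inj_on G hS hj) (fun j _ => upw_nonneg G hp j) (fun j _ => upw_nonneg G hp' j) h1 h2
    ((upw_diff G hS p p').trans hz)

private theorem EDist_nu {σ : List (Finset V)} {p : Finset V → ℝ} (h : InH σ p) : InH (σ.map compl) (nuP p) := by
  refine ⟨fun A => h.nn _, ?_, fun A hA => ?_⟩
  · have h1 := Equiv.sum_comp (Function.Involutive.toPerm (compl : Finset V → Finset V) compl_involutive) p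
    exact h1.trans h.one
  · exact List.mem_map.2 ⟨Aᶜ, h.spt _ hA, compl_compl A⟩

theorem edist (hS : Sys G t q v₀ M rp s) (h : Hul M rp R D σ) {p p' : Finset V → ℝ} (hp : InH σ p) (hp' : InH σ p') (d : ℕ)
    {H z zG ε κ : ℝ} (hH : 0 < H) (hz : d1 p p' ≤ z) (hz1 : 12 * z ≤ 1) (hz2 : 6 * H * z ≤ zG) (hz3 : z ≤ zG) (hε : 0 ≤ ε)
    (hκ : up (H / 2) ≤ κ) {e e' : Finset V}
    (h1 : |hh G t q M rp s H p - hh G t q M rp s H p'| ≤ zG → ∑ A, (yv p A - yv p' A) ^ 2 ≤ zG →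
      ((e ∆ e').card : ℝ) ≤ (d + 1) *
        ((BB (base rp p) (UU G t q M rp s p) ∆ BB (base rp p') (UU G t q M rp s p')).card +
          (WW (base rp p) (UU G t q M rp s p) (UU G t q M rp s (nuP p)) ∆
            WW (base rp p') (UU G t q M rp s p') (UU G t q M rp s (nuP p'))).card) + ε * Fintype.card V)
    (h2 : ((e ∆ BB (base rp p) (UU G t q M rp s p)).card : ℝ) ≤ ((d + 1) * up (hh G t q M rp s H p) + ε) * Fintype.card V)
    (h2' : ((e' ∆ BB (base rp p') (UU G t q M rp s p')).card : ℝ) ≤ ((d + 1) * up (hh G t q M rp s H p') + ε) * Fintype.card V)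
    (h3 : ((e ∆ (BB (base rp p) (UU G t q M rp s p) \ WW (base rp p) (UU G t q M rp s p) (UU G t q M rp s (nuP p)))).card : ℝ) ≤
      ((d + 1) * up (- hh G t q M rp s H p) + ε) * Fintype.card V)
    (h3' : ((e' ∆ (BB (base rp p') (UU G t q M rp s p') \
        WW (base rp p') (UU G t q M rp s p') (UU G t q M rp s (nuP p')))).card : ℝ) ≤
      ((d + 1) * up (- hh G t q M rp s H p') + ε) * Fintype.card V) :
    ((e ∆ e').card : ℝ) ≤ (d + 1) * (2 * R + 3 * (2 ^ M * (6 * z * q + 1))) + 2 * ((d + 1) * κ + ε) * Fintype.card V := by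
  set n : ℝ := (Fintype.card V : ℝ) with hn
  have hn0 : 0 ≤ n := Nat.cast_nonneg _
  have hz0 : 0 ≤ z := le_trans (sum_nonneg fun i _ => abs_nonneg _) hz
  obtain ⟨f, hf⟩ : ∃ f : ℝ, f = 2 ^ M * (6 * z * q + 1) := ⟨_, rfl⟩
  have hf0 : 0 ≤ f := by rw [hf]; positivity
  obtain ⟨A, hA⟩ : ∃ A, A = base rp p := ⟨_, rfl⟩
  obtain ⟨A₁, hA₁⟩ : ∃ A, A = base rp p' := ⟨_, rfl⟩
  have hAA : ((A ∆ A₁).card : ℝ) ≤ R := by
    rw [hA, hA₁]
    exact h.dist _ (base_mem h hp).1 _ (base_mem h hp').1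
  have hR0 : 0 ≤ R := le_trans (Nat.cast_nonneg _) hAA
  have hκ0 : 0 ≤ κ := le_trans (up_nonneg _) hκ
  have hU : 1 / 3 ≤ uw G t q M rp s p → 1 / 3 ≤ uw G t q M rp s p' →
      ((UU G t q M rp s p ∆ UU G t q M rp s p').card : ℝ) ≤ f := fun k1 k2 => by
    rw [hf]
    exact EDist_UU G hS hp hp' hz k1 k2
  have hD : 1 / 3 ≤ uw G t q M rp s (nuP p) → 1 / 3 ≤ uw G t q M rp s (nuP p') →
      ((UU G t q M rp s (nuP p) ∆ UU G t q M rp s (nuP p')).card : ℝ) ≤ f := fun k1 k2 => by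
    rw [hf]
    exact EDist_UU G hS (EDist_nu hp) (EDist_nu hp') (by rw [d1_nuP]; exact hz) k1 k2
  have hdd := hh_diff G hS hH p p'
  have hdz : 6 * H * d1 p p' ≤ 6 * H * z := mul_le_mul_of_nonneg_left hz (by positivity)
  have hd2 : |hh G t q M rp s H p - hh G t q M rp s H p'| ≤ H / 2 := by
    refine hdd.trans (hdz.trans ?_)
    nlinarith
  have hab := abs_le.1 hd2
  have hp1 := abs_le.1 (hh_abs G (t := t) (q := q) (M := M) (rp := rp) (s := s) hH p)
  have hp2 := abs_le.1 (hh_abs G (t := t) (q := q) (M := M) (rp := rp) (s := s) hH p')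
  rw [← hA] at h1 h2 h3
  rw [← hA₁] at h1 h2' h3'
  rw [← hf]
  obtain ⟨U, hUe⟩ : ∃ U, U = UU G t q M rp s p := ⟨_, rfl⟩
  obtain ⟨U₁, hUe₁⟩ : ∃ U, U = UU G t q M rp s p' := ⟨_, rfl⟩
  obtain ⟨D', hDe⟩ : ∃ U, U = UU G t q M rp s (nuP p) := ⟨_, rfl⟩
  obtain ⟨D₁, hDe₁⟩ : ∃ U, U = UU G t q M rp s (nuP p') := ⟨_, rfl⟩
  rw [← hUe] at h1 h2 h3 hU
  rw [← hUe₁] at h1 h2' h3' hU
  rw [← hDe] at h1 h3 hD
  rw [← hDe₁] at h1 h3' hD
  rw [BB_sdiff] at h3 h3'
  have hd1 : (1 : ℝ) ≤ (d : ℝ) + 1 := by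
    have : (0 : ℝ) ≤ d := Nat.cast_nonneg d
    linarith
  have hd0 : (0 : ℝ) ≤ (d : ℝ) + 1 := by linarith
  have hsmall : R + f ≤ (d + 1) * (2 * R + 3 * f) := by nlinarith
  by_cases hB : hh G t q M rp s H p = H ∨ hh G t q M rp s H p' = H
  · have hg1 : H / 2 ≤ hh G t q M rp s H p := by rcases hB with h5 | h5 <;> linarith
    have hg2 : H / 2 ≤ hh G t q M rp s H p' := by rcases hB with h5 | h5 <;> linarith
    have hu := hU (hh_gt G hS h hp hH (by linarith)) (hh_gt G hS h hp' hH (by linarith))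
    have hb := EDist_BB A A₁ U U₁
    have ht := EDist_tri e e' (BB A U) (BB A₁ U₁)
    have hu1 : up (hh G t q M rp s H p) ≤ κ := (up_anti hg1).trans hκ
    have hu2 : up (hh G t q M rp s H p') ≤ κ := (up_anti hg2).trans hκ
    have h6 : ((d + 1) * up (hh G t q M rp s H p) + ε) * n ≤ ((d + 1) * κ + ε) * n :=
      mul_le_mul_of_nonneg_right (by nlinarith) hn0
    have h7 : ((d + 1) * up (hh G t q M rp s H p') + ε) * n ≤ ((d + 1) * κ + ε) * n :=
      mul_le_mul_of_nonneg_right (by nlinarith) hn0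
    linarith
  · by_cases hC : hh G t q M rp s H p = -H ∨ hh G t q M rp s H p' = -H
    · have hg1 : hh G t q M rp s H p ≤ -(H / 2) := by rcases hC with h5 | h5 <;> linarith
      have hg2 : hh G t q M rp s H p' ≤ -(H / 2) := by rcases hC with h5 | h5 <;> linarith
      have hu := hD (hh_lt G hS h hp hH (by linarith)) (hh_lt G hS h hp' hH (by linarith))
      have hb := EDist_sd A A₁ D' D₁
      have ht := EDist_tri e e' (A \ D') (A₁ \ D₁)
      have hu1 : up (-hh G t q M rp s H p) ≤ κ := (up_anti (by linarith)).trans hκ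
      have hu2 : up (-hh G t q M rp s H p') ≤ κ := (up_anti (by linarith)).trans hκ
      have h6 : ((d + 1) * up (-hh G t q M rp s H p) + ε) * n ≤ ((d + 1) * κ + ε) * n :=
        mul_le_mul_of_nonneg_right (by nlinarith) hn0
      have h7 : ((d + 1) * up (-hh G t q M rp s H p') + ε) * n ≤ ((d + 1) * κ + ε) * n :=
        mul_le_mul_of_nonneg_right (by nlinarith) hn0
      linarith
    · rw [not_or] at hB hC
      have a1 : hh G t q M rp s H p < H := lt_of_le_of_ne hp1.2 hB.1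
      have a2 : hh G t q M rp s H p' < H := lt_of_le_of_ne hp2.2 hB.2
      have a3 : -H < hh G t q M rp s H p := lt_of_le_of_ne hp1.1 (Ne.symm hC.1)
      have a4 : -H < hh G t q M rp s H p' := lt_of_le_of_ne hp2.1 (Ne.symm hC.2)
      have hu := hU (hh_gt G hS h hp hH a3) (hh_gt G hS h hp' hH a4)
      have hv := hD (hh_lt G hS h hp hH a1) (hh_lt G hS h hp' hH a2)
      have k1 := h1 (hdd.trans (hdz.trans hz2)) ((yv_diff h hp hp').trans (hz.trans hz3))
      have hb := EDist_BB A A₁ U U₁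
      have hw := EDist_WW A A₁ U U₁ D' D₁
      have k2 : ((BB A U ∆ BB A₁ U₁).card : ℝ) + (WW A U D' ∆ WW A₁ U₁ D₁).card ≤ 2 * R + 3 * f := by linarith
      have k3 := mul_le_mul_of_nonneg_left k2 hd0
      have k4 : ε * n ≤ 2 * ((d + 1) * κ + ε) * n := by
        refine mul_le_mul_of_nonneg_right ?_ hn0
        nlinarith
      linarith

end H49.MX
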