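import Pool.Agent.H49.MX.Defs

/-!
# Module Fill: filling up

`s` injective on `[0, q)`, `T ≤ q`. The set `{c | T ≤ |X ∪ s[0..c)|}` contains `q`, so `cnt ≤ q` (`Nat.sInf_le`, `Nat.sInf_mem`). `|step s T X| = max T |X|`: if `T ≤ |X|` then `cnt = 0`. Otherwise `c = cnt > 0`
and `|X ∪ s[0..c-1)| < T` (`Nat.notMem_of_lt_sInf`), one more element changes the size by at most one. `fill`: the targets `tgt` are monotone (weights `≥ 0`) and `≤ q`, so `|fill (j+1)| = tgt j`, `c j = 0` if
`w j = 0` (then `tgt j = tgt (j-1) = |fill j|`, or `tgt 0 = 0`); `tgt (M-1) = q` if the total is positive (`M ≥ 1` then).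
-/

set_option autoImplicit false
set_option linter.unusedSectionVars false

namespace H49.MX

open Finset
open scoped Classical symmDiff

variable {V : Type} [Fintype V] [DecidableEq V]

private lemma Fill_mem {s : ℕ → V} {q T : ℕ} (hs : Set.InjOn s (Set.Iio q)) (hT : T ≤ q) (X : Finset V) :
    q ∈ {c | T ≤ (X ∪ (range c).image s).card} := by
  have h1 : ((range q).image s).card = q := by
    rw [card_image_of_injOn (by rw [coe_range]; exact hs), card_range]
  have h2 : ((range q).image s).card ≤ (X ∪ (range q).image s).card := card_le_card subset_union_right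
  show T ≤ (X ∪ (range q).image s).card
  omega

private lemma Fill_tgt {q M : ℕ} {w : ℕ → ℝ} (hw : ∀ j < M, 0 ≤ w j) {i j : ℕ} (hij : i ≤ j) (hj : j < M) :
    tgt q M w i ≤ tgt q M w j := by
  unfold tgt
  refine Nat.ceil_mono ?_
  have h1 : ∑ k ∈ range (i + 1), w k ≤ ∑ k ∈ range (j + 1), w k :=
    sum_le_sum_of_subset_of_nonneg (range_mono (by omega))
      (fun k hk _ => hw k (by have := mem_range.1 hk; omega))
  have h2 : 0 ≤ ∑ k ∈ range M, w k := sum_nonneg fun k hk => hw k (mem_range.1 hk)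
  exact mul_le_mul_of_nonneg_left (div_le_div_of_nonneg_right h1 h2) (Nat.cast_nonneg q)

private lemma Fill_bi (s : ℕ → ℕ → V) (T : ℕ → ℕ) (m : ℕ) :
    fill s T m = (range m).biUnion fun j => (range (cnt (s j) (T j) (fill s T j))).image (s j) := by
  induction m with
  | zero => simp [fill]
  | succ m ih =>
    rw [range_add_one, biUnion_insert, ← ih, union_comm]
    rfl

theorem cnt_le {s : ℕ → V} {q T : ℕ} (hs : Set.InjOn s (Set.Iio q)) (hT : T ≤ q) (X : Finset V) : cnt s T X ≤ q := by
  exact Nat.sInf_le (Fill_mem hs hT X)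

theorem cnt_zero {s : ℕ → V} {T : ℕ} {X : Finset V} (h : T ≤ X.card) : cnt s T X = 0 := by
  refine Nat.sInf_eq_zero.2 (Or.inl ?_)
  show T ≤ (X ∪ (range 0).image s).card
  rw [range_zero, image_empty, union_empty]
  exact h

theorem step_card {s : ℕ → V} {q T : ℕ} (hs : Set.InjOn s (Set.Iio q)) (hT : T ≤ q) (X : Finset V) :
    (step s T X).card = max T X.card := by
  unfold step
  rcases le_or_gt T X.card with h | h
  · rw [cnt_zero h, range_zero, image_empty, union_empty, max_eq_right h]
  · rw [max_eq_left h.le]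
    have h1 : T ≤ (X ∪ (range (cnt s T X)).image s).card :=
      Nat.sInf_mem (s := {c | T ≤ (X ∪ (range c).image s).card}) ⟨q, Fill_mem hs hT X⟩
    have h0 : cnt s T X ≠ 0 := by
      intro h2
      rw [h2, range_zero, image_empty, union_empty] at h1
      omega
    obtain ⟨c, hc⟩ := Nat.exists_eq_succ_of_ne_zero h0
    have h3 : ¬ T ≤ (X ∪ (range c).image s).card := by
      have h4 : c < sInf {c | T ≤ (X ∪ (range c).image s).card} := by
        have : cnt s T X = sInf {c | T ≤ (X ∪ (range c).image s).card} := rfl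
        omega
      have h6 : c ∉ {c | T ≤ (X ∪ (range c).image s).card} := Nat.notMem_of_lt_sInf h4
      exact h6
    have h5 : (X ∪ (range (cnt s T X)).image s).card ≤ (X ∪ (range c).image s).card + 1 := by
      rw [hc, Nat.succ_eq_add_one, range_add_one, image_insert, union_insert]
      exact card_insert_le _ _
    omega

theorem tgt_le {q M : ℕ} {w : ℕ → ℝ} (hw : ∀ j < M, 0 ≤ w j) {j : ℕ} (hj : j < M) : tgt q M w j ≤ q := by
  refine (Fill_tgt hw (Nat.le_sub_one_of_lt hj) (by omega)).trans ?_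
  unfold tgt
  rw [Nat.sub_add_cancel (by omega), Nat.ceil_le]
  have h2 : (∑ k ∈ range M, w k) / ∑ k ∈ range M, w k ≤ 1 := div_self_le_one _
  calc (q : ℝ) * ((∑ k ∈ range M, w k) / ∑ k ∈ range M, w k) ≤ q * 1 :=
        mul_le_mul_of_nonneg_left h2 (Nat.cast_nonneg q)
    _ = q := mul_one _

theorem FL_struct {s : ℕ → ℕ → V} {q M : ℕ} {w : ℕ → ℝ} (hs : ∀ j < M, Set.InjOn (s j) (Set.Iio q)) (hw : ∀ j < M, 0 ≤ w j) :
    ∃ c : ℕ → ℕ, (∀ j < M, c j ≤ q) ∧ (∀ j < M, w j = 0 → c j = 0) ∧
      FL s q M w = (range M).biUnion fun j => (range (c j)).image (s j) := by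
  refine ⟨fun j => cnt (s j) (tgt q M w j) (fill s (tgt q M w) j), fun j hj =>
    cnt_le (hs j hj) (tgt_le hw hj) _, fun j hj hwj => cnt_zero ?_, Fill_bi s _ M⟩
  rcases Nat.eq_zero_or_pos j with rfl | hj0
  · have h1 : tgt q M w 0 = 0 := by
      unfold tgt
      rw [zero_add, sum_range_one, hwj, zero_div, mul_zero, Nat.ceil_zero]
    omega
  · obtain ⟨i, rfl⟩ : ∃ i, j = i + 1 := ⟨j - 1, by omega⟩
    have h1 : tgt q M w (i + 1) = tgt q M w i := by
      unfold tgt
      rw [sum_range_succ _ (i + 1), hwj, add_zero]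
    have h2 : (fill s (tgt q M w) (i + 1)).card = max (tgt q M w i) (fill s (tgt q M w) i).card :=
      step_card (hs i (by omega)) (tgt_le hw (by omega)) _
    rw [h1, h2]
    exact le_max_left _ _

theorem FL_card {s : ℕ → ℕ → V} {q M : ℕ} {w : ℕ → ℝ} (hs : ∀ j < M, Set.InjOn (s j) (Set.Iio q)) (hw : ∀ j < M, 0 ≤ w j)
    (h : 0 < ∑ i ∈ range M, w i) : (FL s q M w).card = q := by
  have h1 : ∀ j < M, (fill s (tgt q M w) (j + 1)).card = tgt q M w j := by
    intro j
    induction j with
    | zero =>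
      intro hj
      have h2 : (fill s (tgt q M w) (0 + 1)).card = max (tgt q M w 0) (fill s (tgt q M w) 0).card :=
        step_card (hs 0 hj) (tgt_le hw hj) _
      rw [h2]
      simp [fill]
    | succ j ih =>
      intro hj
      have h2 : (fill s (tgt q M w) (j + 1 + 1)).card =
          max (tgt q M w (j + 1)) (fill s (tgt q M w) (j + 1)).card :=
        step_card (hs (j + 1) hj) (tgt_le hw hj) _
      rw [h2, ih (by omega)]
      exact max_eq_left (Fill_tgt hw (Nat.le_succ j) hj)
  have hM : M ≠ 0 := by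
    rintro rfl
    simp at h
  obtain ⟨m, rfl⟩ := Nat.exists_eq_succ_of_ne_zero hM
  have h2 : (FL s q (m + 1) w).card = tgt q (m + 1) w m := h1 m (Nat.lt_succ_self m)
  have h3 : tgt q (m + 1) w m = q := by
    unfold tgt
    rw [div_self h.ne', mul_one, Nat.ceil_natCast]
  show (FL s q (m + 1) w).card = q
  rw [h2, h3]

theorem FL_zero {s : ℕ → ℕ → V} {q M : ℕ} {w : ℕ → ℝ} (h : ∑ i ∈ range M, w i = 0) : FL s q M w = ∅ := by
  have h1 : ∀ j, tgt q M w j = 0 := by
    intro j
    unfold tgt
    rw [h, div_zero, mul_zero, Nat.ceil_zero]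
  have h2 : ∀ m, fill s (tgt q M w) m = ∅ := by
    intro m
    induction m with
    | zero => rfl
    | succ m ih =>
      have h3 : fill s (tgt q M w) (m + 1) = step (s m) (tgt q M w m) (fill s (tgt q M w) m) := rfl
      rw [h3, ih, h1]
      unfold step
      rw [cnt_zero (Nat.zero_le _), range_zero, image_empty, union_empty]
  exact h2 M

end H49.MX
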