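import Pool.Agent.H49.FR.NumC

/-!
# Module GNum: numerical inequalities

`arccos_a` (`Pool.Agent.H49.FR.NumC`): `arccos x / (2 π) ≤ 0.102444` for `x ≥ 0.7999`.
* `arc85`: `arccos 0.85 ≤ 0.554815` (`arccos_le_of`), `/(2π) ≤ 0.08831`.
* `exp32`: `exp(-y) ≤ 1 - y + y²/2`, `y = h²/2 ≥ 1/32`; `5 * 0.102444 * 0.96924 ≤ 0.499`.
* `num_h`: with `k = |h| ∈ [0, 1/4]`, `exp(-k²/2) ≤ 1 - k²/2 + k⁴/8`:
  `0.51224 (1 - k²/2 + k⁴/8) - 0.39894 (1 - (k + 0.07)²/2) (0.035143 - 0.05305 k) ≤ 0.49875 ≤ 0.499` (maximum near `k = 0.044`).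
* `sig85`: `√(2π) √(1 - s²) ≥ 1/0.75733` for `0 ≤ s ≤ 0.85`.
-/

set_option autoImplicit false

namespace H49.MX

private lemma GNum_expub {y : ℝ} (hy : 0 ≤ y) : Real.exp (-y) ≤ 1 - y + y ^ 2 / 2 := by
  have h1 := Real.quadratic_le_exp_of_nonneg hy
  have hB : 0 ≤ 1 - y + y ^ 2 / 2 := by nlinarith [sq_nonneg (y - 1)]
  have h2 : 1 ≤ (1 - y + y ^ 2 / 2) * Real.exp y := by
    calc (1 : ℝ) ≤ (1 - y + y ^ 2 / 2) * (1 + y + y ^ 2 / 2) := by nlinarith [sq_nonneg (y ^ 2)]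
      _ ≤ _ := mul_le_mul_of_nonneg_left h1 hB
  have h3 : Real.exp (-y) * Real.exp y = 1 := by rw [← Real.exp_add]; simp
  have h4 := Real.exp_pos y
  have h5 : Real.exp (-y) * Real.exp y ≤ (1 - y + y ^ 2 / 2) * Real.exp y := by rw [h3]; exact h2
  exact le_of_mul_le_mul_right h5 h4

theorem arc85 {x : ℝ} (hx : 85 / 100 ≤ x) : Real.arccos x / (2 * Real.pi) ≤ 884 / 10000 := by
  have h1 : Real.arccos x ≤ 5549 / 10000 := by
    apply Pool.Agent.H49.FR.arccos_le_of (by norm_num) (by norm_num)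
    refine le_trans ?_ hx
    norm_num
  have h2 := Real.pi_gt_d6
  have h3 : (3141592 / 1000000 : ℝ) ≤ Real.pi := by
    norm_num at h2 ⊢
    linarith
  rw [div_le_iff₀ (by positivity)]
  nlinarith

theorem exp32 {h : ℝ} (hh : 1 / 4 ≤ |h|) : 5 * (102444 / 1000000) * Real.exp (-h ^ 2 / 2) ≤ 499 / 1000 := by
  have h0 : (1 / 16 : ℝ) ≤ h ^ 2 := by
    rw [← sq_abs]
    nlinarith
  have h1 : Real.exp (-h ^ 2 / 2) ≤ Real.exp (-(1 / 32)) := by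
    apply Real.exp_le_exp.2
    linarith
  have h2 := GNum_expub (y := 1 / 32) (by norm_num)
  have h3 : Real.exp (-h ^ 2 / 2) ≤ 1 - 1 / 32 + (1 / 32) ^ 2 / 2 := h1.trans h2
  norm_num at h3 ⊢
  linarith

theorem num_h {h : ℝ} (hh : |h| ≤ 1 / 4) :
    5 * (102444 / 1000000) * Real.exp (-h ^ 2 / 2) -
      39894 / 100000 * (1 - (|h| + 7 / 100) ^ 2 / 2) * (35143 / 1000000 - 5305 / 100000 * |h|) ≤ 499 / 1000 := by
  have e : h ^ 2 = |h| ^ 2 := (sq_abs h).symm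
  have hk0 : 0 ≤ |h| := abs_nonneg h
  rw [show -h ^ 2 / 2 = -(|h| ^ 2 / 2) by rw [← e]; ring]
  generalize |h| = k at hh hk0
  have h2 := GNum_expub (y := k ^ 2 / 2) (by positivity)
  have h3 : 0 ≤ k ^ 3 := by positivity
  have h4 : k ^ 4 ≤ k ^ 2 / 16 := by nlinarith [mul_nonneg (sq_nonneg k) (by nlinarith : 0 ≤ 1 / 16 - k ^ 2)]
  nlinarith [sq_nonneg (k - 448 / 10000)]

theorem sig85 {s : ℝ} (h0 : 0 ≤ s) (h1 : s ≤ 85 / 100) :
    1 / (Real.sqrt (2 * Real.pi) * Real.sqrt (1 - s ^ 2)) ≤ 75733 / 100000 := by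
  obtain ⟨h2, -⟩ := Pool.Agent.H49.FR.sqrt_two_pi
  have h3 : (52678 / 100000 : ℝ) ≤ Real.sqrt (1 - s ^ 2) := by
    apply Real.le_sqrt_of_sq_le
    nlinarith
  have h4 : (250662 / 100000 : ℝ) * (52678 / 100000) ≤ Real.sqrt (2 * Real.pi) * Real.sqrt (1 - s ^ 2) := by
    apply mul_le_mul h2.le h3 (by norm_num)
    linarith
  have h5 : (0 : ℝ) < (250662 / 100000 : ℝ) * (52678 / 100000) := by norm_num
  rw [div_le_iff₀ (h5.trans_le h4)]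
  have h6 : (1 : ℝ) ≤ 75733 / 100000 * ((250662 / 100000 : ℝ) * (52678 / 100000)) := by norm_num
  nlinarith

end H49.MX
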