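import Pool.Agent.H49.MX.GSide
import Pool.Agent.H49.MX.GNum
import Pool.Agent.H49.FR.Edge

/-!
# Module GPsi: the estimate at a vertex (Lemma 3)

`edge_prob` with `t = -h`: `P(h < ω v, ω u ≤ h) ≤ arccos (S v u)/(2π) exp(-h²/2)`; `arccos` is antitone.
* `psi_plain`: `L = 0`: `Zset = ∅`. The sum is `≤ d arccos ρ / (2π)`.
* `psi_five`: `d = 5`, `t = 3`, `2 t - d = 1`, `ρ = 0.7999`. `N = neighborFinset v`, five elements. Bounds `k_u ≤ 0.102444 exp(-h²/2) ≤ 0.102444`.
  (i) `N ⊄ W`: at most four terms: `≤ 0.41`. (ii) some `S v u ≥ 0.85`: `≤ 4 * 0.102444 + 0.0884 ≤ 0.4982`. (iii) `|h| ≥ 1/4`: `exp32`.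
  (iv) otherwise `star_both` and `num_h`. (`S` is symmetric.)
* `exists_rho`: if `a < (d+2)/2 - d/(2π) arccos M`, `M = 2√(d-1)/d`, then `d/(2π) arccos M < (d + 2 - 2a)/2`, `arccos` is continuous, so there are
  `ρ < M` and `δ > 0` with `d arccos ρ/(2π) ≤ (d + 2 - 2 a)/2 - δ`; `2 t - d = d + 2 - 2 a` for `t = d - a + 1`, `a ≤ d`.
-/

set_option autoImplicit false

open Finset MeasureTheory ProbabilityTheory

namespace H49.MX

open Pool.Agent.H49.FR (Cv edge_prob arccos_a)

variable {V : Type} [Fintype V] [DecidableEq V] (G : SimpleGraph V) [DecidableRel G.Adj]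

private theorem GPsi_edge {ρ : ℝ} {r : ℕ} {S : Matrix V V ℝ} (hS : Cv G ρ r S) {v u : V} (huv : G.Adj v u) (h : ℝ) :
    (multivariateGaussian 0 S).real {ω : EuclideanSpace ℝ V | h < ω v ∧ ω u ≤ h} ≤
      Real.arccos (S v u) / (2 * Real.pi) * Real.exp (-h ^ 2 / 2) := by
  have h1 := edge_prob hS.psd (hS.diag v) (hS.diag u) (hS.lt v u huv.ne) (-h)
  simp only [neg_neg, neg_sq] at h1
  exact h1

private theorem GPsi_edge1 {ρ : ℝ} {r : ℕ} {S : Matrix V V ℝ} (hS : Cv G ρ r S) {v u : V} (huv : G.Adj v u) (h : ℝ) :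
    (multivariateGaussian 0 S).real {ω : EuclideanSpace ℝ V | h < ω v ∧ ω u ≤ h} ≤
      Real.arccos (S v u) / (2 * Real.pi) := by
  refine (GPsi_edge G hS huv h).trans ?_
  have h2 : 0 ≤ Real.arccos (S v u) / (2 * Real.pi) :=
    div_nonneg (Real.arccos_nonneg _) (by have := Real.pi_pos; linarith)
  have h3 : Real.exp (-h ^ 2 / 2) ≤ 1 := by
    rw [Real.exp_le_one_iff]
    nlinarith [sq_nonneg h]
  calc Real.arccos (S v u) / (2 * Real.pi) * Real.exp (-h ^ 2 / 2)
      ≤ Real.arccos (S v u) / (2 * Real.pi) * 1 := mul_le_mul_of_nonneg_left h3 h2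
    _ = Real.arccos (S v u) / (2 * Real.pi) := mul_one _

theorem psi_plain {d t : ℕ} {ρ δ : ℝ} (h : d * (Real.arccos ρ / (2 * Real.pi)) ≤ (2 * (t : ℝ) - d) / 2 - δ)
    (β : ℝ) : Psi d t 0 ρ β δ := by
  intro V _ _ G _ hreg r S hS W v hv h'
  have hZ : {ω : EuclideanSpace ℝ V | v ∈ Zset G t β 0 W fun u => ω u - h'} = ∅ := by
    ext ω
    simp [Zset, lev]
  rw [hZ, measureReal_empty, mul_zero, sub_zero]
  refine le_trans ?_ h
  have hπ := Real.pi_pos
  have h0 : 0 ≤ Real.arccos ρ / (2 * Real.pi) :=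
    div_nonneg (Real.arccos_nonneg _) (by linarith)
  calc ∑ u ∈ G.neighborFinset v ∩ W, (multivariateGaussian 0 S).real
        {ω : EuclideanSpace ℝ V | h' < ω v ∧ ω u ≤ h'}
      ≤ ∑ _u ∈ G.neighborFinset v ∩ W, Real.arccos ρ / (2 * Real.pi) := by
        refine sum_le_sum fun u hu => ?_
        have huv : G.Adj v u := (G.mem_neighborFinset v u).1 (mem_inter.1 hu).1
        refine (GPsi_edge1 G hS huv h').trans ?_
        exact div_le_div_of_nonneg_right (Real.arccos_le_arccos (hS.adj v u huv)) (by linarith)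
    _ = ((G.neighborFinset v ∩ W).card : ℝ) * (Real.arccos ρ / (2 * Real.pi)) := by
        rw [sum_const, nsmul_eq_mul]
    _ ≤ d * (Real.arccos ρ / (2 * Real.pi)) := by
        refine mul_le_mul_of_nonneg_right ?_ h0
        have h1 : (G.neighborFinset v ∩ W).card ≤ d :=
          (card_le_card inter_subset_left).trans (by rw [G.card_neighborFinset_eq_degree, hreg v])
        exact_mod_cast h1

theorem psi_five : Psi 5 3 70 (7999 / 10000) (1 / 1000) (1 / 1000) := by
  intro V _ _ G _ hreg r S hS W v hv h'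
  have hP0 : 0 ≤ (multivariateGaussian 0 S).real
      {ω : EuclideanSpace ℝ V | v ∈ Zset G 3 (1 / 1000) 70 W fun u => ω u - h'} := measureReal_nonneg
  have h5 : (G.neighborFinset v).card = 5 := by rw [G.card_neighborFinset_eq_degree, hreg v]
  have hadj : ∀ u ∈ G.neighborFinset v, G.Adj v u := fun u hu => (G.mem_neighborFinset v u).1 hu
  have hc1 : (2 * ((3 : ℕ) : ℝ) - ((5 : ℕ) : ℝ)) = 1 := by norm_num
  rw [hc1, one_mul]
  set P := (multivariateGaussian 0 S).real
      {ω : EuclideanSpace ℝ V | v ∈ Zset G 3 (1 / 1000) 70 W fun u => ω u - h'} with hP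
  set k : V → ℝ := fun u => (multivariateGaussian 0 S).real
      {ω : EuclideanSpace ℝ V | h' < ω v ∧ ω u ≤ h'} with hk
  have hk0 : ∀ u, 0 ≤ k u := fun u => measureReal_nonneg
  have hke : ∀ u ∈ G.neighborFinset v, k u ≤ 102444 / 1000000 * Real.exp (-h' ^ 2 / 2) := by
    intro u hu
    refine (GPsi_edge G hS (hadj u hu) h').trans ?_
    exact mul_le_mul_of_nonneg_right (arccos_a (hS.adj v u (hadj u hu))) (Real.exp_pos _).le
  have hk1 : ∀ u ∈ G.neighborFinset v, k u ≤ 102444 / 1000000 := by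
    intro u hu
    exact (GPsi_edge1 G hS (hadj u hu) h').trans (arccos_a (hS.adj v u (hadj u hu)))
  have hsub : ∑ u ∈ G.neighborFinset v ∩ W, k u ≤ ∑ u ∈ G.neighborFinset v, k u :=
    sum_le_sum_of_subset_of_nonneg inter_subset_left fun u _ _ => hk0 u
  have hgoal : ∑ u ∈ G.neighborFinset v ∩ W, k u - P ≤ 499 / 1000 := by
    by_cases hN : G.neighborFinset v ⊆ W
    · by_cases h85 : ∃ u ∈ G.neighborFinset v, 85 / 100 ≤ S v u
      · obtain ⟨u₀, hu₀, hS₀⟩ := h85
        have h1 : k u₀ ≤ 884 / 10000 := (GPsi_edge1 G hS (hadj u₀ hu₀) h').trans (arc85 hS₀)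
        have h2 : ∑ u ∈ G.neighborFinset v, k u = k u₀ + ∑ u ∈ (G.neighborFinset v).erase u₀, k u :=
          (add_sum_erase _ _ hu₀).symm
        have h3 : ∑ u ∈ (G.neighborFinset v).erase u₀, k u ≤ 4 * (102444 / 1000000) := by
          refine (sum_le_card_nsmul _ _ (102444 / 1000000)
            fun u hu => hk1 u (mem_of_mem_erase hu)).trans (le_of_eq ?_)
          rw [card_erase_of_mem hu₀, h5, nsmul_eq_mul]
          norm_num
        linarith
      · push Not at h85
        have h4 : ∑ u ∈ G.neighborFinset v, k u ≤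
            5 * (102444 / 1000000) * Real.exp (-h' ^ 2 / 2) := by
          refine (sum_le_card_nsmul _ _ _ hke).trans (le_of_eq ?_)
          rw [h5, nsmul_eq_mul]
          push_cast
          ring
        by_cases hh : |h'| ≤ 1 / 4
        · have hsym : ∀ u, S u v = S v u := fun u => by
            have h6 := hS.psd.1.apply u v
            simpa using h6.symm
          have h6 := star_both G hS.psd hS.diag hv hN h5
            (fun u hu => by rw [hsym u]; exact hS.adj v u (hadj u hu))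
            (fun u hu => by rw [hsym u]; exact (h85 u hu).le) hh
          have h7 := num_h hh
          linarith
        · have h8 := exp32 (not_le.1 hh).le
          linarith
    · have h1 : ∑ u ∈ G.neighborFinset v ∩ W, k u ≤ 4 * (102444 / 1000000) := by
        have h2 : (G.neighborFinset v ∩ W).card ≤ 4 := by
          have h3 : (G.neighborFinset v ∩ W).card < (G.neighborFinset v).card := by
            refine card_lt_card ?_
            refine ⟨inter_subset_left, fun h => hN fun u hu => (mem_inter.1 (h hu)).2⟩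
          omega
        refine (sum_le_card_nsmul _ _ (102444 / 1000000)
          fun u hu => hk1 u (mem_inter.1 hu).1).trans ?_
        rw [nsmul_eq_mul]
        refine mul_le_mul_of_nonneg_right ?_ (by norm_num)
        exact_mod_cast h2
      linarith
  refine hgoal.trans (le_of_eq ?_)
  norm_num

theorem exists_rho {d a : ℕ} (had : a ≤ d)
    (h : (a : ℝ) < (d + 2) / 2 - d / (2 * Real.pi) * Real.arccos (2 * Real.sqrt ((d : ℝ) - 1) / d)) :
    ∃ ρ δ : ℝ, ρ < 2 * Real.sqrt ((d : ℝ) - 1) / d ∧ 0 < δ ∧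
      d * (Real.arccos ρ / (2 * Real.pi)) ≤ (2 * ((d - a + 1 : ℕ) : ℝ) - d) / 2 - δ := by
  set m := 2 * Real.sqrt ((d : ℝ) - 1) / d with hm
  have hc : ((d - a + 1 : ℕ) : ℝ) = d - a + 1 := by
    rw [Nat.cast_add, Nat.cast_sub had, Nat.cast_one]
  have hcont : Continuous fun ρ : ℝ => (d : ℝ) * (Real.arccos ρ / (2 * Real.pi)) :=
    continuous_const.mul (Real.continuous_arccos.div_const _)
  have hlt : (d : ℝ) * (Real.arccos m / (2 * Real.pi)) < (d + 2) / 2 - a := by
    have h1 : (d : ℝ) * (Real.arccos m / (2 * Real.pi)) = d / (2 * Real.pi) * Real.arccos m := by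
      ring
    rw [h1]
    linarith
  set f : ℝ := (d : ℝ) * (Real.arccos m / (2 * Real.pi)) with hf
  have hmid : f < (f + ((d + 2) / 2 - a)) / 2 := by linarith
  have hev := (hcont.continuousAt (x := m)).eventually (gt_mem_nhds hmid)
  have hev2 := (hev.filter_mono (nhdsWithin_le_nhds (s := Set.Iio m))).and self_mem_nhdsWithin
  obtain ⟨ρ, hρ, hρm⟩ := hev2.exists
  refine ⟨ρ, (((d : ℝ) + 2) / 2 - a - f) / 2, hρm, by linarith, ?_⟩
  rw [hc]
  have h2 : (d : ℝ) * (Real.arccos ρ / (2 * Real.pi)) < (f + ((d + 2) / 2 - a)) / 2 := hρ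
  linarith

end H49.MX
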