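import Pool.Agent.H49.MX.GMain
import Pool.Agent.H49.MX.GPsi

/-!
# Module GFin: the results of block G

`mix_plain`: `exists_rho`, `psi_plain` (`L = 0`, `β = 1`). `mix_five`: `psi_five`, `0.7999 < 2 √4 / 5 = 0.8`.
-/

set_option autoImplicit false

namespace H49.MX

theorem mix_plain {d a : ℕ} (hd : 2 ≤ d) (had : a ≤ d)
    (h : (a : ℝ) < (d + 2) / 2 - d / (2 * Real.pi) * Real.arccos (2 * Real.sqrt ((d : ℝ) - 1) / d)) :
    ∃ δ : ℝ, 0 < δ ∧ Mix d (d - a + 1) δ := by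
  obtain ⟨ρ, δ, h1, h2, h3⟩ := exists_rho had h
  exact ⟨δ, h2, mix_of_psi hd (by omega) one_pos h1 (psi_plain h3 1)⟩

theorem mix_five : ∃ δ : ℝ, 0 < δ ∧ Mix 5 3 δ := by
  refine ⟨1 / 1000, by norm_num, mix_of_psi (by norm_num) (by norm_num) (by norm_num) ?_ psi_five⟩
  have h1 : Real.sqrt (((5 : ℕ) : ℝ) - 1) = 2 := by
    rw [Real.sqrt_eq_iff_mul_self_eq (by norm_num) (by norm_num)]
    norm_num
  rw [h1]
  norm_num

end H49.MX
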