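import Pool.Agent.H49.MX.Main
import Pool.Agent.H49.MX.GFin

/-!
# Module Fin: the final statement of THEOREM MIX
-/

set_option autoImplicit false
set_option linter.unusedSectionVars false

namespace H49.MX

open Finset
open Pool.Agent.H49.FR (nin cut Part)

/-- the condition of the theorem -/
def Cond (d a : ℕ) : Prop :=
  (a : ℝ) < (d + 2) / 2 - d / (2 * Real.pi) * Real.arccos (2 * Real.sqrt ((d : ℝ) - 1) / d)

private lemma Fin_arc {d : ℕ} (hd : 2 ≤ d) (h : (d : ℝ) ^ 2 < 16 * ((d : ℝ) - 1)) :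
    Real.arccos (2 * Real.sqrt ((d : ℝ) - 1) / d) < Real.pi / 3 := by
  have hd' : (2 : ℝ) ≤ d := by exact_mod_cast hd
  have h1 : (1 : ℝ) / 2 < 2 * Real.sqrt ((d : ℝ) - 1) / d := by
    rw [lt_div_iff₀ (by linarith)]
    have h2 : (d : ℝ) / 4 < Real.sqrt ((d : ℝ) - 1) := by
      refine Real.lt_sqrt_of_sq_lt ?_
      nlinarith
    linarith
  have h3 : Real.arccos (1 / 2) = Real.pi / 3 := by
    rw [← Real.cos_pi_div_three, Real.arccos_cos (by positivity) (by linarith [Real.pi_pos])]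
  rw [← h3]
  by_cases h4 : 2 * Real.sqrt ((d : ℝ) - 1) / d ≤ 1
  · exact Real.arccos_lt_arccos (by norm_num) h1 h4
  · rw [Real.arccos_of_one_le (not_le.1 h4).le, h3]
    positivity

private lemma Fin_cond {d a : ℕ} (hd : 2 ≤ d) (h : (d : ℝ) ^ 2 < 16 * ((d : ℝ) - 1)) (ha : (a : ℝ) ≤ d / 3 + 1) : Cond d a := by
  have hd' : (2 : ℝ) ≤ d := by exact_mod_cast hd
  have h1 := Fin_arc hd h
  have h2 : (d : ℝ) / (2 * Real.pi) * Real.arccos (2 * Real.sqrt ((d : ℝ) - 1) / d) < d / (2 * Real.pi) * (Real.pi / 3) := by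
    refine mul_lt_mul_of_pos_left h1 ?_
    have := Real.pi_pos
    positivity
  have h3 : (d : ℝ) / (2 * Real.pi) * (Real.pi / 3) = d / 6 := by
    field_simp
    ring
  unfold Cond
  linarith

/-- the list of the small cases -/
theorem cond_list {d a : ℕ} (h : (d, a) ∈ ([(2, 1), (3, 2), (4, 2), (6, 3), (7, 3), (8, 3), (9, 4), (10, 4), (11, 4), (12, 5)] :
    List (ℕ × ℕ))) : Cond d a := by
  simp only [List.mem_cons, Prod.mk.injEq, List.not_mem_nil, or_false] at h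
  rcases h with ⟨rfl, rfl⟩ | ⟨rfl, rfl⟩ | ⟨rfl, rfl⟩ | ⟨rfl, rfl⟩ | ⟨rfl, rfl⟩ | ⟨rfl, rfl⟩ | ⟨rfl, rfl⟩ | ⟨rfl, rfl⟩ |
    ⟨rfl, rfl⟩ | ⟨rfl, rfl⟩ <;>
  exact Fin_cond (by norm_num) (by norm_num) (by norm_num)

private lemma Fin_mix {d a : ℕ} (hd : 2 ≤ d) (h : Cond d a ∨ (d = 5 ∧ a = 3)) :
    2 * a < d + 2 ∧ ∃ δ : ℝ, 0 < δ ∧ Mix d (d - a + 1) δ := by
  rcases h with h | ⟨rfl, rfl⟩
  · have hd' : (2 : ℝ) ≤ d := by exact_mod_cast hd
    have h1 : 0 ≤ (d : ℝ) / (2 * Real.pi) * Real.arccos (2 * Real.sqrt ((d : ℝ) - 1) / d) := by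
      have h2 := Real.arccos_nonneg (2 * Real.sqrt ((d : ℝ) - 1) / d)
      have h3 := Real.pi_pos
      positivity
    have h4 : (a : ℝ) < (d + 2) / 2 := by
      unfold Cond at h
      linarith
    have h5 : 2 * a < d + 2 := by
      have h6 : (2 : ℝ) * a < d + 2 := by linarith
      exact_mod_cast h6
    exact ⟨h5, mix_plain hd (by omega) h⟩
  · exact ⟨by norm_num, mix_five⟩

theorem final_mix {d a : ℕ} (hd : 2 ≤ d) (h : Cond d a ∨ (d = 5 ∧ a = 3)) {ε : ℝ} (hε : 0 < ε) (r : ℕ) :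
    ∃ n₀ : ℕ, ∀ (V : Type) [Fintype V] [DecidableEq V] (G : SimpleGraph V) [DecidableRel G.Adj],
      G.IsRegularOfDegree d → n₀ < Fintype.card V → ∀ W : Fin r → Finset V, ∃ A : Finset V, A.Nonempty ∧ Aᶜ.Nonempty ∧
        (∀ v : V, (v ∈ A → a ≤ (G.neighborFinset v ∩ A).card) ∧ (v ∉ A → a ≤ (G.neighborFinset v ∩ Aᶜ).card)) ∧
        |(A.card : ℝ) - (Aᶜ.card : ℝ)| ≤ ε * Fintype.card V ∧
        ∀ j, |((A ∩ W j).card : ℝ) - ((W j \ A).card : ℝ)| ≤ ε * Fintype.card V := by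
  obtain ⟨h2, δ, hδ, hM⟩ := Fin_mix hd h
  obtain ⟨g, hg⟩ : ∃ g, g = d + 2 - 2 * a := ⟨_, rfl⟩
  obtain ⟨n₀, h1⟩ := mixM (d := d) (t := d - a + 1) (a := a) (g := g) (by omega) (by omega) (by omega) hδ hM
    (ε := min ε (1 / 2)) (lt_min hε (by norm_num)) (r + 1)
  refine ⟨n₀, ?_⟩
  intro V _ _ G _ hreg hn W
  obtain ⟨A, hA1, hA2⟩ := h1 V G (fun i => if hi : i < r then W ⟨i, hi⟩ else univ) hreg hn.le
  have hpos : (0 : ℝ) < Fintype.card V := by
    have : 0 < Fintype.card V := (Nat.zero_le _).trans_lt hn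
    exact_mod_cast this
  have h3 := hA2 r (Nat.lt_succ_self r)
  rw [dif_neg (lt_irrefl r)] at h3
  have e1 : ((imb univ A : ℤ) : ℝ) = (A.card : ℝ) - (Aᶜ.card : ℝ) := by
    unfold imb
    have e2 : A ∩ univ = A := Finset.inter_univ A
    have e3 : univ \ A = Aᶜ := by ext x; simp
    rw [e2, e3]
    push_cast
    ring
  rw [e1] at h3
  have h4 : (A.card : ℝ) + (Aᶜ.card : ℝ) = Fintype.card V := by exact_mod_cast Finset.card_add_card_compl A
  have h5 : |(A.card : ℝ) - (Aᶜ.card : ℝ)| ≤ 1 / 2 * Fintype.card V :=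
    h3.trans (mul_le_mul_of_nonneg_right (min_le_right _ _) hpos.le)
  have h6 := abs_le.1 h5
  have hA : (0 : ℝ) < A.card := by linarith [h6.1]
  have hAc : (0 : ℝ) < Aᶜ.card := by linarith [h6.2]
  refine ⟨A, Finset.card_pos.1 (by exact_mod_cast hA), Finset.card_pos.1 (by exact_mod_cast hAc), hA1, ?_, fun j => ?_⟩
  · exact h3.trans (mul_le_mul_of_nonneg_right (min_le_left _ _) hpos.le)
  · have h7 := hA2 j (j.2.trans (Nat.lt_succ_self r))
    rw [dif_pos j.2] at h7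
    have e4 : ((imb (W j) A : ℤ) : ℝ) = ((A ∩ W j).card : ℝ) - ((W j \ A).card : ℝ) := by
      unfold imb
      push_cast
      ring
    rw [e4] at h7
    exact h7.trans (mul_le_mul_of_nonneg_right (min_le_left _ _) hpos.le)

end H49.MX
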