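import Mathlib

/-!
# Module GBest: one sample is good for finitely many functions

`∫ ∑_q |Ψ q| < κ`, so outside every null set there is `ω` with `∑_q |Ψ q ω| ≤ ∫ ∑_q |Ψ q| < κ` (`exists_notMem_null_le_integral`).
`sqrt_small`: `C √(D n) ≤ |C| √|D| √n` and `√n > |C| √|D| / κ`, `n ≥ 1` for large `n`.
-/

set_option autoImplicit false

open Finset MeasureTheory ProbabilityTheory

namespace H49.MX

theorem exists_good {Ω : Type} [MeasurableSpace Ω] (P : Measure Ω) [IsProbabilityMeasure P] {Q : Type} [Fintype Q]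
    (Ψ : Q → Ω → ℝ) (hΨ : ∀ q, Integrable (Ψ q) P) {κ : ℝ} (hκ : ∑ q, ∫ ω, |Ψ q ω| ∂P < κ) {E : Ω → Prop}
    (hE : ∀ᵐ ω ∂P, E ω) : ∃ ω, E ω ∧ ∀ q, |Ψ q ω| ≤ κ := by
  have hi : Integrable (fun ω => ∑ q, |Ψ q ω|) P := integrable_finsetSum _ fun q _ => (hΨ q).abs
  have hN : P {ω | ¬ E ω} = 0 := ae_iff.1 hE
  obtain ⟨ω, h1, h2⟩ := exists_notMem_null_le_integral hi hN
  rw [integral_finsetSum _ fun q _ => (hΨ q).abs] at h2
  refine ⟨ω, ?_, fun q => ?_⟩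
  · by_contra h
    exact h1 h
  · have h3 : |Ψ q ω| ≤ ∑ q, |Ψ q ω| :=
      Finset.single_le_sum (f := fun q => |Ψ q ω|) (fun q _ => abs_nonneg _) (Finset.mem_univ q)
    exact h3.trans (h2.trans hκ.le)

/-- `√(D n)` is small compared with `n` -/
theorem sqrt_small (C D : ℝ) {κ : ℝ} (hκ : 0 < κ) : ∃ n₀ : ℕ, ∀ n : ℕ, n₀ ≤ n → C * Real.sqrt (D * n) < κ * n := by
  obtain ⟨n₀, hn₀⟩ := exists_nat_gt ((|C| * Real.sqrt |D| / κ) ^ 2)
  refine ⟨n₀ + 1, fun n hn => ?_⟩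
  have hn1 : (n₀ : ℝ) + 1 ≤ n := by exact_mod_cast hn
  have hn0 : (0 : ℝ) < n := by
    have : (0 : ℝ) ≤ n₀ := Nat.cast_nonneg _
    linarith
  have h1 : Real.sqrt (D * n) ≤ Real.sqrt |D| * Real.sqrt n := by
    rw [← Real.sqrt_mul (abs_nonneg D)]
    exact Real.sqrt_le_sqrt (mul_le_mul_of_nonneg_right (le_abs_self D) hn0.le)
  have h2 : C * Real.sqrt (D * n) ≤ |C| * (Real.sqrt |D| * Real.sqrt n) :=
    mul_le_mul (le_abs_self C) h1 (Real.sqrt_nonneg _) (abs_nonneg C)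
  have hs0 : 0 < Real.sqrt n := Real.sqrt_pos.2 hn0
  have h3 : |C| * Real.sqrt |D| / κ < Real.sqrt n := by
    refine Real.lt_sqrt_of_sq_lt ?_
    linarith
  have h4 : |C| * Real.sqrt |D| < κ * Real.sqrt n := by
    rw [div_lt_iff₀ hκ] at h3
    linarith
  calc C * Real.sqrt (D * n) ≤ |C| * (Real.sqrt |D| * Real.sqrt n) := h2
    _ = (|C| * Real.sqrt |D|) * Real.sqrt n := by ring
    _ < (κ * Real.sqrt n) * Real.sqrt n := mul_lt_mul_of_pos_right h4 hs0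
    _ = κ * n := by rw [mul_assoc, Real.mul_self_sqrt hn0.le]

end H49.MX
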