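import Pool.Agent.H49.MX.GDef
import Pool.Agent.H49.FR.Blocks

/-!
# Module GConc: concentration of sums of bounded local functions

Copy of `conc_gen` (`Pool.Agent.H49.FR.Conc`) for functions instead of events: `φ v` depends only on the coordinates in `P v`, `|φ v| ≤ C`. With
`g v = φ v - ∫ φ v`, `|g v| ≤ 2 C`. For `w ∉ T v`: `φ v`, `φ w` are independent (`indep_blocks`; `φ v` is a measurable function of the restriction to
`P v`: extension by zero, as in `Conc`), so `∫ g v g w = 0`; otherwise it is `≤ (2 C)²`. So `∫ (∑ g v)² ≤ (2 C)² D n`, and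
`∫ |f| ≤ √(∫ f²)`.
-/

set_option autoImplicit false

open Finset MeasureTheory ProbabilityTheory

namespace H49.MX

/-- extension by zero -/
private noncomputable def gConcExt {A : Type} [DecidableEq A] (P : Finset A) (x : P → ℝ) :
    EuclideanSpace ℝ A :=
  WithLp.toLp 2 fun a => if h : a ∈ P then x ⟨a, h⟩ else 0

private lemma gConc_ext_meas {A : Type} [Fintype A] [DecidableEq A] (P : Finset A) :
    Measurable (gConcExt P) := by
  have h : Continuous (gConcExt P) := by
    unfold gConcExt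
    refine (PiLp.continuous_toLp 2 _).comp ?_
    refine continuous_pi fun a => ?_
    by_cases h : a ∈ P
    · simp only [dif_pos h]
      exact continuous_apply _
    · simp only [dif_neg h]
      exact continuous_const
  exact h.measurable

private lemma gConc_pre {A : Type} [DecidableEq A] {f : EuclideanSpace ℝ A → ℝ} {P : Finset A}
    (hP : ∀ ω ω' : EuclideanSpace ℝ A, (∀ a ∈ P, ω a = ω' a) → f ω = f ω') :
    f = (f ∘ gConcExt P) ∘ fun (ω : EuclideanSpace ℝ A) (a : P) => ω a := by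
  funext ω
  refine hP _ _ fun a ha => ?_
  unfold gConcExt
  show ω a = if h : a ∈ P then ω a else 0
  rw [dif_pos ha]

private lemma gConc_ind {A : Type} [Fintype A] [DecidableEq A] {S : Matrix A A ℝ}
    (hS : S.PosSemidef) {f f' : EuclideanSpace ℝ A → ℝ} (hf : Measurable f) (hf' : Measurable f')
    {P P' : Finset A} (hP : ∀ ω ω' : EuclideanSpace ℝ A, (∀ a ∈ P, ω a = ω' a) → f ω = f ω')
    (hP' : ∀ ω ω' : EuclideanSpace ℝ A, (∀ a ∈ P', ω a = ω' a) → f' ω = f' ω')
    (h : ∀ a ∈ P, ∀ b ∈ P', S a b = 0) : IndepFun f f' (multivariateGaussian 0 S) := by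
  have h1 := Pool.Agent.H49.FR.indep_blocks hS P P' h
  have h2 := h1.comp (hf.comp (gConc_ext_meas P)) (hf'.comp (gConc_ext_meas P'))
  rwa [← gConc_pre hP, ← gConc_pre hP'] at h2

theorem conc_fun {A : Type} [Fintype A] [DecidableEq A] {S : Matrix A A ℝ} (hS : S.PosSemidef)
    {V : Type} [Fintype V] [DecidableEq V] (φ : V → EuclideanSpace ℝ A → ℝ) (hφ : ∀ v, Measurable (φ v)) {C : ℝ}
    (hC : ∀ v ω, |φ v ω| ≤ C) (P : V → Finset A)
    (hP : ∀ v, ∀ ω ω' : EuclideanSpace ℝ A, (∀ a ∈ P v, ω a = ω' a) → φ v ω = φ v ω')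
    (D : ℕ) (T : V → Finset V) (hT : ∀ v, (T v).card ≤ D)
    (hD : ∀ v, ∀ w ∉ T v, ∀ a ∈ P v, ∀ b ∈ P w, S a b = 0) :
    ∫ ω, |(∑ v, φ v ω) - ∑ v, ∫ ω', φ v ω' ∂(multivariateGaussian 0 S)| ∂(multivariateGaussian 0 S) ≤
      2 * C * Real.sqrt (D * Fintype.card V) := by
  set μ := multivariateGaussian (0 : EuclideanSpace ℝ A) S with hμ
  rcases isEmpty_or_nonempty V with hV | hV
  · simp
  have hC0 : 0 ≤ C := (abs_nonneg _).trans (hC hV.some 0)
  set g : V → EuclideanSpace ℝ A → ℝ := fun v ω => φ v ω - ∫ ω', φ v ω' ∂μ with hg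
  have fi : ∀ v, Integrable (φ v) μ := fun v =>
    Integrable.of_bound (hφ v).aestronglyMeasurable C
      (Filter.Eventually.of_forall fun ω => by rw [Real.norm_eq_abs]; exact hC v ω)
  have gm : ∀ v, Measurable (g v) := fun v => (hφ v).sub measurable_const
  have gb : ∀ v ω, |g v ω| ≤ 2 * C := by
    intro v ω
    have h1 : |∫ ω', φ v ω' ∂μ| ≤ C := by
      have h := norm_integral_le_of_norm_le_const (μ := μ) (f := φ v) (C := C)
        (Filter.Eventually.of_forall fun ω => by rw [Real.norm_eq_abs]; exact hC v ω)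
      rw [Real.norm_eq_abs, probReal_univ, mul_one] at h
      exact h
    have h2 := hC v ω
    rw [hg]
    show |φ v ω - ∫ ω', φ v ω' ∂μ| ≤ 2 * C
    rw [abs_le] at h1 h2 ⊢
    constructor <;> linarith
  have g0 : ∀ v, ∫ ω, g v ω ∂μ = 0 := by
    intro v
    rw [hg]
    show ∫ ω, (φ v ω - ∫ ω', φ v ω' ∂μ) ∂μ = 0
    rw [integral_sub (fi v) (integrable_const _), integral_const, probReal_univ, one_smul, sub_self]
  have gP : ∀ v, ∀ ω ω' : EuclideanSpace ℝ A, (∀ a ∈ P v, ω a = ω' a) → g v ω = g v ω' := by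
    intro v ω ω' h
    rw [hg]
    show φ v ω - _ = φ v ω' - _
    rw [hP v ω ω' h]
  have e1 : ∀ ω, (∑ v, φ v ω) - ∑ v, ∫ ω', φ v ω' ∂μ = ∑ v, g v ω := by
    intro ω
    rw [← Finset.sum_sub_distrib]
  have hXm : Measurable fun ω => ∑ v, g v ω := Finset.measurable_fun_sum _ fun v _ => gm v
  have hXb : ∀ ω, |∑ v, g v ω| ≤ (Fintype.card V : ℝ) * (2 * C) := by
    intro ω
    refine (Finset.abs_sum_le_sum_abs _ _).trans ?_
    refine (Finset.sum_le_sum fun v _ => gb v ω).trans ?_
    rw [Finset.sum_const, nsmul_eq_mul, Finset.card_univ]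
  have hC2 : 0 ≤ 2 * C := by linarith
  have hgb : ∀ v w ω, |g v ω * g w ω| ≤ (2 * C) ^ 2 := by
    intro v w ω
    rw [abs_mul, sq]
    exact mul_le_mul (gb v ω) (gb w ω) (abs_nonneg _) hC2
  have hgi : ∀ v w, Integrable (fun ω => g v ω * g w ω) μ := by
    intro v w
    refine Integrable.of_bound ((gm v).mul (gm w)).aestronglyMeasurable ((2 * C) ^ 2)
      (Filter.Eventually.of_forall fun ω => ?_)
    rw [Real.norm_eq_abs]
    exact hgb v w ω
  have hsq : ∫ ω, (∑ v, g v ω) ^ 2 ∂μ ≤ (2 * C) ^ 2 * (D * Fintype.card V) := by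
    have e2 : ∀ ω, (∑ v, g v ω) ^ 2 = ∑ v, ∑ w, g v ω * g w ω := by
      intro ω
      rw [sq, Finset.sum_mul_sum]
    rw [integral_congr_ae (Filter.Eventually.of_forall e2),
      integral_finsetSum _ fun v _ => integrable_finsetSum _ fun w _ => hgi v w]
    have e3 : ∀ v, ∫ ω, ∑ w, g v ω * g w ω ∂μ ≤ D * (2 * C) ^ 2 := by
      intro v
      rw [integral_finsetSum _ fun w _ => hgi v w]
      have e4 : ∀ w, ∫ ω, g v ω * g w ω ∂μ ≤ if w ∈ T v then (2 * C) ^ 2 else 0 := by
        intro w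
        by_cases hw : w ∈ T v
        · rw [if_pos hw]
          have h := norm_integral_le_of_norm_le_const (μ := μ) (f := fun ω => g v ω * g w ω)
            (C := (2 * C) ^ 2)
            (Filter.Eventually.of_forall fun ω => by rw [Real.norm_eq_abs]; exact hgb v w ω)
          rw [Real.norm_eq_abs, probReal_univ, mul_one] at h
          exact (le_abs_self _).trans h
        · rw [if_neg hw]
          have hi := gConc_ind hS (gm v) (gm w) (gP v) (gP w) (hD v w hw)
          have h := hi.integral_fun_mul_eq_mul_integral (gm v).aestronglyMeasurable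
            (gm w).aestronglyMeasurable
          have h' : ∫ ω, g v ω * g w ω ∂μ = (∫ ω, g v ω ∂μ) * ∫ ω, g w ω ∂μ := h
          rw [h', g0, zero_mul]
      refine (Finset.sum_le_sum fun w _ => e4 w).trans ?_
      rw [Finset.sum_ite_mem, Finset.univ_inter, Finset.sum_const, nsmul_eq_mul]
      exact mul_le_mul_of_nonneg_right (by exact_mod_cast hT v) (sq_nonneg _)
    refine (Finset.sum_le_sum fun v _ => e3 v).trans ?_
    rw [Finset.sum_const, nsmul_eq_mul, Finset.card_univ]
    exact le_of_eq (by ring)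
  have hX2 : MemLp (fun ω => |∑ v, g v ω|) 2 μ := by
    refine MemLp.of_bound (hXm.abs).aestronglyMeasurable ((Fintype.card V : ℝ) * (2 * C))
      (Filter.Eventually.of_forall fun ω => ?_)
    rw [Real.norm_eq_abs, abs_abs]
    exact hXb ω
  have hv := variance_nonneg (fun ω => |∑ v, g v ω|) μ
  rw [variance_eq_sub hX2] at hv
  have hsq2 : (∫ ω, |∑ v, g v ω| ∂μ) ^ 2 ≤ ∫ ω, (∑ v, g v ω) ^ 2 ∂μ := by
    have e5 : ∫ ω, ((fun ω => |∑ v, g v ω|) ^ 2) ω ∂μ = ∫ ω, (∑ v, g v ω) ^ 2 ∂μ := by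
      refine integral_congr_ae (Filter.Eventually.of_forall fun ω => ?_)
      show |∑ v, g v ω| ^ 2 = (∑ v, g v ω) ^ 2
      exact sq_abs _
    rw [e5] at hv
    linarith
  rw [integral_congr_ae (Filter.Eventually.of_forall fun ω => congrArg abs (e1 ω))]
  refine (Real.le_sqrt_of_sq_le (hsq2.trans hsq)).trans ?_
  rw [Real.sqrt_mul (sq_nonneg _), Real.sqrt_sq hC2]

end H49.MX
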