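import Pool.Agent.H49.MX.GDef

/-!
# Module GCutZ: the smoothing lowers the cut

GENERAL: for sets `Y, Z` let, for `v ∈ Z`, `a v` = number of neighbours `u ∉ Z` of `v` with `(u ∈ Y ↔ v ∈ Y)` and `b v` = number of neighbours
`u ∉ Z` with `¬ (u ∈ Y ↔ v ∈ Y)`. Then `cut (Y ∆ Z) = cut Y + ∑_{v ∈ Z} (a v - b v)`: count ordered pairs of adjacent vertices on different
sides (`2 cut`): `∑_v ∑_{u ~ v} [¬ (u ∈ Y ↔ v ∈ Y)]`; only pairs with exactly one end in `Z` change.
Here: `b v ≥ |opp v| ≥ t` for `v ∈ Z`: a vertex `u ∈ opp v` is in `W`, `v ∈ W`, and of different sign, so exactly one of `u, v` is in `Y`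
(`W ⊆ B`: for `w ∈ W`: `w ∈ Y ↔ ¬ 0 < f w`), and `u ∉ Z`: otherwise `v ∈ opp u` and `lev v < lev u < lev v`. `a v + b v ≤ d`. So
`a v - b v ≤ d - 2 t`.
-/

set_option autoImplicit false

open Finset

namespace H49.MX

open Pool.Agent.H49.FR (nin cut)

variable {V : Type} [Fintype V] [DecidableEq V] (G : SimpleGraph V) [DecidableRel G.Adj]

theorem gcz_swap (F : V → V → ℝ) :
    ∑ v, ∑ u ∈ G.neighborFinset v, F v u = ∑ v, ∑ u ∈ G.neighborFinset v, F u v := by
  have h : ∀ H : V → V → ℝ, ∑ v, ∑ u ∈ G.neighborFinset v, H v u = ∑ v, ∑ u, if G.Adj v u then H v u else 0 := by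
    intro H
    refine Finset.sum_congr rfl fun v _ => ?_
    rw [← Finset.sum_filter]
    congr 1
    ext u
    simp
  rw [h, h, Finset.sum_comm]
  refine Finset.sum_congr rfl fun v _ => Finset.sum_congr rfl fun u _ => ?_
  simp only [G.adj_comm u v]

theorem gcz_cut (A : Finset V) :
    (cut G A : ℝ) = ∑ v, ∑ u ∈ G.neighborFinset v, if v ∈ A ∧ u ∉ A then (1 : ℝ) else 0 := by
  unfold cut nin
  push_cast
  rw [← Finset.sum_subset (Finset.subset_univ A)]
  · refine Finset.sum_congr rfl fun v hv => ?_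
    simp only [hv, true_and, Finset.sum_boole]
    congr 2
    ext u
    simp
  · intro v _ hv
    simp [hv]

theorem gcz_symm (Y Z : Finset V) :
    (cut G (symmDiff Y Z) : ℝ) = cut G Y + ∑ v ∈ Z, ∑ u ∈ G.neighborFinset v,
      (if u ∈ Z then (0 : ℝ) else if (u ∈ Y ↔ v ∈ Y) then 1 else -1) := by
  set c : V → V → ℝ := fun v u => (if u ∈ Z then (0 : ℝ) else if (u ∈ Y ↔ v ∈ Y) then 1 else -1) with hc
  have hZ : ∑ v ∈ Z, ∑ u ∈ G.neighborFinset v, c v u =
      ∑ v, ∑ u ∈ G.neighborFinset v, if v ∈ Z then c v u else 0 := by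
    rw [← Finset.sum_subset (Finset.subset_univ Z)]
    · refine Finset.sum_congr rfl fun v hv => ?_
      simp [hv]
    · intro v _ hv
      simp [hv]
  have key : ∀ v u : V, (if v ∈ symmDiff Y Z ∧ u ∉ symmDiff Y Z then (1 : ℝ) else 0) +
      (if u ∈ symmDiff Y Z ∧ v ∉ symmDiff Y Z then (1 : ℝ) else 0) =
      (if v ∈ Y ∧ u ∉ Y then (1 : ℝ) else 0) + (if u ∈ Y ∧ v ∉ Y then (1 : ℝ) else 0) +
      (if v ∈ Z then c v u else 0) + (if u ∈ Z then c u v else 0) := by
    intro v u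
    simp only [hc, Finset.mem_symmDiff]
    by_cases h1 : v ∈ Z <;> by_cases h2 : u ∈ Z <;> by_cases h3 : v ∈ Y <;> by_cases h4 : u ∈ Y <;>
      simp [h1, h2, h3, h4]
  have e1 := gcz_cut G (symmDiff Y Z)
  have e2 := gcz_cut G Y
  have s1 := gcz_swap G (fun v u => if v ∈ symmDiff Y Z ∧ u ∉ symmDiff Y Z then (1 : ℝ) else 0)
  have s2 := gcz_swap G (fun v u => if v ∈ Y ∧ u ∉ Y then (1 : ℝ) else 0)
  have s3 := gcz_swap G (fun v u => if v ∈ Z then c v u else 0)
  have tot : ∑ v, ∑ u ∈ G.neighborFinset v, ((if v ∈ symmDiff Y Z ∧ u ∉ symmDiff Y Z then (1 : ℝ) else 0) +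
      (if u ∈ symmDiff Y Z ∧ v ∉ symmDiff Y Z then (1 : ℝ) else 0)) =
      ∑ v, ∑ u ∈ G.neighborFinset v, ((if v ∈ Y ∧ u ∉ Y then (1 : ℝ) else 0) +
        (if u ∈ Y ∧ v ∉ Y then (1 : ℝ) else 0) +
      (if v ∈ Z then c v u else 0) + (if u ∈ Z then c u v else 0)) :=
    Finset.sum_congr rfl fun v _ => Finset.sum_congr rfl fun u _ => key v u
  simp only [Finset.sum_add_distrib] at tot
  rw [hZ]
  linarith

theorem cut_Eset {d t : ℕ} (hreg : G.IsRegularOfDegree d) (β : ℝ) (L : ℕ) {B W : Finset V} (hW : W ⊆ B) (f : V → ℝ) :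
    (cut G (Eset G t β L B W f) : ℝ) ≤ cut G (Yset B W f) - (2 * (t : ℝ) - d) * (Zset G t β L W f).card := by
  unfold Eset
  rw [gcz_symm]
  set Y := Yset B W f with hY
  set Z := Zset G t β L W f with hZ
  have hYm : ∀ w ∈ W, (w ∈ Y ↔ ¬ 0 < f w) := by
    intro w hw
    rw [hY]
    unfold Yset
    simp [hw, hW hw]
  have hmem : ∀ v, v ∈ Z ↔ v ∈ W ∧ (lev β L (f v) < L ∧ t ≤ (opp G W f v).card ∧
      ∀ u ∈ opp G W f v, lev β L (f v) < lev β L (f u)) := by
    intro v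
    rw [hZ]
    unfold Zset
    rw [Finset.mem_filter]
  have hopp : ∀ v u, u ∈ opp G W f v ↔ (G.Adj v u ∧ u ∈ W) ∧ ¬ (0 < f u ↔ 0 < f v) := by
    intro v u
    unfold opp
    simp
  have hv : ∀ v ∈ Z, ∑ u ∈ G.neighborFinset v,
      (if u ∈ Z then (0 : ℝ) else if (u ∈ Y ↔ v ∈ Y) then 1 else -1) ≤ d - 2 * t := by
    intro v hv
    obtain ⟨hvW, -, ht, hlev⟩ := (hmem v).1 hv
    have hsub : opp G W f v ⊆ G.neighborFinset v := by
      intro u hu
      simpa using ((hopp v u).1 hu).1.1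
    have hpt : ∀ u ∈ G.neighborFinset v, (if u ∈ Z then (0 : ℝ) else if (u ∈ Y ↔ v ∈ Y) then 1 else -1) ≤
        1 - 2 * (if u ∈ opp G W f v then (1 : ℝ) else 0) := by
      intro u hu
      by_cases ho : u ∈ opp G W f v
      · have h1 := (hopp v u).1 ho
        have hnZ : u ∉ Z := by
          intro huZ
          obtain ⟨-, -, -, hl⟩ := (hmem u).1 huZ
          have h2 : v ∈ opp G W f u := (hopp u v).2 ⟨⟨h1.1.1.symm, hvW⟩, fun h => h1.2 h.symm⟩
          exact absurd (hl v h2) (not_lt.2 (hlev u ho).le)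
        have hnY : ¬ (u ∈ Y ↔ v ∈ Y) := by
          rw [hYm u h1.1.2, hYm v hvW, not_iff_not]
          exact h1.2
        rw [if_neg hnZ, if_neg hnY, if_pos ho]
        norm_num
      · rw [if_neg ho]
        split_ifs <;> norm_num
    refine (Finset.sum_le_sum hpt).trans ?_
    rw [Finset.sum_sub_distrib, ← Finset.mul_sum, Finset.sum_boole]
    have h3 : (G.neighborFinset v).filter (fun u => u ∈ opp G W f v) = opp G W f v := by
      ext u
      rw [Finset.mem_filter]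
      exact ⟨fun h => h.2, fun h => ⟨hsub h, h⟩⟩
    rw [h3]
    have h4 : ((G.neighborFinset v).card : ℝ) = d := by
      rw [SimpleGraph.card_neighborFinset_eq_degree, hreg v]
    have h5 : (t : ℝ) ≤ (opp G W f v).card := by exact_mod_cast ht
    simp only [Finset.sum_const, nsmul_eq_mul, mul_one]
    rw [h4]
    linarith
  have hs := Finset.sum_le_sum hv
  rw [Finset.sum_const, nsmul_eq_mul] at hs
  nlinarith [hs]

end H49.MX
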