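import Pool.Agent.H49.MX.Defs

/-!
# Block G (Gaussian part) of the theorem on asymptotic bisections (MP_363a78_co): definitions

`B` a set of vertices, `W ⊆ B`, `f : V → ℝ` (later `f v = X_v - h`, `X` a Gaussian field). `Yset B W f = B \ {v ∈ W : f v > 0}`.
Level `lev β L x = min (⌊|x|/β⌋) L`. `Zset`: the vertices `v ∈ W` with level `< L` which have at least `t` neighbours in `W` on the other side
(`f u` and `f v` of different sign) and all these neighbours have a larger level than `v`. `Eset = Yset ∆ Zset`.

`Psi` is the estimate at a vertex (Lemma 3). The result of the block is `Mix` (see `Defs`).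
-/

set_option autoImplicit false

open Finset MeasureTheory ProbabilityTheory

namespace H49.MX

open Pool.Agent.H49.FR (nin cut ball Cv)

variable {V : Type} [Fintype V] [DecidableEq V]

/-- the level of a real number -/
noncomputable def lev (β : ℝ) (L : ℕ) (x : ℝ) : ℕ := min ⌊|x| / β⌋₊ L

/-- the neighbours in `W` on the other side -/
noncomputable def opp (G : SimpleGraph V) [DecidableRel G.Adj] (W : Finset V) (f : V → ℝ) (v : V) : Finset V :=
  (G.neighborFinset v ∩ W).filter fun u => ¬ (0 < f u ↔ 0 < f v)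

/-- the mixed set -/
noncomputable def Yset (B W : Finset V) (f : V → ℝ) : Finset V := B \ W.filter fun v => 0 < f v

/-- the vertices which are moved by the smoothing -/
noncomputable def Zset (G : SimpleGraph V) [DecidableRel G.Adj] (t : ℕ) (β : ℝ) (L : ℕ) (W : Finset V)
    (f : V → ℝ) : Finset V :=
  W.filter fun v => lev β L (f v) < L ∧ t ≤ (opp G W f v).card ∧ ∀ u ∈ opp G W f v, lev β L (f v) < lev β L (f u)

/-- the smoothed mixed set -/
noncomputable def Eset (G : SimpleGraph V) [DecidableRel G.Adj] (t : ℕ) (β : ℝ) (L : ℕ) (B W : Finset V)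
    (f : V → ℝ) : Finset V := symmDiff (Yset B W f) (Zset G t β L W f)

/-- the estimate at a vertex -/
def Psi (d t L : ℕ) (ρ β δ : ℝ) : Prop :=
  ∀ (V : Type) [Fintype V] [DecidableEq V] (G : SimpleGraph V) [DecidableRel G.Adj], G.IsRegularOfDegree d →
    ∀ (r : ℕ) (S : Matrix V V ℝ), Cv G ρ r S → ∀ W : Finset V, ∀ v ∈ W, ∀ h : ℝ,
      ∑ u ∈ G.neighborFinset v ∩ W, (multivariateGaussian 0 S).real {ω : EuclideanSpace ℝ V | h < ω v ∧ ω u ≤ h} -
        (2 * (t : ℝ) - d) * (multivariateGaussian 0 S).real
          {ω : EuclideanSpace ℝ V | v ∈ Zset G t β L W fun u => ω u - h} ≤ (2 * (t : ℝ) - d) / 2 - δ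

end H49.MX
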