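import Pool.Agent.H49.MX.GDef
import Pool.Agent.H49.FR.GInt
import Pool.Agent.H49.FR.NumG

/-!
# Module GDens: lower bound for Gaussian integrals

The density of `gaussianReal 0 1` at `x`, `|x| ≤ M`, is at least `0.39894 (1 - M²/2)` (`(√(2π))⁻¹ ≥ 0.39894` from `sqrt_two_pi`,
`exp(-x²/2) ≥ 1 - x²/2`). So `∫⁻_{(h, h+α)} ofReal (b x) dγ ≥ c ∫⁻_{(h, h+α)} ofReal (b x) dx ≥ ofReal (c ∫_{(h,h+α)} b x dx)` (`integral_Ioc_eq_integral_Ioo`).
`gamma_lower` is this for `b x = p - q (x - h)`; `∫ = p α - q α² / 2`. (The linear function may be negative: `ENNReal.ofReal` cuts it off at `0`,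
`ofReal_integral_le_lintegral...` or `integral ≤ integral of the positive part`.)
-/

set_option autoImplicit false

open Finset MeasureTheory ProbabilityTheory

namespace H49.MX

private lemma GDens_int (h α p q : ℝ) (hα : 0 ≤ α) :
    IntegrableOn (fun x : ℝ => p - q * (x - h)) (Set.Ioo h (h + α)) volume ∧
      ∫ x in Set.Ioo h (h + α), (p - q * (x - h)) = p * α - q * α ^ 2 / 2 := by
  constructor
  · have : ContinuousOn (fun x : ℝ => p - q * (x - h)) (Set.Icc h (h + α)) := by fun_prop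
    exact this.integrableOn_Icc.mono_set Set.Ioo_subset_Icc_self
  · rw [← integral_Ioc_eq_integral_Ioo, ← intervalIntegral.integral_of_le (by linarith),
      intervalIntegral.integral_comp_sub_right (fun y => p - q * y) h, sub_self, add_sub_cancel_left,
      intervalIntegral.integral_sub (by simp) ((intervalIntegral.intervalIntegrable_id).const_mul q),
      intervalIntegral.integral_const, intervalIntegral.integral_const_mul, integral_id, smul_eq_mul]
    ring

private lemma GDens_pdf {M x : ℝ} (hx : |x| ≤ M) (hM2 : M ^ 2 ≤ 2) :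
    ENNReal.ofReal (39894 / 100000 * (1 - M ^ 2 / 2)) ≤ gaussianPDF 0 1 x := by
  unfold gaussianPDF
  refine ENNReal.ofReal_le_ofReal ?_
  unfold gaussianPDFReal
  have h1 : (39894 / 100000 : ℝ) ≤ (Real.sqrt (2 * Real.pi * ((1 : NNReal) : ℝ)))⁻¹ := by
    obtain ⟨h1, h2⟩ := Pool.Agent.H49.FR.sqrt_two_pi
    have h0 : (0 : ℝ) < Real.sqrt (2 * Real.pi) := by linarith
    rw [NNReal.coe_one, mul_one, le_inv_comm₀ (by norm_num) h0]
    refine h2.le.trans ?_
    norm_num
  have h2 : 1 - M ^ 2 / 2 ≤ Real.exp (-(x - 0) ^ 2 / (2 * ((1 : NNReal) : ℝ))) := by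
    have e1 := Real.add_one_le_exp (-(x - 0) ^ 2 / (2 * ((1 : NNReal) : ℝ)))
    have e2 : -(x - 0) ^ 2 / (2 * ((1 : NNReal) : ℝ)) = -(x ^ 2 / 2) := by
      rw [NNReal.coe_one]
      ring
    rw [e2] at e1 ⊢
    have e3 : x ^ 2 ≤ M ^ 2 := by
      rw [← sq_abs x]
      exact pow_le_pow_left₀ (abs_nonneg x) hx 2
    linarith
  exact mul_le_mul h1 h2 (by linarith) (by positivity)

private lemma GDens_pos {μ : Measure ℝ} {f : ℝ → ℝ} (hf : Integrable f μ) :
    ENNReal.ofReal (∫ x, f x ∂μ) ≤ ∫⁻ x, ENNReal.ofReal (f x) ∂μ := by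
  rw [integral_eq_lintegral_pos_part_sub_lintegral_neg_part hf]
  refine (ENNReal.ofReal_le_ofReal (sub_le_self _ ENNReal.toReal_nonneg)).trans ?_
  exact ENNReal.ofReal_toReal_le

theorem gamma_lower {h α M p q : ℝ} (hα : 0 ≤ α) (hM : |h| + α ≤ M) (hM2 : M ^ 2 ≤ 2) :
    ENNReal.ofReal (39894 / 100000 * (1 - M ^ 2 / 2) * (p * α - q * α ^ 2 / 2)) ≤
      ∫⁻ x in Set.Ioo h (h + α), ENNReal.ofReal (p - q * (x - h)) ∂(gaussianReal 0 1) := by
  have hc0 : 0 ≤ 39894 / 100000 * (1 - M ^ 2 / 2) := by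
    have : 0 ≤ 1 - M ^ 2 / 2 := by linarith
    positivity
  have mb : Measurable fun x : ℝ => ENNReal.ofReal (p - q * (x - h)) := by
    apply Measurable.ennreal_ofReal
    fun_prop
  obtain ⟨hi, hv⟩ := GDens_int h α p q hα
  rw [gaussianReal_of_var_ne_zero 0 one_ne_zero,
    setLIntegral_withDensity_eq_setLIntegral_mul _ (measurable_gaussianPDF 0 1) mb
      measurableSet_Ioo]
  calc ENNReal.ofReal (39894 / 100000 * (1 - M ^ 2 / 2) * (p * α - q * α ^ 2 / 2))
      = ENNReal.ofReal (39894 / 100000 * (1 - M ^ 2 / 2)) *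
        ENNReal.ofReal (∫ x in Set.Ioo h (h + α), (p - q * (x - h))) := by
        rw [hv, ENNReal.ofReal_mul hc0]
    _ ≤ ENNReal.ofReal (39894 / 100000 * (1 - M ^ 2 / 2)) *
        ∫⁻ x in Set.Ioo h (h + α), ENNReal.ofReal (p - q * (x - h)) :=
        mul_le_mul' le_rfl (GDens_pos hi)
    _ = ∫⁻ x in Set.Ioo h (h + α), ENNReal.ofReal (39894 / 100000 * (1 - M ^ 2 / 2)) *
          ENNReal.ofReal (p - q * (x - h)) := (lintegral_const_mul _ mb).symm
    _ ≤ ∫⁻ x in Set.Ioo h (h + α),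
          (gaussianPDF 0 1 * fun x => ENNReal.ofReal (p - q * (x - h))) x := by
        refine lintegral_mono_ae ?_
        filter_upwards [ae_restrict_mem measurableSet_Ioo] with x hx
        have hx1 : |x| ≤ M := by
          have e1 := abs_le.1 (le_refl |h|)
          rw [abs_le]
          constructor
          · linarith [hx.1, e1.1]
          · linarith [hx.2, e1.2]
        exact mul_le_mul' (GDens_pdf hx1 hM2) le_rfl

end H49.MX
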