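import Pool.Agent.H49.MX.GUp

/-!
# Module GTail: complement of `up`

`γ (Iic h) = 1 - γ (Ioi h) = 1 - up h = up (-h)` (`probReal_compl_eq_one_sub`, `up_neg`).
-/

set_option autoImplicit false

open MeasureTheory ProbabilityTheory

namespace H49.MX

theorem up_compl (h : ℝ) : (gaussianReal 0 1).real (Set.Iic h) = up (-h) := by
  have h1 : (Set.Iic h : Set ℝ) = (Set.Ioi h)ᶜ := by
    ext x
    simp
  rw [up_neg, h1, probReal_compl_eq_one_sub measurableSet_Ioi]
  rfl

end H49.MX
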