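import Pool.Agent.H49.MX.GKron
import Pool.Agent.H49.MX.GTail
import Pool.Agent.H49.FR.GInt

/-!
# Module GDif: close points have the same data with large probability

* `lev_stable`: `k = 0` gives `|x| > τ`, so `x, x'` have the same sign. `j ≤ lev x ↔ j β ≤ |x|` for `j ≤ L`, and `j β ≤ |x| ↔ j β ≤ |x'|`
  because the distance of `|x|` to `j β` is `> τ` (use `k = j` or `k = -j`) and `||x| - |x'|| ≤ |x - x'| < τ`. Both levels are `≤ L`.
* `dif_prob`: `τ = ε / (4 (2 L + 1))`, `H` from `up_small` with `up ≤ ε / 4`, `s = τ / (2 H)`, `z = min (τ / 2) (s ^ 2)`. The event is contained in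
  `{τ/2 ≤ |fld (y - y') ω v|} ∪ ⋃_{k ∈ [-L, L]} {|fld y ω v - (h + k β)| ≤ τ}`; first: `fld_small` gives `≤ 2 up ((τ/2)/s) = 2 up H ≤ ε / 2`; the others:
  `law_fld_eval` and `gauss_interval_le` give `≤ 2 τ / √(2π) ≤ 2 τ`, in total `≤ (2 L + 1) 2 τ = ε / 2`.
-/

set_option autoImplicit false

open Finset MeasureTheory ProbabilityTheory

namespace H49.MX

private theorem gDif_floor {β : ℝ} (hβ : 0 < β) (L : ℕ) {a a' : ℝ} (ha : 0 ≤ a)
    (h : ∀ j : ℕ, j ≤ L → ((j : ℝ) * β ≤ a → (j : ℝ) * β ≤ a')) :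
    min ⌊a / β⌋₊ L ≤ min ⌊a' / β⌋₊ L := by
  refine le_min ?_ (min_le_right _ _)
  have h1 : min ⌊a / β⌋₊ L ≤ ⌊a / β⌋₊ := min_le_left _ _
  have h2 := (Nat.le_floor_iff (div_nonneg ha hβ.le)).1 h1
  rw [le_div_iff₀ hβ] at h2
  have h3 := h _ (min_le_right _ _) h2
  refine Nat.le_floor ?_
  rw [le_div_iff₀ hβ]
  exact h3

theorem lev_stable {β : ℝ} (hβ : 0 < β) (L : ℕ) {x x' τ : ℝ} (h : |x - x'| < τ)
    (hk : ∀ k : ℤ, |k| ≤ L → τ < |x - k * β|) :
    (0 < x ↔ 0 < x') ∧ lev β L x = lev β L x' := by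
  have h0 : τ < |x| := by
    have := hk 0 (by simp)
    simpa using this
  have hl := abs_lt.1 h
  refine ⟨⟨fun hx => ?_, fun hx => ?_⟩, ?_⟩
  · rw [abs_of_pos hx] at h0
    linarith [hl.2]
  · by_contra hn
    rw [abs_of_nonpos (not_lt.1 hn)] at h0
    linarith [hl.1]
  · have hax : |(|x| - |x'|)| < τ := lt_of_le_of_lt (abs_abs_sub_abs_le x x') h
    have hax' := abs_lt.1 hax
    have hj : ∀ j : ℕ, j ≤ L → τ < |(|x| - (j : ℝ) * β)| := by
      intro j hj
      rcases le_or_gt 0 x with hx | hx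
      · have h1 := hk (j : ℤ) (by simpa using hj)
        rw [abs_of_nonneg hx]
        simpa using h1
      · have h1 := hk (-(j : ℤ)) (by simpa using hj)
        rw [abs_of_neg hx]
        have e : -x - (j : ℝ) * β = -(x - ((-(j : ℤ) : ℤ) : ℝ) * β) := by
          push_cast
          ring
        rw [e, abs_neg]
        exact h1
    unfold lev
    refine le_antisymm (gDif_floor hβ L (abs_nonneg _) fun j hjL hle => ?_)
      (gDif_floor hβ L (abs_nonneg _) fun j hjL hle => ?_)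
    · have h1 := hj j hjL
      rw [abs_of_nonneg (by linarith)] at h1
      linarith [hax'.2]
    · by_contra hn
      have h1 := hj j hjL
      rw [abs_of_neg (by linarith [not_le.1 hn])] at h1
      linarith [hax'.1]

theorem dif_prob {β : ℝ} (hβ : 0 < β) (L : ℕ) {ε : ℝ} (hε : 0 < ε) :
    ∃ z : ℝ, 0 < z ∧ ∀ (V : Type) [Fintype V] [DecidableEq V] (ι : Type) [Fintype ι] [DecidableEq ι]
      (S : Matrix V V ℝ), S.PosSemidef → ∀ v : V, S v v = 1 → ∀ (y y' : ι → ℝ) (h h' : ℝ),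
        ∑ k, y k ^ 2 = 1 → |h - h'| ≤ z → ∑ k, (y k - y' k) ^ 2 ≤ z →
        (multivariateGaussian 0 (kr ι S)).real
          {ω | ¬ ((0 < fld y ω v - h ↔ 0 < fld y' ω v - h') ∧
            lev β L (fld y ω v - h) = lev β L (fld y' ω v - h'))} ≤ ε := by
  have hN : (0 : ℝ) < 2 * L + 1 := by positivity
  obtain ⟨τ, hτd⟩ : ∃ τ : ℝ, τ = ε / (4 * (2 * L + 1)) := ⟨_, rfl⟩
  have hτ : 0 < τ := by rw [hτd]; positivity
  obtain ⟨H, hH0, hH⟩ := up_small (show (0 : ℝ) < ε / 4 by positivity)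
  have hs : 0 < τ / (2 * H) := by positivity
  refine ⟨min (τ / 2) ((τ / (2 * H)) ^ 2), lt_min (by positivity) (by positivity), ?_⟩
  intro V _ _ ι _ _ S hS v hv y y' h h' hy hh hyy
  have h1 : |h - h'| ≤ τ / 2 := hh.trans (min_le_left _ _)
  have h2 : ∑ k, (y k - y' k) ^ 2 ≤ (τ / (2 * H)) ^ 2 := hyy.trans (min_le_right _ _)
  have hA : (multivariateGaussian 0 (kr ι S)).real
      {ω | τ / 2 ≤ |fld (fun k => y k - y' k) ω v|} ≤ ε / 2 := by
    have h3 := fld_small (ι := ι) hS hv (a := fun k => y k - y' k) (s := τ / (2 * H)) (τ := τ / 2)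
      hs (by positivity) h2
    have e : τ / 2 / (τ / (2 * H)) = H := by field_simp
    rw [e] at h3
    linarith [hH H le_rfl]
  have hB : ∀ k : ℤ, (multivariateGaussian 0 (kr ι S)).real
      {ω | fld y ω v ∈ Set.Icc (h + k * β - τ) (h + k * β + τ)} ≤ 2 * τ := by
    intro k
    have h3 : ((multivariateGaussian 0 (kr ι S)).map (fun ω => fld y ω v)).real
        (Set.Icc (h + k * β - τ) (h + k * β + τ)) =
        (multivariateGaussian 0 (kr ι S)).real
          {ω | fld y ω v ∈ Set.Icc (h + k * β - τ) (h + k * β + τ)} :=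
      map_measureReal_apply (fld_meas y v) measurableSet_Icc
    rw [← h3, law_fld_eval hS hv hy]
    refine (Pool.Agent.H49.FR.gauss_interval_le (by linarith)).trans ?_
    have h4 : (1 : ℝ) ≤ Real.sqrt (2 * Real.pi) := by
      rw [Real.one_le_sqrt]
      linarith [Real.pi_gt_three]
    rw [div_le_iff₀ (by linarith)]
    nlinarith
  have hsub : {ω | ¬ ((0 < fld y ω v - h ↔ 0 < fld y' ω v - h') ∧
            lev β L (fld y ω v - h) = lev β L (fld y' ω v - h'))} ⊆
      {ω | τ / 2 ≤ |fld (fun k => y k - y' k) ω v|} ∪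
        ⋃ k ∈ Finset.Icc (-(L : ℤ)) (L : ℤ),
          {ω : EuclideanSpace ℝ (ι × V) | fld y ω v ∈ Set.Icc (h + k * β - τ) (h + k * β + τ)} := by
    intro ω hω
    by_contra hc
    rw [Set.mem_union, not_or] at hc
    obtain ⟨hc1, hc2⟩ := hc
    apply hω
    have hd : fld (fun k => y k - y' k) ω v = fld y ω v - fld y' ω v := by
      unfold fld
      rw [← Finset.sum_sub_distrib]
      exact Finset.sum_congr rfl fun k _ => by ring
    have hc3 : |fld y ω v - fld y' ω v| < τ / 2 := by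
      rw [← hd]
      exact not_le.1 hc1
    refine lev_stable hβ L (x := fld y ω v - h) (x' := fld y' ω v - h') (τ := τ) ?_ ?_
    · rw [abs_lt] at hc3 ⊢
      rw [abs_le] at h1
      constructor
      · linarith [hc3.1, h1.2]
      · linarith [hc3.2, h1.1]
    · intro k hk
      by_contra hn
      apply hc2
      rw [Set.mem_iUnion₂]
      refine ⟨k, Finset.mem_Icc.2 (abs_le.1 hk), ?_⟩
      have h5 := abs_le.1 (not_lt.1 hn)
      exact ⟨by linarith [h5.1], by linarith [h5.2]⟩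
  have hcard : ∑ _k ∈ Finset.Icc (-(L : ℤ)) (L : ℤ), 2 * τ = ε / 2 := by
    rw [Finset.sum_const, Int.card_Icc, nsmul_eq_mul]
    have e : ((L : ℤ) + 1 - -(L : ℤ)).toNat = 2 * L + 1 := by omega
    rw [e, hτd]
    push_cast
    field_simp
    ring
  calc _ ≤ _ := measureReal_mono hsub (measure_ne_top _ _)
    _ ≤ _ := measureReal_union_le _ _
    _ ≤ ε / 2 + ∑ _k ∈ Finset.Icc (-(L : ℤ)) (L : ℤ), 2 * τ := by
        refine add_le_add hA ?_
        exact (measureReal_biUnion_finset_le _ _).trans (Finset.sum_le_sum fun k _ => hB k)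
    _ = ε := by rw [hcard]; ring

end H49.MX
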