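import Pool.Agent.H49.MX.GDef

/-!
# Module GEqv: elementary properties of `Eset`

* `Eset_mirror`: no `f v` is zero. `B' = (B \ W)ᶜ`, `f' = -f`. Then `Yset B' W f' = (Yset B W f)ᶜ` and `Zset` is the same (`|−x| = |x|`,
  `0 < -f u ↔ ¬ 0 < f u`), and `Yᶜ ∆ Z = (Y ∆ Z)ᶜ`.
* `Eset_congr_local`: whether `v ∈ Eset` depends only on `w ∈ B`, `w ∈ W`, `0 < f w`, `lev (f w)` for `w = v` and for the neighbours `w` of `v`.
* `Eset_diff`: so `Eset ∆ Eset'` is contained in the closed neighbourhood of the set of vertices where the data differ; a closed neighbourhood of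
  a set `X` has at most `(d + 1) |X|` vertices.
* `Eset_near`, `Eset_near'`: `t ≥ 1`. `Yset B W f ∆ B ⊆ {f > 0}`; `v ∈ Zset` has a neighbour `u ∈ opp v`, and `f u > 0` or `f v > 0`. So
  `Eset ∆ B` is contained in the closed neighbourhood of `{f > 0}`. In the same way `Yset B W f ∆ (B \ W) ⊆ W \ {f > 0}` and `Zset` is in the closed
  neighbourhood of `{¬ f > 0}`.
-/

set_option autoImplicit false

open Finset

namespace H49.MX

variable {V : Type} [Fintype V] [DecidableEq V] (G : SimpleGraph V) [DecidableRel G.Adj]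

private lemma GEqv_memY (B W : Finset V) (f : V → ℝ) (v : V) :
    v ∈ Yset B W f ↔ v ∈ B ∧ ¬ (v ∈ W ∧ 0 < f v) := by
  unfold Yset
  rw [Finset.mem_sdiff, Finset.mem_filter]

private lemma GEqv_memO (W : Finset V) (f : V → ℝ) (v u : V) :
    u ∈ opp G W f v ↔ (G.Adj v u ∧ u ∈ W) ∧ ¬ (0 < f u ↔ 0 < f v) := by
  unfold opp
  rw [Finset.mem_filter, Finset.mem_inter, SimpleGraph.mem_neighborFinset]

private lemma GEqv_memZ (t : ℕ) (β : ℝ) (L : ℕ) (W : Finset V) (f : V → ℝ) (v : V) :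
    v ∈ Zset G t β L W f ↔ v ∈ W ∧ lev β L (f v) < L ∧ t ≤ (opp G W f v).card ∧
      ∀ u ∈ opp G W f v, lev β L (f v) < lev β L (f u) := by
  unfold Zset
  rw [Finset.mem_filter]

private lemma GEqv_memE (t : ℕ) (β : ℝ) (L : ℕ) (B W : Finset V) (f : V → ℝ) (v : V) :
    v ∈ Eset G t β L B W f ↔ (v ∈ Yset B W f ∧ v ∉ Zset G t β L W f) ∨
      (v ∈ Zset G t β L W f ∧ v ∉ Yset B W f) := by
  unfold Eset
  rw [Finset.mem_symmDiff]

private lemma GEqv_neg {f : V → ℝ} (hf : ∀ v, f v ≠ 0) (v : V) : 0 < -f v ↔ ¬ 0 < f v := by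
  constructor
  · intro h
    linarith
  · intro h
    rcases lt_or_gt_of_ne (hf v) with h1 | h1
    · linarith
    · exact absurd h1 h

private lemma GEqv_lev (β : ℝ) (L : ℕ) (x : ℝ) : lev β L (-x) = lev β L x := by
  unfold lev
  rw [abs_neg]

private lemma GEqv_opp (W : Finset V) {f : V → ℝ} (hf : ∀ v, f v ≠ 0) (v : V) :
    opp G W (fun v => -f v) v = opp G W f v := by
  ext u
  rw [GEqv_memO, GEqv_memO]
  have h1 := GEqv_neg hf u
  have h2 := GEqv_neg hf v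
  show (G.Adj v u ∧ u ∈ W) ∧ ¬ (0 < -f u ↔ 0 < -f v) ↔ _
  rw [h1, h2, not_iff_not]

private lemma GEqv_Z (t : ℕ) (β : ℝ) (L : ℕ) (W : Finset V) {f : V → ℝ} (hf : ∀ v, f v ≠ 0) :
    Zset G t β L W (fun v => -f v) = Zset G t β L W f := by
  ext v
  rw [GEqv_memZ, GEqv_memZ, GEqv_opp G W hf v]
  simp only [GEqv_lev]

theorem Eset_mirror (t : ℕ) (β : ℝ) (L : ℕ) {B W : Finset V} (hW : W ⊆ B) {f : V → ℝ} (hf : ∀ v, f v ≠ 0) :
    Eset G t β L (B \ W)ᶜ W (fun v => -f v) = (Eset G t β L B W f)ᶜ := by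
  ext v
  have hY : v ∈ Yset (B \ W)ᶜ W (fun v => -f v) ↔ v ∉ Yset B W f := by
    rw [GEqv_memY, GEqv_memY, Finset.mem_compl, Finset.mem_sdiff]
    have h1 := GEqv_neg hf v
    show (¬ (v ∈ B ∧ v ∉ W) ∧ ¬ (v ∈ W ∧ 0 < -f v)) ↔ _
    rw [h1]
    have h2 := @hW v
    tauto
  rw [Finset.mem_compl, GEqv_memE, GEqv_memE, GEqv_Z G t β L W hf, hY]
  tauto

theorem Eset_congr_local (t : ℕ) (β : ℝ) (L : ℕ) {B W B' W' : Finset V} {f f' : V → ℝ} {v : V}
    (h : ∀ w, w = v ∨ G.Adj v w → (w ∈ B ↔ w ∈ B') ∧ (w ∈ W ↔ w ∈ W') ∧ (0 < f w ↔ 0 < f' w) ∧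
      lev β L (f w) = lev β L (f' w)) :
    v ∈ Eset G t β L B W f ↔ v ∈ Eset G t β L B' W' f' := by
  obtain ⟨h1, h2, h3, h4⟩ := h v (Or.inl rfl)
  have hY : v ∈ Yset B W f ↔ v ∈ Yset B' W' f' := by
    rw [GEqv_memY, GEqv_memY, h1, h2, h3]
  have hO : opp G W f v = opp G W' f' v := by
    ext u
    rw [GEqv_memO, GEqv_memO]
    constructor
    · rintro ⟨⟨h5, h6⟩, h7⟩
      obtain ⟨-, g2, g3, -⟩ := h u (Or.inr h5)
      refine ⟨⟨h5, g2.mp h6⟩, ?_⟩
      rw [← g3, ← h3]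
      exact h7
    · rintro ⟨⟨h5, h6⟩, h7⟩
      obtain ⟨-, g2, g3, -⟩ := h u (Or.inr h5)
      refine ⟨⟨h5, g2.mpr h6⟩, ?_⟩
      rw [g3, h3]
      exact h7
  have hZ : v ∈ Zset G t β L W f ↔ v ∈ Zset G t β L W' f' := by
    rw [GEqv_memZ, GEqv_memZ, hO, h2, h4]
    have h5 : (∀ u ∈ opp G W' f' v, lev β L (f' v) < lev β L (f u)) ↔
        ∀ u ∈ opp G W' f' v, lev β L (f' v) < lev β L (f' u) := by
      refine forall₂_congr fun u hu => ?_
      rw [GEqv_memO] at hu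
      obtain ⟨-, -, -, g4⟩ := h u (Or.inr hu.1.1)
      rw [g4]
    rw [h5]
  rw [GEqv_memE, GEqv_memE, hY, hZ]

theorem card_nbhd {d : ℕ} (hreg : G.IsRegularOfDegree d) (X Y : Finset V)
    (h : ∀ v ∈ Y, ∃ w ∈ X, w = v ∨ G.Adj v w) : Y.card ≤ (d + 1) * X.card := by
  have h1 : Y ⊆ X.biUnion fun w => insert w (G.neighborFinset w) := by
    intro v hv
    obtain ⟨w, hw, h2⟩ := h v hv
    rw [Finset.mem_biUnion]
    refine ⟨w, hw, ?_⟩
    rw [Finset.mem_insert, SimpleGraph.mem_neighborFinset]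
    rcases h2 with h2 | h2
    · exact Or.inl h2.symm
    · exact Or.inr h2.symm
  refine (Finset.card_le_card h1).trans (Finset.card_biUnion_le.trans ?_)
  have h2 : ∀ w ∈ X, (insert w (G.neighborFinset w)).card ≤ d + 1 := by
    intro w _
    refine (Finset.card_insert_le _ _).trans ?_
    rw [SimpleGraph.card_neighborFinset_eq_degree, hreg w]
  refine (Finset.sum_le_sum h2).trans ?_
  rw [Finset.sum_const, smul_eq_mul, mul_comm]

theorem Eset_diff {d : ℕ} (hreg : G.IsRegularOfDegree d) (t : ℕ) (β : ℝ) (L : ℕ) (B W B' W' : Finset V)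
    (f f' : V → ℝ) :
    (symmDiff (Eset G t β L B W f) (Eset G t β L B' W' f')).card ≤
      (d + 1) * ((symmDiff B B').card + (symmDiff W W').card +
        (univ.filter fun v => ¬ ((0 < f v ↔ 0 < f' v) ∧ lev β L (f v) = lev β L (f' v))).card) := by
  set D := univ.filter fun v => ¬ ((0 < f v ↔ 0 < f' v) ∧ lev β L (f v) = lev β L (f' v)) with hD
  have h1 := card_nbhd G hreg (symmDiff B B' ∪ symmDiff W W' ∪ D)
    (symmDiff (Eset G t β L B W f) (Eset G t β L B' W' f')) (by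
      intro v hv
      by_contra hc
      push Not at hc
      have h2 : v ∈ Eset G t β L B W f ↔ v ∈ Eset G t β L B' W' f' := by
        refine Eset_congr_local G t β L fun w hw => ?_
        have h3 : w ∉ symmDiff B B' ∪ symmDiff W W' ∪ D := by
          intro h4
          obtain ⟨g1, g2⟩ := hc w h4
          rcases hw with hw | hw
          · exact g1 hw
          · exact g2 hw
        rw [Finset.mem_union, Finset.mem_union, not_or, not_or, Finset.mem_symmDiff,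
          Finset.mem_symmDiff, hD, Finset.mem_filter] at h3
        obtain ⟨⟨h4, h5⟩, h6⟩ := h3
        have h7 : (0 < f w ↔ 0 < f' w) ∧ lev β L (f w) = lev β L (f' w) := by
          by_contra h8
          exact h6 ⟨Finset.mem_univ _, h8⟩
        refine ⟨?_, ?_, h7⟩
        · tauto
        · tauto
      rw [Finset.mem_symmDiff] at hv
      tauto)
  refine h1.trans (Nat.mul_le_mul_left _ ?_)
  refine (Finset.card_union_le _ _).trans ?_
  have h2 := Finset.card_union_le (symmDiff B B') (symmDiff W W')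
  omega

private lemma GEqv_exopp {t : ℕ} (ht : 1 ≤ t) {β : ℝ} {L : ℕ} {W : Finset V} {f : V → ℝ} {v : V}
    (h : v ∈ Zset G t β L W f) : ∃ u, G.Adj v u ∧ ¬ (0 < f u ↔ 0 < f v) := by
  rw [GEqv_memZ] at h
  obtain ⟨-, -, h1, -⟩ := h
  have h2 : 0 < (opp G W f v).card := by omega
  obtain ⟨u, hu⟩ := Finset.card_pos.mp h2
  rw [GEqv_memO] at hu
  exact ⟨u, hu.1.1, hu.2⟩

theorem Eset_near {d : ℕ} (hreg : G.IsRegularOfDegree d) {t : ℕ} (ht : 1 ≤ t) (β : ℝ) (L : ℕ) (B W : Finset V)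
    (f : V → ℝ) :
    (symmDiff (Eset G t β L B W f) B).card ≤ (d + 1) * (univ.filter fun v => 0 < f v).card := by
  refine card_nbhd G hreg _ _ fun v hv => ?_
  by_cases h1 : 0 < f v
  · exact ⟨v, Finset.mem_filter.mpr ⟨Finset.mem_univ _, h1⟩, Or.inl rfl⟩
  have hY : v ∈ Yset B W f ↔ v ∈ B := by
    rw [GEqv_memY]
    tauto
  have hZ : v ∈ Zset G t β L W f := by
    rw [Finset.mem_symmDiff, GEqv_memE, hY] at hv
    tauto
  obtain ⟨u, h2, h3⟩ := GEqv_exopp G ht hZ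
  refine ⟨u, Finset.mem_filter.mpr ⟨Finset.mem_univ _, ?_⟩, Or.inr h2⟩
  by_contra h4
  exact h3 ⟨fun h => absurd h h4, fun h => absurd h h1⟩

theorem Eset_near' {d : ℕ} (hreg : G.IsRegularOfDegree d) {t : ℕ} (ht : 1 ≤ t) (β : ℝ) (L : ℕ) {B W : Finset V}
    (hW : W ⊆ B) (f : V → ℝ) :
    (symmDiff (Eset G t β L B W f) (B \ W)).card ≤ (d + 1) * (univ.filter fun v => ¬ 0 < f v).card := by
  have _ := hW
  refine card_nbhd G hreg _ _ fun v hv => ?_
  by_cases h1 : ¬ 0 < f v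
  · exact ⟨v, Finset.mem_filter.mpr ⟨Finset.mem_univ _, h1⟩, Or.inl rfl⟩
  rw [not_not] at h1
  have hY : v ∈ Yset B W f ↔ v ∈ B \ W := by
    rw [GEqv_memY, Finset.mem_sdiff]
    tauto
  have hZ : v ∈ Zset G t β L W f := by
    rw [Finset.mem_symmDiff, GEqv_memE, hY] at hv
    tauto
  obtain ⟨u, h2, h3⟩ := GEqv_exopp G ht hZ
  refine ⟨u, Finset.mem_filter.mpr ⟨Finset.mem_univ _, ?_⟩, Or.inr h2⟩
  intro h4
  exact h3 ⟨fun _ => h1, fun _ => h4⟩

end H49.MX
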