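import Pool.Agent.H49.MX.GDef

/-!
# Module GExpY: the expected cut of the mixed set

`P` a probability measure, `F v` measurable, `P(0 < F v) = x` for all `v`. Let `s v = 1` if `0 < F v ω`, else `0`. For adjacent `v, u`:
`[v ∈ Y, u ∉ Y]` is (by `v ∈ W` or not, `u ∈ W` or not; `W ⊆ B`)
  not, not: `[v ∈ B, u ∉ B]`;   `v ∈ W, u ∉ W`: `(1 - s v) [u ∉ B]`;   `v ∉ W, u ∈ W`: `[v ∈ B] s u`;   both: `(1 - s v) s u`.
The expectation is in all four cases `(1-x) [v ∈ B, u ∉ B] + x [v ∈ B \ W, u ∉ B \ W] + [v, u ∈ W] P(¬ 0 < F v, 0 < F u)`.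
Sum over `v` and `u ~ v` (`cut = ∑_v ∑_{u ~ v} [v ∈ Y, u ∉ Y]`) and exchange the names `u, v` in the last sum.
(Compare `ea_cut`, `exp_cut` in `Pool.Agent.H49.FR.ExpA`.)
-/

set_option autoImplicit false

open Finset MeasureTheory ProbabilityTheory

namespace H49.MX

open Pool.Agent.H49.FR (nin cut)

variable {V : Type} [Fintype V] [DecidableEq V] (G : SimpleGraph V) [DecidableRel G.Adj]

/-- the cut as a double sum -/
theorem cut_double (A : Finset V) :
    (cut G A : ℝ) = ∑ v, ∑ u ∈ G.neighborFinset v, if v ∈ A ∧ u ∉ A then (1 : ℝ) else 0 := by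
  have h1 : (cut G A : ℝ) = ∑ v, if v ∈ A then (nin G v Aᶜ : ℝ) else 0 := by
    unfold cut
    push_cast
    rw [Finset.sum_ite_mem]
    simp
  rw [h1]
  refine Finset.sum_congr rfl fun v _ => ?_
  by_cases hv : v ∈ A
  · rw [if_pos hv]
    unfold nin
    have h2 : G.neighborFinset v ∩ Aᶜ = (G.neighborFinset v).filter fun u => u ∉ A := by
      ext u
      simp
    rw [h2, Finset.card_filter]
    push_cast
    refine Finset.sum_congr rfl fun u _ => ?_
    simp [hv]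
  · rw [if_neg hv]
    symm
    refine Finset.sum_eq_zero fun u _ => ?_
    rw [if_neg]
    exact fun h => hv h.1

private lemma gExpY_mem (B W : Finset V) (f : V → ℝ) (v : V) :
    v ∈ Yset B W f ↔ v ∈ B ∧ (v ∈ W → ¬ 0 < f v) := by
  unfold Yset
  rw [Finset.mem_sdiff, Finset.mem_filter]
  tauto

private lemma gExpY_compl {Ω : Type} [MeasurableSpace Ω] (P : Measure Ω) [IsProbabilityMeasure P]
    {E : Set Ω} (hE : MeasurableSet E) {x : ℝ} (hx : P.real E = x) : P.real Eᶜ = 1 - x := by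
  rw [probReal_compl_eq_one_sub hE, hx]

private lemma gExpY_pair {Ω : Type} [MeasurableSpace Ω] (P : Measure Ω) [IsProbabilityMeasure P] {B W : Finset V}
    (hW : W ⊆ B) (F : V → Ω → ℝ) (hF : ∀ v, Measurable (F v)) {x : ℝ} (hx : ∀ v, P.real {ω | 0 < F v ω} = x)
    (v u : V) :
    P.real {ω | v ∈ Yset B W (fun v => F v ω) ∧ u ∉ Yset B W (fun v => F v ω)} =
      (1 - x) * (if v ∈ B ∧ u ∉ B then (1 : ℝ) else 0) + x * (if v ∈ B \ W ∧ u ∉ B \ W then (1 : ℝ) else 0) +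
        (if v ∈ W ∧ u ∈ W then P.real {ω | 0 < F u ω ∧ ¬ 0 < F v ω} else 0) := by
  have hE : ∀ v, MeasurableSet {ω | 0 < F v ω} := fun v => measurableSet_lt measurable_const (hF v)
  have hc : ∀ v, P.real {ω | ¬ 0 < F v ω} = 1 - x := fun v => gExpY_compl P (hE v) (hx v)
  have hset : {ω | v ∈ Yset B W (fun v => F v ω) ∧ u ∉ Yset B W (fun v => F v ω)} =
      {ω | (v ∈ B ∧ (v ∈ W → ¬ 0 < F v ω)) ∧ ¬ (u ∈ B ∧ (u ∈ W → ¬ 0 < F u ω))} := by
    ext ω
    simp only [Set.mem_setOf_eq, gExpY_mem]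
  rw [hset]
  simp only [Finset.mem_sdiff]
  by_cases hv : v ∈ W
  · have hvB : v ∈ B := hW hv
    by_cases hu : u ∈ W
    · have huB : u ∈ B := hW hu
      have h1 : {ω | (v ∈ B ∧ (v ∈ W → ¬ 0 < F v ω)) ∧ ¬ (u ∈ B ∧ (u ∈ W → ¬ 0 < F u ω))} =
          {ω | 0 < F u ω ∧ ¬ 0 < F v ω} := by
        ext ω
        simp only [Set.mem_setOf_eq]
        tauto
      rw [h1]
      simp [hv, hu, huB]
    · by_cases huB : u ∈ B
      · have h1 : {ω | (v ∈ B ∧ (v ∈ W → ¬ 0 < F v ω)) ∧ ¬ (u ∈ B ∧ (u ∈ W → ¬ 0 < F u ω))} = ∅ := by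
          ext ω
          simp only [Set.mem_setOf_eq, Set.mem_empty_iff_false]
          tauto
        rw [h1]
        simp [hv, hu, huB]
      · have h1 : {ω | (v ∈ B ∧ (v ∈ W → ¬ 0 < F v ω)) ∧ ¬ (u ∈ B ∧ (u ∈ W → ¬ 0 < F u ω))} =
            {ω | ¬ 0 < F v ω} := by
          ext ω
          simp only [Set.mem_setOf_eq]
          tauto
        rw [h1, hc v]
        simp [hv, hu, huB, hvB]
  · by_cases hu : u ∈ W
    · have huB : u ∈ B := hW hu
      by_cases hvB : v ∈ B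
      · have h1 : {ω | (v ∈ B ∧ (v ∈ W → ¬ 0 < F v ω)) ∧ ¬ (u ∈ B ∧ (u ∈ W → ¬ 0 < F u ω))} =
            {ω | 0 < F u ω} := by
          ext ω
          simp only [Set.mem_setOf_eq]
          tauto
        rw [h1, hx u]
        simp [hv, hu, huB, hvB]
      · have h1 : {ω | (v ∈ B ∧ (v ∈ W → ¬ 0 < F v ω)) ∧ ¬ (u ∈ B ∧ (u ∈ W → ¬ 0 < F u ω))} = ∅ := by
          ext ω
          simp only [Set.mem_setOf_eq, Set.mem_empty_iff_false]
          tauto
        rw [h1]
        simp [hv, hvB]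
    · by_cases hA : v ∈ B ∧ u ∉ B
      · have h1 : {ω | (v ∈ B ∧ (v ∈ W → ¬ 0 < F v ω)) ∧ ¬ (u ∈ B ∧ (u ∈ W → ¬ 0 < F u ω))} =
            Set.univ := by
          ext ω
          simp only [Set.mem_setOf_eq, Set.mem_univ]
          tauto
        rw [h1, probReal_univ, if_pos hA, if_pos (by tauto), if_neg (by tauto)]
        ring
      · have h1 : {ω | (v ∈ B ∧ (v ∈ W → ¬ 0 < F v ω)) ∧ ¬ (u ∈ B ∧ (u ∈ W → ¬ 0 < F u ω))} =
            ∅ := by
          ext ω
          simp only [Set.mem_setOf_eq, Set.mem_empty_iff_false]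
          tauto
        rw [h1, measureReal_empty, if_neg hA, if_neg (by tauto), if_neg (by tauto)]
        ring

private lemma gExpY_meas {Ω : Type} [MeasurableSpace Ω] {B W : Finset V} (F : V → Ω → ℝ)
    (hF : ∀ v, Measurable (F v)) (v : V) : MeasurableSet {ω | v ∈ Yset B W (fun v => F v ω)} := by
  have hE : MeasurableSet {ω | 0 < F v ω} := measurableSet_lt measurable_const (hF v)
  have hset : {ω | v ∈ Yset B W (fun v => F v ω)} = {ω | v ∈ B ∧ (v ∈ W → ¬ 0 < F v ω)} := by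
    ext ω
    simp only [Set.mem_setOf_eq, gExpY_mem]
  rw [hset]
  by_cases hvB : v ∈ B
  · by_cases hv : v ∈ W
    · have h1 : {ω | v ∈ B ∧ (v ∈ W → ¬ 0 < F v ω)} = {ω | 0 < F v ω}ᶜ := by
        ext ω
        simp only [Set.mem_setOf_eq, Set.mem_compl_iff]
        tauto
      rw [h1]
      exact hE.compl
    · have h1 : {ω | v ∈ B ∧ (v ∈ W → ¬ 0 < F v ω)} = Set.univ := by
        ext ω
        simp only [Set.mem_setOf_eq, Set.mem_univ]
        tauto
      rw [h1]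
      exact MeasurableSet.univ
  · have h1 : {ω | v ∈ B ∧ (v ∈ W → ¬ 0 < F v ω)} = ∅ := by
      ext ω
      simp only [Set.mem_setOf_eq, Set.mem_empty_iff_false]
      tauto
    rw [h1]
    exact MeasurableSet.empty

private lemma gExpY_swap (g : V → V → ℝ) :
    ∑ v, ∑ u ∈ G.neighborFinset v, g v u = ∑ v, ∑ u ∈ G.neighborFinset v, g u v := by
  rw [Finset.sum_comm' (t' := univ) (s' := fun v => G.neighborFinset v)]
  intro v u
  simp [SimpleGraph.mem_neighborFinset, G.adj_comm]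

theorem exp_Yset {Ω : Type} [MeasurableSpace Ω] (P : Measure Ω) [IsProbabilityMeasure P] {B W : Finset V}
    (hW : W ⊆ B) (F : V → Ω → ℝ) (hF : ∀ v, Measurable (F v)) {x : ℝ} (hx : ∀ v, P.real {ω | 0 < F v ω} = x) :
    ∫ ω, (cut G (Yset B W fun v => F v ω) : ℝ) ∂P =
      (1 - x) * cut G B + x * cut G (B \ W) +
        ∑ v ∈ W, ∑ u ∈ G.neighborFinset v ∩ W, P.real {ω | 0 < F v ω ∧ ¬ 0 < F u ω} := by
  have hm : ∀ v u, MeasurableSet {ω | v ∈ Yset B W (fun v => F v ω) ∧ u ∉ Yset B W (fun v => F v ω)} :=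
    fun v u => (gExpY_meas F hF v).inter (gExpY_meas F hF u).compl
  have hi : ∀ v u, Integrable ({ω | v ∈ Yset B W (fun v => F v ω) ∧
      u ∉ Yset B W (fun v => F v ω)}.indicator (fun _ => (1 : ℝ))) P :=
    fun v u => (integrable_const (1 : ℝ)).indicator (hm v u)
  have hcut : (fun ω => (cut G (Yset B W fun v => F v ω) : ℝ)) = fun ω => ∑ v, ∑ u ∈ G.neighborFinset v,
      {ω | v ∈ Yset B W (fun v => F v ω) ∧ u ∉ Yset B W (fun v => F v ω)}.indicator (fun _ => (1 : ℝ)) ω := by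
    funext ω
    rw [cut_double]
    refine Finset.sum_congr rfl fun v _ => Finset.sum_congr rfl fun u _ => ?_
    simp only [Set.indicator_apply, Set.mem_setOf_eq]
  rw [hcut, integral_finsetSum _ fun v _ => integrable_finsetSum _ fun u _ => hi v u]
  have h1 : ∀ v, ∫ ω, ∑ u ∈ G.neighborFinset v,
      {ω | v ∈ Yset B W (fun v => F v ω) ∧ u ∉ Yset B W (fun v => F v ω)}.indicator (fun _ => (1 : ℝ)) ω ∂P =
      ∑ u ∈ G.neighborFinset v, ((1 - x) * (if v ∈ B ∧ u ∉ B then (1 : ℝ) else 0) +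
        x * (if v ∈ B \ W ∧ u ∉ B \ W then (1 : ℝ) else 0) +
        (if v ∈ W ∧ u ∈ W then P.real {ω | 0 < F u ω ∧ ¬ 0 < F v ω} else 0)) := by
    intro v
    rw [integral_finsetSum _ fun u _ => hi v u]
    refine Finset.sum_congr rfl fun u _ => ?_
    rw [integral_indicator (hm v u), setIntegral_const, smul_eq_mul, mul_one]
    exact gExpY_pair P hW F hF hx v u
  rw [Finset.sum_congr rfl fun v _ => h1 v]
  simp only [Finset.sum_add_distrib, ← Finset.mul_sum]
  rw [← cut_double G B, ← cut_double G (B \ W)]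
  congr 1
  rw [gExpY_swap G fun v u => if v ∈ W ∧ u ∈ W then P.real {ω | 0 < F u ω ∧ ¬ 0 < F v ω} else 0]
  rw [← Finset.sum_subset (Finset.subset_univ W)]
  · refine Finset.sum_congr rfl fun v hv => ?_
    have h2 : G.neighborFinset v ∩ W = (G.neighborFinset v).filter fun u => u ∈ W := by
      ext u
      simp
    rw [h2, Finset.sum_filter]
    refine Finset.sum_congr rfl fun u _ => ?_
    simp [hv]
  · intro v _ hv
    refine Finset.sum_eq_zero fun u _ => ?_
    simp [hv]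

end H49.MX
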