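import Pool.Agent.H49.MX.GDef
import Pool.Agent.H49.FR.Pair

/-!
# Module GKron: several independent copies of the field

`kr ι S` is the matrix `((k, u), (l, v)) ↦ [k = l] S u v` (Kronecker product with the identity: `Matrix.PosSemidef.kronecker`,
`Matrix.PosSemidef.one`). `fld y ω v = ∑_k y k * ω (k, v)`.
* `law_fld`: for a unit vector `y` the law of `(fld y ω v)_v` is `multivariateGaussian 0 S`: `Measure.ext_of_charFun`; with
  `s (k, v) = y k * t v` one has `⟪fld y ω, t⟫ = ⟪ω, s⟫`, so the characteristic function of the image at `t` is the one of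
  `multivariateGaussian 0 (kr ι S)` at `s` (`charFun_multivariateGaussian`), and `s ⬝ᵥ K *ᵥ s = (∑ y k ^ 2) (t ⬝ᵥ S *ᵥ t)`.
* `law_fld_eval`: with `law_eval`. `fld_prob`: the measure of a set given by `fld y` is the measure for `multivariateGaussian 0 S`.
* `fld_small`: `∑ a k ^ 2 ≤ s ^ 2`, `0 < s`: `P(τ ≤ |fld a ω v|) ≤ 2 up (τ / s)`: if `a = 0` the left side is `0`; otherwise `a = c y` with `y` a unit
  vector, `0 < c ≤ s`, and `P(τ ≤ c |g|) = γ {|g| ≥ τ / c} ≤ γ (Ici (τ/s)) + γ (Iic (-τ/s)) = 2 up (τ/s)` (no atoms).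
-/

set_option autoImplicit false

open Finset MeasureTheory ProbabilityTheory

namespace H49.MX

variable {V : Type} [Fintype V] [DecidableEq V]

/-- the covariance matrix of independent copies -/
def kr (ι : Type) [DecidableEq ι] (S : Matrix V V ℝ) : Matrix (ι × V) (ι × V) ℝ :=
  fun a b => if a.1 = b.1 then S a.2 b.2 else 0

/-- the linear combination of the copies with coefficients `y` -/
def fld {ι : Type} [Fintype ι] (y : ι → ℝ) (ω : EuclideanSpace ℝ (ι × V)) (v : V) : ℝ := ∑ k, y k * ω (k, v)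

variable {ι : Type} [Fintype ι] [DecidableEq ι]

private lemma GKron_kr (S : Matrix V V ℝ) : kr ι S = Matrix.kronecker (1 : Matrix ι ι ℝ) S := by
  ext a b
  unfold kr
  rw [Matrix.kronecker, Matrix.kroneckerMap_apply, Matrix.one_apply]
  split_ifs
  · rw [one_mul]
  · rw [zero_mul]

theorem kr_psd {S : Matrix V V ℝ} (hS : S.PosSemidef) : (kr ι S).PosSemidef := by
  rw [GKron_kr]
  exact Matrix.PosSemidef.one.kronecker hS

theorem fld_meas (y : ι → ℝ) (v : V) : Measurable fun ω : EuclideanSpace ℝ (ι × V) => fld y ω v := by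
  unfold fld
  fun_prop

private lemma GKron_meas (y : ι → ℝ) : Measurable fun ω : EuclideanSpace ℝ (ι × V) =>
    (WithLp.toLp 2 fun v => fld y ω v : EuclideanSpace ℝ V) := by
  exact (WithLp.measurable_toLp 2 _).comp (measurable_pi_iff.2 fun v => fld_meas y v)

private lemma GKron_quad (S : Matrix V V ℝ) {y : ι → ℝ} (hy : ∑ k, y k ^ 2 = 1) (t : V → ℝ) :
    (fun p : ι × V => y p.1 * t p.2) ⬝ᵥ (kr ι S).mulVec (fun p : ι × V => y p.1 * t p.2) =
      t ⬝ᵥ S.mulVec t := by
  have h1 : ∀ p : ι × V, (kr ι S).mulVec (fun p : ι × V => y p.1 * t p.2) p =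
      y p.1 * S.mulVec t p.2 := by
    rintro ⟨k, v⟩
    unfold Matrix.mulVec dotProduct kr
    rw [Fintype.sum_prod_type, Finset.sum_eq_single k]
    · simp only [if_true]
      rw [Finset.mul_sum]
      exact Finset.sum_congr rfl fun u _ => by ring
    · intro l _ hl
      refine Finset.sum_eq_zero fun u _ => ?_
      simp only
      rw [if_neg (fun h => hl h.symm), zero_mul]
    · intro h
      exact absurd (Finset.mem_univ k) h
  unfold dotProduct
  simp only [h1]
  rw [Fintype.sum_prod_type]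
  calc ∑ k : ι, ∑ v : V, y k * t v * (y k * S.mulVec t v)
      = ∑ k : ι, y k ^ 2 * ∑ v : V, t v * S.mulVec t v := by
        refine Finset.sum_congr rfl fun k _ => ?_
        rw [Finset.mul_sum]
        exact Finset.sum_congr rfl fun v _ => by ring
    _ = ∑ v : V, t v * S.mulVec t v := by rw [← Finset.sum_mul, hy, one_mul]

theorem law_fld {S : Matrix V V ℝ} (hS : S.PosSemidef) {y : ι → ℝ} (hy : ∑ k, y k ^ 2 = 1) :
    (multivariateGaussian 0 (kr ι S)).map (fun ω => (WithLp.toLp 2 fun v => fld y ω v : EuclideanSpace ℝ V)) =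
      multivariateGaussian 0 S := by
  have hm := GKron_meas (V := V) y
  refine Measure.ext_of_charFun (funext fun t => ?_)
  set s : EuclideanSpace ℝ (ι × V) := WithLp.toLp 2 fun p => y p.1 * t p.2 with hs
  have hin : ∀ ω : EuclideanSpace ℝ (ι × V),
      inner ℝ (WithLp.toLp 2 fun v => fld y ω v : EuclideanSpace ℝ V) t = inner ℝ ω s := by
    intro ω
    rw [PiLp.inner_apply, PiLp.inner_apply, Fintype.sum_prod_type, Finset.sum_comm]
    refine Finset.sum_congr rfl fun v _ => ?_
    simp only [hs, fld, RCLike.inner_apply, conj_trivial]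
    rw [Finset.mul_sum]
    exact Finset.sum_congr rfl fun k _ => by ring
  have e1 : charFun ((multivariateGaussian 0 (kr ι S)).map
      (fun ω => (WithLp.toLp 2 fun v => fld y ω v : EuclideanSpace ℝ V))) t =
      charFun (multivariateGaussian 0 (kr ι S)) s := by
    rw [charFun_apply, integral_map hm.aemeasurable (by fun_prop), charFun_apply]
    simp only [hin]
  rw [e1, charFun_multivariateGaussian (kr_psd hS), charFun_multivariateGaussian hS,
    inner_zero_right, inner_zero_right]
  have hq := GKron_quad S hy t.ofLp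
  have hq' : s.ofLp ⬝ᵥ (kr ι S).mulVec s.ofLp = t.ofLp ⬝ᵥ S.mulVec t.ofLp := hq
  rw [hq']

theorem fld_prob {S : Matrix V V ℝ} (hS : S.PosSemidef) {y : ι → ℝ} (hy : ∑ k, y k ^ 2 = 1)
    {E : Set (EuclideanSpace ℝ V)} (hE : MeasurableSet E) :
    (multivariateGaussian 0 (kr ι S)).real {ω | (WithLp.toLp 2 fun v => fld y ω v : EuclideanSpace ℝ V) ∈ E} =
      (multivariateGaussian 0 S).real E := by
  rw [← law_fld hS hy, Measure.real, Measure.real, Measure.map_apply (GKron_meas (V := V) y) hE]
  rfl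

theorem law_fld_eval {S : Matrix V V ℝ} (hS : S.PosSemidef) {v : V} (hv : S v v = 1) {y : ι → ℝ}
    (hy : ∑ k, y k ^ 2 = 1) :
    (multivariateGaussian 0 (kr ι S)).map (fun ω => fld y ω v) = gaussianReal 0 1 := by
  rw [← Pool.Agent.H49.FR.law_eval hS hv, ← law_fld hS hy,
    Measure.map_map (by fun_prop) (GKron_meas (V := V) y)]
  rfl

private lemma GKron_neg (h : ℝ) : (gaussianReal 0 1).real (Set.Iic (-h)) =
    (gaussianReal 0 1).real (Set.Ici h) := by
  have h1 : (gaussianReal 0 1).map (fun x => -x) = gaussianReal 0 1 := by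
    rw [gaussianReal_map_neg, neg_zero]
  conv_lhs => rw [← h1]
  rw [Measure.real, Measure.real, Measure.map_apply measurable_neg measurableSet_Iic]
  congr 2
  ext x
  simp

private lemma GKron_two (h : ℝ) : (gaussianReal 0 1).real {x : ℝ | h ≤ |x|} ≤ 2 * up h := by
  have hna : NullSingletonClass (gaussianReal 0 1) :=
    nullSingletonClass_gaussianReal one_ne_zero
  have h1 : {x : ℝ | h ≤ |x|} ⊆ Set.Iic (-h) ∪ Set.Ici h := by
    intro x hx
    have hx' : h ≤ |x| := hx
    rcases le_abs.1 hx' with h2 | h2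
    · exact Or.inr h2
    · left
      have : x ≤ -h := by linarith
      exact this
  have h2 : (gaussianReal 0 1).real (Set.Ici h) = up h := by
    unfold up
    rw [Measure.real, Measure.real, measure_congr Ioi_ae_eq_Ici]
  calc (gaussianReal 0 1).real {x : ℝ | h ≤ |x|}
      ≤ (gaussianReal 0 1).real (Set.Iic (-h) ∪ Set.Ici h) := measureReal_mono h1
    _ ≤ (gaussianReal 0 1).real (Set.Iic (-h)) + (gaussianReal 0 1).real (Set.Ici h) :=
        measureReal_union_le _ _
    _ = 2 * up h := by rw [GKron_neg, h2]; ring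

theorem fld_small {S : Matrix V V ℝ} (hS : S.PosSemidef) {v : V} (hv : S v v = 1) {a : ι → ℝ} {s τ : ℝ}
    (hs : 0 < s) (hτ : 0 < τ) (ha : ∑ k, a k ^ 2 ≤ s ^ 2) :
    (multivariateGaussian 0 (kr ι S)).real {ω | τ ≤ |fld a ω v|} ≤ 2 * up (τ / s) := by
  have hup : 0 ≤ up (τ / s) := measureReal_nonneg
  have hsum : 0 ≤ ∑ k, a k ^ 2 := Finset.sum_nonneg fun k _ => sq_nonneg _
  rcases hsum.eq_or_lt with h0 | h0
  · have hz : ∀ k, a k = 0 := by
      intro k
      have := (Finset.sum_eq_zero_iff_of_nonneg (fun k _ => sq_nonneg (a k))).1 h0.symm k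
        (Finset.mem_univ k)
      exact pow_eq_zero_iff (two_ne_zero) |>.1 this
    have he : {ω : EuclideanSpace ℝ (ι × V) | τ ≤ |fld a ω v|} = ∅ := by
      ext ω
      simp only [Set.mem_ofPred_eq, Set.mem_empty_iff_false, iff_false, not_le]
      have : fld a ω v = 0 := by
        unfold fld
        exact Finset.sum_eq_zero fun k _ => by rw [hz k, zero_mul]
      rw [this, abs_zero]
      exact hτ
    rw [he, measureReal_empty]
    positivity
  · set c : ℝ := Real.sqrt (∑ k, a k ^ 2) with hc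
    have hc0 : 0 < c := Real.sqrt_pos.2 h0
    have hc2 : c ^ 2 = ∑ k, a k ^ 2 := Real.sq_sqrt h0.le
    have hcs : c ≤ s := by
      rw [hc]
      exact Real.sqrt_le_iff.2 ⟨hs.le, ha⟩
    set y : ι → ℝ := fun k => a k / c with hy
    have hy1 : ∑ k, y k ^ 2 = 1 := by
      simp only [hy, div_pow]
      rw [← Finset.sum_div, ← hc2]
      exact div_self (pow_ne_zero 2 hc0.ne')
    have hf : ∀ ω : EuclideanSpace ℝ (ι × V), fld a ω v = c * fld y ω v := by
      intro ω
      unfold fld
      rw [Finset.mul_sum]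
      refine Finset.sum_congr rfl fun k _ => ?_
      simp only [hy]
      field_simp
    have hsub : {ω : EuclideanSpace ℝ (ι × V) | τ ≤ |fld a ω v|} ⊆
        (fun ω => fld y ω v) ⁻¹' {x : ℝ | τ / s ≤ |x|} := by
      intro ω hω
      have h1 : τ ≤ |fld a ω v| := hω
      rw [hf, abs_mul, abs_of_pos hc0] at h1
      show τ / s ≤ |fld y ω v|
      rw [div_le_iff₀ hs]
      calc τ ≤ c * |fld y ω v| := h1
        _ ≤ s * |fld y ω v| := mul_le_mul_of_nonneg_right hcs (abs_nonneg _)
        _ = |fld y ω v| * s := mul_comm _ _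
    have hms : MeasurableSet {x : ℝ | τ / s ≤ |x|} :=
      measurableSet_le measurable_const (continuous_abs.measurable)
    calc (multivariateGaussian 0 (kr ι S)).real {ω | τ ≤ |fld a ω v|}
        ≤ (multivariateGaussian 0 (kr ι S)).real
          ((fun ω => fld y ω v) ⁻¹' {x : ℝ | τ / s ≤ |x|}) := measureReal_mono hsub
      _ = (gaussianReal 0 1).real {x : ℝ | τ / s ≤ |x|} := by
          rw [← law_fld_eval hS hv hy1, Measure.real, Measure.real,
            Measure.map_apply (fld_meas y v) hms]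
      _ ≤ 2 * up (τ / s) := GKron_two _

end H49.MX
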