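import Pool.Agent.H49.MX.GDef

/-!
# Module GMeas: measurability

`code x = (decide (0 < x), lev β L x)` is a measurable map from `ℝ` to the discrete space `Bool × ℕ` (`Nat.measurable_floor`, ...). If `Φ f` depends only
on the codes of the values of `f` then `Φ ∘ F = (fun c => Φ (fun u => g (c u))) ∘ (fun ω u => code (F ω u))`, `g = Function.invFun code`
(`code (g (code x)) = code x`), and every function on the countable discrete space `V → Bool × ℕ` is measurable.
-/

set_option autoImplicit false

open Finset MeasureTheory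

namespace H49.MX

theorem lev_meas (β : ℝ) (L : ℕ) : Measurable (lev β L) := by
  unfold lev
  exact (Nat.measurable_floor.comp (continuous_abs.measurable.div_const β)).min measurable_const

private noncomputable def GMeas_code (β : ℝ) (L : ℕ) (x : ℝ) : ℕ × ℕ :=
  (if 0 < x then 1 else 0, lev β L x)

private lemma GMeas_code_meas (β : ℝ) (L : ℕ) : Measurable (GMeas_code β L) := by
  unfold GMeas_code
  exact (Measurable.ite measurableSet_Ioi measurable_const measurable_const).prodMk (lev_meas β L)

private lemma GMeas_code_eq {β : ℝ} {L : ℕ} {x y : ℝ} (h : GMeas_code β L x = GMeas_code β L y) :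
    (0 < x ↔ 0 < y) ∧ lev β L x = lev β L y := by
  unfold GMeas_code at h
  rw [Prod.mk.injEq] at h
  refine ⟨?_, h.2⟩
  have h1 := h.1
  by_cases hx : 0 < x
  · by_cases hy : 0 < y
    · exact iff_of_true hx hy
    · rw [if_pos hx, if_neg hy] at h1
      omega
  · by_cases hy : 0 < y
    · rw [if_neg hx, if_pos hy] at h1
      omega
    · exact iff_of_false hx hy

theorem meas_code {V : Type} [Fintype V] (β : ℝ) (L : ℕ) {γ : Type} [MeasurableSpace γ] (Φ : (V → ℝ) → γ)
    (hΦ : ∀ f f' : V → ℝ, (∀ u, (0 < f u ↔ 0 < f' u) ∧ lev β L (f u) = lev β L (f' u)) → Φ f = Φ f')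
    {Ω : Type} [MeasurableSpace Ω] (F : Ω → V → ℝ) (hF : ∀ u, Measurable fun ω => F ω u) :
    Measurable fun ω => Φ (F ω) := by
  have h1 : Measurable (fun (ω : Ω) (u : V) => GMeas_code β L (F ω u)) :=
    measurable_pi_lambda _ fun u => (GMeas_code_meas β L).comp (hF u)
  have h2 : Measurable (fun c : V → ℕ × ℕ => Φ fun u => Function.invFun (GMeas_code β L) (c u)) :=
    measurable_of_countable _
  have h3 : (fun ω => Φ (F ω)) = (fun c : V → ℕ × ℕ => Φ fun u =>
      Function.invFun (GMeas_code β L) (c u)) ∘ fun (ω : Ω) (u : V) => GMeas_code β L (F ω u) := by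
    funext ω
    refine hΦ _ _ fun u => ?_
    have h4 : GMeas_code β L (Function.invFun (GMeas_code β L) (GMeas_code β L (F ω u))) =
        GMeas_code β L (F ω u) := Function.invFun_eq ⟨_, rfl⟩
    exact GMeas_code_eq h4.symm
  rw [h3]
  exact h2.comp h1

end H49.MX
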