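import Pool.Agent.H49.MX.GCutZ
import Pool.Agent.H49.MX.GEqv
import Pool.Agent.H49.MX.GExpY
import Pool.Agent.H49.MX.GKron
import Pool.Agent.H49.MX.GMeas

/-!
# Module GExpE: the expected cut of the smoothed mixture

`cut_Eset` integrated; `exp_Yset` with `F v ω = fld y ω v - h`, `x = up h` (`law_fld_eval`); `∫ |Zset| = ∑_{v ∈ W} P(v ∈ Zset)`; `fld_prob` gives the
probabilities for `multivariateGaussian 0 S`; then `Psi` for every `v ∈ W`.
-/

set_option autoImplicit false

open Finset MeasureTheory ProbabilityTheory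

namespace H49.MX

open Pool.Agent.H49.FR (nin cut Cv)

variable {V : Type} [Fintype V] [DecidableEq V] (G : SimpleGraph V) [DecidableRel G.Adj]
variable {ι : Type} [Fintype ι] [DecidableEq ι]

omit [Fintype ι] [DecidableEq ι] in
/-- a bounded function of the signs and levels is integrable -/
theorem integrable_code {Ω : Type} [MeasurableSpace Ω] (P : Measure Ω) [IsProbabilityMeasure P] (β : ℝ) (L : ℕ)
    (Φ : (V → ℝ) → ℝ)
    (hΦ : ∀ f f' : V → ℝ, (∀ u, (0 < f u ↔ 0 < f' u) ∧ lev β L (f u) = lev β L (f' u)) → Φ f = Φ f')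
    {C : ℝ} (hC : ∀ f, |Φ f| ≤ C) (F : Ω → V → ℝ) (hF : ∀ u, Measurable fun ω => F ω u) :
    Integrable (fun ω => Φ (F ω)) P := by
  refine Integrable.of_bound (meas_code β L Φ hΦ F hF).aestronglyMeasurable C
    (Filter.Eventually.of_forall fun ω => ?_)
  rw [Real.norm_eq_abs]
  exact hC _

/-- the set of `f` with `v ∈ Zset` depends only on signs and levels -/
theorem Zset_congr (t : ℕ) (β : ℝ) (L : ℕ) (W : Finset V) {f f' : V → ℝ}
    (h : ∀ u, (0 < f u ↔ 0 < f' u) ∧ lev β L (f u) = lev β L (f' u)) :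
    Zset G t β L W f = Zset G t β L W f' := by
  have ho : ∀ v, opp G W f v = opp G W f' v := by
    intro v
    unfold opp
    refine Finset.filter_congr fun u _ => ?_
    rw [(h u).1, (h v).1]
  unfold Zset
  refine Finset.filter_congr fun v _ => ?_
  rw [ho v, (h v).2]
  have : (∀ u ∈ opp G W f' v, lev β L (f' v) < lev β L (f u)) ↔
      ∀ u ∈ opp G W f' v, lev β L (f' v) < lev β L (f' u) :=
    forall₂_congr fun u _ => by rw [(h u).2]
  rw [this]

theorem Eset_congr (t : ℕ) (β : ℝ) (L : ℕ) (B W : Finset V) {f f' : V → ℝ}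
    (h : ∀ u, (0 < f u ↔ 0 < f' u) ∧ lev β L (f u) = lev β L (f' u)) :
    Eset G t β L B W f = Eset G t β L B W f' := by
  ext v
  exact Eset_congr_local G t β L fun w _ => ⟨Iff.rfl, Iff.rfl, h w⟩

/-- a cut has at most `d n` edges -/
theorem cut_le {d : ℕ} (hreg : G.IsRegularOfDegree d) (A : Finset V) : cut G A ≤ d * Fintype.card V := by
  unfold cut
  calc ∑ v ∈ A, nin G v Aᶜ ≤ ∑ v ∈ A, d := by
        refine Finset.sum_le_sum fun v _ => ?_
        unfold nin
        refine (Finset.card_le_card Finset.inter_subset_left).trans ?_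
        rw [SimpleGraph.card_neighborFinset_eq_degree]
        exact (hreg v).le
    _ = A.card * d := by rw [Finset.sum_const, smul_eq_mul]
    _ ≤ d * Fintype.card V := by
        rw [mul_comm]
        exact Nat.mul_le_mul_left _ (Finset.card_le_univ A)

theorem exp_Eset {d t L : ℕ} {ρ β δ : ℝ} (hPsi : Psi d t L ρ β δ) (hreg : G.IsRegularOfDegree d) {r : ℕ}
    {S : Matrix V V ℝ} (hS : Cv G ρ r S) {B W : Finset V} (hW : W ⊆ B) (h : ℝ) {y : ι → ℝ}
    (hy : ∑ k, y k ^ 2 = 1) :
    ∫ ω, (cut G (Eset G t β L B W fun v => fld y ω v - h) : ℝ) ∂(multivariateGaussian 0 (kr ι S)) ≤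
      (1 - up h) * cut G B + up h * cut G (B \ W) + ((2 * (t : ℝ) - d) / 2 - δ) * W.card := by
  classical
  set P := multivariateGaussian (0 : EuclideanSpace ℝ (ι × V)) (kr ι S) with hP
  set F : V → EuclideanSpace ℝ (ι × V) → ℝ := fun v ω => fld y ω v - h with hFdef
  have hF : ∀ v, Measurable (F v) := fun v => (fld_meas y v).sub_const h
  have hx : ∀ v, P.real {ω | 0 < F v ω} = up h := by
    intro v
    unfold up
    rw [← law_fld_eval hS.psd (hS.diag v) hy, map_measureReal_apply (fld_meas y v) measurableSet_Ioi]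
    congr 1
    ext ω
    simp [hFdef]
  have hY := exp_Yset G P hW F hF hx
  -- the cardinality of Zset
  have hZ1 : ∀ ω, ((Zset G t β L W fun v => F v ω).card : ℝ) =
      ∑ v ∈ W, ({ω | v ∈ Zset G t β L W fun u => F u ω} : Set (EuclideanSpace ℝ (ι × V))).indicator
        (fun _ => (1 : ℝ)) ω := by
    intro ω
    have e : (Zset G t β L W fun v => F v ω) = W.filter fun v => v ∈ Zset G t β L W fun u => F u ω := by
      ext v
      rw [Finset.mem_filter]
      refine ⟨fun hv => ⟨?_, hv⟩, fun hv => hv.2⟩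
      unfold Zset at hv
      exact (Finset.mem_filter.1 hv).1
    conv_lhs => rw [e]
    rw [Finset.card_filter]
    push_cast
    refine Finset.sum_congr rfl fun v _ => ?_
    simp [Set.indicator_apply]
  have hZm : ∀ v, MeasurableSet {ω | v ∈ Zset G t β L W fun u => F u ω} := by
    intro v
    have hm : Measurable fun ω => (v ∈ Zset G t β L W fun u => F u ω) :=
      meas_code β L (fun f => v ∈ Zset G t β L W f) (fun f f' hf => by rw [Zset_congr G t β L W hf])
        (fun ω u => F u ω) hF
    exact measurableSet_setOfPred.2 hm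
  have hZi : ∀ v, Integrable (({ω | v ∈ Zset G t β L W fun u => F u ω} :
      Set (EuclideanSpace ℝ (ι × V))).indicator (fun _ => (1 : ℝ))) P := fun v =>
    (integrable_const (1 : ℝ)).indicator (hZm v)
  have hZint : Integrable (fun ω => ((Zset G t β L W fun v => F v ω).card : ℝ)) P := by
    simp only [hZ1]
    exact integrable_finsetSum _ fun v _ => hZi v
  have hZe : ∫ ω, ((Zset G t β L W fun v => F v ω).card : ℝ) ∂P =
      ∑ v ∈ W, P.real {ω | v ∈ Zset G t β L W fun u => F u ω} := by
    simp only [hZ1]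
    rw [integral_finsetSum _ fun v _ => hZi v]
    refine Finset.sum_congr rfl fun v _ => ?_
    rw [integral_indicator (hZm v)]
    simp
  have hcutb : ∀ A : Finset V, |(cut G A : ℝ)| ≤ d * Fintype.card V := by
    intro A
    rw [abs_of_nonneg (Nat.cast_nonneg _)]
    exact_mod_cast cut_le G hreg A
  have hYint : Integrable (fun ω => (cut G (Yset B W fun v => F v ω) : ℝ)) P := by
    refine integrable_code P β L (fun f => (cut G (Yset B W f) : ℝ)) (fun f f' hf => ?_) (fun f => hcutb _)
      (fun ω u => F u ω) hF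
    have e : Yset B W f = Yset B W f' := by
      unfold Yset
      rw [Finset.filter_congr fun u _ => (hf u).1]
    simp only [e]
  have hEint : Integrable (fun ω => (cut G (Eset G t β L B W fun v => F v ω) : ℝ)) P := by
    refine integrable_code P β L (fun f => (cut G (Eset G t β L B W f) : ℝ)) (fun f f' hf => ?_)
      (fun f => hcutb _) (fun ω u => F u ω) hF
    simp only [Eset_congr G t β L B W hf]
  have h1 : ∫ ω, (cut G (Eset G t β L B W fun v => F v ω) : ℝ) ∂P ≤
      ∫ ω, ((cut G (Yset B W fun v => F v ω) : ℝ) -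
        (2 * (t : ℝ) - d) * (Zset G t β L W fun v => F v ω).card) ∂P :=
    integral_mono hEint (hYint.sub (hZint.const_mul _)) fun ω => cut_Eset G hreg β L hW _
  rw [integral_sub hYint (hZint.const_mul _), integral_const_mul, hY, hZe] at h1
  -- transfer to the field on `V`
  have hco : ∀ v : V, Measurable fun ω : EuclideanSpace ℝ V => ω v := fun v =>
    (EuclideanSpace.proj v : EuclideanSpace ℝ V →L[ℝ] ℝ).continuous.measurable
  have h2 : ∀ v ∈ W, ∑ u ∈ G.neighborFinset v ∩ W, P.real {ω | 0 < F v ω ∧ ¬ 0 < F u ω} -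
      (2 * (t : ℝ) - d) * P.real {ω | v ∈ Zset G t β L W fun u => F u ω} ≤ (2 * (t : ℝ) - d) / 2 - δ := by
    intro v hv
    refine le_trans (le_of_eq ?_) (hPsi V G hreg r S hS W v hv h)
    congr 1
    · refine Finset.sum_congr rfl fun u _ => ?_
      have hm : MeasurableSet {ω : EuclideanSpace ℝ V | h < ω v ∧ ω u ≤ h} :=
        (measurableSet_lt measurable_const (hco v)).inter (measurableSet_le (hco u) measurable_const)
      rw [← fld_prob hS.psd hy hm]
      congr 1
      ext ω
      simp [hFdef]
    · have hm : MeasurableSet {ω : EuclideanSpace ℝ V | v ∈ Zset G t β L W fun u => ω u - h} := by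
        have hm' : Measurable fun ω : EuclideanSpace ℝ V => (v ∈ Zset G t β L W fun u => ω u - h) :=
          meas_code β L (fun f => v ∈ Zset G t β L W f) (fun f f' hf => by rw [Zset_congr G t β L W hf])
            (fun (ω : EuclideanSpace ℝ V) u => ω u - h) fun u => (hco u).sub_const h
        exact measurableSet_setOfPred.2 hm'
      rw [← fld_prob hS.psd hy hm]
      rfl
  have h3 := Finset.sum_le_sum h2
  rw [Finset.sum_sub_distrib, ← Finset.mul_sum, Finset.sum_const, nsmul_eq_mul] at h3
  linarith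

end H49.MX
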