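import Pool.Agent.H49.MX.GConc
import Pool.Agent.H49.MX.GKron
import Pool.Agent.H49.FR.Ball

/-!
# Module GLoc: concentration of sums of functions which depend on the field in a ball of radius two

`conc_fun` with `P v = univ × ball v 2`, `T v = ball v (2 r + 4)`, `D = (d + 1) ^ (2 r + 4)`.
-/

set_option autoImplicit false

open Finset MeasureTheory ProbabilityTheory

namespace H49.MX

open Pool.Agent.H49.FR (ball Cv ball_trans ball_symm ball_card)

variable {V : Type} [Fintype V] [DecidableEq V] (G : SimpleGraph V) [DecidableRel G.Adj]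
variable {ι : Type} [Fintype ι] [DecidableEq ι]

theorem conc_loc {d : ℕ} (hreg : G.IsRegularOfDegree d) {ρ : ℝ} {r : ℕ} {S : Matrix V V ℝ} (hS : Cv G ρ r S)
    (φ : V → EuclideanSpace ℝ (ι × V) → ℝ) (hφ : ∀ v, Measurable (φ v)) {C : ℝ} (hC : ∀ v ω, |φ v ω| ≤ C)
    (hloc : ∀ v, ∀ ω ω' : EuclideanSpace ℝ (ι × V), (∀ u ∈ ball G v 2, ∀ k, ω (k, u) = ω' (k, u)) →
      φ v ω = φ v ω') :
    ∫ ω, |(∑ v, φ v ω) - ∑ v, ∫ ω', φ v ω' ∂(multivariateGaussian 0 (kr ι S))|
        ∂(multivariateGaussian 0 (kr ι S)) ≤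
      2 * C * Real.sqrt (((d + 1) ^ (2 * r + 4) : ℕ) * Fintype.card V) := by
  refine conc_fun (kr_psd hS.psd) φ hφ hC (fun v => Finset.univ ×ˢ ball G v 2) ?_ ((d + 1) ^ (2 * r + 4))
    (fun v => ball G v (2 * r + 4)) (fun v => ball_card G hreg v (2 * r + 4)) ?_
  · intro v ω ω' h
    refine hloc v ω ω' fun u hu k => h (k, u) ?_
    rw [Finset.mem_product]
    exact ⟨Finset.mem_univ _, hu⟩
  · intro v w hw a ha b hb
    rw [Finset.mem_product] at ha hb
    unfold kr
    by_cases hab : a.1 = b.1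
    · rw [if_pos hab]
      by_contra hne
      obtain ⟨x, hx1, hx2⟩ := hS.loc _ _ hne
      have h3 := ball_trans G (ball_trans G (ball_trans G ha.2 hx1) (ball_symm G hx2)) (ball_symm G hb.2)
      have h5 : 2 + r + r + 2 = 2 * r + 4 := by ring
      rw [h5] at h3
      exact hw h3
    · rw [if_neg hab]

end H49.MX
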