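import Pool.Agent.H49.MX.GTail
import Pool.Agent.H49.MX.GDif
import Pool.Agent.H49.MX.GLoc
import Pool.Agent.H49.MX.GExpE
import Pool.Agent.H49.MX.GBest
import Pool.Agent.H49.FR.Cov

/-!
# Module GMain: `Mix` follows from the estimate at a vertex

`ε₁ = ε / (2 (d+1))`, `z` from `dif_prob` for `ε₁`. For a given `m` and `n ≥ n₀` one sample `ω` is good for the following functions:
`cut (e j) - E`, `|{v : F j v > 0}| - E`, `|{v : ¬ F j v > 0}| - E`, `|{v : the data of i and j differ at v}| - E` (deviation at most `ε₁ n`), and no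
`F j v` is zero; `F j v = fld (y j) ω v - h j`, `e j = Eset (B j) (W j) (F j)`.
-/

set_option autoImplicit false

open Finset MeasureTheory ProbabilityTheory

namespace H49.MX

open Pool.Agent.H49.FR (nin cut Cv ball exists_cov self_mem_ball ball_nbr ball_mono)

section local_functions

variable {V : Type} [Fintype V] [DecidableEq V] (G : SimpleGraph V) [DecidableRel G.Adj]
variable {ι : Type} [Fintype ι] [DecidableEq ι]

/-- the cut as a sum of local functions -/
private theorem gm_cut (A : Finset V) : (cut G A : ℝ) = ∑ v, if v ∈ A then (nin G v Aᶜ : ℝ) else 0 := by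
  unfold cut
  push_cast
  rw [← Finset.sum_filter]
  congr 1
  ext v
  simp

omit [Fintype V] [DecidableEq V] [DecidableEq ι] in
private theorem gm_fld {V : Type} {y : ι → ℝ} {ω ω' : EuclideanSpace ℝ (ι × V)} {v : V}
    (h : ∀ k, ω (k, v) = ω' (k, v)) : fld y ω v = fld y ω' v := by
  unfold fld
  exact Finset.sum_congr rfl fun k _ => by rw [h k]

/-- membership in `Eset` is determined by the field in the closed neighbourhood -/
private theorem gm_mem (t : ℕ) (β : ℝ) (L : ℕ) (B W : Finset V) {f f' : V → ℝ} {v : V}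
    (h : ∀ w ∈ ball G v 1, f w = f' w) : v ∈ Eset G t β L B W f ↔ v ∈ Eset G t β L B W f' := by
  refine Eset_congr_local G t β L fun w hw => ?_
  have : w ∈ ball G v 1 := by
    rcases hw with rfl | hw
    · exact self_mem_ball G w 1
    · exact ball_nbr G (self_mem_ball G v 0) hw
  rw [h w this]
  exact ⟨Iff.rfl, Iff.rfl, Iff.rfl, rfl⟩

private theorem gm_nin (t : ℕ) (β : ℝ) (L : ℕ) (B W : Finset V) {f f' : V → ℝ} {v : V}
    (h : ∀ w ∈ ball G v 2, f w = f' w) :
    (if v ∈ Eset G t β L B W f then (nin G v (Eset G t β L B W f)ᶜ : ℝ) else 0) =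
      if v ∈ Eset G t β L B W f' then (nin G v (Eset G t β L B W f')ᶜ : ℝ) else 0 := by
  have h1 : v ∈ Eset G t β L B W f ↔ v ∈ Eset G t β L B W f' :=
    gm_mem G t β L B W fun w hw => h w (ball_mono G v (by norm_num) hw)
  have h2 : nin G v (Eset G t β L B W f)ᶜ = nin G v (Eset G t β L B W f')ᶜ := by
    unfold nin
    congr 1
    ext u
    rw [Finset.mem_inter, Finset.mem_inter, Finset.mem_compl, Finset.mem_compl]
    refine and_congr_right fun hu => ?_
    rw [SimpleGraph.mem_neighborFinset] at hu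
    refine not_congr (gm_mem G t β L B W fun w hw => h w ?_)
    have h3 : u ∈ ball G v 1 := ball_nbr G (self_mem_ball G v 0) hu
    exact Pool.Agent.H49.FR.ball_trans G h3 hw
  rw [h2]
  by_cases h3 : v ∈ Eset G t β L B W f
  · rw [if_pos h3, if_pos (h1.1 h3)]
  · rw [if_neg h3, if_neg fun h4 => h3 (h1.2 h4)]

/-- indicator of a measurable set given by a proposition -/
private theorem gm_ind {Ω : Type} [MeasurableSpace Ω] (P : Measure Ω) [IsProbabilityMeasure P] {E : Ω → Prop}
    [DecidablePred E] (hE : MeasurableSet {ω | E ω}) :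
    Measurable (fun ω => if E ω then (1 : ℝ) else 0) ∧ ∫ ω, (if E ω then (1 : ℝ) else 0) ∂P = P.real {ω | E ω} := by
  refine ⟨Measurable.ite hE measurable_const measurable_const, ?_⟩
  have h1 : (fun ω => if E ω then (1 : ℝ) else 0) = ({ω | E ω} : Set Ω).indicator fun _ => (1 : ℝ) := by
    funext ω
    simp [Set.indicator_apply]
  rw [h1, integral_indicator hE]
  simp

private theorem gm_ite_abs {p : Prop} [Decidable p] {d : ℕ} (hd : 2 ≤ d) : |if p then (1 : ℝ) else 0| ≤ d := by
  have h1 : (2 : ℝ) ≤ d := by exact_mod_cast hd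
  by_cases h : p
  · rw [if_pos h, abs_one]
    linarith
  · rw [if_neg h, abs_zero]
    linarith

private theorem gm_nin_abs {d : ℕ} (hreg : G.IsRegularOfDegree d) (v : V) (A : Finset V) :
    |if v ∈ A then (nin G v Aᶜ : ℝ) else 0| ≤ d := by
  by_cases h : v ∈ A
  · rw [if_pos h, abs_of_nonneg (Nat.cast_nonneg _)]
    have : nin G v Aᶜ ≤ d := by
      unfold nin
      refine (Finset.card_le_card Finset.inter_subset_left).trans ?_
      rw [SimpleGraph.card_neighborFinset_eq_degree]
      exact (hreg v).le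
    exact_mod_cast this
  · rw [if_neg h, abs_zero]
    exact Nat.cast_nonneg _

private theorem gm_fldneg {V : Type} (y : ι → ℝ) (h : ℝ) (ω : EuclideanSpace ℝ (ι × V)) (v : V) :
    fld (-y) ω v - -h = -(fld y ω v - h) := by
  unfold fld
  have : ∑ k, (-y) k * ω (k, v) = -∑ k, y k * ω (k, v) := by
    rw [← Finset.sum_neg_distrib]
    exact Finset.sum_congr rfl fun k _ => by simp
  rw [this]
  ring

/-- no ties -/
private theorem gm_tie {S : Matrix V V ℝ} (hS : S.PosSemidef) (hd : ∀ v, S v v = 1) {y : ι → ℝ}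
    (hy : ∑ k, y k ^ 2 = 1) (h : ℝ) (v : V) :
    ∀ᵐ ω ∂(multivariateGaussian 0 (kr ι S)), fld y ω v - h ≠ 0 := by
  have h1 : (multivariateGaussian 0 (kr ι S)).real {ω | fld y ω v = h} = 0 := by
    have h2 : ({ω | fld y ω v = h} : Set (EuclideanSpace ℝ (ι × V))) = (fun ω => fld y ω v) ⁻¹' {h} := rfl
    rw [h2, ← map_measureReal_apply (fld_meas y v) (measurableSet_singleton h), law_fld_eval hS (hd v) hy]
    have := nullSingletonClass_gaussianReal (μ := 0) (v := 1) one_ne_zero
    rw [measureReal_def, measure_singleton, ENNReal.toReal_zero]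
  rw [ae_iff]
  have h3 := (measureReal_eq_zero_iff (by finiteness)).1 h1
  refine measure_mono_null ?_ h3
  intro ω hω
  simp only [ne_eq, not_not, Set.mem_ofPred_eq] at hω ⊢
  linarith

end local_functions

/-- the four families of functions -/
private noncomputable def gmPhi {V : Type} [Fintype V] [DecidableEq V] (G : SimpleGraph V) [DecidableRel G.Adj]
    {ι J : Type} [Fintype ι] (t : ℕ) (β : ℝ) (L : ℕ) (B W : J → Finset V) (h : J → ℝ) (y : J → ι → ℝ) :
    J ⊕ J ⊕ J ⊕ (J × J) → V → EuclideanSpace ℝ (ι × V) → ℝ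
  | .inl j => fun v ω => if v ∈ Eset G t β L (B j) (W j) (fun u => fld (y j) ω u - h j) then
      (nin G v (Eset G t β L (B j) (W j) fun u => fld (y j) ω u - h j)ᶜ : ℝ) else 0
  | .inr (.inl j) => fun v ω => if 0 < fld (y j) ω v - h j then 1 else 0
  | .inr (.inr (.inl j)) => fun v ω => if ¬ 0 < fld (y j) ω v - h j then 1 else 0
  | .inr (.inr (.inr (i, j))) => fun v ω =>
      if ¬ ((0 < fld (y i) ω v - h i ↔ 0 < fld (y j) ω v - h j) ∧
        lev β L (fld (y i) ω v - h i) = lev β L (fld (y j) ω v - h j)) then 1 else 0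

section phi

variable {V : Type} [Fintype V] [DecidableEq V] (G : SimpleGraph V) [DecidableRel G.Adj]
variable {ι J : Type} [Fintype ι] [DecidableEq ι] (t : ℕ) (β : ℝ) (L : ℕ) (B W : J → Finset V) (h : J → ℝ)
  (y : J → ι → ℝ)

private theorem gm_F (j : J) (u : V) : Measurable fun ω : EuclideanSpace ℝ (ι × V) => fld (y j) ω u - h j :=
  (fld_meas (y j) u).sub_const (h j)

private theorem gm_set2 (j : J) (v : V) :
    MeasurableSet {ω : EuclideanSpace ℝ (ι × V) | 0 < fld (y j) ω v - h j} :=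
  measurableSet_lt measurable_const (gm_F h y j v)

private theorem gm_set4 (i j : J) (v : V) :
    MeasurableSet {ω : EuclideanSpace ℝ (ι × V) |
      ¬ ((0 < fld (y i) ω v - h i ↔ 0 < fld (y j) ω v - h j) ∧
        lev β L (fld (y i) ω v - h i) = lev β L (fld (y j) ω v - h j))} := by
  have h1 : MeasurableSet {ω : EuclideanSpace ℝ (ι × V) |
      (0 < fld (y i) ω v - h i ↔ 0 < fld (y j) ω v - h j)} := by
    have a := measurableSet_setOfPred.1 (gm_set2 h y i v)
    have b := measurableSet_setOfPred.1 (gm_set2 h y j v)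
    exact measurableSet_setOfPred.2 (a.iff b)
  have h2 : MeasurableSet {ω : EuclideanSpace ℝ (ι × V) |
      lev β L (fld (y i) ω v - h i) = lev β L (fld (y j) ω v - h j)} :=
    measurableSet_eq_fun ((lev_meas β L).comp (gm_F h y i v)) ((lev_meas β L).comp (gm_F h y j v))
  exact (h1.inter h2).compl

private theorem gm_meas (q : J ⊕ J ⊕ J ⊕ (J × J)) (v : V) : Measurable (gmPhi G t β L B W h y q v) := by
  rcases q with j | j | j | ⟨i, j⟩
  · refine meas_code β L (fun f => if v ∈ Eset G t β L (B j) (W j) f then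
      (nin G v (Eset G t β L (B j) (W j) f)ᶜ : ℝ) else 0) (fun f f' hf => ?_)
      (fun ω u => fld (y j) ω u - h j) (fun u => gm_F h y j u)
    simp only [Eset_congr G t β L (B j) (W j) hf]
  · exact Measurable.ite (gm_set2 h y j v) measurable_const measurable_const
  · exact Measurable.ite (gm_set2 h y j v).compl measurable_const measurable_const
  · exact Measurable.ite (gm_set4 β L h y i j v) measurable_const measurable_const

private theorem gm_bdd {d : ℕ} (hd : 2 ≤ d) (hreg : G.IsRegularOfDegree d) (q : J ⊕ J ⊕ J ⊕ (J × J)) (v : V)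
    (ω : EuclideanSpace ℝ (ι × V)) : |gmPhi G t β L B W h y q v ω| ≤ d := by
  rcases q with j | j | j | ⟨i, j⟩
  · exact gm_nin_abs G hreg v _
  · exact gm_ite_abs hd
  · exact gm_ite_abs hd
  · exact gm_ite_abs hd

private theorem gm_loc (q : J ⊕ J ⊕ J ⊕ (J × J)) (v : V) (ω ω' : EuclideanSpace ℝ (ι × V))
    (hω : ∀ u ∈ ball G v 2, ∀ k, ω (k, u) = ω' (k, u)) :
    gmPhi G t β L B W h y q v ω = gmPhi G t β L B W h y q v ω' := by
  have hf : ∀ j, ∀ u ∈ ball G v 2, fld (y j) ω u = fld (y j) ω' u := fun j u hu => gm_fld (hω u hu)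
  have hv : v ∈ ball G v 2 := self_mem_ball G v 2
  rcases q with j | j | j | ⟨i, j⟩
  · exact gm_nin G t β L (B j) (W j) fun w hw => by rw [hf j w hw]
  · simp only [gmPhi, hf j v hv]
  · simp only [gmPhi, hf j v hv]
  · simp only [gmPhi, hf j v hv, hf i v hv]

end phi

theorem mix_of_psi {d t L : ℕ} {ρ β δ : ℝ} (hd : 2 ≤ d) (ht : 1 ≤ t) (hβ : 0 < β)
    (hρ : ρ < 2 * Real.sqrt ((d : ℝ) - 1) / d) (hPsi : Psi d t L ρ β δ) : Mix d t δ := by
  obtain ⟨r, hr⟩ := exists_cov hd hρ
  intro ε hε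
  have hd0 : (0 : ℝ) < d + 1 := by positivity
  set ε₁ : ℝ := ε / (2 * (d + 1)) with hε₁
  have hε₁0 : 0 < ε₁ := by positivity
  have hε2 : (d + 1) * (ε₁ + ε₁) = ε := by
    rw [hε₁]
    field_simp
    ring
  have hε3 : (d + 1) * ε₁ ≤ ε := by nlinarith
  have hε4 : ε₁ ≤ ε := by nlinarith
  obtain ⟨z, hz0, hz⟩ := dif_prob hβ L hε₁0
  refine ⟨z, hz0, fun m => ?_⟩
  obtain ⟨n₀, hn₀⟩ := sqrt_small ((3 * m + m * m : ℕ) * (2 * (d : ℝ))) (((d + 1) ^ (2 * r + 4) : ℕ) : ℝ) hε₁0
  refine ⟨n₀, ?_⟩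
  intro V _ _ G _ hreg hn ι J _ _ _ hJ B W h y hW hy
  classical
  obtain ⟨S, hS⟩ := hr V G hreg
  set P := multivariateGaussian (0 : EuclideanSpace ℝ (ι × V)) (kr ι S) with hP
  set n : ℝ := (Fintype.card V : ℝ) with hndef
  have hn0 : 0 ≤ n := Nat.cast_nonneg _
  set φ := gmPhi G t β L B W h y with hφ
  have hint : ∀ q v, Integrable (φ q v) P := fun q v =>
    Integrable.of_bound (gm_meas G t β L B W h y q v).aestronglyMeasurable (d : ℝ)
      (Filter.Eventually.of_forall fun ω => by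
        rw [Real.norm_eq_abs]
        exact gm_bdd G t β L B W h y hd hreg q v ω)
  set Ψ : J ⊕ J ⊕ J ⊕ (J × J) → EuclideanSpace ℝ (ι × V) → ℝ := fun q ω =>
    (∑ v, φ q v ω) - ∑ v, ∫ ω', φ q v ω' ∂P with hΨ
  have hΨi : ∀ q, Integrable (Ψ q) P := fun q =>
    (integrable_finsetSum _ fun v _ => hint q v).sub (integrable_const _)
  have hconc : ∀ q, ∫ ω, |Ψ q ω| ∂P ≤ 2 * d * Real.sqrt (((d + 1) ^ (2 * r + 4) : ℕ) * n) := fun q =>
    conc_loc G hreg hS (φ q) (fun v => gm_meas G t β L B W h y q v)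
      (fun v ω => gm_bdd G t β L B W h y hd hreg q v ω) (fun v ω ω' hω => gm_loc G t β L B W h y q v ω ω' hω)
  have hsum : ∑ q, ∫ ω, |Ψ q ω| ∂P < ε₁ * n := by
    refine lt_of_le_of_lt ((Finset.sum_le_sum fun q _ => hconc q)) ?_
    rw [Finset.sum_const, nsmul_eq_mul, Finset.card_univ]
    refine lt_of_le_of_lt ?_ (hn₀ _ hn)
    have hc : Fintype.card (J ⊕ J ⊕ J ⊕ (J × J)) ≤ 3 * m + m * m := by
      simp only [Fintype.card_sum, Fintype.card_prod]
      have := Nat.mul_le_mul hJ hJ
      omega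
    have hc2 : (Fintype.card (J ⊕ J ⊕ J ⊕ (J × J)) : ℝ) ≤ ((3 * m + m * m : ℕ) : ℝ) := by exact_mod_cast hc
    have h0 : 0 ≤ 2 * (d : ℝ) * Real.sqrt (((d + 1) ^ (2 * r + 4) : ℕ) * n) := by positivity
    calc (Fintype.card (J ⊕ J ⊕ J ⊕ (J × J)) : ℝ) * (2 * d * Real.sqrt (((d + 1) ^ (2 * r + 4) : ℕ) * n))
        ≤ ((3 * m + m * m : ℕ) : ℝ) * (2 * d * Real.sqrt (((d + 1) ^ (2 * r + 4) : ℕ) * n)) :=
          mul_le_mul_of_nonneg_right hc2 h0
      _ = _ := by ring
  have htie : ∀ᵐ ω ∂P, ∀ (j : J) (v : V), fld (y j) ω v - h j ≠ 0 := by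
    rw [ae_all_iff]
    intro j
    rw [ae_all_iff]
    intro v
    exact gm_tie hS.psd hS.diag (hy j) (h j) v
  obtain ⟨ω, hω0, hω⟩ := exists_good P Ψ hΨi hsum htie
  have hup : ∀ q, ∑ v, φ q v ω ≤ (∑ v, ∫ ω', φ q v ω' ∂P) + ε₁ * n := by
    intro q
    have := (abs_le.1 (hω q)).2
    simp only [hΨ] at this
    linarith
  refine ⟨fun j => Eset G t β L (B j) (W j) fun v => fld (y j) ω v - h j, ?_, ?_, ?_, ?_, ?_⟩
  · intro i j h1 h2 h3 h4
    show Eset G t β L (B j) (W j) (fun v => fld (y j) ω v - h j) = _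
    rw [h1, h2, h3, h4]
    simp only [gm_fldneg]
    exact Eset_mirror G t β L (hW i) (hω0 i)
  · intro j
    have h1 := hup (.inl j)
    have h2 : ∑ v, φ (.inl j) v ω =
        (cut G (Eset G t β L (B j) (W j) fun v => fld (y j) ω v - h j) : ℝ) := (gm_cut G _).symm
    have h3 : ∑ v, ∫ ω', φ (.inl j) v ω' ∂P =
        ∫ ω', (cut G (Eset G t β L (B j) (W j) fun v => fld (y j) ω' v - h j) : ℝ) ∂P := by
      rw [← integral_finsetSum _ fun v _ => hint (.inl j) v]
      refine integral_congr_ae (Filter.Eventually.of_forall fun ω' => ?_)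
      exact (gm_cut G _).symm
    rw [h2, h3] at h1
    have h4 := exp_Eset G hPsi hreg hS (hW j) (h j) (hy j) (ι := ι)
    have h5 := mul_le_mul_of_nonneg_right hε4 hn0
    linarith
  · intro i j hij hyij
    have h1 := hup (.inr (.inr (.inr (i, j))))
    have h2 : ∑ v, φ (.inr (.inr (.inr (i, j)))) v ω =
        ((univ.filter fun v => ¬ ((0 < fld (y i) ω v - h i ↔ 0 < fld (y j) ω v - h j) ∧
          lev β L (fld (y i) ω v - h i) = lev β L (fld (y j) ω v - h j))).card : ℝ) := by
      rw [Finset.card_filter]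
      push_cast
      rfl
    have h3 : ∑ v, ∫ ω', φ (.inr (.inr (.inr (i, j)))) v ω' ∂P ≤ ε₁ * n := by
      have h4 : ∀ v ∈ (Finset.univ : Finset V), ∫ ω', φ (.inr (.inr (.inr (i, j)))) v ω' ∂P ≤ ε₁ := by
        intro v _
        have h5 := (gm_ind P (gm_set4 β L h y i j v)).2
        have h6 := hz V ι S hS.psd v (hS.diag v) (y i) (y j) (h i) (h j) (hy i) hij hyij
        exact (le_of_eq h5).trans h6
      refine (Finset.sum_le_sum h4).trans ?_
      rw [Finset.sum_const, nsmul_eq_mul, Finset.card_univ, mul_comm]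
    rw [h2] at h1
    have h5 := Eset_diff G hreg t β L (B i) (W i) (B j) (W j) (fun v => fld (y i) ω v - h i)
      (fun v => fld (y j) ω v - h j)
    have h6 : ((symmDiff (Eset G t β L (B i) (W i) fun v => fld (y i) ω v - h i)
        (Eset G t β L (B j) (W j) fun v => fld (y j) ω v - h j)).card : ℝ) ≤
        (d + 1) * (((symmDiff (B i) (B j)).card : ℝ) + ((symmDiff (W i) (W j)).card : ℝ) +
        ((univ.filter fun v => ¬ ((0 < fld (y i) ω v - h i ↔ 0 < fld (y j) ω v - h j) ∧
          lev β L (fld (y i) ω v - h i) = lev β L (fld (y j) ω v - h j))).card : ℝ)) := by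
      exact_mod_cast h5
    refine h6.trans ?_
    have h7 : ((univ.filter fun v => ¬ ((0 < fld (y i) ω v - h i ↔ 0 < fld (y j) ω v - h j) ∧
          lev β L (fld (y i) ω v - h i) = lev β L (fld (y j) ω v - h j))).card : ℝ) ≤ (ε₁ + ε₁) * n := by
      linarith
    have h8 := mul_le_mul_of_nonneg_left h7 hd0.le
    rw [← mul_assoc, hε2] at h8
    rw [mul_add (d + 1 : ℝ) (((symmDiff (B i) (B j)).card : ℝ) + ((symmDiff (W i) (W j)).card : ℝ))]
    linarith
  · intro j
    have h1 := hup (.inr (.inl j))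
    have h2 : ∑ v, φ (.inr (.inl j)) v ω = ((univ.filter fun v => 0 < fld (y j) ω v - h j).card : ℝ) := by
      rw [Finset.card_filter]
      push_cast
      rfl
    have h3 : ∑ v, ∫ ω', φ (.inr (.inl j)) v ω' ∂P = up (h j) * n := by
      have h4 : ∀ v ∈ (Finset.univ : Finset V), ∫ ω', φ (.inr (.inl j)) v ω' ∂P = up (h j) := by
        intro v _
        refine (gm_ind P (gm_set2 h y j v)).2.trans ?_
        unfold up
        rw [← law_fld_eval hS.psd (hS.diag v) (hy j), map_measureReal_apply (fld_meas (y j) v) measurableSet_Ioi]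
        congr 1
        ext ω'
        simp
      rw [Finset.sum_congr rfl h4, Finset.sum_const, nsmul_eq_mul, Finset.card_univ, mul_comm]
    rw [h2, h3] at h1
    have h5 := Eset_near G hreg ht β L (B j) (W j) (fun v => fld (y j) ω v - h j)
    have h6 : ((symmDiff (Eset G t β L (B j) (W j) fun v => fld (y j) ω v - h j) (B j)).card : ℝ) ≤
        (d + 1) * ((univ.filter fun v => 0 < fld (y j) ω v - h j).card : ℝ) := by exact_mod_cast h5
    refine h6.trans ?_
    have h8 := mul_le_mul_of_nonneg_left h1 hd0.le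
    have h9 := mul_le_mul_of_nonneg_right hε3 hn0
    linarith
  · intro j
    have h1 := hup (.inr (.inr (.inl j)))
    have h2 : ∑ v, φ (.inr (.inr (.inl j))) v ω = ((univ.filter fun v => ¬ 0 < fld (y j) ω v - h j).card : ℝ) := by
      rw [Finset.card_filter]
      push_cast
      rfl
    have h3 : ∑ v, ∫ ω', φ (.inr (.inr (.inl j))) v ω' ∂P = up (-h j) * n := by
      have h4 : ∀ v ∈ (Finset.univ : Finset V), ∫ ω', φ (.inr (.inr (.inl j))) v ω' ∂P = up (-h j) := by
        intro v _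
        refine (gm_ind P (E := fun ω => ¬ 0 < fld (y j) ω v - h j) (gm_set2 h y j v).compl).2.trans ?_
        rw [← up_compl, ← law_fld_eval hS.psd (hS.diag v) (hy j),
          map_measureReal_apply (fld_meas (y j) v) measurableSet_Iic]
        congr 1
        ext ω'
        simp
      rw [Finset.sum_congr rfl h4, Finset.sum_const, nsmul_eq_mul, Finset.card_univ, mul_comm]
    rw [h2, h3] at h1
    have h5 := Eset_near' G hreg ht β L (hW j) (fun v => fld (y j) ω v - h j)
    have h6 : ((symmDiff (Eset G t β L (B j) (W j) fun v => fld (y j) ω v - h j) (B j \ W j)).card : ℝ) ≤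
        (d + 1) * ((univ.filter fun v => ¬ 0 < fld (y j) ω v - h j).card : ℝ) := by exact_mod_cast h5
    refine h6.trans ?_
    have h8 := mul_le_mul_of_nonneg_left h1 hd0.le
    have h9 := mul_le_mul_of_nonneg_right hε3 hn0
    linarith

end H49.MX
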