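import Pool.Agent.H49.MX.GStar

/-!
# Module GSide: both sides

* `Zset_neg`: `Zset` of `-f` is `Zset` of `f` if no `f u` is zero.
* `coord_ne`: `ω u ≠ h` almost surely (`law_eval`, no atoms).
* `star_both`: `μ {v ∈ Zset(ω - h)} ≥ μ {v ∈ Zset(ω - h), h < ω v} + μ {v ∈ Zset(ω - h), ω v < h}`, and the second is, under `ω ↦ -ω`
  (`map_neg_gauss`), `μ {v ∈ Zset(-ω - h), -ω v < h} = μ {v ∈ Zset(ω + h), -h < ω v}` (`Zset_neg`, almost surely), which is estimated by `star_side` for
  `-h`. The sum of the two bounds is the stated one because `max 0 (-h) + max 0 h = |h|`: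
  `0.07 - 3.78665 (0.00014 + 0.2001 * 0.07 |h| + 1.85 * 0.0049) = 0.07 - 3.78665 * 0.009205 - 0.053040... |h| ≥ 0.035143 - 0.05305 |h|`.
-/

set_option autoImplicit false

open Finset MeasureTheory ProbabilityTheory

namespace H49.MX

variable {V : Type} [Fintype V] [DecidableEq V] (G : SimpleGraph V) [DecidableRel G.Adj]

private theorem gside_lev_neg (β : ℝ) (L : ℕ) (x : ℝ) : lev β L (-x) = lev β L x := by
  unfold lev
  rw [abs_neg]

private theorem gside_opp_neg (W : Finset V) {f : V → ℝ} (hf : ∀ v, f v ≠ 0) (v : V) :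
    opp G W (fun v => -f v) v = opp G W f v := by
  have hk : ∀ u, 0 < -f u ↔ ¬ 0 < f u := by
    intro u
    rw [not_lt]
    constructor
    · intro h
      linarith
    · intro h
      have h1 : f u < 0 := lt_of_le_of_ne h (hf u)
      linarith
  unfold opp
  refine Finset.filter_congr fun u _ => ?_
  show ¬ (0 < -f u ↔ 0 < -f v) ↔ ¬ (0 < f u ↔ 0 < f v)
  rw [hk u, hk v, not_iff_not, not_iff_not]

theorem Zset_neg (t : ℕ) (β : ℝ) (L : ℕ) (W : Finset V) {f : V → ℝ} (hf : ∀ v, f v ≠ 0) :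
    Zset G t β L W (fun v => -f v) = Zset G t β L W f := by
  unfold Zset
  refine Finset.filter_congr fun v _ => ?_
  show (lev β L (-f v) < L ∧ t ≤ (opp G W (fun v => -f v) v).card ∧
      ∀ u ∈ opp G W (fun v => -f v) v, lev β L (-f v) < lev β L (-f u)) ↔ _
  rw [gside_opp_neg G W hf v]
  simp only [gside_lev_neg]

theorem coord_ne {S : Matrix V V ℝ} (hS : S.PosSemidef) (hd : ∀ v, S v v = 1) (h : ℝ) :
    ∀ᵐ ω ∂(multivariateGaussian 0 S), ∀ u : V, (ω : EuclideanSpace ℝ V) u ≠ h := by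
  rw [ae_all_iff]
  intro u
  have hc : Continuous fun ω : EuclideanSpace ℝ V => ω u := by fun_prop
  have h1 : (multivariateGaussian 0 S).map (fun ω : EuclideanSpace ℝ V => ω u) {h} = 0 := by
    rw [Pool.Agent.H49.FR.law_eval hS (hd u)]
    have := nullSingletonClass_gaussianReal (μ := 0) (v := 1) one_ne_zero
    exact measure_singleton _
  rw [Measure.map_apply hc.measurable (measurableSet_singleton _)] at h1
  rw [ae_iff]
  refine measure_mono_null ?_ h1
  intro ω hω
  simp only [ne_eq, not_not, Set.mem_ofPred_eq] at hω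
  exact hω

theorem star_both {S : Matrix V V ℝ} (hS : S.PosSemidef) (hd : ∀ v, S v v = 1) {v : V} {W : Finset V} (hv : v ∈ W)
    (hN : G.neighborFinset v ⊆ W) (h5 : (G.neighborFinset v).card = 5)
    (h0 : ∀ u ∈ G.neighborFinset v, 7999 / 10000 ≤ S u v) (h1 : ∀ u ∈ G.neighborFinset v, S u v ≤ 85 / 100)
    {h : ℝ} (hh : |h| ≤ 1 / 4) :
    39894 / 100000 * (1 - (|h| + 7 / 100) ^ 2 / 2) * (35143 / 1000000 - 5305 / 100000 * |h|) ≤
      (multivariateGaussian 0 S).real {ω : EuclideanSpace ℝ V | v ∈ Zset G 3 (1 / 1000) 70 W fun u => ω u - h} := by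
  have hA := star_side G hS hd hv hN h5 h0 h1 hh
  have hB := star_side G hS hd hv hN h5 h0 h1 (h := -h) (by rwa [abs_neg])
  set μ := multivariateGaussian 0 S with hμ
  set E : Set (EuclideanSpace ℝ V) := {ω | v ∈ Zset G 3 (1 / 1000) 70 W fun u => ω u - h} with hE
  set T : Set (EuclideanSpace ℝ V) := {ω | h < ω v} with hT
  set F : Set (EuclideanSpace ℝ V) := {ω | (v ∈ Zset G 3 (1 / 1000) 70 W fun u => ω u - (-h)) ∧ -h < ω v} with hF
  have hcv : Continuous fun ω : EuclideanSpace ℝ V => ω v := by fun_prop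
  have hTm : MeasurableSet T := measurableSet_lt measurable_const hcv.measurable
  have hsplit : μ.real E = μ.real (E ∩ T) + μ.real (E \ T) := by
    rw [measureReal_def, measureReal_def, measureReal_def, ← measure_inter_add_sdiff E hTm,
      ENNReal.toReal_add (measure_ne_top _ _) (measure_ne_top _ _)]
  have hneg : μ F = μ ((fun ω : EuclideanSpace ℝ V => -ω) ⁻¹' F) := by
    have h2 : (μ.map fun ω : EuclideanSpace ℝ V => -ω) F = μ F := by
      rw [hμ, Pool.Agent.H49.FR.map_neg_gauss S hS]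
    rw [← h2]
    exact (MeasurableEquiv.neg (EuclideanSpace ℝ V)).map_apply F
  have hae : μ ((fun ω : EuclideanSpace ℝ V => -ω) ⁻¹' F) ≤ μ (E \ T) := by
    refine measure_mono_ae ?_
    filter_upwards [coord_ne hS hd h] with ω hω hωF
    have h3 : (v ∈ Zset G 3 (1 / 1000) 70 W fun u => (-ω) u - (-h)) ∧ -h < (-ω) v := hωF
    have h4 : (fun u => (-ω) u - (-h)) = fun u => -((fun u => ω u - h) u) := by
      funext u
      have h5 : (-ω) u = -(ω u) := rfl
      rw [h5]
      ring
    rw [h4, Zset_neg G 3 (1 / 1000) 70 W (f := fun u => ω u - h) (fun u => sub_ne_zero.2 (hω u))] at h3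
    refine ⟨h3.1, ?_⟩
    show ¬ (h < ω v)
    have h5 : (-ω) v = -(ω v) := rfl
    have h6 := h3.2
    rw [h5] at h6
    linarith
  have hB2 : μ.real F ≤ μ.real (E \ T) := by
    rw [measureReal_def, measureReal_def, hneg]
    exact ENNReal.toReal_mono (measure_ne_top _ _) hae
  have hA2 : μ.real {ω : EuclideanSpace ℝ V | (v ∈ Zset G 3 (1 / 1000) 70 W fun u => ω u - h) ∧ h < ω v} =
      μ.real (E ∩ T) := rfl
  rw [hA2] at hA
  rw [abs_neg, neg_neg] at hB
  have habs : max 0 (-h) + max 0 h = |h| := by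
    rcases le_total 0 h with h7 | h7
    · rw [max_eq_left (by linarith), max_eq_right h7, abs_of_nonneg h7]
      ring
    · rw [max_eq_right (by linarith), max_eq_left h7, abs_of_nonpos h7]
      ring
  have habs0 : 0 ≤ |h| := abs_nonneg h
  have hsq : (|h| + 7 / 100) ^ 2 ≤ 1 := by
    have h8 : (|h| + 7 / 100) ^ 2 ≤ 1 ^ 2 := pow_le_pow_left₀ (by linarith) (by linarith) 2
    simpa using h8
  have hc0 : 0 ≤ 39894 / 100000 * (1 - (|h| + 7 / 100) ^ 2 / 2) := by
    apply mul_nonneg
    · norm_num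
    · linarith
  rw [hsplit]
  refine le_trans ?_ (add_le_add hA (le_trans hB hB2))
  rw [← mul_add]
  refine mul_le_mul_of_nonneg_left ?_ hc0
  rw [← habs]
  have hm1 : 0 ≤ max 0 (-h) := le_max_left _ _
  have hm2 : 0 ≤ max 0 h := le_max_left _ _
  linarith

end H49.MX
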