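import Pool.Agent.H49.MX.GDens
import Pool.Agent.H49.FR.SymHalf

/-!
# Module GStar: a vertex is moved with large probability (one side)

`N` = neighbours of `v`, five, all in `W`; `s u = S u v ∈ [0.7999, 0.85]`. `β = 1/1000`, `L = 70`, `α = L β = 0.07`. `R_u ω = ω u - s u * ω v`.
For `x` (the value of `ω v`) let `a = x - h`, `q_u = (1 - s u) h - s u a` (so `ω u ≤ h ↔ R_u ≤ q_u`) and
`Bad_u(x) = [q_u - (a + β), max 0 q_u]`, `D_x = {y : N → ℝ | 3 ≤ #{u | y u < 0}, y u ∉ Bad_u(x) for all u}`.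
(1) `star_det`: if `h < ω v ≤ h + α`... precisely `0 < a < α` and `(R_u)_u ∈ D_x` then `v ∈ Zset`: let `j = ⌊a/β⌋ < L`, `lev v = j`,
 `opp v = {u | ω u ≤ h}`. If `R_u < 0` then `R_u < q_u - (a+β)`, so `ω u < h - (a + β) ≤ h - (j+1) β` (in particular `u ∈ opp v`: at least three).
 If `ω u ≤ h`, i.e. `R_u ≤ q_u ≤ max 0 q_u`, then `R_u < q_u - (a+β)`, so `|ω u - h| ≥ (j+1) β`, `lev u ≥ j + 1`.
(2) `ν(D_x) ≥ 1/2 - ∑_u ν(Bad_u(x))`, `ν` the law of `(R_u)_u` (`sym_half`), and by `law_pair` (second coordinate `R_u / √(1-s²)` has law `γ`) and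
 `gauss_interval_le`: `ν(y u ∈ Bad_u(x)) ≤ (a + β + max 0 (-q_u)) / (√(2π) √(1 - s²)) ≤ 0.75733 (a + β + 0.85 a + 0.2001 max 0 (-h))`
 (`-q_u = s a - (1-s) h ≤ 0.85 a + 0.2001 max 0 (-h)`, `√(2π) √(1 - 0.85²) ≥ 1/0.75733`).
 So `ν(D_x) ≥ p - q a` with `p = 1/2 - 3.78665 (0.001 + 0.2001 max 0 (-h))`, `q = 3.78665 * 1.85`.
(3) `ω v` and `(R_u)_u` are independent (`indep_res`), so the law of the pair is a product (`indepFun_iff_map_prod_eq_prod_map_map`) and
 `μ {v ∈ Zset, h < ω v} ≥ ∫⁻_{(h, h+α)} ν(D_x) dγ ≥ ∫⁻_{(h, h+α)} ofReal (p - q (x - h)) dγ` and `gamma_lower`. (Compare `Pool.Agent.H49.FR.Star`.)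
 Measurability of `{(x, y) | x ∈ (h, h+α), y ∈ D_x}`: finite Boolean combination of closed conditions in `(x, y)`.
-/

set_option autoImplicit false

open Finset MeasureTheory ProbabilityTheory

namespace H49.MX

open Pool.Agent.H49.FR (Cv law_pair law_eval indep_res sym_half gauss_interval_le)

variable {V : Type} [Fintype V] [DecidableEq V] (G : SimpleGraph V) [DecidableRel G.Adj]

theorem star_det {v : V} {W : Finset V} (hv : v ∈ W) (hN : G.neighborFinset v ⊆ W) {h : ℝ} (s : V → ℝ) (ω : V → ℝ)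
    (ha0 : h < ω v) (ha1 : ω v < h + 7 / 100)
    (h3 : 3 ≤ ((G.neighborFinset v).filter fun u => ω u - s u * ω v < 0).card)
    (hb : ∀ u ∈ G.neighborFinset v, ω u - s u * ω v ∉
      Set.Icc (((1 - s u) * h - s u * (ω v - h)) - (ω v - h + 1 / 1000)) (max 0 ((1 - s u) * h - s u * (ω v - h)))) :
    v ∈ Zset G 3 (1 / 1000) 70 W fun u => ω u - h := by
  have key : ∀ u ∈ G.neighborFinset v, ω u - s u * ω v ≤ max 0 ((1 - s u) * h - s u * (ω v - h)) →
      ω u < h - (ω v - h) - 1 / 1000 := by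
    intro u hu h1
    by_contra h2
    refine hb u hu ⟨?_, h1⟩
    push Not at h2
    nlinarith
  have hopp : ∀ u, u ∈ opp G W (fun u => ω u - h) v ↔ u ∈ G.neighborFinset v ∧ ω u ≤ h := by
    intro u
    unfold opp
    rw [Finset.mem_filter, Finset.mem_inter]
    have h1 : 0 < ω v - h := by linarith
    constructor
    · rintro ⟨⟨h2, _⟩, h4⟩
      refine ⟨h2, ?_⟩
      by_contra h5
      push Not at h5
      exact h4 ⟨fun _ => h1, fun _ => by linarith⟩
    · rintro ⟨h2, h4⟩
      refine ⟨⟨h2, hN h2⟩, fun h5 => ?_⟩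
      have h6 := h5.2 h1
      linarith
  have hlv : lev (1 / 1000) 70 (ω v - h) = ⌊|ω v - h| / (1 / 1000)⌋₊ := by
    unfold lev
    refine min_eq_left ?_
    refine Nat.le_of_lt (Nat.floor_lt (by positivity) |>.2 ?_)
    rw [abs_of_pos (by linarith)]
    push_cast
    rw [div_lt_iff₀ (by norm_num)]
    linarith
  have hlt : ⌊|ω v - h| / (1 / 1000)⌋₊ < 70 := by
    refine (Nat.floor_lt (by positivity)).2 ?_
    rw [abs_of_pos (by linarith)]
    push_cast
    rw [div_lt_iff₀ (by norm_num)]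
    linarith
  unfold Zset
  rw [Finset.mem_filter]
  refine ⟨hv, ?_, ?_, ?_⟩
  · rw [hlv]
    exact hlt
  · refine h3.trans (Finset.card_le_card ?_)
    intro u hu
    rw [Finset.mem_filter] at hu
    rw [hopp]
    refine ⟨hu.1, ?_⟩
    have h4 := key u hu.1 (hu.2.le.trans (le_max_left _ _))
    linarith
  · intro u hu
    rw [hopp] at hu
    have h4 := key u hu.1 (by
      refine le_trans ?_ (le_max_right _ _)
      linarith [hu.2])
    rw [hlv]
    unfold lev
    refine lt_min ?_ hlt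
    refine Nat.lt_of_succ_le (Nat.le_floor ?_)
    have h5 := Nat.floor_le (show 0 ≤ |ω v - h| / (1 / 1000) by positivity)
    push_cast
    refine (add_le_add h5 le_rfl).trans ?_
    rw [abs_of_pos (by linarith), abs_of_neg (by linarith)]
    rw [div_add_one (by norm_num), div_le_div_iff_of_pos_right (by norm_num)]
    linarith

omit [Fintype V] [DecidableEq V] in
private theorem GStar_card (N : Finset V) (p : V → Prop) [DecidablePred p] :
    (N.attach.filter fun u : N => p u).card = (N.filter p).card := by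
  rw [Finset.filter_attach, Finset.card_map, Finset.card_attach]

omit [Fintype V] [DecidableEq V] in
private theorem GStar_meas (N : Finset V) :
    MeasurableSet {y : N → ℝ | 3 ≤ (N.attach.filter fun u => y u < 0).card} := by
  have h : Measurable fun y : N → ℝ => (N.attach.filter fun u => y u < 0).card := by
    simp only [Finset.card_filter]
    refine Finset.measurable_sum _ fun u _ => ?_
    exact Measurable.ite (measurableSet_lt (measurable_pi_apply u) measurable_const)
      measurable_const measurable_const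
  exact measurableSet_le measurable_const h

private theorem GStar_num {s : ℝ} (h0 : 7999 / 10000 ≤ s) (h1 : s ≤ 85 / 100) :
    1 ≤ 75733 / 100000 * (Real.sqrt (2 * Real.pi) * Real.sqrt (1 - s ^ 2)) := by
  have h2 : Real.sqrt (2 * Real.pi) * Real.sqrt (1 - s ^ 2) = Real.sqrt (2 * Real.pi * (1 - s ^ 2)) :=
    (Real.sqrt_mul (by positivity) _).symm
  have h3 : (100000 / 75733 : ℝ) ≤ Real.sqrt (2 * Real.pi * (1 - s ^ 2)) := by
    apply Real.le_sqrt_of_sq_le
    have h4 := Real.pi_gt_d6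
    have h5 : (111 / 400 : ℝ) ≤ 1 - s ^ 2 := by nlinarith
    have h6 : 2 * (3.141592 : ℝ) * (111 / 400) ≤ 2 * Real.pi * (1 - s ^ 2) := by
      nlinarith
    refine le_trans ?_ h6
    norm_num
  rw [h2]
  linarith

private theorem GStar_bad {S : Matrix V V ℝ} (hS : S.PosSemidef) (hd : ∀ v, S v v = 1) (u v : V)
    (h0 : 7999 / 10000 ≤ S u v) (h1 : S u v ≤ 85 / 100) (h a : ℝ) (ha : 0 ≤ a) :
    (multivariateGaussian 0 S).real {ω : EuclideanSpace ℝ V | ω u - S u v * ω v ∈
          Set.Icc (((1 - S u v) * h - S u v * a) - (a + 1 / 1000)) (max 0 ((1 - S u v) * h - S u v * a))} ≤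
      75733 / 100000 * (185 / 100 * a + 1 / 1000 + 2001 / 10000 * max 0 (-h)) := by
  set ρ := S u v with hρ
  set σ := Real.sqrt (1 - ρ ^ 2) with hσ
  have hσ0 : 0 < σ := Real.sqrt_pos.2 (by nlinarith)
  have hp0 : 0 < Real.sqrt (2 * Real.pi) := Real.sqrt_pos.2 (by positivity)
  set q := (1 - ρ) * h - ρ * a with hq
  have habs : |S u v| < 1 := by rw [abs_of_nonneg (by linarith)]; linarith
  have hpair := law_pair hS (hd u) (hd v) habs
  have hm : Measurable fun ω : EuclideanSpace ℝ V =>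
      (ω v, (ω u - S u v * ω v) / Real.sqrt (1 - S u v ^ 2)) := by
    have : Continuous fun ω : EuclideanSpace ℝ V =>
      (ω v, (ω u - S u v * ω v) / Real.sqrt (1 - S u v ^ 2)) := by fun_prop
    exact this.measurable
  have hset : {ω : EuclideanSpace ℝ V | ω u - ρ * ω v ∈ Set.Icc (q - (a + 1 / 1000)) (max 0 q)} =
      (fun ω : EuclideanSpace ℝ V => (ω v, (ω u - S u v * ω v) / Real.sqrt (1 - S u v ^ 2))) ⁻¹'
        (Prod.snd ⁻¹' Set.Icc ((q - (a + 1 / 1000)) / σ) (max 0 q / σ)) := by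
    ext ω
    simp only [Set.mem_ofPred_eq, Set.mem_preimage, Set.mem_Icc]
    rw [← hρ, ← hσ, div_le_div_iff_of_pos_right hσ0, div_le_div_iff_of_pos_right hσ0]
  have hmeas : (multivariateGaussian 0 S).real {ω : EuclideanSpace ℝ V | ω u - ρ * ω v ∈
      Set.Icc (q - (a + 1 / 1000)) (max 0 q)} =
      (gaussianReal 0 1).real (Set.Icc ((q - (a + 1 / 1000)) / σ) (max 0 q / σ)) := by
    rw [hset, measureReal_def, measureReal_def, ← Measure.map_apply hm (measurable_snd measurableSet_Icc),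
      hpair, ← Measure.map_apply measurable_snd measurableSet_Icc, Measure.map_snd_prod, measure_univ,
      one_smul]
  have hle : q - (a + 1 / 1000) ≤ max 0 q := by
    have := le_max_right 0 q
    linarith
  have h3 := gauss_interval_le (a := (q - (a + 1 / 1000)) / σ) (b := max 0 q / σ)
    (div_le_div_of_nonneg_right hle hσ0.le)
  rw [hmeas]
  refine h3.trans ?_
  have h4 := GStar_num h0 h1
  rw [← hσ] at h4
  have h5 : max 0 q - (q - (a + 1 / 1000)) ≤ 185 / 100 * a + 1 / 1000 + 2001 / 10000 * max 0 (-h) := by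
    have h6 : max 0 q = q + max 0 (-q) := by
      rcases le_total 0 q with h7 | h7
      · rw [max_eq_right h7, max_eq_left (by linarith), add_zero]
      · rw [max_eq_left h7, max_eq_right (by linarith)]
        ring
    have h7 : max 0 (-q) ≤ 85 / 100 * a + 2001 / 10000 * max 0 (-h) := by
      have h8 : 0 ≤ max 0 (-h) := le_max_left _ _
      have h9 : -h ≤ max 0 (-h) := le_max_right _ _
      refine max_le (by positivity) ?_
      rw [hq]
      have h10 : (1 - ρ) * (-h) ≤ (1 - ρ) * max 0 (-h) := mul_le_mul_of_nonneg_left h9 (by linarith)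
      have h11 : (1 - ρ) * max 0 (-h) ≤ 2001 / 10000 * max 0 (-h) :=
        mul_le_mul_of_nonneg_right (by linarith) h8
      have h12 : ρ * a ≤ 85 / 100 * a := mul_le_mul_of_nonneg_right h1 ha
      linarith
    rw [h6]
    linarith
  have h6 : 0 ≤ max 0 q - (q - (a + 1 / 1000)) := by linarith
  have h7 : (max 0 q / σ - (q - (a + 1 / 1000)) / σ) / Real.sqrt (2 * Real.pi) =
      (max 0 q - (q - (a + 1 / 1000))) / (Real.sqrt (2 * Real.pi) * σ) := by
    field_simp
  have h8 : 0 < Real.sqrt (2 * Real.pi) * σ := by positivity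
  rw [h7, div_le_iff₀ h8]
  have h9 : 0 ≤ 185 / 100 * a + 1 / 1000 + 2001 / 10000 * max 0 (-h) := h6.trans h5
  calc max 0 q - (q - (a + 1 / 1000)) ≤ (185 / 100 * a + 1 / 1000 + 2001 / 10000 * max 0 (-h)) * 1 := by
        rw [mul_one]
        exact h5
    _ ≤ (185 / 100 * a + 1 / 1000 + 2001 / 10000 * max 0 (-h)) *
        (75733 / 100000 * (Real.sqrt (2 * Real.pi) * σ)) := mul_le_mul_of_nonneg_left h4 h9
    _ = _ := by ring

theorem star_cond {S : Matrix V V ℝ} (hS : S.PosSemidef) (hd : ∀ v, S v v = 1) {v : V}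
    (h5 : (G.neighborFinset v).card = 5) (h0 : ∀ u ∈ G.neighborFinset v, 7999 / 10000 ≤ S u v)
    (h1 : ∀ u ∈ G.neighborFinset v, S u v ≤ 85 / 100) (h a : ℝ) (ha : 0 ≤ a) :
    1 / 2 - 378665 / 100000 * (1 / 1000 + 2001 / 10000 * max 0 (-h)) - 378665 / 100000 * (185 / 100) * a ≤
      (multivariateGaussian 0 S).real {ω : EuclideanSpace ℝ V |
        3 ≤ ((G.neighborFinset v).filter fun u => ω u - S u v * ω v < 0).card ∧
        ∀ u ∈ G.neighborFinset v, ω u - S u v * ω v ∉
          Set.Icc (((1 - S u v) * h - S u v * a) - (a + 1 / 1000)) (max 0 ((1 - S u v) * h - S u v * a))} := by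
  set N := G.neighborFinset v with hNdef
  set E : Set (EuclideanSpace ℝ V) := {ω | 3 ≤ (N.filter fun u => ω u - S u v * ω v < 0).card ∧
        ∀ u ∈ N, ω u - S u v * ω v ∉
          Set.Icc (((1 - S u v) * h - S u v * a) - (a + 1 / 1000)) (max 0 ((1 - S u v) * h - S u v * a))} with hE
  set B : V → Set (EuclideanSpace ℝ V) := fun u => {ω | ω u - S u v * ω v ∈
          Set.Icc (((1 - S u v) * h - S u v * a) - (a + 1 / 1000)) (max 0 ((1 - S u v) * h - S u v * a))} with hB
  have hsub : {ω : EuclideanSpace ℝ V | 3 ≤ (N.filter fun u => ω u - S u v * ω v < 0).card} ⊆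
      E ∪ ⋃ u ∈ N, B u := by
    intro ω hω
    by_cases hb : ω ∈ ⋃ u ∈ N, B u
    · exact Or.inr hb
    · left
      exact ⟨hω, fun u hu h2 => hb (Set.mem_biUnion hu h2)⟩
  have h2 : (multivariateGaussian 0 S).real
      {ω : EuclideanSpace ℝ V | 3 ≤ (N.filter fun u => ω u - S u v * ω v < 0).card} ≤
      (multivariateGaussian 0 S).real E + ∑ u ∈ N, (multivariateGaussian 0 S).real (B u) :=
    (measureReal_mono hsub (by finiteness)).trans ((measureReal_union_le _ _).trans
      (add_le_add le_rfl (measureReal_biUnion_finset_le _ _)))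
  have h3 := sym_half hS hd v N h5 (fun u hu => by
    rw [abs_of_nonneg (by linarith [h0 u hu])]; linarith [h1 u hu])
  have h4 : ∑ u ∈ N, (multivariateGaussian 0 S).real (B u) ≤
      ∑ _u ∈ N, 75733 / 100000 * (185 / 100 * a + 1 / 1000 + 2001 / 10000 * max 0 (-h)) :=
    Finset.sum_le_sum fun u hu => GStar_bad hS hd u v (h0 u hu) (h1 u hu) h a ha
  rw [Finset.sum_const, h5, nsmul_eq_mul] at h4
  push_cast at h4
  linarith

theorem star_side {S : Matrix V V ℝ} (hS : S.PosSemidef) (hd : ∀ v, S v v = 1) {v : V} {W : Finset V} (hv : v ∈ W)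
    (hN : G.neighborFinset v ⊆ W) (h5 : (G.neighborFinset v).card = 5)
    (h0 : ∀ u ∈ G.neighborFinset v, 7999 / 10000 ≤ S u v) (h1 : ∀ u ∈ G.neighborFinset v, S u v ≤ 85 / 100)
    {h : ℝ} (hh : |h| ≤ 1 / 4) :
    39894 / 100000 * (1 - (|h| + 7 / 100) ^ 2 / 2) *
        ((1 / 2 - 378665 / 100000 * (1 / 1000 + 2001 / 10000 * max 0 (-h))) * (7 / 100) -
          378665 / 100000 * (185 / 100) * (7 / 100) ^ 2 / 2) ≤
      (multivariateGaussian 0 S).real
        {ω : EuclideanSpace ℝ V | (v ∈ Zset G 3 (1 / 1000) 70 W fun u => ω u - h) ∧ h < ω v} := by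
  classical
  set N := G.neighborFinset v with hNdef
  set E : Set (EuclideanSpace ℝ V) := {ω | (v ∈ Zset G 3 (1 / 1000) 70 W fun u => ω u - h) ∧ h < ω v} with hE
  set R : EuclideanSpace ℝ V → (N → ℝ) := fun ω u => ω u - S u v * ω v with hR
  set D : Set (ℝ × (N → ℝ)) := {p | p.1 ∈ Set.Ioo h (h + 7 / 100) ∧
      3 ≤ (N.attach.filter fun u => p.2 u < 0).card ∧ ∀ u : N, p.2 u ∉
        Set.Icc (((1 - S u v) * h - S u v * (p.1 - h)) - (p.1 - h + 1 / 1000))
          (max 0 ((1 - S u v) * h - S u v * (p.1 - h)))} with hD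
  have hDm : MeasurableSet D := by
    have e : D = (Prod.fst ⁻¹' Set.Ioo h (h + 7 / 100)) ∩
      ((Prod.snd ⁻¹' {y : N → ℝ | 3 ≤ (N.attach.filter fun u => y u < 0).card}) ∩
        ⋂ u : N, ({p : ℝ × (N → ℝ) | ((1 - S u v) * h - S u v * (p.1 - h)) - (p.1 - h + 1 / 1000) ≤ p.2 u} ∩
          {p : ℝ × (N → ℝ) | p.2 u ≤ max 0 ((1 - S u v) * h - S u v * (p.1 - h))})ᶜ) := by
      ext p
      simp only [hD, Set.mem_ofPred_eq, Set.mem_inter_iff, Set.mem_preimage, Set.mem_iInter, Set.mem_compl_iff,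
        Set.mem_Icc]
    rw [e]
    refine (measurable_fst measurableSet_Ioo).inter ((measurable_snd (GStar_meas N)).inter
      (MeasurableSet.iInter fun u => (MeasurableSet.inter ?_ ?_).compl))
    · exact measurableSet_le (by fun_prop) (by fun_prop)
    · exact measurableSet_le (by fun_prop) (by fun_prop)
  have hRm : Measurable R := by
    rw [hR]
    fun_prop
  have hvm : Measurable fun ω : EuclideanSpace ℝ V => ω v := by fun_prop
  have hi := indep_res hS (hd v) N
  have hmap : (multivariateGaussian 0 S).map (fun ω : EuclideanSpace ℝ V => (ω v, R ω)) =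
      (gaussianReal 0 1).prod ((multivariateGaussian 0 S).map R) := by
    have h2 := (indepFun_iff_map_prod_eq_prod_map_map hvm.aemeasurable hRm.aemeasurable).1 hi
    rw [law_eval hS (hd v)] at h2
    exact h2
  have hsub : (fun ω : EuclideanSpace ℝ V => (ω v, R ω)) ⁻¹' D ⊆ E := by
    intro ω hω
    obtain ⟨h2, h3, h4⟩ := hω
    refine ⟨star_det G hv hN (fun u => S u v) (fun u => ω u) h2.1 h2.2 ?_ ?_, h2.1⟩
    · have h6 := GStar_card N (fun u => ω u - S u v * ω v < 0)
      exact h3.trans (le_of_eq h6)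
    · intro u hu
      exact h4 ⟨u, hu⟩
  have hcond : ∀ x ∈ Set.Ioo h (h + 7 / 100),
      ENNReal.ofReal ((1 / 2 - 378665 / 100000 * (1 / 1000 + 2001 / 10000 * max 0 (-h))) -
        378665 / 100000 * (185 / 100) * (x - h)) ≤
      ((multivariateGaussian 0 S).map R) (Prod.mk x ⁻¹' D) := by
    intro x hx
    rw [Measure.map_apply hRm (measurable_prodMk_left hDm)]
    have h2 : R ⁻¹' (Prod.mk x ⁻¹' D) = {ω : EuclideanSpace ℝ V |
        3 ≤ (N.filter fun u => ω u - S u v * ω v < 0).card ∧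
        ∀ u ∈ N, ω u - S u v * ω v ∉
          Set.Icc (((1 - S u v) * h - S u v * (x - h)) - ((x - h) + 1 / 1000))
            (max 0 ((1 - S u v) * h - S u v * (x - h)))} := by
      ext ω
      simp only [hD, Set.mem_ofPred_eq, Set.mem_preimage]
      have h6 := GStar_card N (fun u => ω u - S u v * ω v < 0)
      constructor
      · rintro ⟨_, h7, h8⟩
        exact ⟨h7.trans (le_of_eq h6), fun u hu => h8 ⟨u, hu⟩⟩
      · rintro ⟨h7, h8⟩
        exact ⟨hx, h7.trans (le_of_eq h6.symm), fun u => h8 u u.2⟩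
    rw [h2, ← ofReal_measureReal]
    refine ENNReal.ofReal_le_ofReal ?_
    exact star_cond G hS hd h5 h0 h1 h (x - h) (by linarith [hx.1])
  have hlow := gamma_lower (h := h) (α := 7 / 100) (M := |h| + 7 / 100)
    (p := 1 / 2 - 378665 / 100000 * (1 / 1000 + 2001 / 10000 * max 0 (-h)))
    (q := 378665 / 100000 * (185 / 100)) (by norm_num) le_rfl (by nlinarith [abs_nonneg h])
  have hfin : ENNReal.ofReal (39894 / 100000 * (1 - (|h| + 7 / 100) ^ 2 / 2) *
        ((1 / 2 - 378665 / 100000 * (1 / 1000 + 2001 / 10000 * max 0 (-h))) * (7 / 100) -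
          378665 / 100000 * (185 / 100) * (7 / 100) ^ 2 / 2)) ≤ (multivariateGaussian 0 S) E := by
    refine hlow.trans ?_
    refine le_trans ?_ (measure_mono hsub)
    rw [← Measure.map_apply (hvm.prodMk hRm) hDm, hmap, Measure.prod_apply hDm,
      ← lintegral_indicator measurableSet_Ioo]
    refine lintegral_mono fun x => ?_
    by_cases hx : x ∈ Set.Ioo h (h + 7 / 100)
    · rw [Set.indicator_of_mem hx]
      exact hcond x hx
    · rw [Set.indicator_of_notMem hx]
      exact zero_le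
  exact (ENNReal.ofReal_le_iff_le_toReal (by finiteness)).1 hfin

end H49.MX
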