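import Pool.Agent.H49.MX.Defs
import Pool.Agent.H49.FR.Pot

/-!
# Module Gain: adding initial segments of avalanches of nearby states (Lemma 2)

`X₀ = A ∪ ⋃_j B j`, `|X₀ \ A| ≤ |J| R`. (i) `cut X₀ ≤ cut A + d |X₀ \ A|` and `cut (A ∪ U) ≤ cut (X₀ ∪ U) + d |X₀ \ A|` (one vertex changes the cut by at most `d`: `cut_insert`, `cut_erase` of `FR/Pot`, or a direct
count). (ii) `cut (X₀ ∪ U) + g |U \ X₀| ≤ cut X₀`: add the elements `s j 0, s j 1, .., s j (c j - 1)` for all `j ∈ J` (induction on `J`, inside on `c j`) to a set `X ⊇ X₀`; the current set contains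
`B j ∪ s j[0..i)`, so `nin (s j i) X ≥ t`; if `s j i` is new the cut falls by `2 nin - d ≥ 2 t - d = g` (`cut_insert`). (iii) `|U ∩ X₀| ≤ 2 |J| R`: an element of `U ∩ A` is `s j i ∉ B j`, so lies in `A \ B j`.
Together: `cut (A ∪ U) + g |U| ≤ cut A + 2 d |J| R + 2 g |J| R`.
-/

set_option autoImplicit false
set_option linter.unusedSectionVars false

namespace H49.MX

open Finset
open Pool.Agent.H49.FR (nin cut Part)
open scoped Classical symmDiff

variable {V : Type} [Fintype V] [DecidableEq V] (G : SimpleGraph V) [DecidableRel G.Adj]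

private lemma Gain_nin_mono (v : V) {X Y : Finset V} (h : X ⊆ Y) : nin G v X ≤ nin G v Y := by
  unfold Pool.Agent.H49.FR.nin
  exact Finset.card_le_card (Finset.inter_subset_inter_left h)

/-- adding one vertex with at least `t` neighbours -/
private lemma Gain_one {d t g : ℕ} (hreg : G.IsRegularOfDegree d) (hg : 2 * t = d + g) (X : Finset V)
    (v : V) (h : t ≤ nin G v X) :
    cut G (insert v X) + g * (insert v X).card ≤ cut G X + g * X.card := by
  by_cases hv : v ∈ X
  · rw [Finset.insert_eq_of_mem hv]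
  · have h1 := Pool.Agent.H49.FR.cut_insert G X hv
    have h2 := Pool.Agent.H49.FR.nin_add G v X
    rw [hreg v] at h2
    rw [Finset.card_insert_of_notMem hv, Nat.mul_add]
    omega

/-- adding an initial segment -/
private lemma Gain_chain {d t g : ℕ} (hreg : G.IsRegularOfDegree d) (hg : 2 * t = d + g)
    (X B : Finset V) (s : ℕ → V) (q : ℕ) (hs : AddSeq G t B s q) (hB : B ⊆ X) (c : ℕ) (hc : c ≤ q) :
    cut G (X ∪ (range c).image s) + g * (X ∪ (range c).image s).card ≤ cut G X + g * X.card := by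
  induction c with
  | zero => simp
  | succ c ih =>
    have h1 := ih (by omega)
    have e : X ∪ (range (c + 1)).image s = insert (s c) (X ∪ (range c).image s) := by
      rw [Finset.range_add_one, Finset.image_insert, Finset.union_insert]
    rw [e]
    refine (Gain_one G hreg hg _ (s c) ?_).trans h1
    refine ((hs.2 c (by omega)).2).trans (Gain_nin_mono G (s c) ?_)
    exact Finset.union_subset_union hB (Finset.Subset.refl _)

/-- adding all initial segments -/
private lemma Gain_all {d t g : ℕ} (hreg : G.IsRegularOfDegree d) (hg : 2 * t = d + g) {ι : Type}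
    (J : Finset ι) (B : ι → Finset V) (s : ι → ℕ → V) (c : ι → ℕ) (q : ℕ)
    (hs : ∀ j ∈ J, AddSeq G t (B j) (s j) q) (hc : ∀ j ∈ J, c j ≤ q)
    (X : Finset V) (hX : ∀ j ∈ J, B j ⊆ X) :
    cut G (X ∪ J.biUnion fun j => (range (c j)).image (s j)) +
      g * (X ∪ J.biUnion fun j => (range (c j)).image (s j)).card ≤ cut G X + g * X.card := by
  induction J using Finset.induction_on with
  | empty => simp
  | insert j J hj ih =>
    have h1 := ih (fun i hi => hs i (Finset.mem_insert_of_mem hi))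
      (fun i hi => hc i (Finset.mem_insert_of_mem hi)) (fun i hi => hX i (Finset.mem_insert_of_mem hi))
    have e : X ∪ (insert j J).biUnion (fun j => (range (c j)).image (s j)) =
        (X ∪ J.biUnion fun j => (range (c j)).image (s j)) ∪ (range (c j)).image (s j) := by
      rw [Finset.biUnion_insert, Finset.union_assoc, Finset.union_comm (J.biUnion _)]
    rw [e]
    refine (Gain_chain G hreg hg _ (B j) (s j) q (hs j (Finset.mem_insert_self j J)) ?_ (c j)
      (hc j (Finset.mem_insert_self j J))).trans h1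
    exact (hX j (Finset.mem_insert_self j J)).trans Finset.subset_union_left

/-- the cut changes by at most `d` for each vertex -/
private lemma Gain_lip {d : ℕ} (hreg : G.IsRegularOfDegree d) (X D : Finset V) :
    cut G (X ∪ D) + d * X.card ≤ cut G X + d * (X ∪ D).card ∧
      cut G X + d * X.card ≤ cut G (X ∪ D) + d * (X ∪ D).card := by
  induction D using Finset.induction_on with
  | empty => simp
  | insert v D hv ih =>
    rw [Finset.union_insert]
    by_cases hv : v ∈ X ∪ D
    · rw [Finset.insert_eq_of_mem hv]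
      exact ih
    · have h1 := Pool.Agent.H49.FR.cut_insert G (X ∪ D) hv
      have h2 := Pool.Agent.H49.FR.nin_add G v (X ∪ D)
      rw [hreg v] at h2
      rw [Finset.card_insert_of_notMem hv, Nat.mul_add]
      omega

/-- adding initial segments to a set which contains all base sets -/
theorem gain_aux {d t g : ℕ} (hreg : G.IsRegularOfDegree d) (hg : 2 * t = d + g) {ι : Type} (J : Finset ι)
    (B : ι → Finset V) (s : ι → ℕ → V) (c : ι → ℕ) (q : ℕ) (hs : ∀ j ∈ J, AddSeq G t (B j) (s j) q) (hc : ∀ j ∈ J, c j ≤ q)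
    (X : Finset V) (hX : ∀ j ∈ J, B j ⊆ X) :
    cut G (X ∪ J.biUnion fun j => (range (c j)).image (s j)) + g * ((J.biUnion fun j => (range (c j)).image (s j)) \ X).card ≤
      cut G X := by
  have h1 := Gain_all G hreg hg J B s c q hs hc X hX
  have h2 := Finset.card_sdiff_add_card (J.biUnion fun j => (range (c j)).image (s j)) X
  rw [Finset.union_comm _ X] at h2
  rw [← h2, Nat.mul_add] at h1
  omega

theorem gain {d t g : ℕ} (hreg : G.IsRegularOfDegree d) (hg : 2 * t = d + g) (A : Finset V) {ι : Type} (J : Finset ι)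
    (B : ι → Finset V) (s : ι → ℕ → V) (c : ι → ℕ) (q : ℕ) (R : ℝ) (hB : ∀ j ∈ J, ((A ∆ B j).card : ℝ) ≤ R)
    (hs : ∀ j ∈ J, AddSeq G t (B j) (s j) q) (hc : ∀ j ∈ J, c j ≤ q) :
    (cut G (A ∪ J.biUnion fun j => (range (c j)).image (s j)) : ℝ) +
        g * ((J.biUnion fun j => (range (c j)).image (s j)).card : ℝ) ≤
      cut G A + (2 * d + 2 * g) * J.card * R := by
  set U := J.biUnion fun j => (range (c j)).image (s j) with hU
  set X₀ := A ∪ J.biUnion B with hX₀
  -- sizes
  have hsum : ∀ f : ι → Finset V, (∀ j ∈ J, ((f j).card : ℝ) ≤ R) →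
      ((J.biUnion f).card : ℝ) ≤ J.card * R := by
    intro f hf
    have h1 : ((J.biUnion f).card : ℝ) ≤ ∑ j ∈ J, ((f j).card : ℝ) := by
      exact_mod_cast Finset.card_biUnion_le
    refine h1.trans ((Finset.sum_le_sum hf).trans ?_)
    rw [Finset.sum_const, nsmul_eq_mul]
  have hBA : ∀ j ∈ J, ((B j \ A).card : ℝ) ≤ R := by
    intro j hj
    refine le_trans ?_ (hB j hj)
    have : B j \ A ⊆ A ∆ B j := fun v hv => by
      rw [Finset.mem_sdiff] at hv
      rw [Finset.mem_symmDiff]
      exact Or.inr hv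
    exact_mod_cast Finset.card_le_card this
  have hAB : ∀ j ∈ J, ((A \ B j).card : ℝ) ≤ R := by
    intro j hj
    refine le_trans ?_ (hB j hj)
    have : A \ B j ⊆ A ∆ B j := fun v hv => by
      rw [Finset.mem_sdiff] at hv
      rw [Finset.mem_symmDiff]
      exact Or.inl hv
    exact_mod_cast Finset.card_le_card this
  have hXA : ((X₀ \ A).card : ℝ) ≤ J.card * R := by
    refine le_trans ?_ (hsum (fun j => B j \ A) hBA)
    have : X₀ \ A ⊆ J.biUnion fun j => B j \ A := by
      intro v hv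
      rw [Finset.mem_sdiff, hX₀, Finset.mem_union, Finset.mem_biUnion] at hv
      obtain ⟨h1 | ⟨j, hj, h1⟩, h2⟩ := hv
      · exact absurd h1 h2
      · exact Finset.mem_biUnion.2 ⟨j, hj, Finset.mem_sdiff.2 ⟨h1, h2⟩⟩
    exact_mod_cast Finset.card_le_card this
  have hUA : ((U ∩ A).card : ℝ) ≤ J.card * R := by
    refine le_trans ?_ (hsum (fun j => A \ B j) hAB)
    have : U ∩ A ⊆ J.biUnion fun j => A \ B j := by
      intro v hv
      rw [Finset.mem_inter, hU, Finset.mem_biUnion] at hv
      obtain ⟨⟨j, hj, h1⟩, h2⟩ := hv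
      obtain ⟨i, hi, rfl⟩ := Finset.mem_image.1 h1
      have h3 := (hs j hj).2 i (lt_of_lt_of_le (Finset.mem_range.1 hi) (hc j hj))
      exact Finset.mem_biUnion.2 ⟨j, hj, Finset.mem_sdiff.2 ⟨h2, h3.1⟩⟩
    exact_mod_cast Finset.card_le_card this
  have hUX : (U.card : ℝ) ≤ (U \ X₀).card + 2 * (J.card * R) := by
    have h1 : U ⊆ (U \ X₀) ∪ ((U ∩ A) ∪ (X₀ \ A)) := by
      intro v hv
      by_cases h2 : v ∈ X₀
      · by_cases h3 : v ∈ A
        · exact Finset.mem_union_right _ (Finset.mem_union_left _ (Finset.mem_inter.2 ⟨hv, h3⟩))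
        · exact Finset.mem_union_right _ (Finset.mem_union_right _ (Finset.mem_sdiff.2 ⟨h2, h3⟩))
      · exact Finset.mem_union_left _ (Finset.mem_sdiff.2 ⟨hv, h2⟩)
    have h2 := (Finset.card_le_card h1).trans ((Finset.card_union_le _ _).trans
      (Nat.add_le_add_left (Finset.card_union_le _ _) _))
    have h3 : (U.card : ℝ) ≤ (U \ X₀).card + ((U ∩ A).card + (X₀ \ A).card) := by exact_mod_cast h2
    linarith
  -- the cut
  have hgain := gain_aux G hreg hg J B s c q hs hc X₀ (fun j hj v hv =>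
    Finset.mem_union_right _ (Finset.mem_biUnion.2 ⟨j, hj, hv⟩))
  rw [← hU] at hgain
  have hgain' : (cut G (X₀ ∪ U) : ℝ) + g * ((U \ X₀).card : ℝ) ≤ cut G X₀ := by exact_mod_cast hgain
  have hl1 : (cut G X₀ : ℝ) ≤ cut G A + d * ((X₀ \ A).card : ℝ) := by
    have h1 := (Gain_lip G hreg A X₀).1
    have h2 : A ∪ X₀ = X₀ := Finset.union_eq_right.2 Finset.subset_union_left
    have h3 := Finset.card_sdiff_add_card X₀ A
    rw [Finset.union_comm, h2] at h3
    rw [h2, ← h3, Nat.mul_add] at h1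
    have h4 : cut G X₀ ≤ cut G A + d * (X₀ \ A).card := by omega
    exact_mod_cast h4
  have hl2 : (cut G (A ∪ U) : ℝ) ≤ cut G (X₀ ∪ U) + d * ((X₀ \ A).card : ℝ) := by
    have h1 := (Gain_lip G hreg (A ∪ U) (X₀ ∪ U)).2
    have h2 : (A ∪ U) ∪ (X₀ ∪ U) = X₀ ∪ U :=
      Finset.union_eq_right.2 (Finset.union_subset_union Finset.subset_union_left (Finset.Subset.refl _))
    have h3 := Finset.card_sdiff_add_card (X₀ ∪ U) (A ∪ U)
    rw [Finset.union_comm (X₀ ∪ U) (A ∪ U), h2] at h3
    have h5 : (X₀ ∪ U) \ (A ∪ U) ⊆ X₀ \ A := by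
      intro v hv
      obtain ⟨h6, h7⟩ := Finset.mem_sdiff.1 hv
      rcases Finset.mem_union.1 h6 with h8 | h8
      · exact Finset.mem_sdiff.2 ⟨h8, fun h9 => h7 (Finset.mem_union_left _ h9)⟩
      · exact absurd (Finset.mem_union_right _ h8) h7
    have h6 := Nat.mul_le_mul_left d (Finset.card_le_card h5)
    rw [h2, ← h3, Nat.mul_add] at h1
    have h4 : cut G (A ∪ U) ≤ cut G (X₀ ∪ U) + d * (X₀ \ A).card := by omega
    exact_mod_cast h4
  have hd : (0 : ℝ) ≤ d := Nat.cast_nonneg d
  have hg0 : (0 : ℝ) ≤ g := Nat.cast_nonneg g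
  have k1 : (d : ℝ) * ((X₀ \ A).card : ℝ) ≤ d * (J.card * R) := mul_le_mul_of_nonneg_left hXA hd
  have k2 : (g : ℝ) * (U.card : ℝ) ≤ g * ((U \ X₀).card + 2 * (J.card * R)) :=
    mul_le_mul_of_nonneg_left hUX hg0
  linarith

end H49.MX
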