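import Pool.Agent.H49.MX.Defs

/-!
# Module Neck: the necklace map

`V` is numbered by `k v = Fintype.equivFin V v`, `n = card V`. For `p` with `∑ |p i| = 1` the segments `[n S_c, n S_(c+1))`, `S_c = ∑_(i < c) |p i|`, `c ≤ D`, cover `[0, n)`; `neck p` is the set of the `v` whose number lies in a segment
with `p c > 0`. `neck (-p) = (neck p)ᶜ` because the segment of `v` is not empty, so `p c ≠ 0`. Distance: let `v ∈ neck p`, `v ∉ neck p'`, segments `c` and `c'`. If `c ≠ c'` the number `k v` lies between `n S_i` and `n S'_i` for some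
`i ≤ D`, `|S_i - S'_i| ≤ z`: at most `n z + 1` numbers for each `i`. If `c = c'` then `p c > 0 > p' c`, so `p c ≤ z` and `k v` lies in a segment of length at most `n z`: at most `n z + 1` numbers for each `c`. In the same way for
`v ∈ neck p'`, `v ∉ neck p`. Total `≤ 4 (D + 1) (n z + 1)`.
-/

set_option autoImplicit false
set_option linter.unusedSectionVars false

namespace H49.MX

open Finset
open scoped Classical symmDiff

variable {V : Type} [Fintype V] [DecidableEq V]

/-- partial sums -/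
noncomputable def psum {D : ℕ} (p : Fin (D + 1) → ℝ) (c : ℕ) : ℝ := ∑ i ∈ univ.filter (fun i : Fin (D + 1) => (i : ℕ) < c), |p i|

/-- the necklace map -/
noncomputable def neck {D : ℕ} (p : Fin (D + 1) → ℝ) : Finset V :=
  univ.filter fun v => ∃ c : Fin (D + 1), 0 < p c ∧ (Fintype.card V : ℝ) * psum p c ≤ (Fintype.equivFin V v : ℕ) ∧
    ((Fintype.equivFin V v : ℕ) : ℝ) < (Fintype.card V : ℝ) * psum p (c + 1)

private lemma Neck_psum_zero {D : ℕ} (p : Fin (D + 1) → ℝ) : psum p 0 = 0 := by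
  unfold psum
  have h : (univ.filter fun i : Fin (D + 1) => (i : ℕ) < 0) = ∅ := by
    refine Finset.filter_eq_empty_iff.mpr fun i _ => ?_
    omega
  rw [h, Finset.sum_empty]

private lemma Neck_psum_succ {D : ℕ} (p : Fin (D + 1) → ℝ) (c : Fin (D + 1)) :
    psum p ((c : ℕ) + 1) = psum p c + |p c| := by
  unfold psum
  have h : (univ.filter fun i : Fin (D + 1) => (i : ℕ) < (c : ℕ) + 1) =
      insert c (univ.filter fun i : Fin (D + 1) => (i : ℕ) < (c : ℕ)) := by
    ext i
    simp only [Finset.mem_filter, Finset.mem_univ, true_and, Finset.mem_insert]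
    constructor
    · intro hi
      rcases Nat.lt_or_ge (i : ℕ) (c : ℕ) with h1 | h1
      · exact Or.inr h1
      · left
        apply Fin.ext
        omega
    · rintro (h1 | h1)
      · rw [h1]
        omega
      · omega
  have hn : c ∉ (univ.filter fun i : Fin (D + 1) => (i : ℕ) < (c : ℕ)) := by
    simp
  rw [h, Finset.sum_insert hn, add_comm]

private lemma Neck_psum_mono {D : ℕ} (p : Fin (D + 1) → ℝ) {a b : ℕ} (h : a ≤ b) :
    psum p a ≤ psum p b := by
  unfold psum
  refine Finset.sum_le_sum_of_subset_of_nonneg (fun i hi => ?_) fun i _ _ => abs_nonneg _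
  simp only [Finset.mem_filter, Finset.mem_univ, true_and] at hi ⊢
  omega

private lemma Neck_psum_nonneg {D : ℕ} (p : Fin (D + 1) → ℝ) (a : ℕ) : 0 ≤ psum p a := by
  unfold psum
  exact Finset.sum_nonneg fun i _ => abs_nonneg _

private lemma Neck_psum_top {D : ℕ} {p : Fin (D + 1) → ℝ} (hp : ∑ i, |p i| = 1) :
    psum p (D + 1) = 1 := by
  unfold psum
  have h : (univ.filter fun i : Fin (D + 1) => (i : ℕ) < D + 1) = univ := by
    refine Finset.filter_true_of_mem fun i _ => i.isLt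
  rw [h, hp]

private lemma Neck_psum_neg {D : ℕ} (p : Fin (D + 1) → ℝ) (a : ℕ) : psum (-p) a = psum p a := by
  unfold psum
  refine Finset.sum_congr rfl fun i _ => ?_
  rw [Pi.neg_apply, abs_neg]

/-- the segment of a number -/
private lemma Neck_ex {D : ℕ} {p : Fin (D + 1) → ℝ} (hp : ∑ i, |p i| = 1) {n : ℝ} {x : ℝ}
    (hx : 0 ≤ x) (hxn : x < n) :
    ∃ c : Fin (D + 1), n * psum p c ≤ x ∧ x < n * psum p ((c : ℕ) + 1) := by
  have hex : ∃ c : ℕ, x < n * psum p (c + 1) := ⟨D, by rw [Neck_psum_top hp, mul_one]; exact hxn⟩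
  have h1 := Nat.find_spec hex
  have h2 : Nat.find hex ≤ D := Nat.find_min' hex (by rw [Neck_psum_top hp, mul_one]; exact hxn)
  refine ⟨⟨Nat.find hex, by omega⟩, ?_, h1⟩
  show n * psum p (Nat.find hex) ≤ x
  rcases Nat.eq_zero_or_pos (Nat.find hex) with h3 | h3
  · rw [h3, Neck_psum_zero, mul_zero]
    exact hx
  · have h4 := Nat.find_min hex (m := Nat.find hex - 1) (by omega)
    rw [not_lt] at h4
    have h5 : Nat.find hex - 1 + 1 = Nat.find hex := by omega
    rw [h5] at h4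
    exact h4

/-- there is only one segment -/
private lemma Neck_uniq {D : ℕ} {p : Fin (D + 1) → ℝ} {n : ℝ} (hn : 0 ≤ n) {x : ℝ}
    {c c' : Fin (D + 1)} (h1 : n * psum p c ≤ x) (h2 : x < n * psum p ((c : ℕ) + 1))
    (h3 : n * psum p c' ≤ x) (h4 : x < n * psum p ((c' : ℕ) + 1)) : c = c' := by
  rcases lt_trichotomy (c : ℕ) (c' : ℕ) with h | h | h
  · exfalso
    have h5 := mul_le_mul_of_nonneg_left (Neck_psum_mono p (show (c : ℕ) + 1 ≤ c' by omega)) hn
    linarith
  · exact Fin.ext h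
  · exfalso
    have h5 := mul_le_mul_of_nonneg_left (Neck_psum_mono p (show (c' : ℕ) + 1 ≤ c by omega)) hn
    linarith

private lemma Neck_lt (v : V) : ((Fintype.equivFin V v : ℕ) : ℝ) < (Fintype.card V : ℝ) := by
  exact_mod_cast (Fintype.equivFin V v).isLt

private lemma Neck_mem {D : ℕ} {p : Fin (D + 1) → ℝ} {v : V} {c : Fin (D + 1)}
    (h1 : (Fintype.card V : ℝ) * psum p c ≤ (Fintype.equivFin V v : ℕ))
    (h2 : ((Fintype.equivFin V v : ℕ) : ℝ) < (Fintype.card V : ℝ) * psum p ((c : ℕ) + 1)) :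
    v ∈ neck p ↔ 0 < p c := by
  unfold neck
  simp only [Finset.mem_filter, Finset.mem_univ, true_and]
  constructor
  · rintro ⟨c', h3, h4, h5⟩
    rw [Neck_uniq (Nat.cast_nonneg _) h1 h2 h4 h5]
    exact h3
  · intro h
    exact ⟨c, h, h1, h2⟩

private lemma Neck_ne {D : ℕ} {p : Fin (D + 1) → ℝ} {n x : ℝ} {c : Fin (D + 1)}
    (h1 : n * psum p c ≤ x) (h2 : x < n * psum p ((c : ℕ) + 1)) : p c ≠ 0 := by
  intro h
  rw [Neck_psum_succ, h, abs_zero, add_zero] at h2
  linarith

/-- a real interval of length `L` contains the numbers of at most `L + 1` vertices -/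
private lemma Neck_count {a L : ℝ} (ha : 0 ≤ a) (hL : 0 ≤ L) :
    (((univ : Finset V).filter fun v => a ≤ ((Fintype.equivFin V v : ℕ) : ℝ) ∧
      ((Fintype.equivFin V v : ℕ) : ℝ) < a + L).card : ℝ) ≤ L + 1 := by
  set S := (univ : Finset V).filter fun v => a ≤ ((Fintype.equivFin V v : ℕ) : ℝ) ∧
      ((Fintype.equivFin V v : ℕ) : ℝ) < a + L with hS
  have h1 : S.card ≤ (Finset.Ico ⌈a⌉₊ ⌈a + L⌉₊).card := by
    refine Finset.card_le_card_of_injOn (fun v => (Fintype.equivFin V v : ℕ)) ?_ ?_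
    · intro v hv
      have hv' : v ∈ S := hv
      rw [hS, Finset.mem_filter] at hv'
      have h2 := hv'.2
      show (Fintype.equivFin V v : ℕ) ∈ (Finset.Ico ⌈a⌉₊ ⌈a + L⌉₊ : Set ℕ)
      rw [Finset.mem_coe, Finset.mem_Ico]
      exact ⟨Nat.ceil_le.mpr h2.1, Nat.lt_ceil.mpr h2.2⟩
    · intro v _ w _ h
      exact (Fintype.equivFin V).injective (Fin.ext h)
  rw [Nat.card_Ico] at h1
  have h3 : ⌈a⌉₊ ≤ ⌈a + L⌉₊ := Nat.ceil_mono (by linarith)
  have h4 : ((⌈a + L⌉₊ - ⌈a⌉₊ : ℕ) : ℝ) = (⌈a + L⌉₊ : ℝ) - (⌈a⌉₊ : ℝ) := Nat.cast_sub h3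
  have h5 : (S.card : ℝ) ≤ ((⌈a + L⌉₊ - ⌈a⌉₊ : ℕ) : ℝ) := by exact_mod_cast h1
  have h6 := Nat.ceil_lt_add_one (show 0 ≤ a + L by linarith)
  have h7 := Nat.le_ceil a
  linarith

private lemma Neck_diff {D : ℕ} (p p' : Fin (D + 1) → ℝ) (a : ℕ) :
    |psum p a - psum p' a| ≤ d1 p p' := by
  unfold psum d1
  rw [← Finset.sum_sub_distrib]
  refine (Finset.abs_sum_le_sum_abs _ _).trans ?_
  refine (Finset.sum_le_sum fun i _ => abs_abs_sub_abs_le_abs_sub (p i) (p' i)).trans ?_
  exact Finset.sum_le_sum_of_subset_of_nonneg (Finset.filter_subset _ _)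
    fun i _ _ => abs_nonneg _

/-- numbers between two cuts -/
private noncomputable def NeckA {D : ℕ} (V : Type) [Fintype V] (p p' : Fin (D + 1) → ℝ) (z : ℝ)
    (i : Fin (D + 1)) : Finset V :=
  (univ : Finset V).filter fun v =>
    (Fintype.card V : ℝ) * min (psum p i) (psum p' i) ≤ ((Fintype.equivFin V v : ℕ) : ℝ) ∧
      ((Fintype.equivFin V v : ℕ) : ℝ) <
        (Fintype.card V : ℝ) * min (psum p i) (psum p' i) + (Fintype.card V : ℝ) * z

/-- numbers after a cut -/
private noncomputable def NeckB {D : ℕ} (V : Type) [Fintype V] (p : Fin (D + 1) → ℝ) (z : ℝ)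
    (i : Fin (D + 1)) : Finset V :=
  (univ : Finset V).filter fun v =>
    (Fintype.card V : ℝ) * psum p i ≤ ((Fintype.equivFin V v : ℕ) : ℝ) ∧
      ((Fintype.equivFin V v : ℕ) : ℝ) <
        (Fintype.card V : ℝ) * psum p i + (Fintype.card V : ℝ) * z

private lemma NeckA_symm {D : ℕ} (p p' : Fin (D + 1) → ℝ) (z : ℝ) (i : Fin (D + 1)) :
    NeckA V p p' z i = NeckA V p' p z i := by
  unfold NeckA
  rw [min_comm]

private lemma Neck_half {D : ℕ} {p p' : Fin (D + 1) → ℝ} {z : ℝ} (hp : ∑ i, |p i| = 1)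
    (hp' : ∑ i, |p' i| = 1) (hz : d1 p p' ≤ z) {v : V} (h1 : v ∈ neck p) (h2 : v ∉ neck p') :
    ∃ i : Fin (D + 1), v ∈ NeckA V p p' z i ∨ v ∈ NeckB V p z i := by
  set x : ℝ := ((Fintype.equivFin V v : ℕ) : ℝ) with hx
  set n : ℝ := (Fintype.card V : ℝ) with hn
  have hn0 : 0 ≤ n := Nat.cast_nonneg _
  have hx0 : 0 ≤ x := Nat.cast_nonneg _
  have hxn : x < n := Neck_lt v
  obtain ⟨c, hc1, hc2⟩ := Neck_ex hp hx0 hxn
  obtain ⟨c', hc3, hc4⟩ := Neck_ex hp' hx0 hxn
  have h3 : 0 < p c := (Neck_mem hc1 hc2).mp h1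
  have h4 : ¬ 0 < p' c' := fun h => h2 ((Neck_mem hc3 hc4).mpr h)
  have key : ∀ i : Fin (D + 1), (n * psum p i ≤ x ∧ x < n * psum p' i) ∨
      (n * psum p' i ≤ x ∧ x < n * psum p i) → v ∈ NeckA V p p' z i := by
    intro i hi
    have h5 := (Neck_diff p p' i).trans hz
    rw [abs_le] at h5
    have h6 := mul_le_mul_of_nonneg_left h5.1 hn0
    have h7 := mul_le_mul_of_nonneg_left h5.2 hn0
    unfold NeckA
    rw [Finset.mem_filter]
    refine ⟨Finset.mem_univ _, ?_⟩
    rw [← hx, ← hn]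
    rcases hi with ⟨h8, h9⟩ | ⟨h8, h9⟩
    · have h10 : psum p i ≤ psum p' i := by
        by_contra h
        rw [not_le] at h
        have := mul_le_mul_of_nonneg_left h.le hn0
        linarith
      rw [min_eq_left h10]
      constructor
      · exact h8
      · linarith
    · have h10 : psum p' i ≤ psum p i := by
        by_contra h
        rw [not_le] at h
        have := mul_le_mul_of_nonneg_left h.le hn0
        linarith
      rw [min_eq_right h10]
      constructor
      · exact h8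
      · linarith
  rcases lt_trichotomy (c : ℕ) (c' : ℕ) with h | h | h
  · have h5 : (c : ℕ) + 1 < D + 1 := by have := c'.isLt; omega
    refine ⟨⟨(c : ℕ) + 1, h5⟩, Or.inl (key _ (Or.inr ⟨?_, hc2⟩))⟩
    have h6 := mul_le_mul_of_nonneg_left (Neck_psum_mono p' (show (c : ℕ) + 1 ≤ c' by omega)) hn0
    exact h6.trans hc3
  · have hcc : c = c' := Fin.ext h
    subst hcc
    refine ⟨c, Or.inr ?_⟩
    have h5 : |p c| ≤ z := by
      have h6 : |p c - p' c| ≤ d1 p p' := by
        unfold d1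
        exact Finset.single_le_sum (f := fun i => |p i - p' i|) (fun i _ => abs_nonneg _)
          (Finset.mem_univ c)
      rw [abs_of_pos h3]
      have h7 := le_abs_self (p c - p' c)
      linarith
    unfold NeckB
    rw [Finset.mem_filter, ← hx, ← hn]
    refine ⟨Finset.mem_univ _, hc1, ?_⟩
    rw [Neck_psum_succ, mul_add] at hc2
    have h8 := mul_le_mul_of_nonneg_left h5 hn0
    linarith
  · refine ⟨c, Or.inl (key _ (Or.inl ⟨hc1, ?_⟩))⟩
    have h6 := mul_le_mul_of_nonneg_left (Neck_psum_mono p' (show (c' : ℕ) + 1 ≤ c by omega)) hn0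
    linarith

theorem neck_neg {D : ℕ} {p : Fin (D + 1) → ℝ} (hp : ∑ i, |p i| = 1) : (neck (-p) : Finset V) = (neck p)ᶜ := by
  ext v
  have hx0 : (0 : ℝ) ≤ ((Fintype.equivFin V v : ℕ) : ℝ) := Nat.cast_nonneg _
  obtain ⟨c, hc1, hc2⟩ := Neck_ex hp hx0 (Neck_lt v)
  have h1 : v ∈ neck (-p) ↔ 0 < (-p) c :=
    Neck_mem (p := -p) (by rw [Neck_psum_neg]; exact hc1) (by rw [Neck_psum_neg]; exact hc2)
  have h2 : v ∈ neck p ↔ 0 < p c := Neck_mem hc1 hc2
  have h3 := Neck_ne hc1 hc2
  rw [Finset.mem_compl, h1, h2, Pi.neg_apply]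
  constructor
  · intro h
    linarith
  · intro h
    rcases lt_or_gt_of_ne h3 with h4 | h4
    · linarith
    · exact absurd h4 h

theorem neck_dist {D : ℕ} {p p' : Fin (D + 1) → ℝ} {z : ℝ} (hp : ∑ i, |p i| = 1) (hp' : ∑ i, |p' i| = 1) (hz : d1 p p' ≤ z) :
    (((neck p : Finset V) ∆ neck p').card : ℝ) ≤ 4 * (D + 1) * (Fintype.card V * z + 1) := by
  have hd0 : 0 ≤ d1 p p' := by
    unfold d1
    exact Finset.sum_nonneg fun i _ => abs_nonneg _
  have hz0 : 0 ≤ z := hd0.trans hz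
  have hd : d1 p' p ≤ z := by
    have : d1 p' p = d1 p p' := by
      unfold d1
      exact Finset.sum_congr rfl fun i _ => abs_sub_comm _ _
    rw [this]
    exact hz
  have hn0 : (0 : ℝ) ≤ (Fintype.card V : ℝ) := Nat.cast_nonneg _
  have hL : 0 ≤ (Fintype.card V : ℝ) * z := mul_nonneg hn0 hz0
  have hsub : ((neck p : Finset V) ∆ neck p') ⊆
      univ.biUnion fun i : Fin (D + 1) => NeckA V p p' z i ∪ (NeckB V p z i ∪ NeckB V p' z i) := by
    intro v hv
    rw [Finset.mem_symmDiff] at hv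
    rw [Finset.mem_biUnion]
    rcases hv with ⟨h1, h2⟩ | ⟨h1, h2⟩
    · obtain ⟨i, hi⟩ := Neck_half hp hp' hz h1 h2
      refine ⟨i, Finset.mem_univ _, ?_⟩
      rw [Finset.mem_union, Finset.mem_union]
      rcases hi with h | h
      · exact Or.inl h
      · exact Or.inr (Or.inl h)
    · obtain ⟨i, hi⟩ := Neck_half hp' hp hd h1 h2
      refine ⟨i, Finset.mem_univ _, ?_⟩
      rw [Finset.mem_union, Finset.mem_union]
      rcases hi with h | h
      · rw [NeckA_symm] at h
        exact Or.inl h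
      · exact Or.inr (Or.inr h)
  have hA : ∀ i : Fin (D + 1), ((NeckA V p p' z i).card : ℝ) ≤ (Fintype.card V : ℝ) * z + 1 := by
    intro i
    exact Neck_count (mul_nonneg hn0 (le_min (Neck_psum_nonneg _ _) (Neck_psum_nonneg _ _))) hL
  have hB : ∀ (r : Fin (D + 1) → ℝ) (i : Fin (D + 1)),
      ((NeckB V r z i).card : ℝ) ≤ (Fintype.card V : ℝ) * z + 1 := by
    intro r i
    exact Neck_count (mul_nonneg hn0 (Neck_psum_nonneg _ _)) hL
  have hcard : (((neck p : Finset V) ∆ neck p').card : ℝ) ≤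
      ∑ i : Fin (D + 1), (3 * ((Fintype.card V : ℝ) * z + 1)) := by
    have h1 : ((neck p : Finset V) ∆ neck p').card ≤
        ∑ i : Fin (D + 1), ((NeckA V p p' z i).card + ((NeckB V p z i).card +
          (NeckB V p' z i).card)) := by
      refine (Finset.card_le_card hsub).trans (Finset.card_biUnion_le.trans ?_)
      refine Finset.sum_le_sum fun i _ => ?_
      refine (Finset.card_union_le _ _).trans ?_
      have := Finset.card_union_le (NeckB V p z i) (NeckB V p' z i)
      omega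
    have h2 : (((neck p : Finset V) ∆ neck p').card : ℝ) ≤
        ∑ i : Fin (D + 1), (((NeckA V p p' z i).card : ℝ) + (((NeckB V p z i).card : ℝ) +
          ((NeckB V p' z i).card : ℝ))) := by
      exact_mod_cast h1
    refine h2.trans (Finset.sum_le_sum fun i _ => ?_)
    have h3 := hA i
    have h4 := hB p i
    have h5 := hB p' i
    linarith
  refine hcard.trans ?_
  rw [Finset.sum_const, Finset.card_univ, Fintype.card_fin, nsmul_eq_mul]
  push_cast
  have h1 : 0 ≤ ((D : ℝ) + 1) * ((Fintype.card V : ℝ) * z + 1) := by positivity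
  nlinarith

end H49.MX
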