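import Pool.Agent.H49.MX.Sd2
import Pool.Agent.H49.MX.Cross
import Pool.Agent.H49.MX.Neck

/-!
# Module Start: the first tower

`cross`, then `subdT` with `κ = Fin (D+1)`, `ν = -id`, `P = {±e_i}` (at most `2 (D+1)` points, mutual distance at most 2), `K σ := ∃ s, (∀ i, s i = 1 ∨ s i = -1) ∧ ∀ p ∈ σ, ∃ i, p = Pi.single i (s i)`, `z = η / (8 (D + 1))`. The set
`{p | (∀ i, 0 ≤ s i * p i) ∧ ∑ i, s i * p i = 1}` is convex and contains the entries of `σ`; on it `∑ |p i| = 1`. Push by `neck` (`HasT.push`): `F` = image of the points of `P'` with `∑ |p i| = 1` (closed under `-`),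
`F.card ≤ B`, `neck_neg`, `neck_dist`: `4 (D+1)(n z + 1) ≤ η n` for `n ≥ 8 (D+1)/η`.
-/

set_option autoImplicit false
set_option linter.unusedSectionVars false

namespace H49.MX

open Finset
open scoped Classical symmDiff

private theorem start_conv {D : ℕ} (s : Fin (D + 1) → ℝ) :
    Convex ℝ {p : Fin (D + 1) → ℝ | (∀ i, 0 ≤ s i * p i) ∧ ∑ i, s i * p i = 1} := by
  intro x hx y hy a b ha hb hab
  have e : ∀ i, s i * (a • x + b • y) i = a * (s i * x i) + b * (s i * y i) := fun i => by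
    simp only [Pi.add_apply, Pi.smul_apply, smul_eq_mul]; ring
  refine ⟨fun i => ?_, ?_⟩
  · rw [e]
    exact add_nonneg (mul_nonneg ha (hx.1 i)) (mul_nonneg hb (hy.1 i))
  · rw [Finset.sum_congr rfl fun i _ => e i, Finset.sum_add_distrib, ← Finset.mul_sum,
      ← Finset.mul_sum, hx.2, hy.2]
    linarith

private theorem start_mem {D : ℕ} {s : Fin (D + 1) → ℝ} (hs : ∀ i, s i = 1 ∨ s i = -1)
    (i : Fin (D + 1)) : (Pi.single i (s i) : Fin (D + 1) → ℝ) ∈
      {p : Fin (D + 1) → ℝ | (∀ i, 0 ≤ s i * p i) ∧ ∑ i, s i * p i = 1} := by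
  have h2 : s i * s i = 1 := by
    rcases hs i with h | h <;> rw [h] <;> norm_num
  have e : ∀ j, s j * (Pi.single i (s i) : Fin (D + 1) → ℝ) j = if j = i then 1 else 0 := by
    intro j
    by_cases h : j = i
    · subst h
      rw [Pi.single_eq_same, if_pos rfl, h2]
    · rw [Pi.single_eq_of_ne h, if_neg h, mul_zero]
  refine ⟨fun j => ?_, ?_⟩
  · rw [e]
    split_ifs <;> norm_num
  · rw [Finset.sum_congr rfl fun j _ => e j]
    simp

private theorem start_one {D : ℕ} {s : Fin (D + 1) → ℝ} (hs : ∀ i, s i = 1 ∨ s i = -1)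
    {p : Fin (D + 1) → ℝ} (hp : p ∈ {p : Fin (D + 1) → ℝ | (∀ i, 0 ≤ s i * p i) ∧
      ∑ i, s i * p i = 1}) : ∑ i, |p i| = 1 := by
  rw [← hp.2]
  refine Finset.sum_congr rfl fun i _ => ?_
  have h0 := hp.1 i
  rcases hs i with h | h
  · rw [h, one_mul] at h0 ⊢
    exact abs_of_nonneg h0
  · rw [h] at h0 ⊢
    have h1 : p i ≤ 0 := by linarith
    rw [abs_of_nonpos h1]
    ring

private theorem start_d1 {D : ℕ} {a b : ℝ} (ha : |a| = 1) (hb : |b| = 1) (i j : Fin (D + 1)) :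
    d1 (Pi.single i a : Fin (D + 1) → ℝ) (Pi.single j b) ≤ 2 := by
  have e : ∀ (c : ℝ) (m : Fin (D + 1)), ∑ q, |(Pi.single m c : Fin (D + 1) → ℝ) q| = |c| := by
    intro c m
    rw [Finset.sum_eq_single m]
    · rw [Pi.single_eq_same]
    · intro q _ hq
      rw [Pi.single_eq_of_ne hq, abs_zero]
    · intro h
      exact absurd (Finset.mem_univ m) h
  unfold d1
  calc ∑ q, |(Pi.single i a : Fin (D + 1) → ℝ) q - (Pi.single j b : Fin (D + 1) → ℝ) q|
      ≤ ∑ q, (|(Pi.single i a : Fin (D + 1) → ℝ) q| + |(Pi.single j b : Fin (D + 1) → ℝ) q|) :=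
        Finset.sum_le_sum fun q _ => abs_sub _ _
    _ = |a| + |b| := by rw [Finset.sum_add_distrib, e, e]
    _ = 2 := by rw [ha, hb]; norm_num

private theorem start_tower (D : ℕ) {z : ℝ} (hz : 0 < z) : ∃ B : ℕ,
    ∃ P' : Finset (Fin (D + 1) → ℝ), P'.card ≤ B ∧ (∀ p ∈ P', -p ∈ P') ∧
      HasT (fun p : Fin (D + 1) → ℝ => -p) D (fun l => (∀ p ∈ l, p ∈ P') ∧
        (∀ p ∈ l, ∑ i, |p i| = 1) ∧ ∀ p ∈ l, ∀ p' ∈ l, d1 p p' ≤ z) := by
  obtain ⟨B, hB⟩ := subdT D (2 * (D + 1)) hz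
  set ν : (Fin (D + 1) → ℝ) →ₗ[ℝ] (Fin (D + 1) → ℝ) := -LinearMap.id with hν
  have hνf : (ν : (Fin (D + 1) → ℝ) → (Fin (D + 1) → ℝ)) = fun p => -p := by
    funext p
    simp [hν]
  set P : Finset (Fin (D + 1) → ℝ) := (univ : Finset (Fin (D + 1) × Bool)).image
    (fun q => Pi.single q.1 (if q.2 then (1 : ℝ) else -1)) with hP
  have hmem : ∀ (i : Fin (D + 1)) (c : ℝ), (c = 1 ∨ c = -1) →
      (Pi.single i c : Fin (D + 1) → ℝ) ∈ P := by
    intro i c hc
    rcases hc with h | h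
    · exact Finset.mem_image.2 ⟨(i, true), Finset.mem_univ _, by simp [h]⟩
    · exact Finset.mem_image.2 ⟨(i, false), Finset.mem_univ _, by simp [h]⟩
  have hcard : P.card ≤ 2 * (D + 1) := by
    refine Finset.card_image_le.trans ?_
    rw [Finset.card_univ, Fintype.card_prod, Fintype.card_fin, Fintype.card_bool]
    omega
  have hPν : ∀ p ∈ P, ν p ∈ P := by
    intro p hp
    obtain ⟨q, -, rfl⟩ := Finset.mem_image.1 hp
    have e : ν (Pi.single q.1 (if q.2 then (1 : ℝ) else -1)) =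
        Pi.single q.1 (-(if q.2 then (1 : ℝ) else -1)) := by
      rw [hνf]
      exact (Pi.single_neg q.1 _).symm
    rw [e]
    apply hmem
    split_ifs
    · exact Or.inr rfl
    · exact Or.inl (neg_neg _)
  have h0 : HasT ν D (fun l => (∃ s : Fin (D + 1) → ℝ, (∀ i, s i = 1 ∨ s i = -1) ∧
      ∀ p ∈ l, ∃ i, p = Pi.single i (s i)) ∧ (∀ p ∈ l, p ∈ P) ∧
      ∀ p ∈ l, ∀ p' ∈ l, d1 p p' ≤ 2) := by
    rw [hνf]
    refine (cross D).mono ?_
    rintro l - ⟨s, hs, hl⟩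
    refine ⟨⟨s, hs, hl⟩, ?_, ?_⟩
    · intro p hp
      obtain ⟨i, rfl⟩ := hl p hp
      exact hmem i _ (hs i)
    · intro p hp p' hp'
      obtain ⟨i, rfl⟩ := hl p hp
      obtain ⟨j, rfl⟩ := hl p' hp'
      have ha : ∀ m, |s m| = 1 := fun m => by
        rcases hs m with h | h <;> rw [h] <;> norm_num
      exact start_d1 (ha i) (ha j) i j
  obtain ⟨P', h1, h2, h3⟩ := hB (Fin (D + 1)) ν P _ hcard hPν h0
  rw [hνf] at h3
  refine ⟨B, P', h1, fun p hp => ?_, ?_⟩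
  · have := h2 p hp
    rwa [hνf] at this
  · refine h3.mono ?_
    rintro l - ⟨hl1, ⟨σ, ⟨s, hs, hσ⟩, hC⟩, hl3⟩
    refine ⟨hl1, fun p hp => ?_, hl3⟩
    refine start_one hs (hC _ (start_conv s) ?_ p hp)
    intro x hx
    obtain ⟨i, rfl⟩ := hσ x hx
    exact start_mem hs i

theorem start (D : ℕ) {η : ℝ} (hη : 0 < η) : ∃ N n₀ : ℕ, ∀ (V : Type) [Fintype V] [DecidableEq V], n₀ ≤ Fintype.card V →
    ∃ F : Finset (Finset V), F.card ≤ N ∧ (∀ A ∈ F, Aᶜ ∈ F) ∧ HasT compl D (Tup F (η * Fintype.card V)) := by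
  have hD : (0 : ℝ) < 8 * ((D : ℝ) + 1) := by positivity
  have hz : 0 < η / (8 * ((D : ℝ) + 1)) := div_pos hη hD
  obtain ⟨B, P', hcard, hneg, hT⟩ := start_tower D hz
  refine ⟨B, ⌈8 * ((D : ℝ) + 1) / η⌉₊, ?_⟩
  intro V _ _ hn
  have hn' : 8 * ((D : ℝ) + 1) ≤ η * Fintype.card V := by
    have h1 : 8 * ((D : ℝ) + 1) / η ≤ (Fintype.card V : ℝ) :=
      (Nat.le_ceil _).trans (by exact_mod_cast hn)
    rw [div_le_iff₀ hη] at h1
    linarith [mul_comm η (Fintype.card V : ℝ)]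
  refine ⟨(P'.filter fun p => ∑ i, |p i| = 1).image neck, ?_, ?_, ?_⟩
  · exact Finset.card_image_le.trans ((Finset.card_filter_le _ _).trans hcard)
  · intro A hA
    obtain ⟨p, hp, rfl⟩ := Finset.mem_image.1 hA
    obtain ⟨hp1, hp2⟩ := Finset.mem_filter.1 hp
    refine Finset.mem_image.2 ⟨-p, Finset.mem_filter.2 ⟨hneg p hp1, ?_⟩, neck_neg hp2⟩
    simpa using hp2
  · refine HasT.push hT neck ?_ ?_
    · intro l hl a ha
      exact neck_neg (hl.2.1 a ha)
    · rintro l ⟨h1, h2, h3⟩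
      refine ⟨?_, ?_⟩
      · intro A hA
        obtain ⟨p, hp, rfl⟩ := List.mem_map.1 hA
        exact Finset.mem_image.2 ⟨p, Finset.mem_filter.2 ⟨h1 p hp, h2 p hp⟩, rfl⟩
      · intro A hA C hC
        obtain ⟨p, hp, rfl⟩ := List.mem_map.1 hA
        obtain ⟨p', hp', rfl⟩ := List.mem_map.1 hC
        refine (neck_dist (h2 p hp) (h2 p' hp') (h3 p hp p' hp')).trans ?_
        have e : 4 * ((D : ℝ) + 1) * ((Fintype.card V : ℝ) * (η / (8 * ((D : ℝ) + 1))) + 1) =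
            η * Fintype.card V / 2 + 4 * ((D : ℝ) + 1) := by
          have : ((D : ℝ) + 1) ≠ 0 := by positivity
          field_simp
          ring
        rw [e]
        linarith

end H49.MX
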