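import Pool.Agent.H49.MX.Core
import Pool.Agent.H49.MX.CutR
import Pool.Agent.H49.MX.Start
import Pool.Agent.H49.MX.Dich

/-!
# Module Main: the induction

* `cut_half`: `cut A ≤ d |A|` and `cut A = cut Aᶜ ≤ d |Aᶜ|`, so `2 cut A ≤ d n`.
* `dich_imb`: if `|imb (W i) A| ≤ 2 R`, `R ≤ (ε/5) n` for all `i < r`, `q = ⌊(ε/10) n⌋₊`, and no good set is balanced up to `ε n`, then `A` or `Aᶜ` has an avalanche of length `q`: otherwise `dich` gives a good `C` with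
  `|A ∆ C| ≤ 3 q`, `|imb (W i) C| ≤ 2 R + 6 q ≤ ε n` (`imb_diff`).
* `stage`: induction on `j`, for all `k`, `η`. `j = 0`: `start (k * r)`, `cut_half`. `j → j + 1`: `core` with `D = k * r`, `ε₁ = ε/10`, `η' = η` gives `η₁`; use the induction hypothesis with `k + 1` and `η₂ = min η₁ (ε/5)`
  (`(k+1) * r = k * r + r`), then `cutR` (`v₀`: the graph is not empty for `n₀ ≥ 1`), the states of the filtered family satisfy the hypothesis of `core` by `dich_imb` (`imb` of `A`: `≤ 2 ⌊R⌋₊ ≤ 2 R`); `Tup F (η₂ n)` implies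
  `Tup F (η₁ n)` (`HasT.mono`).
* `mixM`: `j` with `j δ ε/10 > d/2`, `k = 0`: a tower has a vertex (`HasT.vertex`), so some `A ∈ F` has `cut A < 0`, impossible (`n ≥ 1`). If `ε > 1` use `1`. `δ` may be replaced by `min δ (1/2)` (`Mix.mono`).
-/

set_option autoImplicit false
set_option linter.unusedSectionVars false

namespace H49.MX

open Finset
open Pool.Agent.H49.FR (nin cut Part)
open scoped Classical symmDiff

theorem Mix.mono {d t : ℕ} {δ δ' : ℝ} (h : Mix d t δ) (hδ : δ' ≤ δ) : Mix d t δ' := by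
  intro ε hε
  obtain ⟨z, hz, h1⟩ := h ε hε
  refine ⟨z, hz, fun m => ?_⟩
  obtain ⟨n₀, h2⟩ := h1 m
  refine ⟨n₀, ?_⟩
  intro V _ _ G _ hreg hn ι J _ _ _ hJ B W h' y hW hy
  obtain ⟨e, h3, h4, h5, h6, h7⟩ := h2 V G hreg hn ι J hJ B W h' y hW hy
  refine ⟨e, h3, fun j => (h4 j).trans ?_, h5, h6, h7⟩
  have h8 : (0 : ℝ) ≤ (W j).card := Nat.cast_nonneg _
  have h9 : δ' * ((W j).card : ℝ) ≤ δ * ((W j).card : ℝ) := mul_le_mul_of_nonneg_right hδ h8
  have h10 : ((2 * (t : ℝ) - d) / 2 - δ) * ((W j).card : ℝ) ≤ ((2 * (t : ℝ) - d) / 2 - δ') * ((W j).card : ℝ) := by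
    have e1 : ((2 * (t : ℝ) - d) / 2 - δ) * ((W j).card : ℝ) = (2 * (t : ℝ) - d) / 2 * ((W j).card : ℝ) - δ * ((W j).card : ℝ) := by ring
    have e2 : ((2 * (t : ℝ) - d) / 2 - δ') * ((W j).card : ℝ) = (2 * (t : ℝ) - d) / 2 * ((W j).card : ℝ) - δ' * ((W j).card : ℝ) := by ring
    rw [e1, e2]
    linarith
  linarith

private lemma Main_cut_le {V : Type} [Fintype V] [DecidableEq V] (G : SimpleGraph V) [DecidableRel G.Adj] {d : ℕ}
    (hreg : G.IsRegularOfDegree d) (A : Finset V) : cut G A ≤ A.card * d := by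
  unfold cut
  refine (Finset.sum_le_card_nsmul A _ d fun v _ => ?_).trans (le_of_eq (smul_eq_mul _ _))
  unfold nin
  refine (Finset.card_le_card Finset.inter_subset_left).trans ?_
  rw [G.card_neighborFinset_eq_degree, hreg v]

theorem cut_half {V : Type} [Fintype V] [DecidableEq V] (G : SimpleGraph V) [DecidableRel G.Adj] {d : ℕ}
    (hreg : G.IsRegularOfDegree d) (A : Finset V) : (cut G A : ℝ) ≤ d * Fintype.card V / 2 := by
  have h1 := Main_cut_le G hreg A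
  have h2 := Main_cut_le G hreg Aᶜ
  rw [cut_compl] at h2
  have h3 : A.card + Aᶜ.card = Fintype.card V := Finset.card_add_card_compl A
  have h4 : 2 * cut G A ≤ Fintype.card V * d := by
    rw [← h3, Nat.add_mul]
    omega
  have h5 : (2 : ℝ) * cut G A ≤ Fintype.card V * d := by exact_mod_cast h4
  linarith

theorem dich_imb {V : Type} [Fintype V] [DecidableEq V] (G : SimpleGraph V) [DecidableRel G.Adj] {d t a : ℕ}
    (hreg : G.IsRegularOfDegree d) (ha : a + t = d + 1) (hat : a ≤ t) {ε R : ℝ} (hR : R ≤ ε / 5 * Fintype.card V) (hε : 0 < ε)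
    (W : ℕ → Finset V) (r : ℕ)
    (hn : ¬ ∃ A : Finset V, Part G a a A ∧ ∀ i < r, |(imb (W i) A : ℝ)| ≤ ε * Fintype.card V) (A : Finset V)
    (hA : ∀ i < r, |(imb (W i) A : ℝ)| ≤ 2 * R) :
    ∃ s : ℕ → V, AddSeq G t A s ⌊ε / 10 * Fintype.card V⌋₊ ∨ AddSeq G t Aᶜ s ⌊ε / 10 * Fintype.card V⌋₊ := by
  by_contra hc
  have hc1 : ∀ s : ℕ → V, ¬ (AddSeq G t A s ⌊ε / 10 * Fintype.card V⌋₊ ∨ AddSeq G t Aᶜ s ⌊ε / 10 * Fintype.card V⌋₊) := by
    intro s hs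
    exact hc ⟨s, hs⟩
  obtain ⟨C, hC1, hC2⟩ := dich G hreg ha hat A ⌊ε / 10 * Fintype.card V⌋₊ (fun s hs => hc1 s (Or.inl hs))
    (fun s hs => hc1 s (Or.inr hs))
  apply hn
  refine ⟨C, hC1, fun i hi => ?_⟩
  have h1 := imb_diff (W i) C A
  have h2 : |((imb (W i) C : ℤ) : ℝ) - (imb (W i) A : ℝ)| ≤ 2 * ((C ∆ A).card : ℝ) := by exact_mod_cast h1
  have h3 : ((C ∆ A).card : ℝ) ≤ 3 * (⌊ε / 10 * Fintype.card V⌋₊ : ℝ) := by
    rw [symmDiff_comm]
    exact_mod_cast hC2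
  have h4 : (⌊ε / 10 * Fintype.card V⌋₊ : ℝ) ≤ ε / 10 * Fintype.card V := by
    refine Nat.floor_le ?_
    positivity
  have h5 := hA i hi
  have h6 : |(imb (W i) C : ℝ)| ≤ |((imb (W i) C : ℤ) : ℝ) - (imb (W i) A : ℝ)| + |(imb (W i) A : ℝ)| := by
    have := abs_add_le (((imb (W i) C : ℤ) : ℝ) - (imb (W i) A : ℝ)) (imb (W i) A : ℝ)
    rwa [sub_add_cancel] at this
  linarith

theorem stage {d t a g : ℕ} {δ : ℝ} (hg : 2 * t = d + g) (hg1 : 1 ≤ g) (ha : a + t = d + 1) (hδ : 0 < δ) (hδg : δ ≤ g / 2)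
    (hM : Mix d t δ) {ε : ℝ} (hε : 0 < ε) (hε1 : ε ≤ 1) (r : ℕ) (j : ℕ) : ∀ (k : ℕ) (η : ℝ), 0 < η → ∃ N n₀ : ℕ,
    ∀ (V : Type) [Fintype V] [DecidableEq V] (G : SimpleGraph V) [DecidableRel G.Adj] (W : ℕ → Finset V),
      G.IsRegularOfDegree d → n₀ ≤ Fintype.card V →
      (¬ ∃ A : Finset V, Part G a a A ∧ ∀ i < r, |(imb (W i) A : ℝ)| ≤ ε * Fintype.card V) →
      ∃ F : Finset (Finset V), F.card ≤ N ∧ (∀ A ∈ F, Aᶜ ∈ F) ∧
        (∀ A ∈ F, (cut G A : ℝ) ≤ d * Fintype.card V / 2 - j * (δ * (ε / 10) * Fintype.card V)) ∧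
        HasT compl (k * r) (Tup F (η * Fintype.card V)) := by
  have hat : a ≤ t := by omega
  induction j with
  | zero =>
    intro k η hη
    obtain ⟨N, n₀, h⟩ := start (k * r) hη
    refine ⟨N, n₀, ?_⟩
    intro V _ _ G _ W hreg hn _
    obtain ⟨F, hF1, hF2, hF3⟩ := h V hn
    refine ⟨F, hF1, hF2, fun A _ => ?_, hF3⟩
    have := cut_half G hreg A
    simpa using this
  | succ j ih =>
    intro k η hη
    obtain ⟨η₁, hη₁, hcore⟩ := core hg hg1 hδ hδg hM (k * r) (ε₁ := ε / 10) (by positivity) (by linarith) hη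
    obtain ⟨N, n₀, hih⟩ := ih (k + 1) (min η₁ (ε / 5)) (lt_min hη₁ (by positivity))
    obtain ⟨N', n₁, hcore⟩ := hcore N
    refine ⟨N', max (max n₀ n₁) 1, ?_⟩
    intro V _ _ G _ W hreg hn hno
    have hn0 : n₀ ≤ Fintype.card V := le_trans (le_trans (le_max_left _ _) (le_max_left _ _)) hn
    have hn1 : n₁ ≤ Fintype.card V := le_trans (le_trans (le_max_right _ _) (le_max_left _ _)) hn
    have hn2 : 1 ≤ Fintype.card V := le_trans (le_max_right _ _) hn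
    obtain ⟨v₀⟩ : Nonempty V := Fintype.card_pos_iff.1 hn2
    obtain ⟨F, hF1, hF2, hF3, hF4⟩ := hih V G W hreg hn0 hno
    set R : ℝ := min η₁ (ε / 5) * Fintype.card V with hR
    have hR0 : 0 ≤ R := by
      have : 0 < min η₁ (ε / 5) := lt_min hη₁ (by positivity)
      positivity
    have hRa : R ≤ η₁ * Fintype.card V := mul_le_mul_of_nonneg_right (min_le_left _ _) (Nat.cast_nonneg _)
    have hRb : R ≤ ε / 5 * Fintype.card V := mul_le_mul_of_nonneg_right (min_le_right _ _) (Nat.cast_nonneg _)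
    have e1 : (k + 1) * r = k * r + r := by ring
    rw [e1] at hF4
    have hT := cutR hF2 hR0 v₀ W r (k * r) hF4
    set F₁ : Finset (Finset V) := F.filter fun A => ∀ j < r, |imb (W j) A| ≤ 2 * (⌊R⌋₊ : ℤ) with hF₁
    have h1 : F₁.card ≤ N := (Finset.card_filter_le _ _).trans hF1
    have h2 : ∀ A ∈ F₁, Aᶜ ∈ F₁ := by
      intro A hA
      rw [hF₁, Finset.mem_filter] at hA ⊢
      refine ⟨hF2 A hA.1, fun i hi => ?_⟩
      rw [imb_compl, abs_neg]
      exact hA.2 i hi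
    have h3 : ∀ A ∈ F₁, (cut G A : ℝ) ≤ d * Fintype.card V / 2 - j * (δ * (ε / 10) * Fintype.card V) := by
      intro A hA
      rw [hF₁, Finset.mem_filter] at hA
      exact hF3 A hA.1
    have h4 : ∀ A ∈ F₁, ∃ s : ℕ → V, AddSeq G t A s ⌊ε / 10 * Fintype.card V⌋₊ ∨
        AddSeq G t Aᶜ s ⌊ε / 10 * Fintype.card V⌋₊ := by
      intro A hA
      rw [hF₁, Finset.mem_filter] at hA
      refine dich_imb G hreg ha hat hRb hε W r hno A fun i hi => ?_
      have h5 := hA.2 i hi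
      have h6 : |(imb (W i) A : ℝ)| ≤ 2 * (⌊R⌋₊ : ℝ) := by exact_mod_cast h5
      have h7 : (⌊R⌋₊ : ℝ) ≤ R := Nat.floor_le hR0
      linarith
    have h5 : HasT compl (k * r) (Tup F₁ (η₁ * Fintype.card V)) := by
      refine hT.mono fun l _ hl => ⟨hl.1, fun A hA B hB => (hl.2 A hA B hB).trans hRa⟩
    obtain ⟨F', hF'1, hF'2, hF'3, hF'4⟩ := hcore V G F₁ _ hreg hn1 h1 h2 h3 h4 h5
    refine ⟨F', hF'1, hF'2, fun A hA => (hF'3 A hA).trans (le_of_eq ?_), hF'4⟩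
    push_cast
    ring

theorem mixM {d t a g : ℕ} {δ : ℝ} (hg : 2 * t = d + g) (hg1 : 1 ≤ g) (ha : a + t = d + 1) (hδ : 0 < δ) (hM : Mix d t δ) {ε : ℝ}
    (hε : 0 < ε) (r : ℕ) : ∃ n₀ : ℕ, ∀ (V : Type) [Fintype V] [DecidableEq V] (G : SimpleGraph V) [DecidableRel G.Adj]
      (W : ℕ → Finset V), G.IsRegularOfDegree d → n₀ ≤ Fintype.card V →
      ∃ A : Finset V, Part G a a A ∧ ∀ i < r, |(imb (W i) A : ℝ)| ≤ ε * Fintype.card V := by
  have hg2 : (1 : ℝ) ≤ g := by exact_mod_cast hg1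
  set ε' : ℝ := min ε 1 with hε'
  have hε'0 : 0 < ε' := lt_min hε one_pos
  have hδ' : 0 < min δ (1 / 2) := lt_min hδ (by norm_num)
  obtain ⟨j, hj⟩ := exists_nat_gt ((d : ℝ) / 2 / (min δ (1 / 2) * (ε' / 10)))
  have hpos : 0 < min δ (1 / 2) * (ε' / 10) := by positivity
  rw [div_lt_iff₀ hpos] at hj
  obtain ⟨N, n₀, h⟩ := stage hg hg1 ha hδ' ((min_le_right _ _).trans (by linarith)) (hM.mono (min_le_left _ _)) hε'0
    (min_le_right _ _) r j 0 1 one_pos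
  refine ⟨max n₀ 1, ?_⟩
  intro V _ _ G _ W hreg hn
  have hn0 : n₀ ≤ Fintype.card V := le_trans (le_max_left _ _) hn
  have hn1 : 1 ≤ Fintype.card V := le_trans (le_max_right _ _) hn
  by_contra hno
  have hno' : ¬ ∃ A : Finset V, Part G a a A ∧ ∀ i < r, |(imb (W i) A : ℝ)| ≤ ε' * Fintype.card V := by
    rintro ⟨A, hA1, hA2⟩
    refine hno ⟨A, hA1, fun i hi => (hA2 i hi).trans ?_⟩
    exact mul_le_mul_of_nonneg_right (min_le_left _ _) (Nat.cast_nonneg _)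
  obtain ⟨F, -, -, hF3, hF4⟩ := h V G W hreg hn0 hno'
  obtain ⟨A, hA⟩ := hF4.vertex
  have hAF : A ∈ F := hA.1 A (List.mem_singleton_self A)
  have h1 := hF3 A hAF
  have h2 : (0 : ℝ) ≤ cut G A := Nat.cast_nonneg _
  have h3 : (1 : ℝ) ≤ Fintype.card V := by exact_mod_cast hn1
  have h4 : (d : ℝ) / 2 * Fintype.card V < j * (min δ (1 / 2) * (ε' / 10)) * Fintype.card V :=
    mul_lt_mul_of_pos_right hj (by linarith)
  have e1 : (d : ℝ) * Fintype.card V / 2 = (d : ℝ) / 2 * Fintype.card V := by ring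
  have e2 : (j : ℝ) * (min δ (1 / 2) * (ε' / 10) * Fintype.card V) = j * (min δ (1 / 2) * (ε' / 10)) * Fintype.card V := by ring
  rw [e1, e2] at h1
  linarith

end H49.MX
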