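import Pool.Agent.H49.MX.Defs

/-!
# Definitions for the points (block C)
-/

set_option autoImplicit false
set_option linter.unusedSectionVars false

namespace H49.MX

open Finset
open scoped Classical symmDiff

variable {V : Type} [Fintype V] [DecidableEq V]

/-- a tuple of states of the system `rp 0, .., rp (M-1)` and complements, mutual distance at most `R < n`, at most `D + 1` entries -/
structure Hul (M : ℕ) (rp : ℕ → Finset V) (R : ℝ) (D : ℕ) (σ : List (Finset V)) : Prop where
  mem : ∀ A ∈ σ, ∃ j < M, A = rp j ∨ A = (rp j)ᶜ
  dist : ∀ A ∈ σ, ∀ B ∈ σ, ((A ∆ B).card : ℝ) ≤ R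
  len : σ.length ≤ D + 1
  lt : R < Fintype.card V

/-- the unit vector of a point -/
noncomputable def yv (p : Finset V → ℝ) : Finset V → ℝ := fun A => (Real.sqrt (p A) - Real.sqrt (p Aᶜ)) / Real.sqrt 2

/-- the upper set of the mixture -/
def BB (A U : Finset V) : Finset V := A ∪ U

/-- the difference of the upper and the lower set of the mixture -/
def WW (A U D : Finset V) : Finset V := (U \ A) ∪ (D ∩ A)

end H49.MX
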