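import Pool.Agent.H49.MX.Sd2

/-!
# Module Points: the tower on the space of weights

Push the given tower by `A ↦ Pi.single A 1` (`HasT.push`; `nuP (Pi.single A 1) = Pi.single Aᶜ 1`), points: the image of `F`, `d1 ≤ 2`. `subdT` with `κ = Finset V`, `ν p = nuP p` (`LinearMap.funLeft ℝ ℝ compl`),
`K σ' := ∃ σ, Q σ ∧ σ' = σ.map (Pi.single · 1)`. The set `{p | InH σ p}` is convex and contains the unit vectors of the entries of `σ` (`σ` not empty if the list is not empty; for the empty list nothing is to be shown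
except the existence of `σ`). `P` = the points `p ∈ P'` with `∃ σ, Q σ ∧ InH σ p`; closed under `nuP`: `InH σ p → InH (σ.map compl) (nuP p)`.
-/

set_option autoImplicit false
set_option linter.unusedSectionVars false

namespace H49.MX

open Finset
open scoped Classical

theorem InH.nuP {V : Type} [Fintype V] [DecidableEq V] {σ : List (Finset V)} {p : Finset V → ℝ} (h : InH σ p) :
    InH (σ.map compl) (H49.MX.nuP p) := by
  refine ⟨fun A => h.nn _, ?_, fun A hA => ?_⟩
  · have h1 := Equiv.sum_comp (Function.Involutive.toPerm (compl : Finset V → Finset V)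
      compl_involutive) p
    exact h1.trans h.one
  · exact List.mem_map.2 ⟨Aᶜ, h.spt _ hA, compl_compl A⟩

private theorem Points_conv {V : Type} [Fintype V] [DecidableEq V] (σ : List (Finset V)) :
    Convex ℝ {p : Finset V → ℝ | InH σ p} := by
  intro p hp q hq s t hs ht hst
  refine ⟨fun A => ?_, ?_, fun A hA => ?_⟩
  · change 0 ≤ s * p A + t * q A
    exact add_nonneg (mul_nonneg hs (hp.nn A)) (mul_nonneg ht (hq.nn A))
  · change ∑ A, (s * p A + t * q A) = 1
    rw [Finset.sum_add_distrib, ← Finset.mul_sum, ← Finset.mul_sum, hp.one, hq.one, mul_one,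
      mul_one, hst]
  · by_contra hn
    have h1 : p A = 0 := by
      by_contra h
      exact hn (hp.spt A h)
    have h2 : q A = 0 := by
      by_contra h
      exact hn (hq.spt A h)
    refine hA ?_
    change s * p A + t * q A = 0
    rw [h1, h2, mul_zero, mul_zero, add_zero]

private theorem Points_unit {V : Type} [Fintype V] [DecidableEq V] {σ : List (Finset V)}
    {A : Finset V} (hA : A ∈ σ) : InH σ (fun B => if B = A then (1 : ℝ) else 0) := by
  refine ⟨fun B => ?_, ?_, fun B hB => ?_⟩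
  · split_ifs
    · exact zero_le_one
    · exact le_rfl
  · change ∑ B, (if B = A then (1 : ℝ) else 0) = 1
    rw [Finset.sum_ite_eq' Finset.univ A, if_pos (Finset.mem_univ A)]
  · by_cases h : B = A
    · rw [h]
      exact hA
    · exact absurd (if_neg h) hB

private theorem Points_d1 {V : Type} [Fintype V] [DecidableEq V] (A B : Finset V) :
    d1 (fun C => if C = A then (1 : ℝ) else 0) (fun C => if C = B then (1 : ℝ) else 0) ≤ 2 := by
  unfold d1
  have h1 : ∀ C ∈ (Finset.univ : Finset (Finset V)),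
      |(if C = A then (1 : ℝ) else 0) - (if C = B then (1 : ℝ) else 0)| ≤
      (if C = A then (1 : ℝ) else 0) + (if C = B then (1 : ℝ) else 0) := by
    intro C _
    split_ifs <;> norm_num
  refine (Finset.sum_le_sum h1).trans (le_of_eq ?_)
  rw [Finset.sum_add_distrib, Finset.sum_ite_eq' Finset.univ A, Finset.sum_ite_eq' Finset.univ B,
    if_pos (Finset.mem_univ A), if_pos (Finset.mem_univ B)]
  norm_num

theorem points (D N : ℕ) {z : ℝ} (hz : 0 < z) : ∃ B : ℕ, ∀ (V : Type) [Fintype V] [DecidableEq V] (F : Finset (Finset V))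
    (Q : List (Finset V) → Prop), F.card ≤ N → (∀ A ∈ F, Aᶜ ∈ F) → Clo compl Q → (∀ l, Q l → ∀ A ∈ l, A ∈ F) → HasT compl D Q →
    ∃ P : Finset (Finset V → ℝ), P.card ≤ B ∧ (∀ p ∈ P, nuP p ∈ P) ∧ (∀ p ∈ P, ∃ σ, Q σ ∧ InH σ p) ∧ HasT nuP D (PTup Q P z) := by
  obtain ⟨B, hB⟩ := subdT D N hz
  refine ⟨B, fun V _ _ F Q hF hFc hQ hQF hT => ?_⟩
  obtain ⟨e, he⟩ : ∃ e : Finset V → Finset V → ℝ, e = fun A C => if C = A then (1 : ℝ) else 0 :=
    ⟨_, rfl⟩
  obtain ⟨ν, hν⟩ : ∃ ν : (Finset V → ℝ) →ₗ[ℝ] (Finset V → ℝ),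
      ν = LinearMap.funLeft ℝ ℝ (compl : Finset V → Finset V) := ⟨_, rfl⟩
  have hν1 : ∀ p : Finset V → ℝ, ν p = H49.MX.nuP p := by
    intro p
    rw [hν]
    rfl
  have hνe : ∀ A : Finset V, e Aᶜ = ν (e A) := by
    intro A
    rw [hν1, he]
    funext C
    change (if C = Aᶜ then (1 : ℝ) else 0) = if Cᶜ = A then (1 : ℝ) else 0
    by_cases h : C = Aᶜ
    · rw [if_pos h, if_pos (by rw [h, compl_compl])]
    · rw [if_neg h, if_neg (fun h' => h (by rw [← h', compl_compl]))]
  have hT' : HasT ν D (fun l => (∃ σ, Q σ ∧ l = σ.map e) ∧ (∀ p ∈ l, p ∈ F.image e) ∧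
      ∀ p ∈ l, ∀ p' ∈ l, d1 p p' ≤ 2) := by
    refine hT.push e (fun l _ a _ => hνe a) fun l hl => ⟨⟨l, hl, rfl⟩, fun p hp => ?_,
      fun p hp p' hp' => ?_⟩
    · obtain ⟨A, hA, rfl⟩ := List.mem_map.1 hp
      exact Finset.mem_image_of_mem e (hQF l hl A hA)
    · obtain ⟨A, _, rfl⟩ := List.mem_map.1 hp
      obtain ⟨A', _, rfl⟩ := List.mem_map.1 hp'
      rw [he]
      exact Points_d1 A A'
  obtain ⟨P', hP'c, hP'n, hP'T⟩ := hB (Finset V) ν (F.image e) (fun l => ∃ σ, Q σ ∧ l = σ.map e)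
    (Finset.card_image_le.trans hF) (fun p hp => by
      obtain ⟨A, hA, rfl⟩ := Finset.mem_image.1 hp
      rw [← hνe]
      exact Finset.mem_image_of_mem e (hFc A hA)) hT'
  refine ⟨P'.filter fun p => ∃ σ, Q σ ∧ InH σ p, (Finset.card_filter_le _ _).trans hP'c,
    fun p hp => ?_, fun p hp => (Finset.mem_filter.1 hp).2, ?_⟩
  · obtain ⟨h1, σ, h2, h3⟩ := Finset.mem_filter.1 hp
    refine Finset.mem_filter.2 ⟨?_, σ.map compl, hQ.inv σ h2, h3.nuP⟩
    rw [← hν1]
    exact hP'n p h1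
  · have hfun : (⇑ν : (Finset V → ℝ) → (Finset V → ℝ)) = nuP := funext hν1
    rw [hfun] at hP'T
    refine hP'T.mono fun l _ hl => ?_
    obtain ⟨h1, ⟨σ', ⟨σ, h2, rfl⟩, h3⟩, h4⟩ := hl
    have h5 : ∀ p ∈ l, InH σ p := h3 {p | InH σ p} (Points_conv σ) fun x hx => by
      obtain ⟨A, hA, rfl⟩ := List.mem_map.1 hx
      rw [he]
      exact Points_unit hA
    exact ⟨fun p hp => Finset.mem_filter.2 ⟨h1 p hp, σ, h2, h5 p hp⟩, ⟨σ, h2, h5⟩, h4⟩

end H49.MX
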