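import Pool.Agent.H49.MX.PDefs

/-!
# Module PtA: the base state

* `not_compl`: `|A ∆ Aᶜ| = card V > R`.
* `base_mem`: `p` is not zero (`∑ p = 1`), a state `A` with `p A ≠ 0` lies in `σ`, so is `rp j` or `(rp j)ᶜ`: the set `{j | p (rp j) ≠ 0 ∨ p (rp j)ᶜ ≠ 0}` is not empty and `fpr rp p` belongs to it (`Nat.sInf_mem`).
* `base_nu`: `fpr rp (nuP p) = fpr rp p` (the same set), call it `j`; exactly one of `p (rp j)`, `p (rp j)ᶜ` is not zero (`not_compl`), so the choice for `nuP p` is the other one.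
-/

set_option autoImplicit false
set_option linter.unusedSectionVars false

namespace H49.MX

open Finset
open scoped Classical symmDiff

variable {V : Type} [Fintype V] [DecidableEq V] {M D : ℕ} {rp : ℕ → Finset V} {R : ℝ} {σ : List (Finset V)}

theorem nuP_nuP (p : Finset V → ℝ) : nuP (nuP p) = p := by
  funext A
  unfold nuP
  rw [compl_compl]

theorem d1_nuP (p p' : Finset V → ℝ) : d1 (nuP p) (nuP p') = d1 p p' := by
  unfold d1 nuP
  exact Equiv.sum_comp (compl_involutive.toPerm (compl : Finset V → Finset V)) fun A => |p A - p' A|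

theorem Hul.not_compl (h : Hul M rp R D σ) {A : Finset V} (hA : A ∈ σ) : Aᶜ ∉ σ := by
  intro hAc
  have h1 := h.dist A hA Aᶜ hAc
  rw [symmDiff_compl_self, Finset.top_eq_univ, Finset.card_univ] at h1
  exact absurd h.lt (not_lt.2 h1)

theorem Hul.map (h : Hul M rp R D σ) : Hul M rp R D (σ.map compl) := by
  refine ⟨?_, ?_, ?_, h.lt⟩
  · intro A hA
    obtain ⟨B, hB, rfl⟩ := List.mem_map.1 hA
    obtain ⟨j, hj, h1 | h1⟩ := h.mem B hB
    · exact ⟨j, hj, Or.inr (by rw [h1])⟩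
    · exact ⟨j, hj, Or.inl (by rw [h1, compl_compl])⟩
  · intro A hA B hB
    obtain ⟨A', hA', rfl⟩ := List.mem_map.1 hA
    obtain ⟨B', hB', rfl⟩ := List.mem_map.1 hB
    rw [compl_symmDiff_compl]
    exact h.dist A' hA' B' hB'
  · rw [List.length_map]
    exact h.len

theorem base_mem (h : Hul M rp R D σ) {p : Finset V → ℝ} (hp : InH σ p) : base rp p ∈ σ ∧ p (base rp p) ≠ 0 := by
  obtain ⟨A, hA⟩ : ∃ A, p A ≠ 0 := by
    by_contra hcon
    push Not at hcon
    have h1 := hp.one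
    rw [Finset.sum_eq_zero fun A _ => hcon A] at h1
    exact zero_ne_one h1
  obtain ⟨j, -, hj⟩ := h.mem A (hp.spt A hA)
  have hne : {j | p (rp j) ≠ 0 ∨ p (rp j)ᶜ ≠ 0}.Nonempty := by
    refine ⟨j, ?_⟩
    rcases hj with hj | hj
    · exact Or.inl (by rw [← hj]; exact hA)
    · exact Or.inr (by rw [← hj]; exact hA)
  have h2 : p (rp (fpr rp p)) ≠ 0 ∨ p (rp (fpr rp p))ᶜ ≠ 0 := Nat.sInf_mem hne
  have h3 : p (base rp p) ≠ 0 := by
    unfold base
    split_ifs with h4
    · exact h4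
    · exact h2.resolve_left h4
  exact ⟨hp.spt _ h3, h3⟩

theorem base_nu (h : Hul M rp R D σ) {p : Finset V → ℝ} (hp : InH σ p) : base rp (nuP p) = (base rp p)ᶜ := by
  have h1 : fpr rp (nuP p) = fpr rp p := by
    unfold fpr nuP
    congr 1
    ext j
    show (p (rp j)ᶜ ≠ 0 ∨ p (rp j)ᶜᶜ ≠ 0) ↔ (p (rp j) ≠ 0 ∨ p (rp j)ᶜ ≠ 0)
    rw [compl_compl]
    exact or_comm
  have h2 := (base_mem h hp).2
  unfold base at h2 ⊢
  rw [h1]
  by_cases h3 : p (rp (fpr rp p)) ≠ 0
  · have h4 : p (rp (fpr rp p))ᶜ = 0 := by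
      by_contra h5
      exact h.not_compl (hp.spt _ h3) (hp.spt _ h5)
    rw [if_pos h3, if_neg]
    unfold nuP
    rw [h4]
    exact fun h => h rfl
  · rw [if_neg h3] at h2 ⊢
    rw [if_pos, compl_compl]
    exact h2

end H49.MX
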