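import Pool.Agent.H49.MX.PtW
import Pool.Agent.H49.MX.Fill
import Pool.Agent.H49.MX.Gain

/-!
# Module PtC: the cuts of the upper and of the lower set

`A = base rp p`, `U = UU p = FL s q M w`, `w j = upw p j ≥ 0`. `FL_struct`: `U = ⋃_(j < M) s j[0..c j)`, `c j = 0` if `w j = 0`. So `U` is the union over `J = {j ∈ range M | w j ≠ 0}`. For `j ∈ J` let `B j` be the state of the pair
`j` with `p (B j) = w j` (`rp j` if `AddSeq G t (rp j) (s j) q`, otherwise `(rp j)ᶜ`); then `AddSeq G t (B j) (s j) q` (`Sys.seq`), `B j ∈ σ`, `|A ∆ B j| ≤ R` (`base_mem`), and `j ↦ B j` is injective on `J` (`Sys.inj`, and `v₀` decides between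
`rp j` and `(rp i)ᶜ`), so `|J| ≤ σ.length ≤ D + 1`. `cutU` is `gain`. `cutD`: `cutU` for `nuP p`, `σ.map compl`, `base_nu`, and `cut G Xᶜ = cut G X` with `X = A \ D`, `Xᶜ = Aᶜ ∪ D`.
`Sys.inj_on`: `Set.InjOn (s j) (Set.Iio q)` is part of `AddSeq`.
-/

set_option autoImplicit false
set_option linter.unusedSectionVars false

namespace H49.MX

open Finset
open Pool.Agent.H49.FR (nin cut Part)
open scoped Classical symmDiff

variable {V : Type} [Fintype V] [DecidableEq V] (G : SimpleGraph V) [DecidableRel G.Adj] {M D : ℕ} {rp : ℕ → Finset V} {R : ℝ}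
  {σ : List (Finset V)} {t q : ℕ} {v₀ : V} {s : ℕ → ℕ → V}

theorem Sys.inj_on (hS : Sys G t q v₀ M rp s) {j : ℕ} (hj : j < M) : Set.InjOn (s j) (Set.Iio q) := by
  rcases hS.seq j hj with h | h
  · exact h.1
  · exact h.1

private theorem PtC_nin (v : V) (A : Finset V) : nin G v A = ∑ w ∈ A, if G.Adj v w then 1 else 0 := by
  unfold nin
  rw [Finset.sum_ite, Finset.sum_const_zero, add_zero, Finset.sum_const, smul_eq_mul, mul_one]
  congr 1
  ext w
  simp [and_comm]

/-- the state of the pair `j` to which `s j` can be added -/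
private noncomputable def PtC_B (t q : ℕ) (rp : ℕ → Finset V) (s : ℕ → ℕ → V) (j : ℕ) : Finset V :=
  if AddSeq G t (rp j) (s j) q then rp j else (rp j)ᶜ

private theorem PtC_upw (p : Finset V → ℝ) (j : ℕ) :
    upw G t q rp s p j = p (PtC_B G t q rp s j) := by
  unfold upw PtC_B
  split_ifs
  · rfl
  · rfl

private theorem PtC_seq (hS : Sys G t q v₀ M rp s) {j : ℕ} (hj : j < M) :
    AddSeq G t (PtC_B G t q rp s j) (s j) q := by
  unfold PtC_B
  split_ifs with h
  · exact h
  · exact (hS.seq j hj).resolve_left h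

private theorem PtC_ne (hS : Sys G t q v₀ M rp s) {i j : ℕ} (hi : i < M) (hj : j < M) :
    rp i ≠ (rp j)ᶜ := by
  intro h
  have h1 := hS.rep i hi
  rw [h, Finset.mem_compl] at h1
  exact h1 (hS.rep j hj)

private theorem PtC_inj (hS : Sys G t q v₀ M rp s) {i j : ℕ} (hi : i < M) (hj : j < M)
    (hij : PtC_B G t q rp s i = PtC_B G t q rp s j) : i = j := by
  unfold PtC_B at hij
  split_ifs at hij
  · exact hS.inj i hi j hj hij
  · exact absurd hij (PtC_ne G hS hi hj)
  · exact absurd hij.symm (PtC_ne G hS hj hi)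
  · exact hS.inj i hi j hj (compl_injective hij)

theorem cut_compl (A : Finset V) : cut G Aᶜ = cut G A := by
  unfold cut
  rw [compl_compl]
  simp only [PtC_nin]
  rw [Finset.sum_comm]
  refine Finset.sum_congr rfl fun v _ => Finset.sum_congr rfl fun w _ => ?_
  simp only [G.adj_comm w v]

theorem cardU (hS : Sys G t q v₀ M rp s) {p : Finset V → ℝ} (hp : InH σ p) (h : 0 < uw G t q M rp s p) :
    (UU G t q M rp s p).card = q := by
  unfold UU
  refine FL_card (fun j hj => hS.inj_on G hj) (fun j _ => upw_nonneg G hp j) ?_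
  exact h

theorem emptyU {p : Finset V → ℝ} (h : uw G t q M rp s p = 0) : UU G t q M rp s p = ∅ := by
  unfold UU
  refine FL_zero ?_
  exact h

theorem cutU {d g : ℕ} (hreg : G.IsRegularOfDegree d) (hg : 2 * t = d + g) (hS : Sys G t q v₀ M rp s) (h : Hul M rp R D σ)
    {p : Finset V → ℝ} (hp : InH σ p) :
    (cut G (base rp p ∪ UU G t q M rp s p) : ℝ) + g * ((UU G t q M rp s p).card : ℝ) ≤
      cut G (base rp p) + (2 * d + 2 * g) * (D + 1) * R := by
  obtain ⟨c, hc1, hc2, hc3⟩ := FL_struct (s := s) (q := q) (M := M) (w := upw G t q rp s p)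
    (fun j hj => hS.inj_on G hj) (fun j _ => upw_nonneg G hp j)
  have hbase := (base_mem h hp).1
  have hR : 0 ≤ R := by
    have h1 := h.dist _ hbase _ hbase
    rw [symmDiff_self, Finset.bot_eq_empty, Finset.card_empty, Nat.cast_zero] at h1
    exact h1
  obtain ⟨J, hJ⟩ : ∃ J : Finset ℕ, J = (range M).filter fun j => upw G t q rp s p j ≠ 0 := ⟨_, rfl⟩
  have hJM : ∀ j ∈ J, j < M := fun j hj => by
    rw [hJ] at hj
    exact Finset.mem_range.1 (Finset.mem_filter.1 hj).1
  have hJσ : ∀ j ∈ J, PtC_B G t q rp s j ∈ σ := fun j hj => by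
    rw [hJ] at hj
    have h1 := (Finset.mem_filter.1 hj).2
    rw [PtC_upw] at h1
    exact hp.spt _ h1
  have hU : UU G t q M rp s p = J.biUnion fun j => (range (c j)).image (s j) := by
    unfold UU
    rw [hc3]
    ext v
    simp only [Finset.mem_biUnion]
    constructor
    · rintro ⟨j, hj, hv⟩
      refine ⟨j, ?_, hv⟩
      rw [hJ, Finset.mem_filter]
      refine ⟨hj, fun h0 => ?_⟩
      rw [hc2 j (Finset.mem_range.1 hj) h0, Finset.range_zero, Finset.image_empty] at hv
      exact Finset.notMem_empty v hv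
    · rintro ⟨j, hj, hv⟩
      exact ⟨j, Finset.mem_range.2 (hJM j hj), hv⟩
  have hcard : J.card ≤ D + 1 := by
    have h1 : (J.image (PtC_B G t q rp s)).card = J.card :=
      Finset.card_image_of_injOn fun i hi j hj hij => PtC_inj G hS (hJM i hi) (hJM j hj) hij
    have h2 : J.image (PtC_B G t q rp s) ⊆ σ.toFinset := by
      intro A hA
      obtain ⟨j, hj, rfl⟩ := Finset.mem_image.1 hA
      exact List.mem_toFinset.2 (hJσ j hj)
    have h3 := (Finset.card_le_card h2).trans (List.toFinset_card_le σ)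
    have h4 := h.len
    omega
  have hg := gain G hreg hg (base rp p) J (PtC_B G t q rp s) s c q R
    (fun j hj => h.dist _ hbase _ (hJσ j hj)) (fun j hj => PtC_seq G hS (hJM j hj))
    (fun j hj => hc1 j (hJM j hj))
  rw [← hU] at hg
  refine hg.trans ?_
  have h5 : (J.card : ℝ) ≤ D + 1 := by exact_mod_cast hcard
  have h6 : (2 * d + 2 * g : ℝ) * J.card * R ≤ (2 * d + 2 * g) * (D + 1) * R :=
    mul_le_mul_of_nonneg_right (mul_le_mul_of_nonneg_left h5 (by positivity)) hR
  linarith

theorem cutD {d g : ℕ} (hreg : G.IsRegularOfDegree d) (hg : 2 * t = d + g) (hS : Sys G t q v₀ M rp s) (h : Hul M rp R D σ)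
    {p : Finset V → ℝ} (hp : InH σ p) :
    (cut G (base rp p \ UU G t q M rp s (nuP p)) : ℝ) + g * ((UU G t q M rp s (nuP p)).card : ℝ) ≤
      cut G (base rp p) + (2 * d + 2 * g) * (D + 1) * R := by
  have h1 := cutU G hreg hg hS h.map hp.nuP
  rw [base_nu h hp, cut_compl G (base rp p)] at h1
  have h2 : (base rp p)ᶜ ∪ UU G t q M rp s (nuP p) =
      (base rp p \ UU G t q M rp s (nuP p))ᶜ := by
    ext v
    simp only [Finset.mem_union, Finset.mem_compl, Finset.mem_sdiff]
    tauto
  rw [h2, cut_compl] at h1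
  exact h1

end H49.MX
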