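import Pool.Agent.H49.MX.PtA
import Pool.Agent.H49.MX.Points

/-!
# Module PtW: the weights

`u = uw p`, `w = uw (nuP p)`. `upw (nuP p) j` is the weight of the other state of the pair `j`, so `upw p j + upw (nuP p) j = p (rp j) + p (rp j)ᶜ`.
* `uw_add`: the states `rp j`, `(rp j)ᶜ`, `j < M`, are different (`Sys.inj`, `Sys.rep`: `v₀ ∈ rp j`) and contain the support of `p` (`Hul.mem`), so `u + w = ∑ p = 1`.
* `upw_diff`: for every `j` the term is `|p A_j - p' A_j|` for one state `A_j` of the pair `j`; the `A_j` are different.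
* `hh_nu`: `max (-1) (min 1 (-x)) = - max (-1) (min 1 x)`. `hh_diff`: the clamp is `1`-Lipschitz, `|u - u'|, |w - w'| ≤ d1`.
* `hh_lt`: if `w < 1/3` then `u > 2/3`, `3 (u - w) > 1`, `hh = H`.
-/

set_option autoImplicit false
set_option linter.unusedSectionVars false

namespace H49.MX

open Finset
open scoped Classical symmDiff

variable {V : Type} [Fintype V] [DecidableEq V] (G : SimpleGraph V) [DecidableRel G.Adj] {M D : ℕ} {rp : ℕ → Finset V} {R : ℝ}
  {σ : List (Finset V)} {t q : ℕ} {v₀ : V} {s : ℕ → ℕ → V}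

private theorem PtW_sum (p : Finset V → ℝ) (j : ℕ) :
    upw G t q rp s p j + upw G t q rp s (nuP p) j = p (rp j) + p (rp j)ᶜ := by
  unfold upw nuP
  split_ifs
  · rfl
  · rw [compl_compl, add_comm]

private theorem PtW_ne (hS : Sys G t q v₀ M rp s) {i j : ℕ} (hi : i < M) (hj : j < M) :
    rp i ≠ (rp j)ᶜ := by
  intro h
  have h1 := hS.rep i hi
  rw [h, Finset.mem_compl] at h1
  exact h1 (hS.rep j hj)

private theorem PtW_clamp (x : ℝ) : max (-1) (min 1 (-x)) = - max (-1) (min 1 x) := by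
  rcases le_total x 1 with h1 | h1
  · rcases le_total (-1) x with h2 | h2
    · rw [min_eq_right h1, max_eq_right h2, min_eq_right (by linarith), max_eq_right (by linarith)]
    · rw [min_eq_right h1, max_eq_left h2, min_eq_left (by linarith), max_eq_right (by linarith)]
      ring
  · have e1 : max (-1) (min 1 x) = 1 := by
      rw [min_eq_left h1, max_eq_right (by norm_num)]
    have e2 : max (-1) (min 1 (-x)) = -1 := by
      rw [min_eq_right (by linarith), max_eq_left (by linarith)]
    rw [e1, e2]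

private theorem PtW_lip (x y : ℝ) :
    |max (-1) (min 1 x) - max (-1) (min 1 y)| ≤ |x - y| := by
  refine (abs_max_sub_max_le_max _ _ _ _).trans (max_le ?_ ?_)
  · rw [sub_self, abs_zero]
    exact abs_nonneg _
  · refine (abs_min_sub_min_le_max _ _ _ _).trans (max_le ?_ le_rfl)
    rw [sub_self, abs_zero]
    exact abs_nonneg _

theorem upw_nonneg {p : Finset V → ℝ} (hp : InH σ p) (j : ℕ) : 0 ≤ upw G t q rp s p j := by
  unfold upw
  split_ifs
  · exact hp.nn _
  · exact hp.nn _

theorem uw_add (hS : Sys G t q v₀ M rp s) (h : Hul M rp R D σ) {p : Finset V → ℝ} (hp : InH σ p) :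
    uw G t q M rp s p + uw G t q M rp s (nuP p) = 1 := by
  unfold uw
  rw [← Finset.sum_add_distrib, Finset.sum_congr rfl fun j _ => PtW_sum G p j,
    Finset.sum_add_distrib]
  have i1 : Set.InjOn rp (range M : Set ℕ) := by
    intro i hi j hj hij
    exact hS.inj i (Finset.mem_range.1 (Finset.mem_coe.1 hi)) j
      (Finset.mem_range.1 (Finset.mem_coe.1 hj)) hij
  have i2 : Set.InjOn (fun j => (rp j)ᶜ) (range M : Set ℕ) := by
    intro i hi j hj hij
    exact i1 hi hj (compl_injective hij)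
  have e1 : ∑ j ∈ range M, p (rp j) = ∑ A ∈ (range M).image rp, p A :=
    (Finset.sum_image (f := p) i1).symm
  have e2 : ∑ j ∈ range M, p (rp j)ᶜ = ∑ A ∈ (range M).image (fun j => (rp j)ᶜ), p A :=
    (Finset.sum_image (f := p) i2).symm
  have hdis : Disjoint ((range M).image rp) ((range M).image (fun j => (rp j)ᶜ)) := by
    rw [Finset.disjoint_left]
    intro A hA hA'
    obtain ⟨i, hi, rfl⟩ := Finset.mem_image.1 hA
    obtain ⟨j, hj, hij⟩ := Finset.mem_image.1 hA'
    exact PtW_ne G hS (Finset.mem_range.1 hi) (Finset.mem_range.1 hj) hij.symm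
  rw [e1, e2, ← Finset.sum_union hdis, ← hp.one]
  refine Finset.sum_subset (Finset.subset_univ _) fun A _ hA => ?_
  by_contra hne
  obtain ⟨j, hj, h1 | h1⟩ := h.mem A (hp.spt A hne)
  · exact hA (Finset.mem_union_left _ (Finset.mem_image.2 ⟨j, Finset.mem_range.2 hj, h1.symm⟩))
  · exact hA (Finset.mem_union_right _ (Finset.mem_image.2 ⟨j, Finset.mem_range.2 hj, h1.symm⟩))

theorem uw_nonneg {p : Finset V → ℝ} (hp : InH σ p) : 0 ≤ uw G t q M rp s p :=
  Finset.sum_nonneg fun j _ => upw_nonneg G hp j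

theorem upw_diff (hS : Sys G t q v₀ M rp s) (p p' : Finset V → ℝ) :
    ∑ j ∈ range M, |upw G t q rp s p j - upw G t q rp s p' j| ≤ d1 p p' := by
  obtain ⟨A, hA⟩ : ∃ A : ℕ → Finset V, A = fun j => if AddSeq G t (rp j) (s j) q then rp j
      else (rp j)ᶜ := ⟨_, rfl⟩
  have e : ∀ (p : Finset V → ℝ) (j : ℕ), upw G t q rp s p j = p (A j) := by
    intro p j
    rw [hA]
    unfold upw
    dsimp only
    split_ifs
    · rfl
    · rfl
  have hinj : Set.InjOn A (range M : Set ℕ) := by
    intro i hi j hj hij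
    have hi' := Finset.mem_range.1 (Finset.mem_coe.1 hi)
    have hj' := Finset.mem_range.1 (Finset.mem_coe.1 hj)
    rw [hA] at hij
    dsimp only at hij
    split_ifs at hij
    · exact hS.inj i hi' j hj' hij
    · exact absurd hij (PtW_ne G hS hi' hj')
    · exact absurd hij.symm (PtW_ne G hS hj' hi')
    · exact hS.inj i hi' j hj' (compl_injective hij)
  have e3 : ∑ j ∈ range M, |upw G t q rp s p j - upw G t q rp s p' j| =
      ∑ B ∈ (range M).image A, |p B - p' B| := by
    rw [Finset.sum_image (f := fun B => |p B - p' B|) hinj]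
    refine Finset.sum_congr rfl fun j _ => ?_
    rw [e, e]
  rw [e3]
  unfold d1
  exact Finset.sum_le_sum_of_subset_of_nonneg (Finset.subset_univ _) fun B _ _ => abs_nonneg _

theorem uw_diff (hS : Sys G t q v₀ M rp s) (p p' : Finset V → ℝ) : |uw G t q M rp s p - uw G t q M rp s p'| ≤ d1 p p' := by
  unfold uw
  rw [← Finset.sum_sub_distrib]
  exact (Finset.abs_sum_le_sum_abs _ _).trans (upw_diff G hS p p')

theorem hh_nu (H : ℝ) (p : Finset V → ℝ) : hh G t q M rp s H (nuP p) = - hh G t q M rp s H p := by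
  unfold hh
  rw [nuP_nuP, show 3 * (uw G t q M rp s (nuP p) - uw G t q M rp s p) =
    -(3 * (uw G t q M rp s p - uw G t q M rp s (nuP p))) by ring, PtW_clamp, mul_neg]

theorem hh_abs {H : ℝ} (hH : 0 < H) (p : Finset V → ℝ) : |hh G t q M rp s H p| ≤ H := by
  unfold hh
  rw [abs_mul, abs_of_pos hH]
  have h1 : |max (-1) (min 1 (3 * (uw G t q M rp s p - uw G t q M rp s (nuP p))))| ≤ 1 := by
    rw [abs_le]
    exact ⟨le_max_left _ _, max_le (by norm_num) (min_le_left _ _)⟩
  calc H * |max (-1) (min 1 (3 * (uw G t q M rp s p - uw G t q M rp s (nuP p))))| ≤ H * 1 :=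
        mul_le_mul_of_nonneg_left h1 hH.le
    _ = H := mul_one H

theorem hh_diff (hS : Sys G t q v₀ M rp s) {H : ℝ} (hH : 0 < H) (p p' : Finset V → ℝ) :
    |hh G t q M rp s H p - hh G t q M rp s H p'| ≤ 6 * H * d1 p p' := by
  have h1 := uw_diff G hS p p'
  have h2 := uw_diff G hS (nuP p) (nuP p')
  rw [d1_nuP] at h2
  unfold hh
  rw [← mul_sub, abs_mul, abs_of_pos hH]
  have h3 := PtW_lip (3 * (uw G t q M rp s p - uw G t q M rp s (nuP p)))
    (3 * (uw G t q M rp s p' - uw G t q M rp s (nuP p')))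
  have h4 : |3 * (uw G t q M rp s p - uw G t q M rp s (nuP p)) -
      3 * (uw G t q M rp s p' - uw G t q M rp s (nuP p'))| ≤ 6 * d1 p p' := by
    rw [abs_le] at h1 h2 ⊢
    constructor <;> linarith [h1.1, h1.2, h2.1, h2.2]
  calc H * _ ≤ H * (6 * d1 p p') := mul_le_mul_of_nonneg_left (h3.trans h4) hH.le
    _ = 6 * H * d1 p p' := by ring

theorem hh_lt (hS : Sys G t q v₀ M rp s) (h : Hul M rp R D σ) {p : Finset V → ℝ} (hp : InH σ p) {H : ℝ} (hH : 0 < H)
    (h1 : hh G t q M rp s H p < H) : 1 / 3 ≤ uw G t q M rp s (nuP p) := by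
  by_contra hcon
  push Not at hcon
  have h2 := uw_add G hS h hp
  have h3 : 1 ≤ 3 * (uw G t q M rp s p - uw G t q M rp s (nuP p)) := by linarith
  have _ := hH
  unfold hh at h1
  rw [min_eq_left h3, max_eq_right (by norm_num), mul_one] at h1
  exact lt_irrefl _ h1

theorem hh_gt (hS : Sys G t q v₀ M rp s) (h : Hul M rp R D σ) {p : Finset V → ℝ} (hp : InH σ p) {H : ℝ} (hH : 0 < H)
    (h1 : -H < hh G t q M rp s H p) : 1 / 3 ≤ uw G t q M rp s p := by
  by_contra hcon
  push Not at hcon
  have h2 := uw_add G hS h hp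
  have h3 : 3 * (uw G t q M rp s p - uw G t q M rp s (nuP p)) ≤ -1 := by linarith
  have _ := hH
  unfold hh at h1
  rw [min_eq_right (by linarith), max_eq_left h3] at h1
  linarith

end H49.MX
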