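import Pool.Agent.H49.MX.Ch1

/-!
# Module Sd1: barycentric subdivision

`sd (k+1)` sends a list `l` to `cone (bary l) (sd k (bdl l))`.
* `sd_push`: `push f (sd k c) = sd k (push f c)` for linear `f` (induction on `k`, `bary (l.map f) = f (bary l)`, `push f (bdl l) = bdl (l.map f)` = `bd_push`).
* `sd_bd`: if `c` is supported on lists of length `k + 1` then `bd (sd (k+1) c) = sd k (bd c)`: `bd (cone b e) = e + cone b (bd e)` with `e = sd k (bdl l)`; `bd e = 0`: for `k = 0` because `bdl l` is a multiple of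
  `single []`; for `k = k' + 1` because `bd e = sd k' (bd (bdl l)) = 0` by induction.
* `sd_spt`: what the lists in a subdivision look like. Induction on `k`: a list in `sd (k+1) c` is `bary l :: l''` with `l''` in `sd k` of a face `l₁` of `l` (`cone_spt`, `bd_spt`). Convex sets: `bary l` is a convex
  combination of the entries. Distances: `d1 (bary l) y ≤ k/(k+1) r` for an entry `y` (one of the `k+1` terms vanishes), and so for every `y` in a convex combination: `{y | d1 (bary l) y ≤ ρ}` is convex; the old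
  distances are `≤ (1 - 1/k) r ≤ (1 - 1/(k+1)) r`.
-/

set_option autoImplicit false
set_option linter.unusedSectionVars false

namespace H49.MX

open Finset
open scoped Classical

private theorem sd1_sum {α : Type} (c : Ch α) :
    ∑ l ∈ c.support, c l • Finsupp.single l (1 : ZMod 2) = c := by
  conv_rhs => rw [← Finsupp.sum_single c]
  unfold Finsupp.sum
  refine Finset.sum_congr rfl fun l _ => ?_
  rw [Finsupp.smul_single, smul_eq_mul, mul_one]

private theorem sd1_ext {α M : Type} [AddCommGroup M] [Module (ZMod 2) M]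
    (A B : Ch α →ₗ[ZMod 2] M) {c : Ch α}
    (h : ∀ l, c l ≠ 0 → A (Finsupp.single l 1) = B (Finsupp.single l 1)) : A c = B c := by
  have e := sd1_sum c
  calc A c = A (∑ l ∈ c.support, c l • Finsupp.single l (1 : ZMod 2)) := by rw [e]
    _ = B (∑ l ∈ c.support, c l • Finsupp.single l (1 : ZMod 2)) := by
        rw [map_sum, map_sum]
        refine Finset.sum_congr rfl fun l hl => ?_
        rw [map_smul, map_smul, h l (Finsupp.mem_support_iff.1 hl)]
    _ = B c := by rw [e]

private theorem sd1_single {E : Type} [AddCommGroup E] [Module ℝ E] (k : ℕ) (l : List E) :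
    sd (k + 1) (Finsupp.single l 1) = cone (bary l) (sd k (bdl l)) := by
  show Finsupp.linearCombination (ZMod 2) (fun l => cone (bary l) (sd k (bdl l)))
    (Finsupp.single l 1) = _
  rw [Finsupp.linearCombination_single, one_smul]

private theorem sd1_face {α : Type} {l l' : List α} (h : bdl l l' ≠ 0) :
    l'.Sublist l ∧ l'.length + 1 = l.length := by
  rw [← bd_single] at h
  obtain ⟨l₀, h1, h2, h3⟩ := bd_spt h
  have e : l₀ = l := by
    by_contra hne
    exact h1 (Finsupp.single_eq_of_ne hne)
  subst e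
  exact ⟨h2, h3⟩

theorem bary_map {E E' : Type} [AddCommGroup E] [Module ℝ E] [AddCommGroup E'] [Module ℝ E'] (f : E →ₗ[ℝ] E') (l : List E) :
    bary (l.map f) = f (bary l) := by
  unfold bary
  rw [List.length_map, map_smul, map_list_sum]

theorem sd_push {E E' : Type} [AddCommGroup E] [Module ℝ E] [AddCommGroup E'] [Module ℝ E'] (f : E →ₗ[ℝ] E') (k : ℕ) (c : Ch E) :
    push f (sd k c) = sd k (push f c) := by
  induction k generalizing c with
  | zero => rfl
  | succ k ih =>
    rw [← LinearMap.comp_apply, ← LinearMap.comp_apply]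
    refine sd1_ext _ _ fun l _ => ?_
    rw [LinearMap.comp_apply, LinearMap.comp_apply, push_single, sd1_single, sd1_single,
      push_cone, ih, bary_map]
    rw [← bd_single l, ← bd_push, push_single, bd_single]

theorem sd_bd {E : Type} [AddCommGroup E] [Module ℝ E] (k : ℕ) (c : Ch E) (hc : ∀ l, c l ≠ 0 → l.length = k + 1) :
    bd (sd (k + 1) c) = sd k (bd c) := by
  induction k generalizing c with
  | zero =>
    rw [← LinearMap.comp_apply, ← LinearMap.comp_apply]
    refine sd1_ext _ _ fun l hl => ?_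
    rw [LinearMap.comp_apply, LinearMap.comp_apply, sd1_single, bd_single, bd_cone]
    obtain ⟨a, rfl⟩ := List.length_eq_one_iff.1 (hc l hl)
    have e1 : bdl [a] = Finsupp.single ([] : List E) (1 : ZMod 2) := by
      show Finsupp.single [] 1 + cone a 0 = _
      rw [map_zero, add_zero]
    have e2 : bd (sd 0 (bdl [a])) = 0 := by
      rw [e1]
      show bd (Finsupp.single ([] : List E) (1 : ZMod 2)) = 0
      rw [bd_single]
      rfl
    rw [e2, map_zero, add_zero]
  | succ k ih =>
    rw [← LinearMap.comp_apply, ← LinearMap.comp_apply]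
    refine sd1_ext _ _ fun l hl => ?_
    rw [LinearMap.comp_apply, LinearMap.comp_apply, sd1_single, bd_single, bd_cone]
    have hlen := hc l hl
    have e2 : bd (sd (k + 1) (bdl l)) = 0 := by
      rw [ih (bdl l) fun l' hl' => by have := (sd1_face hl').2; omega]
      rw [← bd_single l, bd_bd, map_zero]
    rw [e2, map_zero, add_zero]

theorem bary_mem {E : Type} [AddCommGroup E] [Module ℝ E] {C : Set E} (hC : Convex ℝ C) {l : List E} (hl : l ≠ []) (h : ∀ x ∈ l, x ∈ C) :
    bary l ∈ C := by
  have hn : 0 < l.length := List.length_pos_iff.2 hl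
  have hn' : (0 : ℝ) < l.length := by exact_mod_cast hn
  unfold bary
  rw [← Fin.sum_univ_getElem l, Finset.smul_sum]
  refine hC.sum_mem (fun i _ => (inv_pos.2 hn').le) ?_ fun i _ => h _ (List.getElem_mem _)
  rw [Finset.sum_const, Finset.card_univ, Fintype.card_fin, nsmul_eq_mul]
  exact mul_inv_cancel₀ hn'.ne'

private theorem sd1_len {κ : Type} [Fintype κ] (l : List (κ → ℝ)) (y : κ → ℝ) :
    ∑ i, |l.sum i - (l.length : ℝ) * y i| ≤ (l.map fun x => d1 x y).sum := by
  induction l with
  | nil => simp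
  | cons a l ih =>
    rw [List.map_cons, List.sum_cons, List.sum_cons, List.length_cons]
    refine le_trans ?_ (add_le_add_right ih (d1 a y))
    unfold d1
    rw [← Finset.sum_add_distrib]
    refine Finset.sum_le_sum fun i _ => ?_
    have e : (a + l.sum) i - ((l.length + 1 : ℕ) : ℝ) * y i =
        (a i - y i) + (l.sum i - (l.length : ℝ) * y i) := by
      push_cast
      simp only [Pi.add_apply]
      ring
    rw [e]
    exact abs_add_le _ _

private theorem sd1_comm {κ : Type} [Fintype κ] (x y : κ → ℝ) : d1 x y = d1 y x := by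
  unfold d1
  exact Finset.sum_congr rfl fun i _ => abs_sub_comm _ _

private theorem sd1_self {κ : Type} [Fintype κ] (x : κ → ℝ) : d1 x x = 0 := by
  unfold d1
  simp

private theorem sd1_bary {κ : Type} [Fintype κ] {l : List (κ → ℝ)} {k : ℕ}
    (hl : l.length = k + 1) {r : ℝ} (hr : ∀ x ∈ l, ∀ y ∈ l, d1 x y ≤ r) {y : κ → ℝ}
    (hy : y ∈ l) : d1 (bary l) y ≤ (1 - 1 / ((k + 1 : ℕ) : ℝ)) * r := by
  have hn' : (0 : ℝ) < ((k + 1 : ℕ) : ℝ) := by positivity
  have h1 := sd1_len l y
  have h2 : (l.map fun x => d1 x y).sum ≤ (k : ℝ) * r := by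
    have hp := List.perm_cons_erase hy
    rw [(hp.map fun x => d1 x y).sum_eq, List.map_cons, List.sum_cons, sd1_self, zero_add]
    have h3 : ((l.erase y).map fun x => d1 x y).sum ≤
        ((l.erase y).map fun x => d1 x y).length • r := by
      refine List.sum_le_card_nsmul _ _ fun z hz => ?_
      obtain ⟨x, hx, rfl⟩ := List.mem_map.1 hz
      exact hr x (List.mem_of_mem_erase hx) y hy
    rw [List.length_map, List.length_erase_of_mem hy, hl, nsmul_eq_mul] at h3
    simpa using h3
  have h3 : d1 (bary l) y = ((k + 1 : ℕ) : ℝ)⁻¹ * ∑ i, |l.sum i - (l.length : ℝ) * y i| := by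
    unfold d1 bary
    rw [Finset.mul_sum, hl]
    refine Finset.sum_congr rfl fun i _ => ?_
    rw [← abs_of_pos (inv_pos.2 hn'), ← abs_mul, abs_of_pos (inv_pos.2 hn')]
    congr 1
    simp only [Pi.smul_apply, smul_eq_mul]
    field_simp
  rw [h3]
  have h4 : ((k + 1 : ℕ) : ℝ)⁻¹ * ∑ i, |l.sum i - (l.length : ℝ) * y i| ≤
      ((k + 1 : ℕ) : ℝ)⁻¹ * ((k : ℝ) * r) :=
    mul_le_mul_of_nonneg_left (h1.trans h2) (inv_pos.2 hn').le
  refine h4.trans (le_of_eq ?_)
  push_cast at hn' ⊢
  field_simp
  ring

private theorem sd1_conv {κ : Type} [Fintype κ] (p : κ → ℝ) (ρ : ℝ) :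
    Convex ℝ {z : κ → ℝ | d1 p z ≤ ρ} := by
  intro z hz z' hz' a b ha hb hab
  simp only [Set.mem_ofPred_eq] at hz hz' ⊢
  have h1 : d1 p (a • z + b • z') ≤ a * d1 p z + b * d1 p z' := by
    unfold d1
    rw [Finset.mul_sum, Finset.mul_sum, ← Finset.sum_add_distrib]
    refine Finset.sum_le_sum fun i _ => ?_
    have e : p i - (a • z + b • z') i = a * (p i - z i) + b * (p i - z' i) := by
      simp only [Pi.add_apply, Pi.smul_apply, smul_eq_mul]
      linear_combination -(p i) * hab
    rw [e]
    refine (abs_add_le _ _).trans (le_of_eq ?_)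
    rw [abs_mul, abs_mul, abs_of_nonneg ha, abs_of_nonneg hb]
  have h2 := mul_le_mul_of_nonneg_left hz ha
  have h3 := mul_le_mul_of_nonneg_left hz' hb
  have h4 : a * ρ + b * ρ = ρ := by rw [← add_mul, hab, one_mul]
  linarith

theorem sd_spt {κ : Type} [Fintype κ] (k : ℕ) (c : Ch (κ → ℝ)) (hc : ∀ l, c l ≠ 0 → l.length = k) {l' : List (κ → ℝ)}
    (h : sd k c l' ≠ 0) :
    l'.length = k ∧ ∃ l, c l ≠ 0 ∧ (∀ p ∈ l', ∃ l₁ : List (κ → ℝ), l₁.Sublist l ∧ l₁ ≠ [] ∧ p = bary l₁) ∧
      ∀ r : ℝ, (∀ x ∈ l, ∀ y ∈ l, d1 x y ≤ r) → ∀ p ∈ l', ∀ p' ∈ l', d1 p p' ≤ (1 - 1 / (k : ℝ)) * r := by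
  induction k generalizing c l' with
  | zero =>
    have h' : c l' ≠ 0 := h
    have h0 := hc l' h'
    have e : l' = [] := List.length_eq_zero_iff.1 h0
    refine ⟨h0, l', h', ?_, ?_⟩
    · intro p hp
      rw [e] at hp
      exact absurd hp List.not_mem_nil
    · intro r _ p hp
      rw [e] at hp
      exact absurd hp List.not_mem_nil
  | succ k ih =>
    have hex : ∃ l, c l ≠ 0 ∧ (cone (bary l) (sd k (bdl l))) l' ≠ 0 := by
      by_contra hcon
      push Not at hcon
      apply h
      show (Finsupp.linearCombination (ZMod 2) (fun l => cone (bary l) (sd k (bdl l))) c) l' = 0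
      rw [Finsupp.linearCombination_apply]
      unfold Finsupp.sum
      rw [Finsupp.finsetSum_apply]
      refine Finset.sum_eq_zero fun l hl => ?_
      rw [Finsupp.smul_apply, hcon l (Finsupp.mem_support_iff.1 hl), smul_zero]
    obtain ⟨l, hl, hl2⟩ := hex
    obtain ⟨l'', h2, rfl⟩ := cone_spt hl2
    have hlen := hc l hl
    obtain ⟨i1, l₀, i2, i3, i4⟩ := ih (bdl l) (fun m hm => by
      have := (sd1_face hm).2
      omega) h2
    have hsub := (sd1_face i2).1
    have hne : l ≠ [] := by
      rintro rfl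
      simp at hlen
    refine ⟨by rw [List.length_cons, i1], l, hl, ?_, ?_⟩
    · intro p hp
      rcases List.mem_cons.1 hp with rfl | hp
      · exact ⟨l, List.Sublist.refl _, hne, rfl⟩
      · obtain ⟨l₁, j1, j2, j3⟩ := i3 p hp
        exact ⟨l₁, j1.trans hsub, j2, j3⟩
    · intro r hr
      obtain ⟨x₀, hx₀⟩ := List.exists_mem_of_ne_nil l hne
      have hr0 : 0 ≤ r := by
        have := hr x₀ hx₀ x₀ hx₀
        rwa [sd1_self] at this
      have hk1 : (1 : ℝ) ≤ ((k + 1 : ℕ) : ℝ) := by
        push_cast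
        linarith [Nat.cast_nonneg (α := ℝ) k]
      have hc0 : 0 ≤ 1 - 1 / ((k + 1 : ℕ) : ℝ) := by
        have : 1 / ((k + 1 : ℕ) : ℝ) ≤ 1 := by
          rw [div_le_one (by linarith)]
          exact hk1
        linarith
      have hbar : ∀ p ∈ l'', d1 (bary l) p ≤ (1 - 1 / ((k + 1 : ℕ) : ℝ)) * r := by
        intro p hp
        obtain ⟨l₁, j1, j2, rfl⟩ := i3 p hp
        have hm := bary_mem (sd1_conv (bary l) ((1 - 1 / ((k + 1 : ℕ) : ℝ)) * r)) j2
          fun x hx => sd1_bary hlen hr ((j1.trans hsub).subset hx)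
        exact hm
      intro p hp p' hp'
      rcases List.mem_cons.1 hp with rfl | hp
      · rcases List.mem_cons.1 hp' with rfl | hp'
        · rw [sd1_self]
          exact mul_nonneg hc0 hr0
        · exact hbar p' hp'
      · rcases List.mem_cons.1 hp' with rfl | hp'
        · rw [sd1_comm]
          exact hbar p hp
        · have hk : 0 < k := by
            rw [← i1]
            exact List.length_pos_of_mem hp
          have hk' : (0 : ℝ) < (k : ℝ) := by exact_mod_cast hk
          have h5 := i4 r (fun x hx y hy => hr x (hsub.subset hx) y (hsub.subset hy)) p hp p' hp'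
          refine h5.trans (mul_le_mul_of_nonneg_right ?_ hr0)
          have h6 : 1 / ((k + 1 : ℕ) : ℝ) ≤ 1 / (k : ℝ) := by
            apply one_div_le_one_div_of_le hk'
            push_cast
            linarith
          linarith

end H49.MX
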