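import Pool.Agent.H49.MX.Sd1

/-!
# Module Sd2: subdividing a tower

Subdivide once (`sd1T`): `h' i = sd (i+1) (h i)`. `bd (h' (i+1)) = sd (i+1) (bd (h (i+1))) = h' i + push ν (h' i)` (`sd_bd`, `sd_push`), `bd (h' 0) = sd 0 (single [] 1) = single [] 1`. New points: barycentres of nonempty lists of at
most `D + 1` points of `P` (`bpts`): `(Fintype.piFinset fun _ : Fin j => P).image fun f => bary (List.ofFn f)`, `1 ≤ j ≤ D + 1`; their number is at most `(D + 1) |P| ^ (D+1)` or `D + 1` times `(|P|+1)^(D+1)`.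
Distances shrink by the factor `1 - 1/(D+1)` (`r ≥ 0`; for lists of length `i + 1 ≤ D + 1`). Iterate `n` times with `2 (1 - 1/(D+1)) ^ n ≤ z`.
-/

set_option autoImplicit false
set_option linter.unusedSectionVars false

namespace H49.MX

open Finset
open scoped Classical

/-- barycentres of the nonempty lists of at most `D + 1` points of `P` -/
private noncomputable def Sd2_bp {κ : Type} (D : ℕ) (P : Finset (κ → ℝ)) : Finset (κ → ℝ) :=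
  (range (D + 1)).biUnion fun j => (Fintype.piFinset fun _ : Fin (j + 1) => P).image fun f => bary (List.ofFn f)

private lemma Sd2_mem {κ : Type} (D : ℕ) (P : Finset (κ → ℝ)) (p : κ → ℝ) :
    p ∈ Sd2_bp D P ↔ ∃ l : List (κ → ℝ), l ≠ [] ∧ l.length ≤ D + 1 ∧ (∀ x ∈ l, x ∈ P) ∧ p = bary l := by
  unfold Sd2_bp
  rw [mem_biUnion]
  constructor
  · rintro ⟨j, hj, hp⟩
    rw [mem_image] at hp
    obtain ⟨f, hf, rfl⟩ := hp
    rw [Fintype.mem_piFinset] at hf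
    have hj' := mem_range.1 hj
    refine ⟨List.ofFn f, ?_, ?_, ?_, rfl⟩
    · intro h
      have h2 := congrArg List.length h
      rw [List.length_ofFn] at h2
      simp at h2
    · rw [List.length_ofFn]
      omega
    · intro x hx
      rw [List.mem_ofFn] at hx
      obtain ⟨i, rfl⟩ := hx
      exact hf i
  · rintro ⟨l, h0, hl, hP, rfl⟩
    have h1 : 0 < l.length := List.length_pos_iff.2 h0
    obtain ⟨j, hj⟩ : ∃ j, l.length = j + 1 := ⟨l.length - 1, by omega⟩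
    refine ⟨j, mem_range.2 (by omega), ?_⟩
    rw [mem_image]
    refine ⟨fun i : Fin (j + 1) => l.get (Fin.cast hj.symm i), ?_, ?_⟩
    · rw [Fintype.mem_piFinset]
      intro i
      exact hP _ (List.get_mem l _)
    · congr 1
      refine List.ext_getElem ?_ ?_
      · rw [List.length_ofFn, hj]
      · intro i h2 h3
        rw [List.getElem_ofFn]
        rfl

private lemma Sd2_card {κ : Type} (D N : ℕ) (P : Finset (κ → ℝ)) (h : P.card ≤ N) :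
    (Sd2_bp D P).card ≤ (D + 1) * (N + 1) ^ (D + 1) := by
  unfold Sd2_bp
  refine card_biUnion_le.trans ?_
  calc ∑ j ∈ range (D + 1), ((Fintype.piFinset fun _ : Fin (j + 1) => P).image
        fun f => bary (List.ofFn f)).card ≤ ∑ _j ∈ range (D + 1), (N + 1) ^ (D + 1) := by
        refine sum_le_sum fun j hj => card_image_le.trans ?_
        rw [Fintype.card_piFinset_const]
        have hj' := mem_range.1 hj
        calc P.card ^ (j + 1) ≤ (N + 1) ^ (j + 1) := Nat.pow_le_pow_left (by omega) _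
          _ ≤ (N + 1) ^ (D + 1) := Nat.pow_le_pow_right (by omega) (by omega)
    _ = _ := by rw [sum_const, card_range, smul_eq_mul]

/-- the properties of the tuples -/
private def Sd2_Q {κ : Type} [Fintype κ] (P : Finset (κ → ℝ)) (K : List (κ → ℝ) → Prop) (r : ℝ)
    (l : List (κ → ℝ)) : Prop :=
  (∀ p ∈ l, p ∈ P) ∧ (∃ σ, K σ ∧ ∀ C : Set (κ → ℝ), Convex ℝ C → (∀ x ∈ σ, x ∈ C) → ∀ p ∈ l, p ∈ C) ∧
    ∀ p ∈ l, ∀ p' ∈ l, d1 p p' ≤ r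

private lemma Sd2_spt {κ : Type} [Fintype κ] {D i : ℕ} (hi : i ≤ D) {P : Finset (κ → ℝ)}
    {K : List (κ → ℝ) → Prop} {r : ℝ} (hr : 0 ≤ r) {c : Ch (κ → ℝ)}
    (hc : ∀ l, c l ≠ 0 → l.length = i + 1) (hQ : ∀ l, c l ≠ 0 → Sd2_Q P K r l) {l' : List (κ → ℝ)}
    (h : sd (i + 1) c l' ≠ 0) :
    Sd2_Q (Sd2_bp D P) K ((1 - 1 / ((D : ℝ) + 1)) * r) l' := by
  obtain ⟨-, l, hl, hb, hd⟩ := sd_spt (i + 1) c hc h
  obtain ⟨q1, ⟨σ, hσ, q2⟩, q3⟩ := hQ l hl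
  refine ⟨fun p hp => ?_, ⟨σ, hσ, fun C hC hx p hp => ?_⟩, fun p hp p' hp' => ?_⟩
  · obtain ⟨l₁, h1, h2, rfl⟩ := hb p hp
    rw [Sd2_mem]
    refine ⟨l₁, h2, ?_, fun x hx => q1 x (h1.subset hx), rfl⟩
    have h3 := h1.length_le
    rw [hc l hl] at h3
    omega
  · obtain ⟨l₁, h1, h2, rfl⟩ := hb p hp
    exact bary_mem hC h2 fun x hx' => q2 C hC hx x (h1.subset hx')
  · refine (hd r q3 p hp p' hp').trans (mul_le_mul_of_nonneg_right ?_ hr)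
    have h1 : (((i + 1 : ℕ) : ℝ)) ≤ (D : ℝ) + 1 := by
      push_cast
      have : (i : ℝ) ≤ D := by exact_mod_cast hi
      linarith
    have h2 : (0 : ℝ) < ((i + 1 : ℕ) : ℝ) := by exact_mod_cast Nat.succ_pos i
    have h3 := one_div_le_one_div_of_le h2 h1
    linarith

private lemma Sd2_inv {κ : Type} {D : ℕ} {ν : (κ → ℝ) →ₗ[ℝ] (κ → ℝ)} {P : Finset (κ → ℝ)}
    (hν : ∀ p ∈ P, ν p ∈ P) : ∀ p ∈ Sd2_bp D P, ν p ∈ Sd2_bp D P := by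
  intro p hp
  rw [Sd2_mem] at hp ⊢
  obtain ⟨l, h0, hl, hP, rfl⟩ := hp
  refine ⟨l.map ν, ?_, ?_, ?_, ?_⟩
  · intro h
    exact h0 (List.map_eq_nil_iff.1 h)
  · rw [List.length_map]
    exact hl
  · intro x hx
    rw [List.mem_map] at hx
    obtain ⟨y, hy, rfl⟩ := hx
    exact hν y (hP y hy)
  · exact (bary_map ν l).symm

theorem sd1T (D N : ℕ) : ∃ B : ℕ, ∀ (κ : Type) [Fintype κ] (ν : (κ → ℝ) →ₗ[ℝ] (κ → ℝ)) (P : Finset (κ → ℝ)) (r : ℝ)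
    (K : List (κ → ℝ) → Prop), P.card ≤ N → (∀ p ∈ P, ν p ∈ P) → 0 ≤ r →
    HasT ν D (fun l => (∀ p ∈ l, p ∈ P) ∧ (∃ σ, K σ ∧ ∀ C : Set (κ → ℝ), Convex ℝ C → (∀ x ∈ σ, x ∈ C) → ∀ p ∈ l, p ∈ C) ∧
      ∀ p ∈ l, ∀ p' ∈ l, d1 p p' ≤ r) →
    ∃ P' : Finset (κ → ℝ), P'.card ≤ B ∧ (∀ p ∈ P', ν p ∈ P') ∧
      HasT ν D (fun l => (∀ p ∈ l, p ∈ P') ∧ (∃ σ, K σ ∧ ∀ C : Set (κ → ℝ), Convex ℝ C → (∀ x ∈ σ, x ∈ C) → ∀ p ∈ l, p ∈ C) ∧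
        ∀ p ∈ l, ∀ p' ∈ l, d1 p p' ≤ (1 - 1 / ((D : ℝ) + 1)) * r) := by
  refine ⟨(D + 1) * (N + 1) ^ (D + 1), fun κ _ ν P r K hP hν hr hT => ?_⟩
  obtain ⟨h, hh⟩ := hT
  refine ⟨Sd2_bp D P, Sd2_card D N P hP, Sd2_inv hν, fun i => sd (i + 1) (h i), ?_, ?_, ?_, ?_⟩
  · intro i hi l hl
    exact (sd_spt (i + 1) (h i) (hh.len i hi) hl).1
  · intro i hi l hl
    exact Sd2_spt hi hr (hh.len i hi) (hh.spt i hi) hl
  · have h1 := sd_bd 0 (h 0) (hh.len 0 (Nat.zero_le _))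
    show bd (sd (0 + 1) (h 0)) = _
    rw [h1, hh.one]
    rfl
  · intro i hi
    have h1 := sd_bd (i + 1) (h (i + 1)) (hh.len (i + 1) hi)
    show bd (sd (i + 1 + 1) (h (i + 1))) = _
    rw [h1, hh.bdy i hi, map_add, ← sd_push]

private lemma Sd2_iter (D N n : ℕ) : ∃ B : ℕ, ∀ (κ : Type) [Fintype κ]
    (ν : (κ → ℝ) →ₗ[ℝ] (κ → ℝ)) (P : Finset (κ → ℝ)) (K : List (κ → ℝ) → Prop), P.card ≤ N →
    (∀ p ∈ P, ν p ∈ P) →
    HasT ν D (fun l => K l ∧ (∀ p ∈ l, p ∈ P) ∧ ∀ p ∈ l, ∀ p' ∈ l, d1 p p' ≤ 2) →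
    ∃ P' : Finset (κ → ℝ), P'.card ≤ B ∧ (∀ p ∈ P', ν p ∈ P') ∧
      HasT ν D (Sd2_Q P' K ((1 - 1 / ((D : ℝ) + 1)) ^ n * 2)) := by
  have hx : 0 ≤ 1 - 1 / ((D : ℝ) + 1) := by
    rw [sub_nonneg, div_le_one (by positivity)]
    have : (0 : ℝ) ≤ D := Nat.cast_nonneg D
    linarith
  induction n with
  | zero =>
    refine ⟨N, fun κ _ ν P K hP hν hT => ⟨P, hP, hν, hT.mono ?_⟩⟩
    rintro l - ⟨h1, h2, h3⟩
    refine ⟨h2, ⟨l, h1, fun C _ h p hp => h p hp⟩, fun p hp p' hp' => ?_⟩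
    rw [pow_zero, one_mul]
    exact h3 p hp p' hp'
  | succ n ih =>
    obtain ⟨B₁, hB₁⟩ := ih
    obtain ⟨B₂, hB₂⟩ := sd1T D B₁
    refine ⟨B₂, fun κ _ ν P K hP hν hT => ?_⟩
    obtain ⟨P₁, h1, h2, h3⟩ := hB₁ κ ν P K hP hν hT
    obtain ⟨P₂, h4, h5, h6⟩ := hB₂ κ ν P₁ ((1 - 1 / ((D : ℝ) + 1)) ^ n * 2) K h1 h2 (by positivity) h3
    refine ⟨P₂, h4, h5, h6.mono ?_⟩
    rintro l - ⟨h7, h8, h9⟩
    refine ⟨h7, h8, fun p hp p' hp' => (h9 p hp p' hp').trans (le_of_eq ?_)⟩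
    rw [pow_succ]
    ring

theorem subdT (D N : ℕ) {z : ℝ} (hz : 0 < z) : ∃ B : ℕ, ∀ (κ : Type) [Fintype κ] (ν : (κ → ℝ) →ₗ[ℝ] (κ → ℝ)) (P : Finset (κ → ℝ))
    (K : List (κ → ℝ) → Prop), P.card ≤ N → (∀ p ∈ P, ν p ∈ P) →
    HasT ν D (fun l => K l ∧ (∀ p ∈ l, p ∈ P) ∧ ∀ p ∈ l, ∀ p' ∈ l, d1 p p' ≤ 2) →
    ∃ P' : Finset (κ → ℝ), P'.card ≤ B ∧ (∀ p ∈ P', ν p ∈ P') ∧
      HasT ν D (fun l => (∀ p ∈ l, p ∈ P') ∧ (∃ σ, K σ ∧ ∀ C : Set (κ → ℝ), Convex ℝ C → (∀ x ∈ σ, x ∈ C) → ∀ p ∈ l, p ∈ C) ∧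
        ∀ p ∈ l, ∀ p' ∈ l, d1 p p' ≤ z) := by
  have hx : 1 - 1 / ((D : ℝ) + 1) < 1 := by
    have : (0 : ℝ) < 1 / ((D : ℝ) + 1) := by positivity
    linarith
  obtain ⟨n, hn⟩ := exists_pow_lt_of_lt_one (half_pos hz) hx
  obtain ⟨B, hB⟩ := Sd2_iter D N n
  refine ⟨B, fun κ _ ν P K hP hν hT => ?_⟩
  obtain ⟨P', h1, h2, h3⟩ := hB κ ν P K hP hν hT
  refine ⟨P', h1, h2, h3.mono ?_⟩
  rintro l - ⟨h7, h8, h9⟩
  exact ⟨h7, h8, fun p hp p' hp' => (h9 p hp p' hp').trans (by linarith)⟩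

end H49.MX
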